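import Pool.Agent.HSq.PB

/-!
# Vanishing loops give a potential

Plan.  `Φ w = ∑ p, p * w p` strictly increases when a descent is removed.  Define `h` by
well-founded recursion (`h w = 0` without descent, else `h (w * sw i) + F (w * sw i) i` for the first
descent `i`) and prove by strong induction the same formula for every descent (diamonds given by the
commutation and braid relations).  Ascents follow from `rot = 0`.
-/

namespace HSq

open Equiv

namespace PBPot

variable {n : ℕ} {B : Type*} [AddCommGroup B]

/-- The statistic `∑ p, p * w p`. -/
def Phi (w : Perm (Fin (n + 1))) : ℕ := ∑ p : Fin (n + 1), (p : ℕ) * (w p : ℕ)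

theorem Phi_le (w : Perm (Fin (n + 1))) : Phi w ≤ (n + 1) * (n * n) := by
  unfold Phi
  calc ∑ p : Fin (n + 1), (p : ℕ) * (w p : ℕ) ≤ ∑ _p : Fin (n + 1), n * n := by
        refine Finset.sum_le_sum fun p _ => Nat.mul_le_mul ?_ ?_
        · omega
        · omega
    _ = (n + 1) * (n * n) := by simp

theorem Phi_lt {w : Perm (Fin (n + 1))} {i : Fin n} (h : w i.succ < w i.castSucc) :
    Phi w < Phi (w * sw i) := by
  have hne : i.castSucc ≠ i.succ := (Fin.castSucc_lt_succ (i := i)).ne
  have key : ((Phi (w * sw i) : ℕ) : ℤ) - (Phi w : ℕ) =
      ((w i.castSucc : ℕ) : ℤ) - ((w i.succ : ℕ) : ℤ) := by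
    unfold Phi
    rw [Nat.cast_sum, Nat.cast_sum, ← Finset.sum_sub_distrib]
    rw [Fintype.sum_eq_add i.castSucc i.succ hne]
    · simp only [sw, Perm.mul_apply, swap_apply_left, swap_apply_right, Fin.val_castSucc,
        Fin.val_succ, Nat.cast_mul, Nat.cast_add, Nat.cast_one]
      ring
    · intro x hx
      simp only [sw, Perm.mul_apply]
      rw [swap_apply_of_ne_of_ne hx.1 hx.2]
      ring
  have h' : (w i.succ : ℕ) < (w i.castSucc : ℕ) := h
  omega

/-- The potential. -/
noncomputable def pot (F : Perm (Fin (n + 1)) → Fin n → B) (w : Perm (Fin (n + 1))) : B :=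
  open Classical in
  if hd : ∃ i : Fin n, w i.succ < w i.castSucc then
    pot F (w * sw hd.choose) + F (w * sw hd.choose) hd.choose
  else 0
termination_by (n + 1) * (n * n) - Phi w
decreasing_by
  have h1 := Phi_lt hd.choose_spec
  have h2 := Phi_le (w * sw hd.choose)
  omega

theorem pot_choose {F : Perm (Fin (n + 1)) → Fin n → B} {w : Perm (Fin (n + 1))}
    (hd : ∃ i : Fin n, w i.succ < w i.castSucc) :
    ∃ i : Fin n, w i.succ < w i.castSucc ∧ pot F w = pot F (w * sw i) + F (w * sw i) i := by
  refine ⟨hd.choose, hd.choose_spec, ?_⟩
  rw [pot, dif_pos hd]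

theorem sw_comm {i j : Fin n} (h : (i : ℕ) + 2 ≤ j) : sw i * sw j = sw j * sw i := by
  unfold sw
  have h1 : i.castSucc ≠ j.castSucc := by
    intro e; have := congrArg Fin.val e; simp at this; omega
  have h2 : i.castSucc ≠ j.succ := by
    intro e; have := congrArg Fin.val e; simp at this; omega
  have h3 : i.succ ≠ j.castSucc := by
    intro e; have := congrArg Fin.val e; simp at this; omega
  have h4 : i.succ ≠ j.succ := by
    intro e; have := congrArg Fin.val e; simp at this; omega
  ext x
  simp only [Perm.mul_apply, swap_apply_def]
  split_ifs <;> simp_all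

theorem sw_braid {i j : Fin n} (h : (i : ℕ) + 1 = j) :
    sw i * sw j * sw i = sw j * sw i * sw j := by
  unfold sw
  have h0 : j.castSucc = i.succ := by
    ext; simp; omega
  rw [h0]
  have h1 : i.castSucc ≠ i.succ := by
    intro e; have := congrArg Fin.val e; simp at this
  have h2 : i.castSucc ≠ j.succ := by
    intro e; have := congrArg Fin.val e; simp at this; omega
  have h3 : i.succ ≠ j.succ := by
    intro e; have := congrArg Fin.val e; simp at this; omega
  ext x
  simp only [Perm.mul_apply, swap_apply_def]
  split_ifs <;> simp_all

theorem pot_descent {F : Perm (Fin (n + 1)) → Fin n → B} (hF : BraidFun n F) :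
    ∀ (m : ℕ) (w : Perm (Fin (n + 1))), (n + 1) * (n * n) - Phi w ≤ m →
      ∀ i : Fin n, w i.succ < w i.castSucc → pot F w = pot F (w * sw i) + F (w * sw i) i := by
  intro m
  induction m with
  | zero =>
    intro w hw i hi
    have h1 := Phi_lt hi
    have h2 := Phi_le (w * sw i)
    omega
  | succ m ih =>
    intro w hw i hi
    have meas : ∀ {v : Perm (Fin (n + 1))} {k : Fin n}, v k.succ < v k.castSucc →
        (n + 1) * (n * n) - Phi v ≤ m + 1 → (n + 1) * (n * n) - Phi (v * sw k) ≤ m := by
      intro v k hk hv
      have h1 := Phi_lt hk
      have h2 := Phi_le (v * sw k)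
      omega
    -- the diamonds
    have diamond : ∀ i j : Fin n, w i.succ < w i.castSucc → w j.succ < w j.castSucc →
        (i : ℕ) < j → pot F (w * sw i) + F (w * sw i) i = pot F (w * sw j) + F (w * sw j) j := by
      intro i j hi hj hij
      have mi := meas hi hw
      have mj := meas hj hw
      rcases Nat.lt_or_ge ((i : ℕ) + 1) j with h2 | h2
      · -- far
        have hcomm := sw_comm (i := i) (j := j) (by omega)
        have e1 : i.castSucc ≠ j.castSucc := by
          intro e; have := congrArg Fin.val e; simp at this; omega
        have e2 : i.castSucc ≠ j.succ := by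
          intro e; have := congrArg Fin.val e; simp at this; omega
        have e3 : i.succ ≠ j.castSucc := by
          intro e; have := congrArg Fin.val e; simp at this; omega
        have e4 : i.succ ≠ j.succ := by
          intro e; have := congrArg Fin.val e; simp at this; omega
        have dj : (w * sw i) j.succ < (w * sw i) j.castSucc := by
          simp only [sw, Perm.mul_apply]
          rw [swap_apply_of_ne_of_ne e2.symm e4.symm, swap_apply_of_ne_of_ne e1.symm e3.symm]
          exact hj
        have di : (w * sw j) i.succ < (w * sw j) i.castSucc := by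
          simp only [sw, Perm.mul_apply]
          rw [swap_apply_of_ne_of_ne e3 e4, swap_apply_of_ne_of_ne e1 e2]
          exact hi
        have a1 := ih _ mi j dj
        have a2 := ih _ mj i di
        have hc := hF.comm (w * sw i * sw j) i j (by omega)
        have hv : w * sw i * sw j = w * sw j * sw i := by
          rw [mul_assoc, hcomm, ← mul_assoc]
        have hvi : w * sw i * sw j * sw i = w * sw j := by
          rw [hv, mul_assoc, sw_mul_self, mul_one]
        have hvj : w * sw i * sw j * sw j = w * sw i := by
          rw [mul_assoc, sw_mul_self, mul_one]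
        rw [hvi, hvj] at hc
        rw [a1, a2, ← hv]
        rw [add_assoc, add_assoc, hc]
      · -- adjacent
        have hj1 : (i : ℕ) + 1 = j := by omega
        have hbr := sw_braid hj1
        have h0 : j.castSucc = i.succ := by
          ext; simp; omega
        have e1 : i.castSucc ≠ i.succ := by
          intro e; have := congrArg Fin.val e; simp at this
        have e2 : i.castSucc ≠ j.succ := by
          intro e; have := congrArg Fin.val e; simp at this; omega
        have e3 : i.succ ≠ j.succ := by
          intro e; have := congrArg Fin.val e; simp at this; omega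
        rw [h0] at hj
        -- values: a = w i.castSucc > b = w i.succ > c = w j.succ
        have dj : (w * sw i) j.succ < (w * sw i) j.castSucc := by
          simp only [sw, Perm.mul_apply]
          rw [h0, swap_apply_of_ne_of_ne e2.symm e3.symm, swap_apply_right]
          exact hj.trans hi
        have di : (w * sw j) i.succ < (w * sw j) i.castSucc := by
          simp only [sw, Perm.mul_apply]
          rw [h0, swap_apply_left, swap_apply_of_ne_of_ne e1 e2]
          exact hj.trans hi
        have dji : (w * sw i * sw j) i.succ < (w * sw i * sw j) i.castSucc := by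
          simp only [sw, Perm.mul_apply]
          rw [h0, swap_apply_left, swap_apply_of_ne_of_ne e1 e2, swap_apply_left,
            swap_apply_of_ne_of_ne e2.symm e3.symm]
          exact hj
        have dij : (w * sw j * sw i) j.succ < (w * sw j * sw i) j.castSucc := by
          simp only [sw, Perm.mul_apply]
          rw [h0, swap_apply_right, swap_apply_of_ne_of_ne e2.symm e3.symm,
            swap_apply_of_ne_of_ne e1 e2, swap_apply_right]
          exact hi
        have a1 := ih _ mi j dj
        have a2 := ih _ mj i di
        have mij := meas dj (by omega)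
        have mji := meas di (by omega)
        have a3 := ih _ mij i dji
        have a4 := ih _ mji j dij
        have hc := hF.braid (w * sw i * sw j * sw i) i j hj1
        have hv : w * sw i * sw j * sw i = w * sw j * sw i * sw j := by
          simp only [mul_assoc] at hbr ⊢
          rw [hbr]
        have v1 : w * sw i * sw j * sw i * sw i = w * sw i * sw j := by
          rw [mul_assoc, sw_mul_self, mul_one]
        have v2 : w * sw i * sw j * sw j = w * sw i := by
          rw [mul_assoc, sw_mul_self, mul_one]
        have v3 : w * sw i * sw j * sw i * sw j = w * sw j * sw i := by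
          rw [hv, mul_assoc, sw_mul_self, mul_one]
        have v4 : w * sw j * sw i * sw i = w * sw j := by
          rw [mul_assoc, sw_mul_self, mul_one]
        rw [v1, v2, v3, v4] at hc
        rw [a1, a2, a3, a4, ← hv]
        have hc' : F (w * sw i * sw j * sw i) i + (F (w * sw i * sw j) j + F (w * sw i) i) =
            F (w * sw i * sw j * sw i) j + (F (w * sw j * sw i) i + F (w * sw j) j) := by
          rw [← add_assoc, ← add_assoc]; exact hc
        rw [add_assoc, add_assoc, add_assoc, add_assoc, hc']
    obtain ⟨k, hk, hpk⟩ := pot_choose (F := F) ⟨i, hi⟩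
    rcases lt_trichotomy (k : ℕ) i with h | h | h
    · rw [hpk]; exact diamond k i hk hi h
    · have : k = i := Fin.ext h
      rw [← this]; exact hpk
    · rw [hpk]; exact (diamond i k hi hk h).symm

end PBPot

open PBPot in
/-- If all `rot F w i` vanish then `F` is a coboundary. -/
theorem exists_potential {n : ℕ} {B : Type*} [AddCommGroup B]
    {F : Perm (Fin (n + 1)) → Fin n → B} (hF : BraidFun n F) (h0 : ∀ w i, rot F w i = 0) :
    ∃ h : Perm (Fin (n + 1)) → B, ∀ w i, F w i = h (w * sw i) - h w := by
  refine ⟨pot F, fun w i => ?_⟩
  have hne : i.castSucc ≠ i.succ := (Fin.castSucc_lt_succ (i := i)).ne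
  rcases lt_or_gt_of_ne (fun e => hne (w.injective e)) with h | h
  · -- ascent
    have hd : (w * sw i) i.succ < (w * sw i) i.castSucc := by
      simp only [sw, Perm.mul_apply, swap_apply_left, swap_apply_right]
      exact h
    have h1 := pot_descent hF _ (w * sw i) le_rfl i hd
    rw [mul_assoc, sw_mul_self, mul_one] at h1
    rw [h1]; abel
  · -- descent
    have h1 := pot_descent hF _ w le_rfl i h
    have h2 := h0 w i
    unfold rot at h2
    rw [h1, eq_neg_of_add_eq_zero_left h2]; abel

end HSq
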