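import Pool.Agent.HSq.Seg

/-!
# The potential lemma

By linearity it suffices that `q (cls γ) = g (γ 1) - g (γ 0)` for every path `γ`.  Classes of
restrictions of `γ` to subintervals add up.  Near `t₀`, with `z = γ t₀`, the segments from `z` to
`γ t'` lie in `X`, and the map `(t', l) ↦ (1 - l) z + l γ t'` of a rectangle shows that the class of
`γ` on `[t₀, t]` is `sg X z (γ t)`.  Connectedness of the interval finishes the proof.
-/

namespace HSq

open unitInterval Topology

section General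

variable {F : Type} [AddCommGroup F] [Module ℝ F] [TopologicalSpace F] [IsTopologicalAddGroup F]
  [ContinuousSMul ℝ F] {X : Type} [TopologicalSpace X]

/-- The straight path from `a` to `b` in a convex set. -/
def spath {K : Set F} (hK : Convex ℝ K) (a b : K) : C(I, K) :=
  ⟨fun t => ⟨(1 - (t : ℝ)) • (a : F) + (t : ℝ) • (b : F),
    hK a.2 b.2 (sub_nonneg.2 t.2.2) t.2.1 (by ring)⟩, by
    refine Continuous.subtype_mk ?_ _
    fun_prop⟩

/-- The affine triangle with vertices `a`, `b`, `c` in a convex set. -/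
def stri {K : Set F} (hK : Convex ℝ K) (a b c : K) : C(Tri, K) :=
  ⟨fun l => ⟨l.1 0 • (a : F) + l.1 1 • (b : F) + l.1 2 • (c : F), by
    have h := hK.sum_mem (t := Finset.univ) (w := l.1)
      (z := ![(a : F), (b : F), (c : F)]) (fun i _ => l.2.1 i) l.2.2 (by
        intro i _
        fin_cases i
        · exact a.2
        · exact b.2
        · exact c.2)
    simpa [Fin.sum_univ_three] using h⟩, by
    refine Continuous.subtype_mk ?_ _
    have h (i : Fin 3) : Continuous fun l : Tri => l.1 i :=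
      (continuous_apply i).comp continuous_subtype_val
    exact (((h 0).smul continuous_const).add ((h 1).smul continuous_const)).add
      ((h 2).smul continuous_const)⟩

theorem stri_e01 {K : Set F} (hK : Convex ℝ K) (a b c : K) :
    (stri hK a b c).comp e01 = spath hK a b := by
  ext t
  simp [stri, spath, e01]

theorem stri_e12 {K : Set F} (hK : Convex ℝ K) (a b c : K) :
    (stri hK a b c).comp e12 = spath hK b c := by
  ext t
  simp [stri, spath, e12]

theorem stri_e02 {K : Set F} (hK : Convex ℝ K) (a b c : K) :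
    (stri hK a b c).comp e02 = spath hK a c := by
  ext t
  simp [stri, spath, e02]

/-- Images of straight paths in a convex set add up. -/
theorem cls_spath_add {K : Set F} (hK : Convex ℝ K) (φ : C(K, X)) (a b c : K) :
    cls (φ.comp (spath hK a b)) + cls (φ.comp (spath hK b c)) = cls (φ.comp (spath hK a c)) := by
  have h := cls_tri (φ.comp (stri hK a b c))
  simpa only [ContinuousMap.comp_assoc, stri_e01, stri_e12, stri_e02] using h

theorem cls_const_path (x : X) : cls (ContinuousMap.const I x) = 0 := by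
  have h := cls_tri (ContinuousMap.const Tri x)
  simpa only [ContinuousMap.const_comp, add_eq_left] using h

end General

variable {E : Type} [AddCommGroup E] [Module ℝ E] [TopologicalSpace E] [IsTopologicalAddGroup E]
  [ContinuousSMul ℝ E]

/-- The path `γ` on `[s, t]`. -/
noncomputable def part {X : Type} [TopologicalSpace X] (γ : C(I, X)) (s t : I) : Q X :=
  cls (γ.comp (spath (convex_Icc (0 : ℝ) 1) s t))

theorem part_add {X : Type} [TopologicalSpace X] (γ : C(I, X)) (s t u : I) :
    part γ s t + part γ t u = part γ s u :=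
  cls_spath_add (convex_Icc (0 : ℝ) 1) γ s t u

theorem part_full {X : Type} [TopologicalSpace X] (γ : C(I, X)) : part γ 0 1 = cls γ := by
  unfold part
  congr 1
  refine ContinuousMap.ext fun t => congrArg γ ?_
  apply Subtype.ext
  simp [spath]

theorem part_self {X : Type} [TopologicalSpace X] (γ : C(I, X)) (s : I) : part γ s s = 0 := by
  have h := part_add γ s s s
  simpa using h

/-- Locally the class of a path is the class of a straight segment. -/
theorem part_eq_sg {X : Set E} (γ : C(I, X)) (t₀ : I) {ε : ℝ} (hε0 : 0 < ε)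
    (hε : ∀ t : I, |(t : ℝ) - t₀| < ε → ∀ l ∈ Set.Icc (0 : ℝ) 1,
      AffineMap.lineMap (γ t₀ : E) (γ t : E) l ∈ X) (t : I) (ht : |(t : ℝ) - t₀| < ε) :
    part γ t₀ t = sg X (γ t₀) (γ t) := by
  classical
  set K : Set (ℝ × ℝ) := (Set.Icc (0 : ℝ) 1 ∩ Metric.ball (t₀ : ℝ) ε) ×ˢ Set.Icc (0 : ℝ) 1
    with hKdef
  have hK : Convex ℝ K :=
    ((convex_Icc (0 : ℝ) 1).inter (convex_ball _ _)).prod (convex_Icc (0 : ℝ) 1)
  let φ : C(K, X) := ⟨fun x => ⟨(1 - x.1.2) • (γ t₀ : E) + x.1.2 • (γ ⟨x.1.1, x.2.1.1⟩ : E), by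
      have := hε ⟨x.1.1, x.2.1.1⟩ (by
        have := x.2.1.2
        rwa [Metric.mem_ball, Real.dist_eq] at this) x.1.2 x.2.2
      rwa [AffineMap.lineMap_apply_module] at this⟩, by
    refine Continuous.subtype_mk ?_ _
    fun_prop⟩
  have hmem0 : ∀ s : I, |(s : ℝ) - t₀| < ε → ((s : ℝ), (0 : ℝ)) ∈ K := fun s hs =>
    ⟨⟨s.2, by rwa [Metric.mem_ball, Real.dist_eq]⟩, by simp⟩
  have hmem1 : ∀ s : I, |(s : ℝ) - t₀| < ε → ((s : ℝ), (1 : ℝ)) ∈ K := fun s hs =>
    ⟨⟨s.2, by rwa [Metric.mem_ball, Real.dist_eq]⟩, by simp⟩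
  have ht0 : |(t₀ : ℝ) - t₀| < ε := by simpa using hε0
  let a1 : K := ⟨_, hmem1 t₀ ht0⟩
  let a0 : K := ⟨_, hmem0 t₀ ht0⟩
  let b0 : K := ⟨_, hmem0 t ht⟩
  let b1 : K := ⟨_, hmem1 t ht⟩
  have key : ∀ (x : K) (s : I) (l : ℝ), (x : ℝ × ℝ).1 = s → (x : ℝ × ℝ).2 = l →
      (φ x : E) = (1 - l) • (γ t₀ : E) + l • (γ s : E) := by
    rintro ⟨⟨x1, x2⟩, hx⟩ s l h1 h2
    simp only at h1 h2
    subst h1 h2
    rfl
  have e1 : cls (φ.comp (spath hK a1 a0)) = 0 := by
    rw [← cls_const_path (γ t₀)]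
    congr 1
    refine ContinuousMap.ext fun s => Subtype.ext ?_
    refine (key (spath hK a1 a0 s) t₀ _ ?_ rfl).trans ?_
    · simp [spath, a1, a0]
      ring
    · rw [← add_smul]
      simp
  have e2 : cls (φ.comp (spath hK a0 b0)) = 0 := by
    rw [← cls_const_path (γ t₀)]
    congr 1
    refine ContinuousMap.ext fun s => Subtype.ext ?_
    refine (key (spath hK a0 b0 s) (spath (convex_Icc (0 : ℝ) 1) t₀ t s) 0 ?_ ?_).trans ?_
    · simp [spath, a0, b0]
    · simp [spath, a0, b0]
    · simp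
  have e3 : cls (φ.comp (spath hK b0 b1)) = sg X (γ t₀) (γ t) := by
    have h : ∀ s : I, AffineMap.lineMap (γ t₀ : E) (γ t : E) (s : ℝ) ∈ X :=
      fun s => hε t ht s s.2
    rw [sg, dif_pos h]
    congr 1
    refine ContinuousMap.ext fun s => Subtype.ext ?_
    refine (key (spath hK b0 b1 s) t s ?_ ?_).trans ?_
    · simp [spath, b1, b0]
      ring
    · simp [spath, b1, b0]
    · exact (AffineMap.lineMap_apply_module _ _ _).symm
  have e4 : cls (φ.comp (spath hK a1 b1)) = part γ t₀ t := by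
    unfold part
    congr 1
    refine ContinuousMap.ext fun s => Subtype.ext ?_
    refine (key (spath hK a1 b1 s) (spath (convex_Icc (0 : ℝ) 1) t₀ t s) 1 ?_ ?_).trans ?_
    · simp [spath, a1, b1]
    · simp [spath, a1, b1]
    · simp
  have h1 := cls_spath_add hK φ a1 a0 b0
  have h2 := cls_spath_add hK φ a1 b0 b1
  rw [e1, e2, add_zero] at h1
  rw [← h1, e3, e4, zero_add] at h2
  exact h2.symm

/-- **The potential lemma.**  If `X` is locally star-like with respect to a family of convex
subsets `V i`, and `q` is the difference of a potential `g` on the straight segments inside each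
`V i`, then `q` vanishes on all cycles. -/
theorem potential_lemma {X : Set E} {ι : Type*} (V : ι → Set E) (hconv : ∀ i, Convex ℝ (V i))
    (hsub : ∀ i, V i ⊆ X)
    (hnear : ∀ z ∈ X, ∀ᶠ z' in 𝓝[X] z, ∃ i, z ∈ V i ∧ z' ∈ V i)
    {B : Type*} [AddCommGroup B] (q : Q X →+ B) (g : E → B)
    (hg : ∀ i, ∀ z ∈ V i, ∀ z' ∈ V i, q (sg X z z') = g z' - g z)
    (ξ : Q X) (hξ : bd ξ = 0) : q ξ = 0 := by
  have hpath : ∀ γ : C(I, X), q (cls γ) = g (γ 1) - g (γ 0) := by
    intro γ
    have hloc : IsLocallyConstant fun t : I => q (part γ 0 t) - g (γ t) := by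
      rw [IsLocallyConstant.iff_eventually_eq]
      intro t₀
      have h1 : ∀ᶠ t in 𝓝 t₀, ∃ i, (γ t₀ : E) ∈ V i ∧ (γ t : E) ∈ V i := by
        have h2 := hnear (γ t₀) (γ t₀).2
        have h3 : Filter.Tendsto (fun t : I => (γ t : E)) (𝓝 t₀) (𝓝[X] (γ t₀ : E)) := by
          refine tendsto_nhdsWithin_iff.2 ⟨?_, Filter.Eventually.of_forall fun t => (γ t).2⟩
          exact (continuous_subtype_val.comp γ.continuous).tendsto t₀
        exact h3.eventually h2
      obtain ⟨ε, hε0, hε⟩ := Metric.eventually_nhds_iff.1 h1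
      have h4 : ∀ t : I, |(t : ℝ) - t₀| < ε → ∃ i, (γ t₀ : E) ∈ V i ∧ (γ t : E) ∈ V i :=
        fun t ht => hε (by rwa [Subtype.dist_eq, Real.dist_eq])
      refine Metric.eventually_nhds_iff.2 ⟨ε, hε0, fun t ht => ?_⟩
      have ht' : |(t : ℝ) - t₀| < ε := by rwa [Subtype.dist_eq, Real.dist_eq] at ht
      have h5 := part_eq_sg γ t₀ hε0 (fun s hs l hl => by
        obtain ⟨i, hi0, hi1⟩ := h4 s hs
        exact hsub i ((hconv i).lineMap_mem hi0 hi1 hl)) t ht'
      obtain ⟨i, hi0, hi1⟩ := h4 t ht'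
      have h6 := hg i _ hi0 _ hi1
      rw [← part_add γ 0 t₀ t, map_add, h5, h6]
      abel
    have h7 := hloc.apply_eq_of_preconnectedSpace 1 0
    simp only [part_full, part_self, map_zero, zero_sub] at h7
    rw [sub_eq_iff_eq_add] at h7
    rw [h7]
    abel
  let G : (X →₀ ℤ) →+ B := Finsupp.liftAddHom fun x : X => zmultiplesHom B (g (x : E))
  have hq : ∀ ζ : Q X, q ζ = G (bd ζ) := by
    intro ζ
    induction ζ using Q.induction with
    | h0 => simp only [map_zero]
    | h1 γ =>
      rw [hpath, bd_cls, map_sub]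
      simp only [G, Finsupp.liftAddHom_apply_single, zmultiplesHom_apply, one_smul]
    | hn ξ h => rw [map_neg, map_neg, map_neg, h]
    | ha ξ η h1 h2 => rw [map_add, map_add, map_add, h1, h2]
  rw [hq, hξ, map_zero]

end HSq
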