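import Pool.Agent.HSq.ConfBraid
import Pool.Agent.HSq.SegPot
import Pool.Agent.HSq.PBPot

/-!
# The first homology of the configuration space of points is generated by full twists

Plan.  `B = Q / R`, `exists_potential` gives `h`.  For `z` let `wz` be the permutation sorting the
labels lexicographically; `V_w = {z : wz = w}` is convex.  `g z = h wz + q [cfg wz 0, z]`.  Use
`potential_lemma` for the convex open sets `U_s` of configurations all of whose pairs satisfy
the strict relations prescribed by `s : pairs → {L, R, D, U}`.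
-/

namespace HSq

open Equiv Topology

namespace ConfGenAux

theorem perm_ai {N : ℕ} (w : Perm (Fin N)) (k : Fin N) : w (w⁻¹ k) = k := w.apply_symm_apply k

theorem perm_ia {N : ℕ} (w : Perm (Fin N)) (k : Fin N) : w⁻¹ (w k) = k := w.symm_apply_apply k

/-- The four ways of strictly separating two points. -/
inductive D4 : Type
  | L | R | D | U

/-- `rel d a b`: the point `a` is strictly separated from the point `b` in the direction `d`. -/
def D4.rel : D4 → ℝ × ℝ → ℝ × ℝ → Prop
  | .L, a, b => a.1 < b.1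
  | .R, a, b => b.1 < a.1
  | .D, a, b => a.2 < b.2
  | .U, a, b => b.2 < a.2

/-- Configurations whose pairs are separated as prescribed by `s`. -/
def US {N : ℕ} (s : Fin N → Fin N → D4) : Set (Fin N → ℝ × ℝ) :=
  {z | ∀ k l, k ≠ l → (s k l).rel (z k) (z l)}

/-- Strict lexicographic order. -/
def lexlt (a b : ℝ × ℝ) : Prop := a.1 < b.1 ∨ (a.1 = b.1 ∧ a.2 < b.2)

/-- Configurations sorted lexicographically by `w`. -/
def VW {N : ℕ} (w : Perm (Fin N)) : Set (Fin N → ℝ × ℝ) :=
  {z | ∀ p p', p < p' → lexlt (z (w p)) (z (w p'))}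

/-- Configurations ordered by abscissa as in `w` except for the pair at the positions `i`, `i+1`,
which is separated by heights. -/
def KW {n : ℕ} (w : Perm (Fin (n + 1))) (i : Fin n) : Set (Fin (n + 1) → ℝ × ℝ) :=
  {z | (z (w i.castSucc)).2 < (z (w i.succ)).2 ∧
    ∀ p p', p < p' → ¬ (p = i.castSucc ∧ p' = i.succ) → (z (w p)).1 < (z (w p')).1}

theorem convex_fst {N : ℕ} (k l : Fin N) :
    Convex ℝ {z : Fin N → ℝ × ℝ | (z k).1 < (z l).1} := by
  intro x hx y hy a b ha hb hab
  simp only [Set.mem_ofPred_eq, Pi.add_apply, Pi.smul_apply, Prod.fst_add, Prod.smul_fst,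
    smul_eq_mul] at hx hy ⊢
  rcases eq_or_lt_of_le ha with h | h
  · have hb1 : b = 1 := by linarith
    rw [← h, hb1]; linarith
  · nlinarith [mul_pos h (sub_pos.2 hx), mul_nonneg hb (sub_pos.2 hy).le]

theorem convex_snd {N : ℕ} (k l : Fin N) :
    Convex ℝ {z : Fin N → ℝ × ℝ | (z k).2 < (z l).2} := by
  intro x hx y hy a b ha hb hab
  simp only [Set.mem_ofPred_eq, Pi.add_apply, Pi.smul_apply, Prod.snd_add, Prod.smul_snd,
    smul_eq_mul] at hx hy ⊢
  rcases eq_or_lt_of_le ha with h | h
  · have hb1 : b = 1 := by linarith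
    rw [← h, hb1]; linarith
  · nlinarith [mul_pos h (sub_pos.2 hx), mul_nonneg hb (sub_pos.2 hy).le]

theorem convex_rel (d : D4) {N : ℕ} (k l : Fin N) :
    Convex ℝ {z : Fin N → ℝ × ℝ | d.rel (z k) (z l)} := by
  cases d
  · exact convex_fst k l
  · exact convex_fst l k
  · exact convex_snd k l
  · exact convex_snd l k

theorem convex_lex {N : ℕ} (k l : Fin N) :
    Convex ℝ {z : Fin N → ℝ × ℝ | lexlt (z k) (z l)} := by
  intro x hx y hy a b ha hb hab
  simp only [Set.mem_ofPred_eq, lexlt, Pi.add_apply, Pi.smul_apply, Prod.fst_add, Prod.smul_fst,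
    Prod.snd_add, Prod.smul_snd, smul_eq_mul] at hx hy ⊢
  rcases eq_or_lt_of_le ha with h | h
  · have hb1 : b = 1 := by linarith
    rw [← h, hb1]; simpa using hy
  rcases eq_or_lt_of_le hb with h' | h'
  · have ha1 : a = 1 := by linarith
    rw [← h', ha1]; simpa using hx
  rcases hx with hx | ⟨hx, hx'⟩ <;> rcases hy with hy | ⟨hy, hy'⟩
  · left; nlinarith [mul_pos h (sub_pos.2 hx), mul_pos h' (sub_pos.2 hy)]
  · left; rw [hy]; nlinarith [mul_pos h (sub_pos.2 hx)]
  · left; rw [hx]; nlinarith [mul_pos h' (sub_pos.2 hy)]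
  · right
    exact ⟨by rw [hx, hy], by nlinarith [mul_pos h (sub_pos.2 hx'), mul_pos h' (sub_pos.2 hy')]⟩

theorem convex_US {N : ℕ} (s : Fin N → Fin N → D4) : Convex ℝ (US s) := by
  have : US s = ⋂ (k : Fin N) (l : Fin N) (_ : k ≠ l), {z | (s k l).rel (z k) (z l)} := by
    ext z
    simp [US]
  rw [this]
  exact convex_iInter fun k => convex_iInter fun l => convex_iInter fun _ => convex_rel _ k l

theorem convex_VW {N : ℕ} (w : Perm (Fin N)) : Convex ℝ (VW w) := by
  have : VW w = ⋂ (p : Fin N) (p' : Fin N) (_ : p < p'), {z | lexlt (z (w p)) (z (w p'))} := by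
    ext z
    simp [VW]
  rw [this]
  exact convex_iInter fun k => convex_iInter fun l => convex_iInter fun _ => convex_lex _ _

theorem convex_KW {n : ℕ} (w : Perm (Fin (n + 1))) (i : Fin n) : Convex ℝ (KW w i) := by
  have : KW w i = {z | (z (w i.castSucc)).2 < (z (w i.succ)).2} ∩
      ⋂ (p : Fin (n + 1)) (p' : Fin (n + 1)) (_ : p < p')
        (_ : ¬ (p = i.castSucc ∧ p' = i.succ)), {z | (z (w p)).1 < (z (w p')).1} := by
    ext z
    simp only [KW, Set.mem_ofPred_eq, Set.mem_inter_iff, Set.mem_iInter]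
  rw [this]
  exact (convex_snd _ _).inter (convex_iInter fun k => convex_iInter fun l =>
    convex_iInter fun _ => convex_iInter fun _ => convex_fst _ _)

theorem US_subset {N : ℕ} (s : Fin N → Fin N → D4) : US s ⊆ conf N := by
  intro z hz k l hkl h
  have := hz k l hkl
  rw [h] at this
  cases hs : s k l <;> rw [hs] at this <;> exact lt_irrefl _ this

theorem lexlt_irrefl (a : ℝ × ℝ) : ¬ lexlt a a := by
  rintro (h | ⟨_, h⟩) <;> exact lt_irrefl _ h

theorem VW_subset {N : ℕ} (w : Perm (Fin N)) : VW w ⊆ conf N := by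
  intro z hz k l hkl h
  rcases lt_trichotomy (w⁻¹ k) (w⁻¹ l) with h1 | h1 | h1
  · have := hz _ _ h1
    simp only [perm_ai, h] at this
    exact lexlt_irrefl _ this
  · exact hkl (w⁻¹.injective h1)
  · have := hz _ _ h1
    simp only [perm_ai, h] at this
    exact lexlt_irrefl _ this

theorem KW_subset {n : ℕ} (w : Perm (Fin (n + 1))) (i : Fin n) : KW w i ⊆ conf (n + 1) := by
  have key : ∀ z ∈ KW w i, ∀ p p', p < p' → z (w p) ≠ z (w p') := by
    intro z hz p p' hp h
    by_cases hi : p = i.castSucc ∧ p' = i.succ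
    · have := hz.1
      rw [← hi.1, ← hi.2, h] at this
      exact lt_irrefl _ this
    · have := hz.2 p p' hp hi
      rw [h] at this
      exact lt_irrefl _ this
  intro z hz k l hkl h
  rcases lt_trichotomy (w⁻¹ k) (w⁻¹ l) with h1 | h1 | h1
  · have := key z hz _ _ h1
    simp only [perm_ai] at this
    exact this h
  · exact hkl (w⁻¹.injective h1)
  · have := key z hz _ _ h1
    simp only [perm_ai] at this
    exact this h.symm

theorem cfg_mem_VW {N : ℕ} (w : Perm (Fin N)) (y : Fin N → ℝ) : cfg w y ∈ VW w := by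
  intro p p' hp
  left
  simp only [cfg, perm_ia]
  exact_mod_cast hp

theorem sw_lt {n : ℕ} {i : Fin n} {p p' : Fin (n + 1)} (h : p < p')
    (hne : ¬ (p = i.castSucc ∧ p' = i.succ)) : sw i p < sw i p' := by
  simp only [sw, swap_apply_def]
  rw [Fin.lt_def] at h
  simp only [Fin.ext_iff, Fin.val_castSucc, Fin.val_succ] at hne
  split_ifs with h1 h2 h3 h4 h5 h6 h7 h8 <;>
    simp only [Fin.ext_iff, Fin.lt_def, Fin.val_castSucc, Fin.val_succ] at * <;> omega

theorem inv_mul_sw {n : ℕ} (w : Perm (Fin (n + 1))) (i : Fin n) (k : Fin (n + 1)) :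
    (w * sw i)⁻¹ k = sw i (w⁻¹ k) := by
  simp [mul_inv_rev, sw]

theorem cfg_mem_KW {n : ℕ} (w : Perm (Fin (n + 1))) (i : Fin n) {y : Fin (n + 1) → ℝ}
    (hy : y (w i.castSucc) < y (w i.succ)) : cfg w y ∈ KW w i := by
  refine ⟨hy, fun p p' hp _ => ?_⟩
  simp only [cfg, perm_ia]
  exact_mod_cast hp

theorem cfg_mem_KW' {n : ℕ} (w : Perm (Fin (n + 1))) (i : Fin n) {y : Fin (n + 1) → ℝ}
    (hy : y (w i.castSucc) < y (w i.succ)) : cfg (w * sw i) y ∈ KW w i := by
  refine ⟨hy, fun p p' hp hne => ?_⟩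
  simp only [cfg, inv_mul_sw, perm_ia]
  have := sw_lt hp hne
  exact_mod_cast this

theorem vw_add {N : ℕ} (w : Perm (Fin N)) {a b c : Fin N → ℝ × ℝ} (ha : a ∈ VW w)
    (hb : b ∈ VW w) (hc : c ∈ VW w) :
    sg (conf N) a b + sg (conf N) b c = sg (conf N) a c :=
  sg_add (convex_VW w) (VW_subset w) ha hb hc

/-- An adjacent exchange at arbitrary heights. -/
theorem exch {n : ℕ} (w : Perm (Fin (n + 1))) (i : Fin n) {y : Fin (n + 1) → ℝ}
    (hy : y (w i.castSucc) < y (w i.succ)) :
    sg (conf (n + 1)) (cfg w y) (cfg (w * sw i) y) =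
      sg (conf (n + 1)) (cfg (w * sw i) 0) (cfg (w * sw i) y) + FC w i
        - sg (conf (n + 1)) (cfg w 0) (cfg w y) := by
  have hne : w i.castSucc ≠ w i.succ := by
    intro h
    have := w.injective h
    simp [Fin.ext_iff] at this
  have he : (Pi.single (w i.succ) 1 : Fin (n + 1) → ℝ) (w i.castSucc) <
      (Pi.single (w i.succ) 1 : Fin (n + 1) → ℝ) (w i.succ) := by
    rw [Pi.single_eq_of_ne hne, Pi.single_eq_same]
    norm_num
  have c1 := cfg_mem_KW w i hy
  have c2 := cfg_mem_KW' w i hy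
  have c3 := cfg_mem_KW w i he
  have c4 := cfg_mem_KW' w i he
  have h1 := sg_add (convex_KW w i) (KW_subset w i) c1 c3 c4
  have h2 := sg_add (convex_KW w i) (KW_subset w i) c1 c4 c2
  have h3 := vw_add w (cfg_mem_VW w 0) (cfg_mem_VW w y)
    (cfg_mem_VW w (Pi.single (w i.succ) 1))
  have h4 := vw_add (w * sw i) (cfg_mem_VW (w * sw i) (Pi.single (w i.succ) 1))
    (cfg_mem_VW (w * sw i) 0) (cfg_mem_VW (w * sw i) y)
  rw [FC, ← h2, ← h1, ← h3, ← h4]
  abel

/-- `w` satisfies the constraints on abscissae given by `s`. -/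
def CW {N : ℕ} (s : Fin N → Fin N → D4) (w : Perm (Fin N)) : Prop :=
  ∀ k l, k ≠ l → (s k l = .L → w⁻¹ k < w⁻¹ l) ∧ (s k l = .R → w⁻¹ l < w⁻¹ k)

/-- `y` satisfies the constraints on heights given by `s`. -/
def CY {N : ℕ} (s : Fin N → Fin N → D4) (y : Fin N → ℝ) : Prop :=
  ∀ k l, k ≠ l → (s k l = .D → y k < y l) ∧ (s k l = .U → y l < y k)

theorem cfg_mem_US {N : ℕ} {s : Fin N → Fin N → D4} {w : Perm (Fin N)} {y : Fin N → ℝ}
    (hw : CW s w) (hy : CY s y) : cfg w y ∈ US s := by
  intro k l hkl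
  have h1 := hw k l hkl
  have h2 := hy k l hkl
  cases hs : s k l
  · have := h1.1 hs
    simp only [D4.rel, cfg]
    exact_mod_cast this
  · have := h1.2 hs
    simp only [D4.rel, cfg]
    exact_mod_cast this
  · exact h2.1 hs
  · exact h2.2 hs

theorem CY_of_mem {N : ℕ} {s : Fin N → Fin N → D4} {z : Fin N → ℝ × ℝ} (hz : z ∈ US s) :
    CY s (fun k => (z k).2) := by
  intro k l hkl
  have := hz k l hkl
  constructor
  · intro h; rw [h] at this; exact this
  · intro h; rw [h] at this; exact this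

theorem inv_lt_of {N : ℕ} {w : Perm (Fin N)} {z : Fin N → ℝ × ℝ} (hz : z ∈ VW w) {k l : Fin N}
    (h : (z k).1 < (z l).1) : w⁻¹ k < w⁻¹ l := by
  rcases lt_trichotomy (w⁻¹ k) (w⁻¹ l) with h1 | h1 | h1
  · exact h1
  · exfalso
    rw [w⁻¹.injective h1] at h
    exact lt_irrefl _ h
  · exfalso
    have := hz _ _ h1
    simp only [perm_ai] at this
    rcases this with h2 | ⟨h2, _⟩ <;> linarith

theorem CW_of_mem {N : ℕ} {s : Fin N → Fin N → D4} {w : Perm (Fin N)} {z : Fin N → ℝ × ℝ}
    (hz : z ∈ US s) (hw : z ∈ VW w) : CW s w := by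
  intro k l hkl
  have := hz k l hkl
  constructor
  · intro h; rw [h] at this; exact inv_lt_of hw this
  · intro h; rw [h] at this; exact inv_lt_of hw this

theorem exists_descent {n : ℕ} {w w' : Perm (Fin (n + 1))} (h : w ≠ w') :
    ∃ i : Fin n, w'⁻¹ (w i.succ) < w'⁻¹ (w i.castSucc) := by
  by_contra hc
  push Not at hc
  have hm : StrictMono fun p => w'⁻¹ (w p) := by
    rw [Fin.strictMono_iff_lt_succ]
    intro i
    refine lt_of_le_of_ne (hc i) ?_
    intro h1
    have := w.injective (w'⁻¹.injective h1)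
    simp [Fin.ext_iff] at this
  have hs : Function.Surjective fun p => w'⁻¹ (w p) := (w'⁻¹.surjective).comp w.surjective
  have he : hm.orderIsoOfSurjective _ hs = OrderIso.refl _ := Subsingleton.elim _ _
  apply h
  ext p
  have h1 : w'⁻¹ (w p) = p := congrArg (fun e : Fin (n + 1) ≃o Fin (n + 1) => e p) he
  have h2 : w p = w' p := by
    rw [← perm_ai w' (w p), h1]
  rw [h2]

/-- The measure of the bubble sort. -/
def Phi {n : ℕ} (u : Perm (Fin (n + 1))) : ℕ := ∑ p : Fin (n + 1), (p : ℕ) * (u p : ℕ)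

theorem Phi_le {n : ℕ} (u : Perm (Fin (n + 1))) : Phi u ≤ (n + 1) * (n * n) := by
  refine (Finset.sum_le_card_nsmul _ _ (n * n) fun p _ => ?_).trans (by simp)
  exact Nat.mul_le_mul (Nat.lt_succ_iff.1 p.2) (Nat.lt_succ_iff.1 (u p).2)

theorem Phi_lt {n : ℕ} (u : Perm (Fin (n + 1))) (i : Fin n) (h : u i.succ < u i.castSucc) :
    Phi u < Phi (u * sw i) := by
  have hne : i.castSucc ≠ i.succ := by simp [Fin.ext_iff]
  have e1 : Phi u = (∑ p ∈ Finset.univ \ {i.castSucc, i.succ}, (p : ℕ) * (u p : ℕ)) +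
      ((i : ℕ) * u i.castSucc + ((i : ℕ) + 1) * u i.succ) := by
    rw [Phi, ← Finset.sum_sdiff (Finset.subset_univ {i.castSucc, i.succ}),
      Finset.sum_pair hne]
    simp
  have e2 : Phi (u * sw i) = (∑ p ∈ Finset.univ \ {i.castSucc, i.succ}, (p : ℕ) * (u p : ℕ)) +
      ((i : ℕ) * u i.succ + ((i : ℕ) + 1) * u i.castSucc) := by
    rw [Phi, ← Finset.sum_sdiff (Finset.subset_univ {i.castSucc, i.succ}),
      Finset.sum_pair hne]
    congr 1
    · refine Finset.sum_congr rfl fun p hp => ?_
      simp only [Finset.mem_sdiff, Finset.mem_univ, Finset.mem_insert, Finset.mem_singleton,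
        true_and, not_or] at hp
      rw [Perm.mul_apply, sw, swap_apply_of_ne_of_ne hp.1 hp.2]
    · simp [Perm.mul_apply, sw]
  rw [e1, e2]
  have : (u i.succ : ℕ) < u i.castSucc := h
  nlinarith

section main

variable {n : ℕ} {B : Type*} [AddCommGroup B] (q : Q (conf (n + 1)) →+ B)
  (h : Perm (Fin (n + 1)) → B)

/-- The potential of a configuration with integer abscissae. -/
noncomputable def G (w : Perm (Fin (n + 1))) (y : Fin (n + 1) → ℝ) : B :=
  h w + q (sg (conf (n + 1)) (cfg w 0) (cfg w y))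

variable {q h}

theorem q_exch (hh : ∀ w i, q (FC w i) = h (w * sw i) - h w) (w : Perm (Fin (n + 1))) (i : Fin n)
    {y : Fin (n + 1) → ℝ} (hy : y (w i.castSucc) < y (w i.succ)) :
    q (sg (conf (n + 1)) (cfg w y) (cfg (w * sw i) y)) = G q h (w * sw i) y - G q h w y := by
  rw [exch w i hy, map_sub, map_add, hh, G, G]
  abel

theorem q_bubble (hh : ∀ w i, q (FC w i) = h (w * sw i) - h w)
    {s : Fin (n + 1) → Fin (n + 1) → D4} {y : Fin (n + 1) → ℝ} (hy : CY s y)
    {w' : Perm (Fin (n + 1))} (hw' : CW s w') :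
    ∀ (m : ℕ) (w : Perm (Fin (n + 1))), (n + 1) * (n * n) ≤ Phi (w'⁻¹ * w) + m → CW s w →
      q (sg (conf (n + 1)) (cfg w y) (cfg w' y)) = G q h w' y - G q h w y := by
  intro m
  induction m with
  | zero =>
    intro w hm hw
    by_cases hww : w = w'
    · subst hww
      rw [sg_self (US_subset s (cfg_mem_US hw hy)), map_zero, sub_self]
    · obtain ⟨i, hi⟩ := exists_descent hww
      have h1 := Phi_lt (w'⁻¹ * w) i hi
      have h2 := Phi_le (w'⁻¹ * w * sw i)
      omega
  | succ m ih =>
    intro w hm hw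
    by_cases hww : w = w'
    · subst hww
      rw [sg_self (US_subset s (cfg_mem_US hw hy)), map_zero, sub_self]
    obtain ⟨i, hi⟩ := exists_descent hww
    have hkl : w i.castSucc ≠ w i.succ := by
      intro h
      have := w.injective h
      simp [Fin.ext_iff] at this
    have hlt : i.castSucc < i.succ := Fin.castSucc_lt_succ
    -- the new permutation satisfies the constraints
    have hw1 : CW s (w * sw i) := by
      intro k l hne
      rw [inv_mul_sw, inv_mul_sw]
      constructor
      · intro hs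
        have a1 := (hw k l hne).1 hs
        refine sw_lt a1 ?_
        rintro ⟨b1, b2⟩
        have a2 := (hw' k l hne).1 hs
        rw [Perm.inv_eq_iff_eq] at b1 b2
        rw [b1, b2] at a2
        exact lt_asymm hi a2
      · intro hs
        have a1 := (hw k l hne).2 hs
        refine sw_lt a1 ?_
        rintro ⟨b1, b2⟩
        have a2 := (hw' k l hne).2 hs
        rw [Perm.inv_eq_iff_eq] at b1 b2
        rw [b1, b2] at a2
        exact lt_asymm hi a2
    have hmeas : (n + 1) * (n * n) ≤ Phi (w'⁻¹ * (w * sw i)) + m := by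
      have h1 := Phi_lt (w'⁻¹ * w) i hi
      rw [mul_assoc] at h1
      omega
    have h2 := ih (w * sw i) hmeas hw1
    have h3 := sg_add (convex_US s) (US_subset s) (cfg_mem_US hw hy) (cfg_mem_US hw1 hy)
      (cfg_mem_US hw' hy)
    have h4 : q (sg (conf (n + 1)) (cfg w y) (cfg (w * sw i) y)) =
        G q h (w * sw i) y - G q h w y := by
      cases hs : s (w i.castSucc) (w i.succ)
      · exfalso
        have := (hw' _ _ hkl).1 hs
        exact lt_asymm this hi
      · exfalso
        have := (hw _ _ hkl).2 hs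
        rw [perm_ia, perm_ia] at this
        exact lt_asymm this hlt
      · exact q_exch hh w i ((hy _ _ hkl).1 hs)
      · have h5 := (hy _ _ hkl).2 hs
        have e1 : (w * sw i) i.castSucc = w i.succ := by simp [Perm.mul_apply, sw]
        have e2 : (w * sw i) i.succ = w i.castSucc := by simp [Perm.mul_apply, sw]
        have e3 : w * sw i * sw i = w := by rw [mul_assoc, sw_mul_self, mul_one]
        have h6 := q_exch hh (w * sw i) i (y := y) (by rw [e1, e2]; exact h5)
        rw [e3] at h6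
        rw [sg_swap (convex_US s) (US_subset s) (cfg_mem_US hw1 hy) (cfg_mem_US hw hy), map_neg,
          h6]
        abel
    rw [← h3, map_add, h2, h4]
    abel

end main

open Classical in
/-- The permutation sorting the labels of a configuration lexicographically. -/
noncomputable def srt {N : ℕ} (z : Fin N → ℝ × ℝ) : Perm (Fin N) :=
  if h : ∃ w, z ∈ VW w then h.choose else 1

theorem mem_VW_srt {N : ℕ} {z : Fin N → ℝ × ℝ} (hz : z ∈ conf N) : z ∈ VW (srt z) := by
  have hex : ∃ w, z ∈ VW w := by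
    let f : Fin N → ℝ ×ₗ ℝ := fun k => toLex (z k)
    have hinj : Function.Injective f := by
      intro k l hkl
      by_contra hne
      exact hz k l hne (toLex.injective hkl)
    have hm : StrictMono (f ∘ Tuple.sort f) :=
      (Tuple.monotone_sort f).strictMono_of_injective (hinj.comp (Tuple.sort f).injective)
    refine ⟨Tuple.sort f, fun p p' hp => ?_⟩
    have := hm hp
    simp only [Function.comp_apply, f, Prod.Lex.toLex_lt_toLex] at this
    exact this
  rw [srt, dif_pos hex]
  exact hex.choose_spec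

theorem isOpen_US {N : ℕ} (s : Fin N → Fin N → D4) : IsOpen (US s) := by
  have : US s = ⋂ (k : Fin N) (l : Fin N) (_ : k ≠ l), {z | (s k l).rel (z k) (z l)} := by
    ext z
    simp [US]
  rw [this]
  refine isOpen_iInter_of_finite fun k => isOpen_iInter_of_finite fun l =>
    isOpen_iInter_of_finite fun _ => ?_
  cases s k l
  · exact isOpen_lt (by fun_prop) (by fun_prop)
  · exact isOpen_lt (by fun_prop) (by fun_prop)
  · exact isOpen_lt (by fun_prop) (by fun_prop)
  · exact isOpen_lt (by fun_prop) (by fun_prop)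

theorem exists_mem_US {N : ℕ} {z : Fin N → ℝ × ℝ} (hz : z ∈ conf N) : ∃ s, z ∈ US s := by
  classical
  have h : ∀ k l, ∃ d : D4, k ≠ l → d.rel (z k) (z l) := fun k l => by
    by_cases hkl : k = l
    · exact ⟨.L, fun h => (h hkl).elim⟩
    · have h1 := hz k l hkl
      rcases lt_trichotomy (z k).1 (z l).1 with h2 | h2 | h2
      · exact ⟨.L, fun _ => h2⟩
      · rcases lt_trichotomy (z k).2 (z l).2 with h3 | h3 | h3
        · exact ⟨.D, fun _ => h3⟩
        · exact (h1 (Prod.ext h2 h3)).elim
        · exact ⟨.U, fun _ => h3⟩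
      · exact ⟨.R, fun _ => h2⟩
  choose s hs using h
  exact ⟨s, fun k l hkl => hs k l hkl⟩

end ConfGenAux

open ConfGenAux in
theorem conf_generated {n : ℕ} (ξ : Q (conf (n + 1))) (hξ : bd ξ = 0) :
    ξ ∈ AddSubgroup.closure {ζ | ∃ (w : Perm (Fin (n + 1))) (i : Fin n), ζ = rot FC w i} := by
  set R : AddSubgroup (Q (conf (n + 1))) :=
    AddSubgroup.closure {ζ | ∃ (w : Perm (Fin (n + 1))) (i : Fin n), ζ = rot FC w i} with hR
  let q : Q (conf (n + 1)) →+ Q (conf (n + 1)) ⧸ R := QuotientAddGroup.mk' R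
  have hF : BraidFun n (fun (w : Perm (Fin (n + 1))) (i : Fin n) => q (FC w i)) := by
    constructor
    · intro w i j hij
      have := congrArg q ((FC_braid n).comm w i j hij)
      simpa only [map_add] using this
    · intro w i j hij
      have := congrArg q ((FC_braid n).braid w i j hij)
      simpa only [map_add] using this
  have h0 : ∀ w i, rot (fun (w : Perm (Fin (n + 1))) (i : Fin n) => q (FC w i)) w i = 0 := by
    intro w i
    have h1 : rot (fun (w : Perm (Fin (n + 1))) (i : Fin n) => q (FC w i)) w i =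
        q (rot FC w i) := by
      simp only [rot, map_add]
    rw [h1]
    exact (QuotientAddGroup.eq_zero_iff _).2 (AddSubgroup.subset_closure ⟨w, i, rfl⟩)
  obtain ⟨h, hh⟩ := exists_potential hF h0
  have key := potential_lemma (X := conf (n + 1)) (fun s => US s) (fun s => convex_US s)
    (fun s => US_subset s) (fun z hz => by
      obtain ⟨s, hs⟩ := exists_mem_US hz
      exact mem_nhdsWithin_of_mem_nhds (Filter.mem_of_superset ((isOpen_US s).mem_nhds hs)
        fun z' hz' => ⟨s, hs, hz'⟩)) q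
    (fun z => h (srt z) + q (sg (conf (n + 1)) (cfg (srt z) 0) z)) (by
      intro s z hz z' hz'
      have cz := US_subset s hz
      have cz' := US_subset s hz'
      have vz := mem_VW_srt cz
      have vz' := mem_VW_srt cz'
      have w1 := CW_of_mem hz vz
      have w2 := CW_of_mem hz' vz'
      have y1 := CY_of_mem hz
      have y2 := CY_of_mem hz'
      set w := srt z with hw
      set w' := srt z' with hw'
      set y : Fin (n + 1) → ℝ := fun k => (z k).2 with hy
      set y' : Fin (n + 1) → ℝ := fun k => (z' k).2 with hy'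
      have A := fun {a b c} ha hb hc => sg_add (convex_US s) (US_subset s) (a := a) (b := b)
        (c := c) ha hb hc
      have a1 := A hz (cfg_mem_US w1 y1) hz'
      have a2 := A (cfg_mem_US w1 y1) (cfg_mem_US w2 y1) hz'
      have a3 := A (cfg_mem_US w2 y1) (cfg_mem_US w2 y2) hz'
      have b1 := vw_add w (cfg_mem_VW w 0) vz (cfg_mem_VW w y)
      have b2 := vw_add w' (cfg_mem_VW w' 0) (cfg_mem_VW w' y) (cfg_mem_VW w' y')
      have b3 := vw_add w' (cfg_mem_VW w' 0) (cfg_mem_VW w' y') vz'
      have c1 := q_bubble hh y1 w2 ((n + 1) * (n * n)) w (by omega) w1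
      rw [G, G] at c1
      rw [← a1, ← a2, ← a3, ← b3, ← b2, map_add, map_add, map_add, map_add, map_add, c1, ← b1,
        map_add]
      abel) ξ hξ
  exact (QuotientAddGroup.eq_zero_iff _).1 key

end HSq
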