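import Pool.Agent.HSq.Chains

/-!
# Straight segments and the potential lemma
-/

namespace HSq

open unitInterval Topology

variable {E : Type} [AddCommGroup E] [Module ℝ E] [TopologicalSpace E] [IsTopologicalAddGroup E]
  [ContinuousSMul ℝ E]

section General

variable {F : Type*} [AddCommGroup F] [Module ℝ F] [TopologicalSpace F] [IsTopologicalAddGroup F]
  [ContinuousSMul ℝ F] {Y : Type} [TopologicalSpace Y]

/-- The straight path from `a` to `b` inside the convex set `K`. -/
noncomputable def segPath {K : Set F} (hK : Convex ℝ K) {a b : F} (ha : a ∈ K) (hb : b ∈ K) :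
    C(I, K) :=
  ⟨fun t : I => (⟨AffineMap.lineMap a b (t : ℝ), hK.lineMap_mem ha hb t.2⟩ : K), by
    refine Continuous.subtype_mk ?_ _
    simp only [AffineMap.lineMap_apply_module]
    fun_prop⟩

@[simp] theorem segPath_coe {K : Set F} (hK : Convex ℝ K) {a b : F} (ha : a ∈ K) (hb : b ∈ K)
    (t : I) : ((segPath hK ha hb t : K) : F) = AffineMap.lineMap a b (t : ℝ) := rfl

theorem segPath_zero {K : Set F} (hK : Convex ℝ K) {a b : F} (ha : a ∈ K) (hb : b ∈ K) :
    segPath hK ha hb 0 = ⟨a, ha⟩ := by
  apply Subtype.ext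
  simp

theorem segPath_one {K : Set F} (hK : Convex ℝ K) {a b : F} (ha : a ∈ K) (hb : b ∈ K) :
    segPath hK ha hb 1 = ⟨b, hb⟩ := by
  apply Subtype.ext
  simp

/-- The affine triangle with vertices `a`, `b`, `c` inside the convex set `K`. -/
noncomputable def segTri {K : Set F} (hK : Convex ℝ K) {a b c : F} (ha : a ∈ K) (hb : b ∈ K)
    (hc : c ∈ K) : C(Tri, K) :=
  ⟨fun l : Tri => (⟨l.1 0 • a + l.1 1 • b + l.1 2 • c, by
    have h := hK.sum_mem (t := Finset.univ) (w := l.1) (z := ![a, b, c]) (fun i _ => l.2.1 i)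
      l.2.2 (by
        intro i _
        fin_cases i
        · simpa using ha
        · simpa using hb
        · simpa using hc)
    simpa [Fin.sum_univ_three] using h⟩ : K), by
    refine Continuous.subtype_mk ?_ _
    have hi : ∀ i : Fin 3, Continuous fun l : Tri => (l.1 i : ℝ) := fun i =>
      (continuous_apply i).comp continuous_subtype_val
    exact (((hi 0).smul continuous_const).add ((hi 1).smul continuous_const)).add
      ((hi 2).smul continuous_const)⟩

/-- The general form: under a continuous map defined on a convex set, the classes of the images of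
the straight segments add up. -/
theorem segPath_add {K : Set F} (hK : Convex ℝ K) {a b c : F} (ha : a ∈ K) (hb : b ∈ K)
    (hc : c ∈ K) (φ : C(K, Y)) :
    cls (φ.comp (segPath hK ha hb)) + cls (φ.comp (segPath hK hb hc)) =
      cls (φ.comp (segPath hK ha hc)) := by
  have h := cls_tri (φ.comp (segTri hK ha hb hc))
  have h1 : (φ.comp (segTri hK ha hb hc)).comp e01 = φ.comp (segPath hK ha hb) := by
    rw [ContinuousMap.comp_assoc]
    congr 1
    ext t
    simp [segTri, e01, AffineMap.lineMap_apply_module]
  have h2 : (φ.comp (segTri hK ha hb hc)).comp e12 = φ.comp (segPath hK hb hc) := by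
    rw [ContinuousMap.comp_assoc]
    congr 1
    ext t
    simp [segTri, e12, AffineMap.lineMap_apply_module]
  have h3 : (φ.comp (segTri hK ha hb hc)).comp e02 = φ.comp (segPath hK ha hc) := by
    rw [ContinuousMap.comp_assoc]
    congr 1
    ext t
    simp [segTri, e02, AffineMap.lineMap_apply_module]
  rw [h1, h2, h3] at h
  exact h

theorem segPath_self {K : Set F} (hK : Convex ℝ K) {a : F} (ha : a ∈ K) (φ : C(K, Y)) :
    cls (φ.comp (segPath hK ha ha)) = 0 := by
  have := segPath_add hK ha ha ha φ
  simpa using this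

theorem segPath_swap {K : Set F} (hK : Convex ℝ K) {a b : F} (ha : a ∈ K) (hb : b ∈ K)
    (φ : C(K, Y)) :
    cls (φ.comp (segPath hK hb ha)) = - cls (φ.comp (segPath hK ha hb)) := by
  have h := segPath_add hK ha hb ha φ
  rw [segPath_self hK ha φ] at h
  exact (neg_eq_of_add_eq_zero_right h).symm

/-- constant paths have class `0` -/
theorem cls_const (y : Y) : cls (ContinuousMap.const I y) = 0 := by
  have h := cls_tri (ContinuousMap.const Tri y)
  have h1 : (ContinuousMap.const Tri y).comp e01 = ContinuousMap.const I y := rfl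
  have h2 : (ContinuousMap.const Tri y).comp e12 = ContinuousMap.const I y := rfl
  have h3 : (ContinuousMap.const Tri y).comp e02 = ContinuousMap.const I y := rfl
  rw [h1, h2, h3] at h
  simpa using h

end General

open Classical in
/-- The class in `Q X` of the straight segment from `a` to `b` (zero if it leaves `X`). -/
noncomputable def sg (X : Set E) (a b : E) : Q X :=
  if h : ∀ t : I, AffineMap.lineMap a b (t : ℝ) ∈ X then
    cls ⟨fun t : I => (⟨AffineMap.lineMap a b (t : ℝ), h t⟩ : X), by
      refine Continuous.subtype_mk ?_ _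
      simp only [AffineMap.lineMap_apply_module]
      fun_prop⟩
  else 0

/-- The class of a segment inside a convex subset. -/
theorem sg_eq_segPath {X V : Set E} (hV : Convex ℝ V) (hVX : V ⊆ X) {a b : E} (ha : a ∈ V)
    (hb : b ∈ V) : sg X a b = cls ((⟨Set.inclusion hVX, continuous_inclusion hVX⟩ :
      C(V, X)).comp (segPath hV ha hb)) := by
  have h : ∀ t : I, AffineMap.lineMap a b (t : ℝ) ∈ X := fun t =>
    hVX (hV.lineMap_mem ha hb t.2)
  unfold sg
  rw [dif_pos h]
  rfl

/-- Classes of straight segments inside a convex subset of `X` add up. -/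
theorem sg_add {X V : Set E} (hV : Convex ℝ V) (hVX : V ⊆ X) {a b c : E} (ha : a ∈ V)
    (hb : b ∈ V) (hc : c ∈ V) : sg X a b + sg X b c = sg X a c := by
  rw [sg_eq_segPath hV hVX ha hb, sg_eq_segPath hV hVX hb hc, sg_eq_segPath hV hVX ha hc]
  exact segPath_add hV ha hb hc _

theorem sg_self {X : Set E} {a : E} (ha : a ∈ X) : sg X a a = 0 := by
  have := sg_add (X := X) (convex_singleton (𝕜 := ℝ) a) (by simpa using ha) (a := a) (b := a)
    (c := a) rfl rfl rfl
  simpa using this

theorem sg_swap {X V : Set E} (hV : Convex ℝ V) (hVX : V ⊆ X) {a b : E} (ha : a ∈ V)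
    (hb : b ∈ V) : sg X b a = - sg X a b := by
  have h := sg_add hV hVX ha hb ha
  rw [sg_self (hVX ha)] at h
  exact (neg_eq_of_add_eq_zero_right h).symm

omit [TopologicalSpace E] [IsTopologicalAddGroup E] [ContinuousSMul ℝ E] in
theorem lineMap_mem_of_segment {X : Set E} {a b : E} (h : segment ℝ a b ⊆ X) (t : I) :
    AffineMap.lineMap a b (t : ℝ) ∈ X := by
  refine h ?_
  rw [segment_eq_image_lineMap]
  exact ⟨t, t.2, rfl⟩

theorem bd_sg {X : Set E} {a b : E} (h : segment ℝ a b ⊆ X) (ha : a ∈ X) (hb : b ∈ X) :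
    bd (sg X a b) = Finsupp.single (⟨b, hb⟩ : X) 1 - Finsupp.single (⟨a, ha⟩ : X) 1 := by
  unfold sg
  rw [dif_pos (lineMap_mem_of_segment h), bd_cls]
  congr 2
  · apply Subtype.ext
    simp
  · apply Subtype.ext
    simp

theorem map_sg {X Y : Set E} (hXY : X ⊆ Y) {a b : E} (h : segment ℝ a b ⊆ X) :
    Q.map ⟨Set.inclusion hXY, continuous_inclusion _⟩ (sg X a b) = sg Y a b := by
  unfold sg
  rw [dif_pos (lineMap_mem_of_segment h), dif_pos (lineMap_mem_of_segment (h.trans hXY)),
    Q.map_cls]
  rfl

end HSq
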