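import Pool.Agent.HSq.Defs
import Pool.Agent.HSq.Seg

/-!
# Winding numbers
-/

namespace HSq

open unitInterval Topology

section lift

variable {A : Type} [TopologicalSpace A] [SimplyConnectedSpace A] [LocallyPathConnectedSpace A]

theorem exists_log_lift (v : C(A, ℂ)) (hv : ∀ t, v t ≠ 0) :
    ∃ θ : C(A, ℂ), ∀ t, Complex.exp (θ t) = v t := by
  obtain ⟨a₀⟩ : Nonempty A := inferInstance
  obtain ⟨F, ⟨-, hF⟩, -⟩ := Complex.isCoveringMapOn_exp.existsUnique_continuousMap_lifts v
    (a₀ := a₀) (e₀ := Complex.log (v a₀)) (Complex.exp_log (hv a₀)) (fun t => hv t)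
  exact ⟨F, fun t => congrFun hF t⟩

theorem log_lift_unique (v : C(A, ℂ)) (hv : ∀ t, v t ≠ 0) (θ θ' : C(A, ℂ))
    (h : ∀ t, Complex.exp (θ t) = v t) (h' : ∀ t, Complex.exp (θ' t) = v t) (a b : A) :
    θ b - θ a = θ' b - θ' a := by
  obtain ⟨F, -, hu⟩ := Complex.isCoveringMapOn_exp.existsUnique_continuousMap_lifts v
    (a₀ := a) (e₀ := θ a) (h a) (fun t => hv t)
  have h1 : θ = F := hu θ ⟨rfl, funext h⟩
  have h2 : θ' + ContinuousMap.const A (θ a - θ' a) = F := by
    refine hu _ ⟨by simp, funext fun t => ?_⟩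
    simp only [Function.comp_apply, ContinuousMap.add_apply, ContinuousMap.const_apply,
      Complex.exp_add, Complex.exp_sub, h, h']
    rw [div_self (hv a), mul_one]
  have h3 : θ b = (θ' + ContinuousMap.const A (θ a - θ' a)) b := by rw [h2, ← h1]
  simp only [ContinuousMap.add_apply, ContinuousMap.const_apply] at h3
  rw [h3]; ring

end lift

instance : ContractibleSpace I :=
  (convex_Icc (0 : ℝ) 1).contractibleSpace ⟨0, by simp⟩

instance : LocallyPathConnectedSpace I := (convex_Icc (0 : ℝ) 1).locallyPathConnectedSpace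

instance : ContractibleSpace Tri :=
  (convex_stdSimplex ℝ (Fin 3)).contractibleSpace ⟨_, single_mem_stdSimplex ℝ 0⟩

instance : LocallyPathConnectedSpace Tri :=
  (convex_stdSimplex ℝ (Fin 3)).locallyPathConnectedSpace

/-- The continuous difference vector `z b - z a` as a complex number. -/
noncomputable def dv {n : ℕ} (a b : Fin n) : C(conf n, ℂ) :=
  ⟨fun z => (((z.1 b).1 - (z.1 a).1 : ℝ) : ℂ) + (((z.1 b).2 - (z.1 a).2 : ℝ) : ℂ) * Complex.I, by
    have h : ∀ c : Fin n, Continuous fun z : conf n => z.1 c := fun c =>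
      (continuous_apply c).comp continuous_subtype_val
    exact (Complex.continuous_ofReal.comp
      ((continuous_fst.comp (h b)).sub (continuous_fst.comp (h a)))).add
      ((Complex.continuous_ofReal.comp
      ((continuous_snd.comp (h b)).sub (continuous_snd.comp (h a)))).mul continuous_const)⟩

theorem dv_re {n : ℕ} (a b : Fin n) (z : conf n) : (dv a b z).re = (z.1 b).1 - (z.1 a).1 := by
  simp [dv]

theorem dv_im {n : ℕ} (a b : Fin n) (z : conf n) : (dv a b z).im = (z.1 b).2 - (z.1 a).2 := by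
  simp [dv]

theorem dv_ne {n : ℕ} {a b : Fin n} (hab : a ≠ b) (z : conf n) : dv a b z ≠ 0 := by
  intro h
  have h1 := congrArg Complex.re h
  have h2 := congrArg Complex.im h
  rw [dv_re, Complex.zero_re, sub_eq_zero] at h1
  rw [dv_im, Complex.zero_im, sub_eq_zero] at h2
  exact z.2 a b hab (Prod.ext h1.symm h2.symm)

/-- The total change of the logarithm along a path. -/
noncomputable def lg {X : Type} [TopologicalSpace X] (v : C(X, ℂ)) (hv : ∀ x, v x ≠ 0)
    (γ : C(I, X)) : ℂ :=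
  (exists_log_lift (v.comp γ) (fun _ => hv _)).choose 1 -
    (exists_log_lift (v.comp γ) (fun _ => hv _)).choose 0

theorem lg_eq {X : Type} [TopologicalSpace X] (v : C(X, ℂ)) (hv : ∀ x, v x ≠ 0)
    (γ : C(I, X)) (θ : C(I, ℂ)) (h : ∀ t, Complex.exp (θ t) = v (γ t)) :
    lg v hv γ = θ 1 - θ 0 :=
  log_lift_unique (v.comp γ) (fun _ => hv _) _ _
    (exists_log_lift (v.comp γ) (fun _ => hv _)).choose_spec h 0 1

theorem lg_tri {X : Type} [TopologicalSpace X] (v : C(X, ℂ)) (hv : ∀ x, v x ≠ 0)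
    (τ : C(Tri, X)) : lg v hv (τ.comp e01) + lg v hv (τ.comp e12) = lg v hv (τ.comp e02) := by
  obtain ⟨θ, h⟩ := exists_log_lift (v.comp τ) (fun _ => hv _)
  have h1 : e01 1 = e12 0 := by apply Subtype.ext; simp [e01, e12]
  have h2 : e01 0 = e02 0 := by apply Subtype.ext; simp [e01, e02]
  have h3 : e12 1 = e02 1 := by apply Subtype.ext; simp [e12, e02]
  rw [lg_eq v hv (τ.comp e01) (θ.comp e01) (fun t => h _),
    lg_eq v hv (τ.comp e12) (θ.comp e12) (fun t => h _),
    lg_eq v hv (τ.comp e02) (θ.comp e02) (fun t => h _)]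
  simp only [ContinuousMap.comp_apply, h1, h2, h3]
  ring

/-- The winding functional. -/
noncomputable def wlg {X : Type} [TopologicalSpace X] (v : C(X, ℂ)) (hv : ∀ x, v x ≠ 0) :
    Q X →+ ℂ :=
  Q.lift (fun γ => (lg v hv γ - (Complex.log (v (γ 1)) - Complex.log (v (γ 0)))) /
    (2 * Real.pi * Complex.I)) (by
    intro τ
    have h1 : e01 1 = e12 0 := by apply Subtype.ext; simp [e01, e12]
    have h2 : e01 0 = e02 0 := by apply Subtype.ext; simp [e01, e02]
    have h3 : e12 1 = e02 1 := by apply Subtype.ext; simp [e12, e02]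
    rw [← lg_tri]
    simp only [ContinuousMap.comp_apply, h1, h2, h3]
    ring)

theorem wlg_cls {X : Type} [TopologicalSpace X] (v : C(X, ℂ)) (hv : ∀ x, v x ≠ 0)
    (γ : C(I, X)) (θ : C(I, ℂ)) (h : ∀ t, Complex.exp (θ t) = v (γ t)) :
    wlg v hv (cls γ) = ((θ 1 - Complex.log (v (γ 1))) - (θ 0 - Complex.log (v (γ 0)))) /
      (2 * Real.pi * Complex.I) := by
  rw [wlg, Q.lift_cls, lg_eq v hv γ θ h]
  ring

/-- A path in the slit plane does not wind. -/
theorem wlg_slit {X : Type} [TopologicalSpace X] (v : C(X, ℂ)) (hv : ∀ x, v x ≠ 0)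
    (γ : C(I, X)) (h : ∀ t, v (γ t) ∈ Complex.slitPlane) : wlg v hv (cls γ) = 0 := by
  rw [wlg_cls v hv γ ⟨fun t => Complex.log (v (γ t)), Continuous.clog (by fun_prop) h⟩
    (fun t => Complex.exp_log (hv _))]
  simp

theorem log_neg_sub (z : ℂ) (h : z.re < 0) : Complex.log (-z) + Real.pi * Complex.I -
    Complex.log z = (if 0 ≤ z.im then 0 else 2 * Real.pi * Complex.I) := by
  have h0 : Complex.log (-z) - Complex.log z = ((Complex.arg (-z) - Complex.arg z : ℝ) : ℂ) *
      Complex.I := by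
    rw [Complex.log, Complex.log, norm_neg]; push_cast; ring
  split_ifs with h1
  · have h2 : Complex.arg (-z) = Complex.arg z - Real.pi := by
      rw [Complex.arg_neg_eq_arg_sub_pi_iff]
      rcases h1.lt_or_eq with h1 | h1
      · exact Or.inl h1
      · exact Or.inr ⟨h1.symm, h⟩
    have h3 : Complex.log (-z) + Real.pi * Complex.I - Complex.log z =
      (Complex.log (-z) - Complex.log z) + Real.pi * Complex.I := by ring
    rw [h3, h0, h2]; push_cast; ring
  · have h2 : Complex.arg (-z) = Complex.arg z + Real.pi := by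
      rw [Complex.arg_neg_eq_arg_add_pi_iff]
      exact Or.inl (not_le.1 h1)
    have h3 : Complex.log (-z) + Real.pi * Complex.I - Complex.log z =
      (Complex.log (-z) - Complex.log z) + Real.pi * Complex.I := by ring
    rw [h3, h0, h2]; push_cast; ring

/-- A path in the left half plane. -/
theorem wlg_left {X : Type} [TopologicalSpace X] (v : C(X, ℂ)) (hv : ∀ x, v x ≠ 0)
    (γ : C(I, X)) (h : ∀ t, (v (γ t)).re < 0) : wlg v hv (cls γ) =
      (if 0 ≤ (v (γ 0)).im then 1 else 0) - (if 0 ≤ (v (γ 1)).im then 1 else 0) := by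
  rw [wlg_cls v hv γ ⟨fun t => Complex.log (-(v (γ t))) + Real.pi * Complex.I,
    (Continuous.clog (by fun_prop) (fun t => Or.inl (by simpa using h t))).add continuous_const⟩
    (fun t => by
      show Complex.exp (Complex.log (-(v (γ t))) + Real.pi * Complex.I) = v (γ t)
      rw [Complex.exp_add, Complex.exp_log (neg_ne_zero.2 (hv _)), Complex.exp_pi_mul_I]
      ring)]
  show ((Complex.log (-(v (γ 1))) + Real.pi * Complex.I - Complex.log (v (γ 1))) -
    (Complex.log (-(v (γ 0))) + Real.pi * Complex.I - Complex.log (v (γ 0)))) /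
      (2 * Real.pi * Complex.I) = _
  rw [log_neg_sub _ (h 1), log_neg_sub _ (h 0)]
  have hpi : (2 * Real.pi * Complex.I : ℂ) ≠ 0 := Complex.two_pi_I_ne_zero
  split_ifs
  · simp
  · rw [zero_sub, neg_div, div_self hpi]; ring
  · rw [sub_zero, div_self hpi]; ring
  · simp

theorem sg_conf {n : ℕ} {z z' : Fin n → ℝ × ℝ} (h : segment ℝ z z' ⊆ conf n) :
    ∃ γ : C(I, conf n), sg (conf n) z z' = cls γ ∧
      ∀ t, (γ t : Fin n → ℝ × ℝ) = AffineMap.lineMap z z' (t : ℝ) := by
  have h' : ∀ t : I, AffineMap.lineMap z z' (t : ℝ) ∈ conf n := fun t =>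
    h (segment_eq_image_lineMap ℝ z z' ▸ ⟨t, t.2, rfl⟩)
  rw [sg, dif_pos h']
  exact ⟨_, rfl, fun t => rfl⟩

theorem lineMap_re {n : ℕ} (z z' : Fin n → ℝ × ℝ) (t : ℝ) (b : Fin n) :
    ((AffineMap.lineMap z z' t : Fin n → ℝ × ℝ) b).1 = (1 - t) * (z b).1 + t * (z' b).1 := by
  simp [AffineMap.lineMap_apply_module]

theorem lineMap_im {n : ℕ} (z z' : Fin n → ℝ × ℝ) (t : ℝ) (b : Fin n) :
    ((AffineMap.lineMap z z' t : Fin n → ℝ × ℝ) b).2 = (1 - t) * (z b).2 + t * (z' b).2 := by
  simp [AffineMap.lineMap_apply_module]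

theorem comb_lt {t x y x' y' : ℝ} (ht : t ∈ I) (h : x < y) (h' : x' < y') :
    (1 - t) * x + t * x' < (1 - t) * y + t * y' := by
  have h0 := ht.1
  have h1 := ht.2
  rcases h0.lt_or_eq with h0 | h0
  · have := mul_lt_mul_of_pos_left h' h0
    have := mul_le_mul_of_nonneg_left h.le (sub_nonneg.2 h1)
    linarith
  · subst h0; simpa using h

/-- The winding functional of the pair `a, b`: a homomorphism whose value on a straight segment
along which `z b - z a` stays in one of the half planes `x > 0`, `y > 0`, `y < 0` is zero, and whose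
value on a straight segment along which it stays in `x < 0` counts the crossings of the negative
real axis. -/
theorem exists_wnd (n : ℕ) (a b : Fin n) (hab : a ≠ b) : ∃ W : Q (conf n) →+ ℂ,
    (∀ z z', segment ℝ z z' ⊆ conf n → (z a).1 < (z b).1 → (z' a).1 < (z' b).1 →
      W (sg (conf n) z z') = 0) ∧
    (∀ z z', segment ℝ z z' ⊆ conf n → (z a).2 < (z b).2 → (z' a).2 < (z' b).2 →
      W (sg (conf n) z z') = 0) ∧
    (∀ z z', segment ℝ z z' ⊆ conf n → (z b).2 < (z a).2 → (z' b).2 < (z' a).2 →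
      W (sg (conf n) z z') = 0) ∧
    (∀ z z', segment ℝ z z' ⊆ conf n → (z b).1 < (z a).1 → (z' b).1 < (z' a).1 →
      W (sg (conf n) z z') = (if (z a).2 ≤ (z b).2 then 1 else 0) -
        (if (z' a).2 ≤ (z' b).2 then 1 else 0)) := by
  refine ⟨wlg (dv a b) (dv_ne hab), ?_, ?_, ?_, ?_⟩
  · intro z z' h h0 h1
    obtain ⟨γ, hγ, hγ'⟩ := sg_conf h
    rw [hγ]
    refine wlg_slit _ _ _ fun t => ?_
    left
    rw [dv_re, hγ', lineMap_re, lineMap_re]
    exact sub_pos.2 (comb_lt t.2 h0 h1)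
  · intro z z' h h0 h1
    obtain ⟨γ, hγ, hγ'⟩ := sg_conf h
    rw [hγ]
    refine wlg_slit _ _ _ fun t => ?_
    right
    rw [dv_im, hγ', lineMap_im, lineMap_im]
    exact (sub_pos.2 (comb_lt t.2 h0 h1)).ne'
  · intro z z' h h0 h1
    obtain ⟨γ, hγ, hγ'⟩ := sg_conf h
    rw [hγ]
    refine wlg_slit _ _ _ fun t => ?_
    right
    rw [dv_im, hγ', lineMap_im, lineMap_im]
    exact (sub_neg.2 (comb_lt t.2 h0 h1)).ne
  · intro z z' h h0 h1
    obtain ⟨γ, hγ, hγ'⟩ := sg_conf h
    rw [hγ, wlg_left _ _ _ fun t => by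
      rw [dv_re, hγ', lineMap_re, lineMap_re]
      exact sub_neg.2 (comb_lt t.2 h0 h1)]
    simp only [dv_im, hγ', lineMap_im, sub_nonneg]
    simp

/-- A chosen winding functional. -/
noncomputable def wnd {n : ℕ} {a b : Fin n} (hab : a ≠ b) : Q (conf n) →+ ℂ :=
  (exists_wnd n a b hab).choose

variable {n : ℕ} {a b : Fin n} (hab : a ≠ b) {z z' : Fin n → ℝ × ℝ}

theorem wnd_right (h : segment ℝ z z' ⊆ conf n) (h0 : (z a).1 < (z b).1)
    (h1 : (z' a).1 < (z' b).1) : wnd hab (sg (conf n) z z') = 0 :=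
  (exists_wnd n a b hab).choose_spec.1 z z' h h0 h1

theorem wnd_up (h : segment ℝ z z' ⊆ conf n) (h0 : (z a).2 < (z b).2)
    (h1 : (z' a).2 < (z' b).2) : wnd hab (sg (conf n) z z') = 0 :=
  (exists_wnd n a b hab).choose_spec.2.1 z z' h h0 h1

theorem wnd_down (h : segment ℝ z z' ⊆ conf n) (h0 : (z b).2 < (z a).2)
    (h1 : (z' b).2 < (z' a).2) : wnd hab (sg (conf n) z z') = 0 :=
  (exists_wnd n a b hab).choose_spec.2.2.1 z z' h h0 h1

theorem wnd_left (h : segment ℝ z z' ⊆ conf n) (h0 : (z b).1 < (z a).1)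
    (h1 : (z' b).1 < (z' a).1) : wnd hab (sg (conf n) z z') =
      (if (z a).2 ≤ (z b).2 then 1 else 0) - (if (z' a).2 ≤ (z' b).2 then 1 else 0) :=
  (exists_wnd n a b hab).choose_spec.2.2.2 z z' h h0 h1

end HSq
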