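import Pool.Agent.HSq.Conf
import Pool.Agent.HSq.Wind

/-!
# Winding numbers of the full twists
-/

namespace HSq

open Equiv

namespace ConfWind

theorem comb_lt {a b x y x' y' : ℝ} (ha : 0 ≤ a) (hb : 0 ≤ b) (hab : a + b = 1) (h : x < y)
    (h' : x' < y') : a * x + b * x' < a * y + b * y' := by
  rcases ha.lt_or_eq with h0 | h0
  · have h1 : a * x < a * y := mul_lt_mul_of_pos_left h h0
    have h2 : b * x' ≤ b * y' := mul_le_mul_of_nonneg_left h'.le hb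
    linarith
  · subst h0
    have hb1 : b = 1 := by linarith
    subst hb1
    linarith

theorem seg_conf {n : ℕ} {z z' : Fin n → ℝ × ℝ}
    (h : ∀ k l, k ≠ l → ((z k).1 < (z l).1 ∧ (z' k).1 < (z' l).1) ∨
      ((z l).1 < (z k).1 ∧ (z' l).1 < (z' k).1) ∨
      ((z k).2 < (z l).2 ∧ (z' k).2 < (z' l).2) ∨
      ((z l).2 < (z k).2 ∧ (z' l).2 < (z' k).2)) : segment ℝ z z' ⊆ conf n := by
  rintro _ ⟨a, b, ha, hb, hab, rfl⟩ k l hkl heq
  have e1 : a * (z k).1 + b * (z' k).1 = a * (z l).1 + b * (z' l).1 := by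
    have := congrArg Prod.fst heq
    simpa using this
  have e2 : a * (z k).2 + b * (z' k).2 = a * (z l).2 + b * (z' l).2 := by
    have := congrArg Prod.snd heq
    simpa using this
  rcases h k l hkl with h | h | h | h
  · exact (comb_lt ha hb hab h.1 h.2).ne e1
  · exact (comb_lt ha hb hab h.1 h.2).ne e1.symm
  · exact (comb_lt ha hb hab h.1 h.2).ne e2
  · exact (comb_lt ha hb hab h.1 h.2).ne e2.symm

theorem cfg_fst_lt {n : ℕ} (w : Perm (Fin n)) (y : Fin n → ℝ) (k l : Fin n) :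
    (cfg w y k).1 < (cfg w y l).1 ↔ w⁻¹ k < w⁻¹ l := by
  simp [cfg]

theorem cfg_snd {n : ℕ} (w : Perm (Fin n)) (y : Fin n → ℝ) (k : Fin n) :
    (cfg w y k).2 = y k := rfl

theorem seg_conf_heights {n : ℕ} (w : Perm (Fin n)) (y y' : Fin n → ℝ) :
    segment ℝ (cfg w y) (cfg w y') ⊆ conf n := by
  refine seg_conf fun k l hkl => ?_
  have h1 : w⁻¹ k ≠ w⁻¹ l := fun h => hkl (w⁻¹.injective h)
  rcases lt_or_gt_of_ne h1 with h2 | h2
  · exact Or.inl ⟨(cfg_fst_lt w y k l).2 h2, (cfg_fst_lt w y' k l).2 h2⟩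
  · exact Or.inr (Or.inl ⟨(cfg_fst_lt w y l k).2 h2, (cfg_fst_lt w y' l k).2 h2⟩)

theorem sw_lt {n : ℕ} (i : Fin n) {P R : Fin (n + 1)} (h : P < R)
    (h' : ¬ (P = i.castSucc ∧ R = i.succ)) : sw i P < sw i R := by
  have hs : ∀ x, sw i x = if x = i.castSucc then i.succ else if x = i.succ then i.castSucc else x :=
    fun x => Equiv.swap_apply_def _ _ _
  rw [hs, hs]
  simp only [Fin.ext_iff, Fin.lt_def, Fin.val_castSucc, Fin.val_succ] at h h' ⊢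
  split_ifs <;> (try simp only [Fin.val_castSucc, Fin.val_succ]) <;> omega

theorem inv_mul_sw {n : ℕ} (w : Perm (Fin (n + 1))) (i : Fin n) (k : Fin (n + 1)) :
    (w * sw i)⁻¹ k = sw i (w⁻¹ k) := by
  rw [mul_inv_rev, Perm.mul_apply]
  rfl

theorem inv_lt {n : ℕ} (w : Perm (Fin (n + 1))) (i : Fin n) {k l : Fin (n + 1)}
    (h : w⁻¹ k < w⁻¹ l) (h' : ¬ (k = w i.castSucc ∧ l = w i.succ)) :
    (w * sw i)⁻¹ k < (w * sw i)⁻¹ l := by
  rw [inv_mul_sw, inv_mul_sw]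
  refine sw_lt i h fun h2 => h' ⟨?_, ?_⟩
  · rw [← h2.1]; simp
  · rw [← h2.2]; simp

theorem seg_conf_swap {n : ℕ} (w : Perm (Fin (n + 1))) (i : Fin n) (y : Fin (n + 1) → ℝ)
    (hy : y (w i.castSucc) ≠ y (w i.succ)) :
    segment ℝ (cfg w y) (cfg (w * sw i) y) ⊆ conf (n + 1) := by
  refine seg_conf fun k l hkl => ?_
  by_cases h1 : k = w i.castSucc ∧ l = w i.succ
  · obtain ⟨rfl, rfl⟩ := h1
    rcases lt_or_gt_of_ne hy with h2 | h2
    · exact Or.inr (Or.inr (Or.inl ⟨h2, h2⟩))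
    · exact Or.inr (Or.inr (Or.inr ⟨h2, h2⟩))
  by_cases h2 : l = w i.castSucc ∧ k = w i.succ
  · obtain ⟨rfl, rfl⟩ := h2
    rcases lt_or_gt_of_ne hy with h3 | h3
    · exact Or.inr (Or.inr (Or.inr ⟨h3, h3⟩))
    · exact Or.inr (Or.inr (Or.inl ⟨h3, h3⟩))
  have h3 : w⁻¹ k ≠ w⁻¹ l := fun h => hkl (w⁻¹.injective h)
  rcases lt_or_gt_of_ne h3 with h4 | h4
  · exact Or.inl ⟨(cfg_fst_lt w y k l).2 h4, (cfg_fst_lt _ y k l).2 (inv_lt w i h4 h1)⟩
  · exact Or.inr (Or.inl ⟨(cfg_fst_lt w y l k).2 h4, (cfg_fst_lt _ y l k).2 (inv_lt w i h4 h2)⟩)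

end ConfWind

open ConfWind

theorem wnd_rot_FC {n : ℕ} (w : Perm (Fin (n + 1))) (i : Fin n) {a b : Fin (n + 1)}
    (hab : a ≠ b) : wnd hab (rot FC w i) =
      if (a = w i.castSucc ∧ b = w i.succ) ∨ (b = w i.castSucc ∧ a = w i.succ) then 1 else 0 := by
  have hww : w * sw i * sw i = w := by rw [mul_assoc, sw_mul_self, mul_one]
  have hs1 : (w * sw i) i.succ = w i.castSucc := by simp [sw]
  have hs2 : (w * sw i) i.castSucc = w i.succ := by simp [sw]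
  have hne : w i.castSucc ≠ w i.succ := fun h => (Fin.castSucc_lt_succ (i := i)).ne (w.injective h)
  have hlt : w⁻¹ (w i.castSucc) < w⁻¹ (w i.succ) := by
    simp
  have hlt' : (w * sw i)⁻¹ (w i.succ) < (w * sw i)⁻¹ (w i.castSucc) := by
    rw [← hs1, ← hs2]
    simp
  have hyq : (Pi.single (w i.succ) (1 : ℝ) : Fin (n + 1) → ℝ) (w i.castSucc) = 0 :=
    Pi.single_eq_of_ne hne 1
  have hyq' : (Pi.single (w i.succ) (1 : ℝ) : Fin (n + 1) → ℝ) (w i.succ) = 1 :=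
    Pi.single_eq_same _ _
  have hyp : (Pi.single (w i.castSucc) (1 : ℝ) : Fin (n + 1) → ℝ) (w i.succ) = 0 :=
    Pi.single_eq_of_ne hne.symm 1
  have hyp' : (Pi.single (w i.castSucc) (1 : ℝ) : Fin (n + 1) → ℝ) (w i.castSucc) = 1 :=
    Pi.single_eq_same _ _
  have c2 : segment ℝ (cfg w (Pi.single (w i.succ) 1)) (cfg (w * sw i) (Pi.single (w i.succ) 1))
      ⊆ conf (n + 1) := seg_conf_swap w i _ (by rw [hyq, hyq']; exact zero_ne_one)
  have c5 : segment ℝ (cfg (w * sw i) (Pi.single (w i.castSucc) 1))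
      (cfg w (Pi.single (w i.castSucc) 1)) ⊆ conf (n + 1) := by
    rw [segment_symm]
    exact seg_conf_swap w i _ (by rw [hyp, hyp']; exact one_ne_zero)
  have c1 := seg_conf_heights w 0 (Pi.single (w i.succ) 1)
  have c3 := seg_conf_heights (w * sw i) (Pi.single (w i.succ) 1) 0
  have c4 := seg_conf_heights (w * sw i) 0 (Pi.single (w i.castSucc) 1)
  have c6 := seg_conf_heights w (Pi.single (w i.castSucc) 1) 0
  rw [rot, FC, FC, hs1, hww]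
  simp only [map_add]
  by_cases hA : a = w i.castSucc ∧ b = w i.succ
  · obtain ⟨rfl, rfl⟩ := hA
    rw [if_pos (Or.inl ⟨rfl, rfl⟩)]
    rw [wnd_right hab c1 ((cfg_fst_lt _ _ _ _).2 hlt) ((cfg_fst_lt _ _ _ _).2 hlt),
      wnd_up hab c2 (by simp only [cfg]; rw [hyq, hyq']; exact one_pos)
        (by simp only [cfg]; rw [hyq, hyq']; exact one_pos),
      wnd_left hab c3 ((cfg_fst_lt _ _ _ _).2 hlt') ((cfg_fst_lt _ _ _ _).2 hlt'),
      wnd_left hab c4 ((cfg_fst_lt _ _ _ _).2 hlt') ((cfg_fst_lt _ _ _ _).2 hlt'),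
      wnd_down hab c5 (by simp only [cfg]; rw [hyp, hyp']; exact one_pos)
        (by simp only [cfg]; rw [hyp, hyp']; exact one_pos),
      wnd_right hab c6 ((cfg_fst_lt _ _ _ _).2 hlt) ((cfg_fst_lt _ _ _ _).2 hlt)]
    simp only [cfg_snd, hyq, hyq', hyp, hyp', Pi.zero_apply]
    norm_num
  by_cases hB : b = w i.castSucc ∧ a = w i.succ
  · obtain ⟨rfl, rfl⟩ := hB
    rw [if_pos (Or.inr ⟨rfl, rfl⟩)]
    rw [wnd_left hab c1 ((cfg_fst_lt _ _ _ _).2 hlt) ((cfg_fst_lt _ _ _ _).2 hlt),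
      wnd_down hab c2 (by simp only [cfg]; rw [hyq, hyq']; exact one_pos)
        (by simp only [cfg]; rw [hyq, hyq']; exact one_pos),
      wnd_right hab c3 ((cfg_fst_lt _ _ _ _).2 hlt') ((cfg_fst_lt _ _ _ _).2 hlt'),
      wnd_right hab c4 ((cfg_fst_lt _ _ _ _).2 hlt') ((cfg_fst_lt _ _ _ _).2 hlt'),
      wnd_up hab c5 (by simp only [cfg]; rw [hyp, hyp']; exact one_pos)
        (by simp only [cfg]; rw [hyp, hyp']; exact one_pos),
      wnd_left hab c6 ((cfg_fst_lt _ _ _ _).2 hlt) ((cfg_fst_lt _ _ _ _).2 hlt)]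
    simp only [cfg_snd, hyq, hyq', hyp, hyp', Pi.zero_apply]
    norm_num
  rw [if_neg (by tauto)]
  have h3 : w⁻¹ a ≠ w⁻¹ b := fun h => hab (w⁻¹.injective h)
  rcases lt_or_gt_of_ne h3 with h4 | h4
  · have h5 := inv_lt w i h4 hA
    rw [wnd_right hab c1 ((cfg_fst_lt _ _ _ _).2 h4) ((cfg_fst_lt _ _ _ _).2 h4),
      wnd_right hab c2 ((cfg_fst_lt _ _ _ _).2 h4) ((cfg_fst_lt _ _ _ _).2 h5),
      wnd_right hab c3 ((cfg_fst_lt _ _ _ _).2 h5) ((cfg_fst_lt _ _ _ _).2 h5),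
      wnd_right hab c4 ((cfg_fst_lt _ _ _ _).2 h5) ((cfg_fst_lt _ _ _ _).2 h5),
      wnd_right hab c5 ((cfg_fst_lt _ _ _ _).2 h5) ((cfg_fst_lt _ _ _ _).2 h4),
      wnd_right hab c6 ((cfg_fst_lt _ _ _ _).2 h4) ((cfg_fst_lt _ _ _ _).2 h4)]
    simp
  · have h5 := inv_lt w i h4 hB
    rw [wnd_left hab c1 ((cfg_fst_lt _ _ _ _).2 h4) ((cfg_fst_lt _ _ _ _).2 h4),
      wnd_left hab c2 ((cfg_fst_lt _ _ _ _).2 h4) ((cfg_fst_lt _ _ _ _).2 h5),
      wnd_left hab c3 ((cfg_fst_lt _ _ _ _).2 h5) ((cfg_fst_lt _ _ _ _).2 h5),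
      wnd_left hab c4 ((cfg_fst_lt _ _ _ _).2 h5) ((cfg_fst_lt _ _ _ _).2 h5),
      wnd_left hab c5 ((cfg_fst_lt _ _ _ _).2 h5) ((cfg_fst_lt _ _ _ _).2 h4),
      wnd_left hab c6 ((cfg_fst_lt _ _ _ _).2 h4) ((cfg_fst_lt _ _ _ _).2 h4)]
    simp only [cfg_snd]
    ring

end HSq
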