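import Pool.Agent.HSq.PB

/-!
# The loops only depend on the pair of letters

Plan.  (ii) `rot F w i = rot F (w * sw j) i` for `|i - j| ≥ 2` (add two commutation relations);
(iii) `rot F w (i+1) = rot F (w * sw i * sw (i+1)) i` (add the braid relations at `w` and at
`w * sw (i+1)`); so one reduces to `i = 0`, and there the letters at positions `≥ 2` may be permuted
arbitrarily by adjacent exchanges.
-/

namespace HSq

open Equiv

private theorem pbrot_sw_comm {n : ℕ} {i j : Fin n} (h : (i : ℕ) + 2 ≤ j) :
    sw i * sw j = sw j * sw i := by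
  unfold sw
  apply Equiv.Perm.Disjoint.commute
  apply Equiv.Perm.disjoint_swap_swap
  simp only [List.nodup_cons, List.mem_cons, List.not_mem_nil, or_false, not_or,
    List.nodup_nil, and_true, not_false_eq_true, Fin.ext_iff, Fin.val_castSucc, Fin.val_succ]
  omega

private theorem pbrot_sw_braid {n : ℕ} {i j : Fin n} (h : (i : ℕ) + 1 = j) :
    sw i * sw j * sw i = sw j * sw i * sw j := by
  unfold sw
  have e : j.castSucc = i.succ := by
    apply Fin.ext; simp [← h]
  rw [e]
  have n1 : i.castSucc ≠ i.succ := by
    intro hh; have := congrArg Fin.val hh; simp at this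
  have n2 : i.castSucc ≠ j.succ := by
    intro hh; have := congrArg Fin.val hh
    simp only [Fin.val_castSucc, Fin.val_succ] at this; omega
  have n3 : j.succ ≠ i.succ := by
    intro hh; have := congrArg Fin.val hh
    simp only [Fin.val_succ] at this; omega
  rw [Equiv.swap_mul_swap_mul_swap n1 n2]
  have := Equiv.swap_mul_swap_mul_swap n3 n2.symm
  rw [Equiv.swap_comm i.succ i.castSucc, Equiv.swap_comm j.succ i.succ] at this
  rw [this, Equiv.swap_comm]

private theorem pbrot_far {n : ℕ} {B : Type*} [AddCommGroup B] {F : Perm (Fin (n + 1)) → Fin n → B}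
    (hF : BraidFun n F) (w : Perm (Fin (n + 1))) {i j : Fin n} (h : (i : ℕ) + 2 ≤ j) :
    rot F (w * sw j) i = rot F w i := by
  have h1 := hF.comm w i j h
  have h2 := hF.comm (w * sw i) i j h
  rw [mul_assoc w (sw i) (sw i), sw_mul_self, mul_one] at h2
  have e : w * sw j * sw i = w * sw i * sw j := by
    rw [mul_assoc, mul_assoc, pbrot_sw_comm h]
  unfold rot
  rw [e]
  have h3 : (F w i + F (w * sw i) j) + (F (w * sw i) i + F w j) =
      (F w j + F (w * sw j) i) + (F (w * sw i) j + F (w * sw i * sw j) i) := by
    rw [h1, h2]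
  have h4 : (F (w * sw j) i + F (w * sw i * sw j) i) - (F w i + F (w * sw i) i) =
      ((F w j + F (w * sw j) i) + (F (w * sw i) j + F (w * sw i * sw j) i)) -
      ((F w i + F (w * sw i) j) + (F (w * sw i) i + F w j)) := by abel
  rw [h3, sub_self] at h4
  exact sub_eq_zero.1 h4

private theorem pbrot_near {n : ℕ} {B : Type*} [AddCommGroup B]
    {F : Perm (Fin (n + 1)) → Fin n → B}
    (hF : BraidFun n F) (w : Perm (Fin (n + 1))) {i j : Fin n} (h : (i : ℕ) + 1 = j) :
    rot F (w * sw i * sw j) i = rot F w j := by
  have h1 := hF.braid w i j h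
  have h2 := hF.braid (w * sw j) i j h
  rw [mul_assoc w (sw j) (sw j), sw_mul_self, mul_one] at h2
  have e : w * sw j * sw i * sw j = w * sw i * sw j * sw i := by
    simp only [mul_assoc]
    rw [← mul_assoc (sw j), ← pbrot_sw_braid h, mul_assoc]
  rw [e] at h2
  unfold rot
  have h4 : (F (w * sw i * sw j) i + F (w * sw i * sw j * sw i) i) - (F w j + F (w * sw j) j) =
      ((F w i + F (w * sw i) j + F (w * sw i * sw j) i) +
        (F (w * sw j) i + F (w * sw j * sw i) j + F (w * sw i * sw j * sw i) i)) -
      ((F w j + F (w * sw j) i + F (w * sw j * sw i) j) +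
        (F (w * sw j) j + F w i + F (w * sw i) j)) := by abel
  rw [h1, h2, sub_self] at h4
  exact sub_eq_zero.1 h4

/-- letters of `w * sw j`. -/
private theorem pbrot_mul_apply_of_lt {n : ℕ} (w : Perm (Fin (n + 1))) (j : Fin n)
    (k : Fin (n + 1)) (h : (k : ℕ) < j) : (w * sw j) k = w k := by
  rw [Perm.mul_apply, sw, swap_apply_of_ne_of_ne]
  · intro hh; rw [hh] at h; simp at h
  · intro hh; rw [hh] at h; simp only [Fin.val_succ] at h; omega

private theorem pbrot_tail {m : ℕ} {B : Type*} [AddCommGroup B]
    {F : Perm (Fin (m + 1 + 1)) → Fin (m + 1) → B} (hF : BraidFun (m + 1) F) :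
    ∀ d k : ℕ, 2 ≤ k → k + d = m + 2 → ∀ w w' : Perm (Fin (m + 1 + 1)),
      (∀ x : Fin (m + 1 + 1), (x : ℕ) < k → w x = w' x) → rot F w 0 = rot F w' 0 := by
  intro d
  induction d with
  | zero =>
    intro k _ hk w w' h
    have : w = w' := Equiv.ext fun x => h x (by have := x.2; omega)
    rw [this]
  | succ d ih =>
    intro k hk2 hk w w' h
    -- position of the letter `w' k` in `w`
    have key : ∀ e : ℕ, ∀ w : Perm (Fin (m + 1 + 1)),
        (∀ x : Fin (m + 1 + 1), (x : ℕ) < k → w x = w' x) →
        ∀ p : Fin (m + 1 + 1), w p = w' ⟨k, by omega⟩ → (p : ℕ) = k + e →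
        rot F w 0 = rot F w' 0 := by
      intro e
      induction e with
      | zero =>
        intro w hw p hp hpe
        apply ih (k + 1) (by omega) (by omega) w w'
        intro x hx
        rcases Nat.lt_succ_iff_lt_or_eq.1 hx with hx | hx
        · exact hw x hx
        · have e1 : x = p := Fin.ext (by omega)
          have e2 : x = ⟨k, by omega⟩ := Fin.ext hx
          rw [e1, hp, ← e2, e1]
      | succ e ihe =>
        intro w hw p hp hpe
        have hp2 := p.2
        let j : Fin (m + 1) := ⟨k + e, by omega⟩
        have hj : (j : ℕ) = k + e := rfl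
        have hfar : rot F (w * sw j) 0 = rot F w 0 := by
          apply pbrot_far hF
          simp only [Fin.val_zero]; omega
        rw [← hfar]
        apply ihe (w * sw j) _ j.castSucc
        · rw [Perm.mul_apply, sw, swap_apply_left, ← hp]
          congr 1
          apply Fin.ext
          simp only [Fin.val_succ]; omega
        · simp [hj]
        · intro x hx
          rw [pbrot_mul_apply_of_lt w j x (by omega)]
          exact hw x hx
    set p : Fin (m + 1 + 1) := w.symm (w' ⟨k, by omega⟩) with hp
    have hwp : w p = w' ⟨k, by omega⟩ := by rw [hp]; simp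
    have hpk : k ≤ (p : ℕ) := by
      by_contra hlt
      rw [not_le] at hlt
      have := h p hlt
      rw [hwp] at this
      have h2 := congrArg Fin.val (w'.injective this)
      simp only at h2
      omega
    exact key (p - k) w h p hwp (by omega)

private theorem pbrot_reduce {m : ℕ} {B : Type*} [AddCommGroup B]
    {F : Perm (Fin (m + 1 + 1)) → Fin (m + 1) → B} (hF : BraidFun (m + 1) F) :
    ∀ (a : ℕ) (i : Fin (m + 1)), (i : ℕ) = a → ∀ w : Perm (Fin (m + 1 + 1)),
      ∃ v : Perm (Fin (m + 1 + 1)), v 0 = w i.castSucc ∧ v 1 = w i.succ ∧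
        rot F w i = rot F v 0 := by
  intro a
  induction a with
  | zero =>
    intro i hi w
    have : i = 0 := Fin.ext hi
    subst this
    exact ⟨w, by simp, by simp, rfl⟩
  | succ a ih =>
    intro i hi w
    have hi2 := i.2
    let j : Fin (m + 1) := ⟨a, by omega⟩
    have hj : (j : ℕ) = a := rfl
    have hji : (j : ℕ) + 1 = i := by omega
    obtain ⟨v, h0, h1, h2⟩ := ih j rfl (w * sw j * sw i)
    refine ⟨v, ?_, ?_, ?_⟩
    · rw [h0, pbrot_mul_apply_of_lt _ _ _ (by simp only [Fin.val_castSucc]; omega),
        Perm.mul_apply, sw, swap_apply_left]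
      congr 1
      apply Fin.ext
      simp only [Fin.val_succ, Fin.val_castSucc]; omega
    · have e : j.succ = i.castSucc := by
        apply Fin.ext
        simp only [Fin.val_succ, Fin.val_castSucc]; omega
      rw [h1, e, Perm.mul_apply, Perm.mul_apply]
      rw [show (sw i) i.castSucc = i.succ from swap_apply_left _ _]
      rw [sw, swap_apply_of_ne_of_ne]
      · intro hh; have := congrArg Fin.val hh
        simp only [Fin.val_succ, Fin.val_castSucc] at this; omega
      · intro hh; have := congrArg Fin.val hh
        simp only [Fin.val_succ] at this; omega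
    · rw [← h2, pbrot_near hF w hji]

/-- `rot F w i` only depends on the pair of letters at the positions `i` and `i + 1`. -/
theorem rot_eq {n : ℕ} {B : Type*} [AddCommGroup B] {F : Perm (Fin (n + 1)) → Fin n → B}
    (hF : BraidFun n F) {w w' : Perm (Fin (n + 1))} {i i' : Fin n}
    (h0 : w i.castSucc = w' i'.castSucc) (h1 : w i.succ = w' i'.succ) :
    rot F w i = rot F w' i' := by
  cases n with
  | zero => exact i.elim0
  | succ m =>
    obtain ⟨v, a0, a1, a2⟩ := pbrot_reduce hF i i rfl w
    obtain ⟨v', b0, b1, b2⟩ := pbrot_reduce hF i' i' rfl w'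
    rw [a2, b2]
    apply pbrot_tail hF m 2 le_rfl (by omega) v v'
    intro x hx
    have hx' : x = 0 ∨ x = 1 := by
      rcases Nat.lt_succ_iff_lt_or_eq.1 hx with h | h
      · left; apply Fin.ext; rw [Fin.val_zero]; omega
      · right; apply Fin.ext; rw [h]; simp
    rcases hx' with rfl | rfl
    · rw [a0, b0, h0]
    · rw [a1, b1, h1]

end HSq
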