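import Pool.Agent.HSq.XWind

/-!
# Seven squares in the 4 × 3 rectangle
-/

namespace HSq

open Equiv

theorem X_main : ∃ FX : Perm (Fin 7) → Fin 6 → Q (hardSquares 7 4 3),
    BraidFun 6 FX ∧ (∀ w i, bd (rot FX w i) = 0) ∧
    (∀ ξ : Q (hardSquares 7 4 3), bd ξ = 0 →
      ξ ∈ AddSubgroup.closure {ζ | ∃ (w : Perm (Fin 7)) (i : Fin 6), ζ = rot FX w i}) ∧
    ∃ ε : ℤ, (ε = 1 ∨ ε = -1) ∧ ∀ (w : Perm (Fin 7)) (a b : Fin 7) (hab : a ≠ b),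
      wnd hab (Q.map (incl 7 4 3) (rot FX w 0)) =
        if (a = w 0 ∧ b = w 1) ∨ (b = w 0 ∧ a = w 1) then (ε : ℂ) else 0 :=
  ⟨FX, FX_braid, bd_rot_FX, X_generated, -1, Or.inr rfl, fun w _ _ hab => windX_rot hab w⟩

end HSq
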