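import Pool.Agent.HSq.Interface
import Pool.Agent.HSq.ConfGen
import Pool.Agent.HSq.ConfWind
import Pool.Agent.HSq.PBRot
import Pool.Agent.HSq.XMain

/-!
# The inclusion induces an isomorphism on first homology
-/

namespace HSq

open CategoryTheory Equiv

theorem bd_map {X Y : Type} [TopologicalSpace X] [TopologicalSpace Y] (f : C(X, Y)) (ξ : Q X) :
    bd (Q.map f ξ) = Finsupp.mapDomain f (bd ξ) := by
  induction ξ using Q.induction with
  | h0 => simp
  | h1 γ =>
    have h : Finsupp.mapDomain f (Finsupp.single (γ 1) (1 : ℤ) - Finsupp.single (γ 0) 1) =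
        Finsupp.mapDomain f (Finsupp.single (γ 1) (1 : ℤ)) -
          Finsupp.mapDomain f (Finsupp.single (γ 0) 1) :=
      map_sub (Finsupp.mapDomain.addMonoidHom f) _ _
    rw [Q.map_cls, bd_cls, bd_cls, h, Finsupp.mapDomain_single, Finsupp.mapDomain_single]
    rfl
  | hn ξ h =>
    have h' : Finsupp.mapDomain f (-bd ξ) = -Finsupp.mapDomain f (bd ξ) :=
      map_neg (Finsupp.mapDomain.addMonoidHom f) _
    rw [map_neg, map_neg, map_neg, h, h']
  | ha ξ η h1 h2 => rw [map_add, map_add, map_add, h1, h2, Finsupp.mapDomain_add]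

/-- The unordered pairs of labels. -/
abbrev Pr : Type := {p : Fin 7 × Fin 7 // p.1 < p.2}

theorem exists_perm {a b : Fin 7} (hab : a ≠ b) : ∃ w : Perm (Fin 7), w 0 = a ∧ w 1 = b := by
  refine ⟨swap 0 a * swap 1 (swap 0 a b), ?_, ?_⟩
  · have h1 : (0 : Fin 7) ≠ swap 0 a b := by
      intro h
      have h2 : swap 0 a 0 = b := (congrArg (swap 0 a) h).trans (swap_apply_self 0 a b)
      rw [swap_apply_left] at h2
      exact hab h2
    rw [Perm.mul_apply, swap_apply_of_ne_of_ne (a := 1) (b := swap 0 a b) (x := 0) (by decide) h1,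
      swap_apply_left]
  · rw [Perm.mul_apply, swap_apply_left, swap_apply_self]

/-- A permutation starting with the two given letters. -/
noncomputable def pw (p : Pr) : Perm (Fin 7) := (exists_perm (ne_of_lt p.2)).choose

theorem pw_zero (p : Pr) : pw p 0 = p.1.1 := (exists_perm (ne_of_lt p.2)).choose_spec.1

theorem pw_one (p : Pr) : pw p 1 = p.1.2 := (exists_perm (ne_of_lt p.2)).choose_spec.2

variable {B : Type*} [AddCommGroup B]

/-- The linear combinations of the 21 loops. -/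
noncomputable def comb (F : Perm (Fin 7) → Fin 6 → B) (m : Pr → ℤ) : B :=
  ∑ p, m p • rot F (pw p) 0

theorem rot_mem {F : Perm (Fin 7) → Fin 6 → B} (hF : BraidFun 6 F) (w : Perm (Fin 7))
    (i : Fin 6) : ∃ p : Pr, rot F w i = rot F (pw p) 0 := by
  have hne : w i.castSucc ≠ w i.succ := by
    intro h
    exact (ne_of_lt i.castSucc_lt_succ) (w.injective h)
  rcases lt_or_gt_of_ne hne with h | h
  · exact ⟨⟨(w i.castSucc, w i.succ), h⟩, rot_eq hF (pw_zero ⟨(w i.castSucc, w i.succ), h⟩).symm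
      (pw_one ⟨(w i.castSucc, w i.succ), h⟩).symm⟩
  · refine ⟨⟨(w i.succ, w i.castSucc), h⟩, ?_⟩
    rw [← rot_swap F w i]
    refine rot_eq hF ?_ ?_
    · refine Eq.trans ?_ (pw_zero ⟨(w i.succ, w i.castSucc), h⟩).symm
      simp [sw]
    · refine Eq.trans ?_ (pw_one ⟨(w i.succ, w i.castSucc), h⟩).symm
      simp [sw]

theorem comb_add (F : Perm (Fin 7) → Fin 6 → B) (m m' : Pr → ℤ) :
    comb F (m + m') = comb F m + comb F m' := by
  simp only [comb, Pi.add_apply, add_smul, Finset.sum_add_distrib]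

theorem comb_neg (F : Perm (Fin 7) → Fin 6 → B) (m : Pr → ℤ) :
    comb F (-m) = -comb F m := by
  simp only [comb, Pi.neg_apply, neg_smul, Finset.sum_neg_distrib]

theorem comb_single (F : Perm (Fin 7) → Fin 6 → B) (p : Pr) :
    comb F (Pi.single p 1) = rot F (pw p) 0 := by
  rw [comb, Finset.sum_eq_single p]
  · simp
  · intro q _ hq
    rw [Pi.single_eq_of_ne hq, zero_smul]
  · intro h
    exact absurd (Finset.mem_univ _) h

theorem exists_comb {F : Perm (Fin 7) → Fin 6 → B} (hF : BraidFun 6 F) {ξ : B}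
    (h : ξ ∈ AddSubgroup.closure {ζ | ∃ (w : Perm (Fin 7)) (i : Fin 6), ζ = rot F w i}) :
    ∃ m : Pr → ℤ, ξ = comb F m := by
  induction h using AddSubgroup.closure_induction with
  | mem x hx =>
    obtain ⟨w, i, rfl⟩ := hx
    obtain ⟨p, hp⟩ := rot_mem hF w i
    exact ⟨Pi.single p 1, by rw [hp, comb_single]⟩
  | zero => exact ⟨0, by simp [comb]⟩
  | add x y _ _ hx hy =>
    obtain ⟨m, rfl⟩ := hx
    obtain ⟨m', rfl⟩ := hy
    exact ⟨m + m', (comb_add F m m').symm⟩
  | neg x _ hx =>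
    obtain ⟨m, rfl⟩ := hx
    exact ⟨-m, (comb_neg F m).symm⟩

theorem pair_iff (p q : Pr) :
    ((p.1.1 = pw q 0 ∧ p.1.2 = pw q 1) ∨ (p.1.2 = pw q 0 ∧ p.1.1 = pw q 1)) ↔ p = q := by
  rw [pw_zero, pw_one]
  constructor
  · rintro (⟨h1, h2⟩ | ⟨h1, h2⟩)
    · exact Subtype.ext (Prod.ext h1 h2)
    · exfalso
      have hp := p.2
      have hq := q.2
      rw [h1, h2] at hp
      exact lt_asymm hp hq
  · rintro rfl
    exact Or.inl ⟨rfl, rfl⟩

theorem map_comb {A : Type*} [AddCommGroup A] (W : B →+ A) (F : Perm (Fin 7) → Fin 6 → B)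
    (m : Pr → ℤ) : W (comb F m) = ∑ q, m q • W (rot F (pw q) 0) := by
  rw [comb, map_sum]
  exact Finset.sum_congr rfl fun q _ => map_zsmul W _ _

theorem sum_delta (m : Pr → ℤ) (p : Pr) (c : ℂ) (v : Pr → ℂ)
    (hv : ∀ q, v q = if p = q then c else 0) : ∑ q, m q • v q = m p * c := by
  rw [Finset.sum_eq_single p]
  · rw [hv, if_pos rfl, zsmul_eq_mul]
  · intro q _ hq
    rw [hv, if_neg (Ne.symm hq), smul_zero]
  · intro h
    exact absurd (Finset.mem_univ _) h

theorem incl_bijective : Function.Bijective (inclStar 1 7 4 3).hom := by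
  obtain ⟨FX, hFX, hbd, hgen, ε, hε, hW⟩ := X_main
  have hFC : BraidFun 6 (FC (n := 6)) := FC_braid 6
  have hεc : (ε : ℂ) ≠ 0 := by
    rcases hε with h | h <;> rw [h] <;> norm_num
  have hε2 : ε * ε = 1 := by
    rcases hε with h | h <;> rw [h] <;> norm_num
  -- the winding numbers
  have hWX : ∀ (m : Pr → ℤ) (p : Pr),
      wnd (ne_of_lt p.2) (Q.map (incl 7 4 3) (comb FX m)) = m p * (ε : ℂ) := by
    intro m p
    rw [map_comb, map_sum]
    have h1 : ∀ q, wnd (ne_of_lt p.2) (m q • Q.map (incl 7 4 3) (rot FX (pw q) 0)) =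
        m q • (if p = q then (ε : ℂ) else 0) := by
      intro q
      rw [map_zsmul, hW]
      congr 1
      exact if_congr (pair_iff p q) rfl rfl
    rw [Finset.sum_congr rfl fun q _ => h1 q]
    exact sum_delta m p ε _ fun q => rfl
  have hWC : ∀ (m : Pr → ℤ) (p : Pr),
      wnd (ne_of_lt p.2) (comb (FC (n := 6)) m) = m p * 1 := by
    intro m p
    rw [map_comb]
    refine sum_delta m p 1 _ fun q => ?_
    rw [wnd_rot_FC]
    exact if_congr (pair_iff p q) rfl rfl
  have hbdc : ∀ m : Pr → ℤ, bd (comb FX m) = 0 := by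
    intro m
    rw [map_comb]
    refine Finset.sum_eq_zero fun q _ => ?_
    rw [hbd, smul_zero]
  have hcyc : ∀ m : Pr → ℤ, Q.map (incl 7 4 3) (comb FX m) = comb (FC (n := 6)) (ε • m) := by
    intro m
    have h1 : bd (Q.map (incl 7 4 3) (comb FX m)) = 0 := by
      rw [bd_map, hbdc, Finsupp.mapDomain_zero]
    obtain ⟨n, hn⟩ := exists_comb hFC (conf_generated _ h1)
    have h2 : n = ε • m := by
      funext p
      have h3 := hWX m p
      rw [hn, hWC, mul_one] at h3
      have h4 : n p = m p * ε := by exact_mod_cast h3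
      rw [h4, Pi.smul_apply, smul_eq_mul, mul_comm]
    rw [hn, h2]
  refine bijective_of_Q (incl 7 4 3) ?_ ?_
  · intro ξ hξ h0
    obtain ⟨m, rfl⟩ := exists_comb hFX (hgen ξ hξ)
    have hm : m = 0 := by
      funext p
      have h1 := hWX m p
      rw [h0, map_zero] at h1
      have h2 : (m p : ℂ) = 0 := by
        rcases mul_eq_zero.1 h1.symm with h | h
        · exact h
        · exact absurd h hεc
      exact_mod_cast h2
    rw [hm]
    simp [comb]
  · intro η hη
    obtain ⟨n, rfl⟩ := exists_comb hFC (conf_generated η hη)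
    refine ⟨comb FX (ε • n), hbdc _, ?_⟩
    rw [hcyc]
    congr 1
    funext p
    rw [Pi.smul_apply, Pi.smul_apply, smul_eq_mul, smul_eq_mul, ← mul_assoc, hε2, one_mul]

end HSq
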