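import Pool.Agent.HSq.CertMain

/-!
# The certificate in group-theoretic form
-/

namespace HSq

variable {G : Type*} [Group G] (g : ℕ → G)

/-- The braid generator. -/
def bg (s : ℕ) : G := lval g (bl s)

theorem bg_eq (s : ℕ) : bg g s = if s < 3 then g (repL.getD s 0) else (g (repL.getD s 0))⁻¹ := by
  unfold bg bl
  by_cases h : s < 3
  · have h1 : Nat.blt s 3 = true := by simpa [Nat.blt_eq] using h
    rw [h1, cond_true, if_pos h]
    simp [lval]
  · have h1 : Nat.blt s 3 = false := by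
      cases h2 : Nat.blt s 3 with
      | false => rfl
      | true => exact (h (by simpa [Nat.blt_eq] using h2)).elim
    rw [h1, cond_false, if_neg h, lval, if_neg (by omega)]
    congr 2; omega

theorem cert_braid (htree : ∀ a ∈ treeL, g a = 1)
    (hsq : ∀ s ∈ sqL, g s.1 * g s.2.1 = g s.2.2.1 * g s.2.2.2) (s : ℕ) (hs : s < 5) :
    bg g s * bg g (s + 1) * bg g s = bg g (s + 1) * bg g s * bg g (s + 1) := by
  obtain ⟨h1, h2⟩ := br_ok s hs
  have h3 := rel_one g htree hsq _ h1
  rw [h2] at h3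
  simp only [wval_cons, wval_nil, lval_linv] at h3
  unfold bg
  have h4 := mul_eq_one_iff_eq_inv.1 (show (lval g (bl s) * lval g (bl (s + 1)) * lval g (bl s)) *
    ((lval g (bl (s + 1)))⁻¹ * (lval g (bl s))⁻¹ * (lval g (bl (s + 1)))⁻¹) = 1 by
      rw [← h3]; group)
  rw [h4]; group

theorem cert_comm (htree : ∀ a ∈ treeL, g a = 1)
    (hsq : ∀ s ∈ sqL, g s.1 * g s.2.1 = g s.2.2.1 * g s.2.2.2) (s t : ℕ) (hst : s + 2 ≤ t)
    (ht : t < 6) : bg g s * bg g t = bg g t * bg g s := by
  obtain ⟨c, hc, h5, h6⟩ := co_mem s (by omega) t ht hst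
  obtain ⟨h1, h2⟩ := co_ok c hc
  have h3 := rel_one g htree hsq _ h1
  rw [h2, h5, h6] at h3
  simp only [wval_cons, wval_nil, lval_linv] at h3
  unfold bg
  have h4 := mul_eq_one_iff_eq_inv.1 (show (lval g (bl s) * lval g (bl t)) *
    ((lval g (bl s))⁻¹ * (lval g (bl t))⁻¹) = 1 by rw [← h3]; group)
  rw [h4]; group

theorem isB_mem {x : ℕ} (h : isB x = true) :
    lval g x ∈ Subgroup.closure (Set.range fun s : Fin 6 => bg g s) := by
  unfold isB at h
  rw [List.any_eq_true] at h
  obtain ⟨s, hs, h⟩ := h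
  rw [List.mem_range] at hs
  have hm : bg g s ∈ Subgroup.closure (Set.range fun s : Fin 6 => bg g s) :=
    Subgroup.subset_closure ⟨⟨s, hs⟩, rfl⟩
  rcases Bool.or_eq_true_iff.1 h with h | h
  · rw [Nat.eq_of_beq_eq_true h]; exact hm
  · rw [Nat.eq_of_beq_eq_true h, lval_linv]; exact inv_mem hm

theorem isB_all {w : List ℕ} (h : w.all isB = true) :
    wval g w ∈ Subgroup.closure (Set.range fun s : Fin 6 => bg g s) := by
  induction w with
  | nil => simp
  | cons x w ih =>
    rw [List.all_cons, Bool.and_eq_true] at h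
    rw [wval_cons]
    exact mul_mem (isB_mem g h.1) (ih h.2)

theorem cert_gen (htree : ∀ a ∈ treeL, g a = 1)
    (hsq : ∀ s ∈ sqL, g s.1 * g s.2.1 = g s.2.2.1 * g s.2.2.2) (a : ℕ) (ha : a ∈ codes) :
    g a ∈ Subgroup.closure (Set.range fun s : Fin 6 => bg g s) := by
  rw [codes, List.mem_append, List.mem_map] at ha
  rcases ha with ha | ⟨c, hc, rfl⟩
  · have h1 : ∃ s < 6, a = repL.getD s 0 := by
      obtain ⟨s, hs, rfl⟩ := List.getElem_of_mem ha
      exact ⟨s, hs, by rw [List.getD_eq_getElem _ _ hs]⟩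
    obtain ⟨s, hs, rfl⟩ := h1
    have hm : bg g s ∈ Subgroup.closure (Set.range fun s : Fin 6 => bg g s) :=
      Subgroup.subset_closure ⟨⟨s, hs⟩, rfl⟩
    rw [bg_eq] at hm
    split_ifs at hm
    · exact hm
    · exact inv_mem_iff.1 hm
  · have h := gen_ok c hc
    unfold genOK at h
    rw [Bool.and_eq_true] at h
    have h1 : c.2 < 1368 := by simpa [Nat.blt_eq] using h.1
    have h2 := rel_one g htree hsq _ h1
    revert h2
    have h3 := h.2
    revert h3
    cases relT.get c.2 with
    | nil => intro h3; exact (Bool.false_ne_true h3).elim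
    | cons x w =>
      intro h3 h2
      simp only [Bool.and_eq_true] at h3
      have hx := Nat.eq_of_beq_eq_true h3.1
      rw [wval_cons, hx] at h2
      have h4 : (2 * c.1 + 1) % 2 = 1 := by omega
      have h5 : (2 * c.1 + 1) / 2 = c.1 := by omega
      rw [lval, h4, h5, if_neg (by norm_num)] at h2
      have h6 : g c.1 = wval g w := (inv_mul_eq_one.1 h2)
      rw [h6]
      exact isB_all g h3.2

end HSq
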