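import Pool.Agent.HSq.CertData

/-!
# Certificate check
-/

namespace HSq

theorem check0 : checkAll relT 141 prf0 = true := by decide +kernel

theorem check1 : checkAll relT 241 prf1 = true := by decide +kernel

theorem check2 : checkAll relT 341 prf2 = true := by decide +kernel

theorem check3 : checkAll relT 441 prf3 = true := by decide +kernel

theorem check4 : checkAll relT 541 prf4 = true := by decide +kernel

theorem check5 : checkAll relT 641 prf5 = true := by decide +kernel

theorem check6 : checkAll relT 741 prf6 = true := by decide +kernel

theorem check7 : checkAll relT 841 prf7 = true := by decide +kernel

theorem check8 : checkAll relT 941 prf8 = true := by decide +kernel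

theorem check9 : checkAll relT 1041 prf9 = true := by decide +kernel

theorem check10 : checkAll relT 1141 prf10 = true := by decide +kernel

theorem check11 : checkAll relT 1241 prf11 = true := by decide +kernel

theorem check12 : checkAll relT 1341 prf12 = true := by decide +kernel

end HSq
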