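import Pool.Agent.HSq.Words

/-!
# Certificate: relators and derivations

The generators are numbered by the codes of the 130 types of vertical moves.
-/

namespace HSq

open Tr

/-- Relators. -/
def tr0 : Tr := N [2614] (N [4076] (N [3718,2706,2695,3749] (N [4744,3768,4615,4809] (N [5046,
  4044,4919,5069] (N [4745,4874,3914] (N [3751,3622] (N [4810,1542,4811,1543] Z Z) Z) (N [1543,
  3642,2603,1542,2453] (N [3865,2452,3622,3641] Z Z) Z)) (N [2605,2452,1564] (N [4938,4811] (N
  [2602,3623,2603,3641] Z Z) Z) (N [1413,2697,2582,2696] Z Z))) (N [3720,2706,2697,3749] (N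
  [2435,1410] (N [3932,4957] (N [2696,1564,2600,3641,1565,1543] Z Z) Z) (N [3623,1410,3622,
  1411] (N [2877,3640,4810,4956] Z Z) Z)) (N [2696,2730,1543,3771] (N [524,1411,1565,1412] (N
  [4813,4810,4956] Z Z) Z) (N [4777,3622,2583,3736] Z Z)))) (N [2578,1578,2451,2603] (N [4809]
  (N [1540,1413] (N [3850,2696,3851,4891] (N [2605,3737,3644,2582] Z Z) Z) (N [3640,2453,1543,
  3622,2696] (N [1593,3640] Z Z) Z)) (N [3732,2453] (N [5069,4812] (N [3737,4811,3736,4811,
  3642] Z Z) Z) (N [2696,1411,2697,2452] Z Z))) (N [1720,1543,2696] (N [3720,1412,2697,3735] (N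
  [3641,2697,1542] (N [4812,1542,4813,1543] Z Z) Z) (N [3640,2583,1411,2696] Z Z)) (N [4745,
  2696] (N [2604,1412,1565,1543] (N [1409] Z Z) Z) (N [4777,3850,2582,3851] Z Z))))) (N [4646,
  3620,3623,4663] (N [1538,552,1411,1577] (N [3620] (N [2708,1692,2733] (N [4874,3851,4919] (N
  [1543,2605,2696,1564] Z Z) Z) (N [2602,3643,3622] (N [4775,3622] Z Z) Z)) (N [2707] (N [3900,
  3645] (N [3643,3640,4810] Z Z) Z) (N [2601,1410,3623,1411,3640] Z Z))) (N [3734,2706,2711,
  3749] (N [3460,1413,3493] (N [4938,3737,4890] (N [2601,3737,3640,2582] Z Z) Z) (N [2452,3622,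
  2583] (N [2761] Z Z) Z)) (N [1412,2746,1413,2747] (N [2602,1412,1563,1543] (N [1410,3641,1411,
  3640] Z Z) Z) (N [2696,3851,4891,3850] Z Z)))) (N [3876,2906,3749,3931] (N [1542,1540,1543,
  2583] (N [1564,525,1411] (N [4904,4777] (N [1411,2696,3737] Z Z) Z) (N [2582,2453,2583,3622]
  (N [1579,3623,3640,4810] Z Z) Z)) (N [4760,3737,4791] (N [2583,2604,2602,1563,1565] (N [1564,
  3640,1565,4811] Z Z) Z) (N [3736,3623,2696,1543,3622,2697] Z Z))) (N [2890,3721,3850] (N
  [3719,1542] (N [1692,1565] (N [1564,3642,1565,4813] Z Z) Z) (N [2452,2603,3641,2697,3642,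
  1410] Z Z)) (N [2696,2582,2697,4777] (N [2603,1412,1562,1411] (N [3849,1410,2452,3622,3641] Z
  Z) Z) (N [4811,1413,4810,1412] Z Z)))))) (N [3720,2694,2697,3737] (N [3604,2578,2581,3621] (N
  [4760,3772,4631,4813] (N [2906,2748,2761,2877] (N [3915,4061,5005,4744] (N [3622,3786,3623,
  3787] (N [3641,3851,4810,3850] Z Z) Z) (N [3643,2582,2602,2453] (N [5019,2452,3622,3641,4811]
  Z Z) Z)) (N [1592,2617] (N [4810,2697,3850] (N [1564,3640,2602,1565,3641,3645] Z Z) Z) (N
  [3641,1412,3640,1413] Z Z))) (N [4615,1542] (N [2580,1564,2605] (N [4939,4891,3736] (N [3851,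
  1410,4890] Z Z) Z) (N [2605,1411,3623,1410,3644] (N [4663] Z Z) Z)) (N [1410,2600,1411,2601]
  (N [2452,1412,524,1411,2605] (N [2604,4810,2605,4957] Z Z) Z) (N [3736,2583,3737,4776] Z
  Z)))) (N [4888,3930,4761,4955] (N [3931] (N [1409] (N [2749,3772] (N [3623,4776,3640] Z Z) Z)
  (N [1413,3645,2696,3640,2604] (N [2605,3623,3640,4810,4956] Z Z) Z)) (N [2696,4745,4790] (N
  [1565,1542,524,1413] (N [3645,4810,3642,3641,4811,4812] Z Z) Z) (N [2696,2453,2697,3622] Z
  Z))) (N [1542,2600,3461,3641] (N [3623,3644,2605] (N [2730,2603] (N [1564,2603,1565,3644] Z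
  Z) Z) (N [3644,1410,3645,1411] Z Z)) (N [3736,3915,4891] (N [3622,1542,1564,1413,3645] (N
  [2563,1410] Z Z) Z) (N [4776,4890,2583,4891] Z Z))))) (N [2566,1564,2437,2605] (N [3718,2760,
  3591,3785] (N [5100] (N [3750,2732,3773] (N [4918] (N [3645,2696,2604,1543] Z Z) Z) (N [3643,
  3644,1413,3645,3642,1412] (N [3643,3640,4810] Z Z) Z)) (N [3720,2697] (N [5085,4956] (N [3645,
  3642,4811,4812] Z Z) Z) (N [1411,2601,1410,2600] Z Z))) (N [4646,3623] (N [2694,1543] (N
  [4060,5085] (N [3640,4812,3645] Z Z) Z) (N [1413,1410,2452] (N [567] Z Z) Z)) (N [3865,3736]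
  (N [1542,1411,1543,2452] (N [3622,4811,3623,4810] Z Z) Z) (N [3737,3850,2696,3851,4810] Z
  Z)))) (N [5032,4076,4905,5101] (N [3720,2692,2697,3735] (N [553,1576] (N [3787,4810] (N [2600,
  4776,3622,3640] Z Z) Z) (N [1542,3623,1413] (N [3899,3640,4810] Z Z) Z)) (N [4758,2583,4791]
  (N [1413,1543,2582,1542] (N [4813,2604,4810,2605,4812,4811] Z Z) Z) (N [3737,2452,4776] Z
  Z))) (N [4745,1542,3769] (N [2581,2452] (N [3770,3643] (N [2603,2697,3642,1542] Z Z) Z) (N
  [2697,3736,2696,1543] Z Z)) (N [5019,4890] (N [3641,1542,2600,1413] (N [2711,2452,3622] Z Z)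
  Z) (N [4811,1543,4810,1542] Z Z))))))

/-- Relators. -/
def tr1 : Tr := N [1536] (N [2566,1536,1543,2579] (N [4744,3748,3721,4791] (N [2582,1564,2453,
  2605] (N [1708,1564,1563,1693] (N [4060,4875,5004] (N [3622,2762,3623,3787] (N [3737,3850,
  1542,3851] Z Z) Z) (N [3643,1542,2602,1413] (N [4761,2452,3622,3641] Z Z) Z)) (N [2711,2582]
  (N [4811,3851,2696] (N [4813,2604,4776,2605,3644,3640] Z Z) Z) (N [3640,2601,3623] Z Z))) (N
  [3718,2706,2695,3749] (N [2581,2602,1563] (N [3914,4939] (N [1411,3643,2696,3737,3642] Z Z)
  Z) (N [1412,2601,3623,1413,3640] (N [4029,3640,4810,4956] Z Z) Z)) (N [4760,2582,3737,4777]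
  (N [1413,1564,1410,525] (N [4811,4812,4957] Z Z) Z) (N [2605,2697,4776,2696,1564,2453] Z
  Z)))) (N [2706,1708,2579,2733] (N [4955] (N [1538,1411] (N [2746,3771] (N [2604,3622,2605,
  3640] Z Z) Z) (N [3622,1543,3644,1412,3645] (N [3771,3640,4810] Z Z) Z)) (N [2861,3879,3900]
  (N [525,1543,1564,1412] (N [2603,3642,2602,2601] Z Z) Z) (N [3640,1411,3641,1410] Z Z))) (N
  [1542,1562,2437,2603] (N [3477,2452] (N [2696,3640,1543] (N [1564,1563,1565,2604] Z Z) Z) (N
  [3622,1564,1562,2603,1565] Z Z)) (N [4759,2582] (N [1565,1413,2604,1410] (N [2697,1410,2452,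
  3622,3641] Z Z) Z) (N [2582,4810,2583,4811] Z Z))))) (N [1540,524,1411,1565] (N [2694,1736,
  2567,2761] (N [2578] (N [3915,4891,4760] (N [4919,4874,3851] (N [1543,2605,3737,2696,2604,
  1412] Z Z) Z) (N [3622,2602,3643] (N [4791] Z Z) Z)) (N [3749,3720,2697] (N [4941,4812] (N
  [2582,3643,3737,4810] Z Z) Z) (N [1412,1563,2600,3641,1562,1411] Z Z))) (N [4631,2582] (N
  [2453,3493,3476] (N [4060,5085] (N [4811,3641,4891,4810,3736] Z Z) Z) (N [1411,1412,2453] (N
  [1591] Z Z) Z)) (N [1708,2733] (N [1564,1413,2605,1542] (N [2452,3641,2453,3640] Z Z) Z) (N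
  [2697,3851,3736,4811,3850] Z Z)))) (N [3876,2874,3749,3899] (N [2564,1541] (N [2434,1411,
  2451] (N [4776,3932,4777,4957] (N [3644,3622,2605,4777] Z Z) Z) (N [3623,1413,1542] (N [2893,
  4810,4956] Z Z) Z)) (N [4791,4760,3737] (N [2453,2582,1564,2453,1565] (N [2604,3640,2605,
  4811] Z Z) Z) (N [3736,2452,3737,3623] Z Z))) (N [3720,2730,1543,3771] (N [3849,3720] (N
  [3736,3644,2583,4813] (N [3644,3643,3645,4812] Z Z) Z) (N [1543,2697,3736,2696] Z Z)) (N
  [4889,3736] (N [1413,3641,1542,2600] (N [5005,1410,2452,3622,3641,4811,4957] Z Z) Z) (N [4810,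
  3623,4811,3622] Z Z)))))) (N [3590,2580,2567,3623] (N [4630,3620,3607,4663] (N [3878,2860,
  3749,3901] (N [4076,3916,3931,4045] (N [2708,1692,2733] (N [3901,3622,2860] (N [4776,4957,
  4777,4956] Z Z) Z) (N [2603,2583,3642,2452] (N [3879,3622] Z Z) Z)) (N [2708,2453] (N [3642,
  3899] (N [3642,1543,4811,2696] Z Z) Z) (N [3640,3622,3641,2697,3641,1412] Z Z))) (N [3606,
  2583] (N [2605,2580,1564] (N [3914,4939] (N [2600,4957,4776,4956,3622,3640] Z Z) Z) (N [3622,
  2583,2452] (N [3785] Z Z) Z)) (N [2452,1722,2453,2747] (N [1562,1413,2603,1542] (N [4957,1411,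
  4956,1410] Z Z) Z) (N [3736,2583,4811,4891,4776] Z Z)))) (N [3750,2760,3623,3785] (N [2436,
  1408,1413,2451] (N [525,1411,1564] (N [2874,3899] (N [2697,1412,4776] Z Z) Z) (N [3644,2452,
  2605,2583] (N [3917,4810,4956] Z Z) Z)) (N [4791,1542,3769,2697] (N [2453,2605,2582,1564] (N
  [2605,3642,2602,2601,4811,4812] Z Z) Z) (N [2697,3622,2696,2453] Z Z))) (N [2745,3721,1542]
  (N [1564,3645,3622,2580] (N [1693,1564] (N [1564,2602,1565,3645] Z Z) Z) (N [3645,1411,3644,
  1410] Z Z)) (N [4875,2696,3915] (N [1563,1413,2602,1410] (N [3721,1410,2452,3622,3641] Z Z)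
  Z) (N [4810,1413,4811,1412] Z Z))))) (N [3590,2602,3461,3643] (N [2578,1592,2451,2617] (N
  [2906] (N [3750,2732,3773] (N [2890,3915] (N [2697,2604,3622,2605,2696,3623] Z Z) Z) (N [3642,
  1413,3643,1542,3623] (N [3789,4810,4956] Z Z) Z)) (N [3851,2696,2891] (N [5084,4957] (N [4813,
  3644,3640,4810,3645] Z Z) Z) (N [1543,3640,2453,3641,1542,1410] Z Z))) (N [1542,524,1413,
  1565] (N [3720,1542,2697,3737] (N [3640,3769] (N [4813,1411,4812,1410] Z Z) Z) (N [1410,2582,
  1543] Z Z)) (N [3862,2583] (N [1412,1410,1413,2453] (N [4811,4957,4811,4956,4810,4956] Z Z)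
  Z) (N [2582,3851,4777,3850] Z Z)))) (N [5046,4076,4919,5101] (N [3590,1543] (N [539,1562] (N
  [3789,4812] (N [3641,2696,2600,1543] Z Z) Z) (N [3622,1411,3623,1410] (N [1563,2453,3623,3640,
  4810] Z Z) Z)) (N [4774,3751,4791] (N [1542,1412,1543,2583] (N [4813,4810,3641,4811,4812,
  3640] Z Z) Z) (N [4777,2696,2582,2697] Z Z))) (N [4874,3914,4745] (N [2453,2604,1565] (N
  [2696,2602,1543,3643] (N [3643,2696,2602,1543] Z Z) Z) (N [4810,1542,2697,3737,3850] Z Z)) (N
  [2618,3643] (N [2603,1543,3642,1412] (N [3607,2452,3622] Z Z) Z) (N [4810,1543,4811,1542] Z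
  Z))))))

/-- Relators. -/
def tr2 : Tr := N [3930] (N [2566,1540,1543,2583] (N [4874,3862,3851,4905] (N [4874,3914,4745,
  4955] (N [1736,1578,1591,1707] (N [3769,3915,4875,1542] (N [3750,3623] (N [3851,4810,3850,
  3641] Z Z) Z) (N [1543,2602,3643,1542,2452] (N [3863,2452,3622] Z Z) Z)) (N [1542,2452,1543,
  3623] (N [2696,4811,3851] (N [1563,3640,1562,3622] Z Z) Z) (N [3622,2600,3641] Z Z))) (N
  [3589,1540] (N [1562,2603,2580] (N [5046] (N [3641,2604,2602,3643,2605] Z Z) Z) (N [1542,2604,
  3645,1413] (N [1709,3623,3640,4810,4956] Z Z) Z)) (N [2696,1412,2697,2583] (N [1411,1565,1412,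
  524] (N [4957,4811,4812] Z Z) Z) (N [4776,2696,2583,2697] Z Z)))) (N [2706,1722,2579,2747] (N
  [3639] (N [1412,524,1411,1565] (N [2746,3771] (N [3644,3622,2605,4777] Z Z) Z) (N [2604,1413,
  3645,1542] (N [3769,3640] Z Z) Z)) (N [3878,2860,3901] (N [4029,3644] (N [3643,4810,3642,
  3641] Z Z) Z) (N [3640,2452,3641,2453] Z Z))) (N [2697,1542,1721] (N [3493] (N [3768,3641] (N
  [1564,1563,1565,2604] Z Z) Z) (N [2452,3644,1564,2605,3645] Z Z)) (N [4761,3736] (N [1542,
  1411,1543,2452] (N [2437,1410,2452] Z Z) Z) (N [4777,4890,2582,4891] Z Z))))) (N [4902,3876,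
  3879,4919] (N [1536,538,1409,1563] (N [3784] (N [4890,3914,4761] (N [3850,4875,4918] (N [2697,
  2604,1542,1565] Z Z) Z) (N [3623,3642,2603] (N [4903,3622] Z Z) Z)) (N [2697,3749,3720] (N
  [3900,3645] (N [3640,4810,3643] Z Z) Z) (N [2582,2696,1413,2697] Z Z))) (N [4760,3734,3737,
  4777] (N [1412,3461,3492] (N [3917,4940] (N [4891,4811,4890,3640] Z Z) Z) (N [3642,2453,3643,
  2452] (N [5101] Z Z) Z)) (N [1706,2731] (N [1565,1543,2604,1412] (N [1410,4957,1411,4956] Z
  Z) Z) (N [3850,2697,3851,4890] Z Z)))) (N [3748,2748,3621,3773] (N [2564,1541] (N [1413,2451,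
  2436] (N [4904,4777] (N [1543,3640,2696,4777,2601] Z Z) Z) (N [1412,3622,1543] (N [2891,4810]
  Z Z) Z)) (N [3736,4761,4790] (N [3644,2452,1565,2583,3623] (N [3644,3640,3645,4811] Z Z) Z)
  (N [2452,2697,2604,3645,2696] Z Z))) (N [3851,3720,2891] (N [1542,2706,1543,3749] (N [3772,
  3645] (N [1564,3643,1565,4812] Z Z) Z) (N [2697,3737,2696,1542] Z Z)) (N [3736,2582,3737,
  4777] (N [2600,1413,3641,1542] (N [4745,1410,2452,3622,3641] Z Z) Z) (N [1412,4810,3622,1543,
  4811] Z Z)))))) (N [4874,3848,3851,4891] (N [3732,2706,2709,3749] (N [3622,2604,3493,3645] (N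
  [4076,3932,3931,4061] (N [2580,1562,2451,2603] (N [3879,3622] (N [4956,4777,4957,4776] Z Z)
  Z) (N [3642,2452,2603,2583] (N [3751,3622] Z Z) Z)) (N [2709,2452] (N [5084,4810,2697,5004]
  (N [2605,1564,3640,1565,2604,3641] Z Z) Z) (N [2583,2696,1412,2697] Z Z))) (N [4874,3876,3851,
  4919] (N [1565,2581,2604] (N [3736,4939,4891] (N [5005,1410,4890,4957] Z Z) Z) (N [3641,1412,
  3644,2605,2600,1413] (N [3621] Z Z) Z)) (N [1579,2602] (N [1563,1543,2602,1412] (N [4813,4956,
  4812,4811] Z Z) Z) (N [4777,3736,2582,3737] Z Z)))) (N [3620,2616,3493,3641] (N [1591] (N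
  [1410,524,1565] (N [2892,3917] (N [3641,4777,3622] Z Z) Z) (N [2583,3623,2582,2452] (N [3915,
  4810] Z Z) Z)) (N [4791,4744,2697] (N [1564,2453,2605,2582] (N [2604,3640,3643,4811,2605,
  4812] Z Z) Z) (N [2453,2696,1542,2583,2697] Z Z))) (N [3720,2744,1543] (N [3622,2604,3645] (N
  [2696,2602,1543,3771] (N [1564,1562,1565,2605] Z Z) Z) (N [3643,1411,3642,1410] Z Z)) (N
  [2697,4874,3914] (N [3622,1412,1564,1411,3645] (N [3461,1410,2452] Z Z) Z) (N [3640,4810,2583,
  4811,1411,2696] Z Z))))) (N [2564,1562,2435,2603] (N [2580,1590,2453,2615] (N [1590] (N [2733,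
  3751,3772] (N [4874,3851] (N [2605,3641,2604,3623] Z Z) Z) (N [2605,2602,3643,3644] (N [3787,
  4810] Z Z) Z)) (N [2697,3850,2890] (N [3850,4957,5005] (N [4811,3850,3642,2697] Z Z) Z) (N
  [3640,1411,3641,1410] Z Z))) (N [4774,3748,3751,4791] (N [2694,1543] (N [4044,5069] (N [3645,
  3737,4812,2582] Z Z) Z) (N [1542,2583,1411] Z Z)) (N [3862,2583] (N [1410,1413,2453,1412] (N
  [3641,4811,3641,4810,3640,4810] Z Z) Z) (N [2583,3851,4776,3850] Z Z)))) (N [4790,3788,4663,
  4813] (N [3460,2450,2437,3493] (N [1410,1576,1411,1577] (N [3622,4810,3623,4811] (N [2697,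
  3640,2696,3622] Z Z) Z) (N [1413,2696,3640,3623] (N [2731,3623,3640,4810] Z Z) Z)) (N [4759,
  4790,2582] (N [2582,1542,1413,1543] (N [2604,3641,2605,4810] Z Z) Z) (N [2452,4776,3737] Z
  Z))) (N [1542,3769,4745] (N [2453,2602,1563] (N [1412,3642,1413,3643] (N [2602,1543,3643,
  2696] Z Z) Z) (N [2696,1543,4811,3851,3736] Z Z)) (N [2617,3640] (N [3640,1412,2601,1543] (N
  [2707] Z Z) Z) (N [4811,1410,4810,1411] Z Z))))))

/-- Relators. -/
def tr3 : Tr := N [1736] (N [2564,1536,1541,2579] (N [3476,2450,2453,3493] (N [2580,1564,2451,
  2605] (N [2906,2762,2761,2891] (N [4875,5004,4060] (N [2763,3786] (N [4811,1411,4810,1410] Z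
  Z) Z) (N [3642,1412,2603,1543] (N [4759,2452,3622] Z Z) Z)) (N [1592,2617] (N [3641,4811,3851,
  1542] (N [1562,3623,1563,3641] Z Z) Z) (N [3641,3622,2600] Z Z))) (N [4874,3862,3851,4905] (N
  [2580,1562,2603] (N [3769,4939,3851,1542] (N [4776,3622,2600,3623] Z Z) Z) (N [2600,3622,3641,
  2697,3641,1542] (N [1693,2453,3623,3640,4810,4956] Z Z) Z)) (N [1577,2600] (N [1410,1413,1564,
  1410,1565] (N [2600,4957,2601,4956] Z Z) Z) (N [2582,3737,4777,3736] Z Z)))) (N [3862,2906,
  3735,3931] (N [2615] (N [1538,1411] (N [2452,3770,2453,3771] (N [2697,3641,2696,3623] Z Z) Z)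
  (N [2605,2583,3642,2452,3643,3644] (N [3773,3640,4810,4956] Z Z) Z)) (N [4744,2697,4791] (N
  [524,1413,1565,1542] (N [2602,2600,2603,3643] Z Z) Z) (N [2697,3623,2696,2452] Z Z))) (N
  [2696,1692,1543,2733] (N [2604,3645,3622] (N [2602,2731] (N [2605,3645,2604,2602] Z Z) Z) (N
  [3642,1410,3643,1411] Z Z)) (N [2696,3768,1543] (N [2604,1410,1565,1413] (N [2565,1410,2452]
  Z Z) Z) (N [4776,3850,2583,3851] Z Z))))) (N [2696,1720,2567,2761] (N [2692,1722,2565,2747]
  (N [2760] (N [4761,4890,3914] (N [3915,3851,4919,2696] (N [1543,3645,4776,2604,1542,2453] Z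
  Z) Z) (N [1543,3622,1542,2453] (N [5047] Z Z) Z)) (N [3748] (N [4940,4813] (N [3642,3640,3643,
  4811] Z Z) Z) (N [2600,1411,2601,1410] Z Z))) (N [4758,3748,3735,4791] (N [1542,1564,1413,
  2605] (N [3850,5085,5005] (N [3644,4813,3641] Z Z) Z) (N [2452,1413,1410] (N [2907] Z Z) Z))
  (N [1708,2733] (N [1543,2452,1542,1411] (N [2452,4957,2453,4956] Z Z) Z) (N [3851,4890,3850,
  2697] Z Z)))) (N [4904,3930,4777,4955] (N [2563,1538] (N [1410,552,1411,1577] (N [5033,4776]
  (N [3736,3623,3737,3641] Z Z) Z) (N [1543,1412,3622] (N [553,3623,3640] Z Z) Z)) (N [4791,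
  4890,3914,3737] (N [1543,2583,1542,1412] (N [4813,4810,3644,4810,3645] Z Z) Z) (N [2582,2697,
  4777,2696] Z Z))) (N [3768,1543,4744] (N [4874,3720,3851,4891] (N [3642,3771] (N [3645,4812,
  3644,3643] Z Z) Z) (N [3737,2696,1542,2697] Z Z)) (N [3736,3876,3737,4919] (N [1543,3640,1412,
  2601] (N [2451] Z Z) Z) (N [4810,3623,4811,3622] Z Z)))))) (N [3720,2706,2697,3749] (N [4758,
  3748,3735,4791] (N [1538,566,1411,1591] (N [4662] (N [1693,2709,2732] (N [3876] (N [1564,1543,
  2605,2696] Z Z) Z) (N [3642,2603,3623] (N [4647,3622] Z Z) Z)) (N [3732,2706,2453,3749] (N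
  [3644,3901] (N [4811,3641,3642] Z Z) Z) (N [2696,3622,2600,1543] Z Z))) (N [3604,2581] (N
  [2604,1565,2581] (N [4060,4938,2697,5004] (N [2601,3737,3644,2582,3645,3640] Z Z) Z) (N [2453,
  2582,3623] (N [2579] Z Z) Z)) (N [1723,2746] (N [2602,1413,2603,1542,2453] (N [1410,2452,1410,
  2453,1411,2453] Z Z) Z) (N [4776,3736,2583,3737] Z Z)))) (N [3748,2762,3621,3787] (N [2567,
  1542] (N [1565,1410,524] (N [2876,3901] (N [2697,1410,3736] Z Z) Z) (N [2605,2583,3644,2452]
  (N [1577,3623,3640] Z Z) Z)) (N [3769,2697,4791,1542] (N [2583,2604,2452,1565] (N [1564,2601,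
  1565,3642] Z Z) Z) (N [3737,2452,2696,2582,2697] Z Z))) (N [1543,3720,2744] (N [1542,2602,
  1413,3643] (N [2733,2604] (N [3645,4812,3644,3643] Z Z) Z) (N [2453,3645,2604,1565,3644] Z
  Z)) (N [4891,3736,3915] (N [1562,1411,2603,1412] (N [3589,1410,2452] Z Z) Z) (N [4811,1412,
  3851,2696,1413] Z Z))))) (N [3850,2890,3721,3931] (N [2706,1736,2579,2761] (N [566] (N [1540,
  1413] (N [4902,3623] (N [2604,1542,1565,2697] Z Z) Z) (N [3622,1412,1562,1411,3643] (N [3933,
  4956] Z Z) Z)) (N [3735,2582] (N [4956,3644,4811,3645] (N [3623,2605,4810,3643,2604] Z Z) Z)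
  (N [3641,1410,3640,1411] Z Z))) (N [1538,524,1409,1565] (N [2693,1412] (N [3768,3641] (N
  [2696,3644,4813,1543] Z Z) Z) (N [1411,1542,2583] Z Z)) (N [4790] (N [2603,2604,1413,2605,
  2602,1412] (N [1543,1410,2452,3622] Z Z) Z) (N [2583,4810,2582,4811] Z Z)))) (N [4918,3916,
  4791,4941] (N [3590,1543] (N [2450] (N [3932,4957] (N [3622,2601,3640,2600] Z Z) Z) (N [1543,
  3644,1542,3623,2605] (N [4045,4810,4956] Z Z) Z)) (N [4775,4790,3750] (N [1542,1412,3641,2697,
  2583] (N [4811,4812,2604,4811,2605] Z Z) Z) (N [2697,4777,3850,4810,2582] Z Z))) (N [3915,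
  4875,4744] (N [2603,2452,1562] (N [4810,4939] (N [3643,3736,2602,2583] Z Z) Z) (N [2697,2583,
  2696,1412] Z Z)) (N [2618,3643] (N [2602,1413,3643,1542] (N [3605,2452] Z Z) Z) (N [4810,2453,
  4811,2452] Z Z))))))

/-- Relators. -/
def tr4 : Tr := N [2760] (N [566] (N [4744,3734,3721,4777] (N [4744,3770,4615,4811] (N [1736,
  1592,1591,1721] (N [3914,3768,1543,4874] (N [2733,3623,3772] (N [3851,3736,3850,1543] Z Z) Z)
  (N [1413,3643,2696,3640,2602] (N [3733,2452] Z Z) Z)) (N [2452,1564,2605] (N [4811,4891,3736]
  (N [2602,2583,3643,3736] Z Z) Z) (N [3640,1413,3641,1412] Z Z))) (N [3588,1541] (N [2580,1562,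
  2603] (N [4776,4956,4777,4957] (N [2696,2604,2602,3643,3645,1413] Z Z) Z) (N [3623,1411,3622,
  1410] (N [1707,3623,3640,4810] Z Z) Z)) (N [2696,1542,2697,3737] (N [525,1413,1564,1410] (N
  [4812,4957,4811] Z Z) Z) (N [2452,3643,4776,3737,3642] Z Z)))) (N [2708,1722,2581,2747] (N
  [3621] (N [1542,1412,1543,2583] (N [3850,2582,3851,4905] (N [3645,4776,2604,3623] Z Z) Z) (N
  [2605,1543,3644,1412] (N [4939,4810] Z Z) Z)) (N [3733,2452] (N [3644,4029] (N [2603,3643,
  2602,2600] Z Z) Z) (N [3641,2452,3640,2453] Z Z))) (N [1721,2697,1542] (N [1412,1722,1413,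
  2747] (N [3641,4939,3851,1542] (N [1542,4812,2604,3645,4813,1413] Z Z) Z) (N [2582,2604,3645,
  2453] Z Z)) (N [4744,2697] (N [1542,1410,1543,2453] (N [1539,1410] Z Z) Z) (N [2583,4811,2582,
  4810] Z Z))))) (N [4774,3748,3751,4791] (N [1536,552,1409,1577] (N [3638] (N [4760,3772,2583,
  4813] (N [3851,4919,4874] (N [1564,1543,2605,2696] Z Z) Z) (N [3643,3622,2602] (N [4905,3622,
  3641] Z Z) Z)) (N [3720,2697,3749] (N [2861,2604] (N [3641,3642,4811] Z Z) Z) (N [2601,1411,
  3623,1410,3640] Z Z))) (N [3732,2706,2709,3749] (N [1413,3493,3460] (N [3916,4941] (N [2583,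
  3641,3644,2582,3645,3640] Z Z) Z) (N [2582,3623,2453] (N [3931] Z Z) Z)) (N [2452,2746,2453,
  2747] (N [1564,1413,2605,1542] (N [1410,4811,1411,4810] Z Z) Z) (N [3851,4891,3850,2696] Z
  Z)))) (N [3748,2746,3621,3771] (N [2434,1408,1411,2451] (N [2436,1413,2451] (N [4905,4776] (N
  [2696,3737,1411] Z Z) Z) (N [2582,2604,1564,2605,3645] (N [4061,4956] Z Z) Z)) (N [3737,4791,
  4760] (N [2604,2452,1565,2583] (N [3645,4810,3644,3641] Z Z) Z) (N [3737,3622,2696,1542,2697,
  2453] Z Z))) (N [2891,3851,3720] (N [3718,1543] (N [2732,2605] (N [3645,4813,3644,3642] Z Z)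
  Z) (N [1542,2697,3737,2696] Z Z)) (N [3736,3772,2583,4813] (N [2602,1410,1563,1413] (N [4615,
  1410,2452,3622] Z Z) Z) (N [4811,1412,4810,1413] Z Z)))))) (N [3720,2692,2697,3735] (N [3734,
  2706,2711,3749] (N [4890,3914,4761,4955] (N [3930,3788,3785,3917] (N [2582,1564,2453,2605] (N
  [3878,3623] (N [3640,4810,3640,4811,3641,4811] Z Z) Z) (N [2452,2603,2583,3642] (N [3493] Z
  Z) Z)) (N [2708,2453] (N [4810,3737,4890] (N [3645,3642,2583,3643,3644,2582] Z Z) Z) (N [2601,
  2604,3645,3640] Z Z))) (N [4744,3748,3721,4791] (N [1564,2605,2580] (N [2696,4939,3851] (N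
  [4956,4810,4777,1413,5004] Z Z) Z) (N [2603,1411,3623,1410,3642] (N [4809] Z Z) Z)) (N [1578,
  2603] (N [1562,1413,2603,1542] (N [4957,3623,4956,3622] Z Z) Z) (N [3737,3737,2582,3736,3622]
  Z Z)))) (N [5018,4076,4891,5101] (N [5101] (N [1408] (N [2748,3773] (N [4776,3640,3623] Z Z)
  Z) (N [1543,3644,2452,2605,1542,1413] (N [5085,4956] Z Z) Z)) (N [4745,4790,2696] (N [2604,
  1412,525,1543,2453] (N [1564,2601,2603,1565,3644,3642] Z Z) Z) (N [2696,2452,2697,3623] Z
  Z))) (N [1542,2602,3461,3643] (N [3645,3622,2604] (N [2730,2603] (N [2604,2603,2605,3644] Z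
  Z) Z) (N [2603,1411,2602,1410] Z Z)) (N [2744,3769] (N [1565,1413,2604,1410] (N [2693,1410,
  2452] Z Z) Z) (N [3851,2582,3850,1413] Z Z))))) (N [2696,1692,2567,2733] (N [3848,2906,3721,
  3931] (N [1536] (N [2732,3773,3750] (N [4875,3850] (N [3644,1542,2605,2697] Z Z) Z) (N [1542,
  2453,1543,3622] (N [3645,3640,4810,4956] Z Z) Z)) (N [1720,2745] (N [5084,4957] (N [1543,4811,
  3850,4810,3642] Z Z) Z) (N [3641,1411,3640,1410] Z Z))) (N [4647,3622] (N [2695,1542] (N
  [5084,4938,2697,5004] (N [3641,3644,4813] Z Z) Z) (N [3645,2453,3644,2452] Z Z)) (N [4888,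
  3876,3737,4919] (N [1413,2452,1412,1411] (N [3622,4957,3623,4956] Z Z) Z) (N [2582,3851,4777,
  3850] Z Z)))) (N [4790,3786,4663,4811] (N [4874,3848,3851,4891] (N [552,1577] (N [3786,4811]
  (N [4776,3623,4777,3641] Z Z) Z) (N [3644,1413,3645,1412] (N [3901,3640,4810,4956] Z Z) Z))
  (N [2583,4791,4758] (N [2583,1542,1412,1543] (N [2600,4813,4810,2601,4811,4812] Z Z) Z) (N
  [3736,4777,2453] Z Z))) (N [1543,4744,3768] (N [1563,2453,2602] (N [3770,3643] (N [1543,3643,
  2696,2602] Z Z) Z) (N [2696,1542,2697,3737] Z Z)) (N [2616,3641] (N [2600,1411,1413,2452,3641,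
  1542] (N [2709,2452] Z Z) Z) (N [4811,2453,4810,2452] Z Z))))))

/-- Relators. -/
def tr5 : Tr := N [1590] (N [2434,1408,1411,2451] (N [4874,3876,3851,4919] (N [2580,1562,2451,
  2603] (N [2760,2618,2615,2747] (N [4061,5005,4874] (N [2762,3787] (N [3850,3641,3851,4810] Z
  Z) Z) (N [1543,3642,2452,2603,1542,1413] (N [4891,2452,3622,3641,4811] Z Z) Z)) (N [3734,2706,
  2583,3749] (N [4811,5085,5005,2696] (N [3643,3640,3736,3642,2583] Z Z) Z) (N [2600,3641,3622]
  Z Z))) (N [4744,3734,3721,4777] (N [2603,2580,1562] (N [3915,4938] (N [2601,2697,3640,1542] Z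
  Z) Z) (N [1413,3644,1542,3623,3645] (N [2861,3623,3640,4810,4956] Z Z) Z)) (N [1576,2601] (N
  [1565,1412,524,1411] (N [4957,3640,4956,3641] Z Z) Z) (N [2697,4776,3623,4777,2696,3622] Z
  Z)))) (N [3864,2906,3737,3931] (N [2579] (N [1539,1410] (N [1412,3770,1413,3771] (N [3622,
  3641,2604,3623,3645] Z Z) Z) (N [2583,3623,1542,1412,1543,2452] (N [2601,3623,3640] Z Z) Z))
  (N [3901,3878,2860] (N [1413,1565,1542,524] (N [2602,3640,2603,4811] Z Z) Z) (N [3640,2453,
  3641,2452] Z Z))) (N [1542,1564,2437,2605] (N [3622,2604,3645] (N [4938,3640,1543,3850] (N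
  [2605,1564,1562,1565] Z Z) Z) (N [1412,1562,2603,1411] Z Z)) (N [4775,3750] (N [1413,2453,
  1412,1410] (N [2435,1410] Z Z) Z) (N [3851,4776,4890,3850,1413,2697] Z Z))))) (N [1538,524,
  1409,1565] (N [2692,1736,2565,2761] (N [2614] (N [4891,4760,3915] (N [4919,5004,4060,3851] (N
  [2605,2697,3644,1542] Z Z) Z) (N [1543,3623,1542,2452] (N [4919] Z Z) Z)) (N [3749] (N [4940,
  4813] (N [3642,2583,4811,3736] Z Z) Z) (N [2453,2696,1412,2697,3623] Z Z))) (N [4760,3748,
  3737,4791] (N [1542,1562,1413,2603] (N [4061,5084] (N [3641,3644,4813] Z Z) Z) (N [1410,2452,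
  1413] (N [1737] Z Z) Z)) (N [1709,2732] (N [1543,2604,1412,1565] (N [2452,4811,2453,4810] Z
  Z) Z) (N [4891,3850,2696,3851] Z Z)))) (N [3876,2876,3749,3901] (N [2562,1539] (N [1411,2451,
  2434] (N [5032,4777] (N [3737,3640,3736,3622] Z Z) Z) (N [1413,1542,3623] (N [1723,3640,4810]
  Z Z) Z)) (N [4790,3736,4761] (N [1412,1543,2583,1542] (N [4813,4810,3640,4811,4812,3641] Z Z)
  Z) (N [3737,3622,3736,2453] Z Z))) (N [4744,3768,1543] (N [3848,3721] (N [2604,1564,1563,
  1565] (N [3645,2604,3641,4777,2605,4812] Z Z) Z) (N [4810,1543,2697,3736,3850] Z Z)) (N [4888,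
  3737] (N [2600,1413,3641,1542] (N [2583,2452,3622] Z Z) Z) (N [4811,3623,4810,3622] Z Z))))))
  (N [3590,2578,2567,3621] (N [4760,3748,3737,4791] (N [1540,566,1413,1591] (N [4076,3900,3931,
  4029] (N [1692,2733,2708] (N [4902,3876,3623,4919] (N [4776,4957,4777,4956] Z Z) Z) (N [2602,
  2453,3643,2582] (N [3877] Z Z) Z)) (N [2452,1692,2733] (N [3899,3642] (N [3643,2697,4810,
  1542] Z Z) Z) (N [1542,2600,3641,1413] Z Z))) (N [3607,2582] (N [2580,1564,2605] (N [4938,
  3768,1543,3850] (N [1543,3645,3640,2696,3644] Z Z) Z) (N [3623,2453,2582] (N [4955] Z Z) Z))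
  (N [1722,2747] (N [1543,2602,1412,1563] (N [5004,4811,4812,3851] Z Z) Z) (N [3737,2582,3736,
  3622,3737] Z Z)))) (N [3750,2762,3623,3787] (N [2566,1543] (N [1411,1564,525] (N [2875,3898]
  (N [3736,3640,2583] Z Z) Z) (N [2582,2452,2583,3623] (N [2747,3640,4810] Z Z) Z)) (N [4791,
  4874,3914,2697] (N [1564,2453,2605,2582] (N [3645,4811,3642,3640,4811,4812] Z Z) Z) (N [2453,
  2697,3642,2603,2696] Z Z))) (N [3721,1542,2745] (N [1542,2600,1413,3641] (N [1692,1565] (N
  [3644,3642,3645,4813] Z Z) Z) (N [2582,3641,2697,1410] Z Z)) (N [3737,4890,3914] (N [1411,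
  2603,1412,1562] (N [3851,1410,2452,3622,3641,4811] Z Z) Z) (N [3643,4810,2582,4811,2602,2453]
  Z Z))))) (N [3720,2744,3591,3785] (N [2708,1736,2581,2761] (N [4076] (N [3878,2860,3749,3901]
  (N [2891,3914] (N [1564,3623,1565,3641] Z Z) Z) (N [3642,2453,3643,2582,3623] (N [2619,3640,
  4810] Z Z) Z)) (N [3734,2583] (N [5005,2696,4811,4957] (N [2696,3642,4811,1543] Z Z) Z) (N
  [2601,1410,2600,1411] Z Z))) (N [1540,524,1411,1565] (N [2692,1413] (N [3769,3640] (N [4813,
  2453,4812,2452] Z Z) Z) (N [2583,1411,1542] Z Z)) (N [4874,2582,3851,4905] (N [2452,1412,1411,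
  1413] (N [1413,1410,2452] Z Z) Z) (N [3851,4776,3850,2583] Z Z)))) (N [4918,3914,4791,4939]
  (N [3591,1542] (N [2451] (N [3788,4813] (N [2601,3641,2600,3623] Z Z) Z) (N [1411,1412,1565,
  3623,1564] (N [1565,2453,3623,3640,4810,4956] Z Z) Z)) (N [3751,4791,4774] (N [2582,1542,1413,
  1543] (N [3644,4811,3645,4811,4812] Z Z) Z) (N [2582,2697,4777,2696] Z Z))) (N [3914,4745,
  4874] (N [2580,2453] (N [2696,3642,1543,4811] (N [3643,4776,2602,3623] Z Z) Z) (N [1412,2697,
  2583,2696] Z Z)) (N [2619,3642] (N [1413,3643,1542,2602] (N [3737,2452,3622,3641] Z Z) Z) (N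
  [3851,3737,3850,1542] Z Z))))))

/-- Relators. -/
def tr6 : Tr := N [5100] (N [2436,1408,1413,2451] (N [4614,3620,3591,4663] (N [5004,4060,4875,
  5101] (N [1736,1564,1591,1693] (N [5004,4060,4875] (N [3622,2732,3773] (N [1543,4811,2696,
  3640,4810] Z Z) Z) (N [1413,3643,2582,2602,1412,1411] (N [4631,2452,3622] Z Z) Z)) (N [2710,
  2583] (N [3736,4811,4891] (N [3645,1564,3640,1565,3644,3641] Z Z) Z) (N [3623,3640,2601] Z
  Z))) (N [3588,1541] (N [1563,2581,2602] (N [5047] (N [2603,3641,4777,3642] Z Z) Z) (N [1542,
  2602,3643,1413] (N [539,2453,3623,3640,4810] Z Z) Z)) (N [4874,2696,3851,4891] (N [524,1411,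
  1565,1412] (N [4810,4956,4813] Z Z) Z) (N [2697,4776,3850,4810,2583] Z Z)))) (N [2706,1706,
  2579,2731] (N [3785] (N [1412,1562,2435,2603] (N [2747,3770] (N [3644,1542,2605,2697] Z Z) Z)
  (N [3640,2452,1543,3623,2696] (N [4941,4810,4956] Z Z) Z)) (N [2860,3901,3878] (N [524,1413,
  1565,1542] (N [2603,4810,2602,3641] Z Z) Z) (N [3641,2582,2600,2453] Z Z))) (N [1543,2696,
  1720] (N [3461,1412] (N [3640,1543,2696] (N [1565,2605,1564,1562] Z Z) Z) (N [3643,2452,3642,
  2453] Z Z)) (N [4760,3737] (N [1564,1411,2605,1412] (N [2567,1410,2452,3622] Z Z) Z) (N [3851,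
  2583,3850,1412] Z Z))))) (N [1542,524,1413,1565] (N [2564,1590,2437,2615] (N [4954] (N [3914,
  4761,4890] (N [4875,4918,3850] (N [1565,3640,1564,3622] Z Z) Z) (N [3642,2603,3623] (N [5033,
  3622,3641] Z Z) Z)) (N [2696,3721,3748] (N [4812,4941] (N [3643,4891,4810,3736] Z Z) Z) (N
  [2605,2696,1413,2697,3644,2452] Z Z))) (N [4630,2583] (N [3476,2453,3493] (N [3916,4941] (N
  [3736,3644,2583,3645,3640] Z Z) Z) (N [1564,2452,1565,3623] (N [1537] Z Z) Z)) (N [1707,2730]
  (N [1413,2605,1542,1564] (N [2452,3622,2452,3623,2453,3623] Z Z) Z) (N [2697,3851,4890,3850]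
  Z Z)))) (N [3876,2892,3749,3917] (N [2565,1540] (N [1412,2437,2450] (N [3850,2582,3851,4777]
  (N [1413,3640,2696,4777,3641] Z Z) Z) (N [3622,1543,1412] (N [1721,3640] Z Z) Z)) (N [4761,
  4790,3736] (N [2582,1564,1562,2603,2605] (N [2605,4810,2604,3641] Z Z) Z) (N [2696,2583,2697,
  2453,3736] Z Z))) (N [3721,3850,2890] (N [3848,3721] (N [2696,1564,1543,2605] (N [2604,3643,
  2605,4812] Z Z) Z) (N [2696,1543,2697,3736] Z Z)) (N [4888,3737] (N [2601,1543,3640,1412] (N
  [4875,1410,2452,3622,3641,4811] Z Z) Z) (N [1412,4811,2453,1411,4810] Z Z)))))) (N [3460,2450,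
  2437,3493] (N [4760,3734,3737,4777] (N [3750,2732,3621,3773] (N [3932,3772,3787,3901] (N
  [2580,1564,2451,2605] (N [3878,3623] (N [4777,4957,4776,4956] Z Z) Z) (N [2582,2602,2453,
  3643] (N [3749] Z Z) Z)) (N [1693,2453,2732] (N [3851,1542,3641,4811] (N [1564,3640,1562,1565,
  3641,2605] Z Z) Z) (N [2697,2582,2696,1413] Z Z))) (N [3476,2450,2453,3493] (N [2581,2604,
  1565] (N [4939,3851,2696] (N [2583,3645,3640,3736,3644] Z Z) Z) (N [2452,3622,2583] (N [3639]
  Z Z) Z)) (N [1578,2603] (N [1413,2603,1542,1562] (N [4957,2453,4956,2452] Z Z) Z) (N [4776,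
  3736,2583,3737] Z Z)))) (N [3620,2618,3493,3643] (N [2566,1540,1543,2583] (N [524,1565,1410]
  (N [2893,3916] (N [3737,2582,3641] Z Z) Z) (N [2582,2453,2583,3622] (N [2745,3640] Z Z) Z))
  (N [4790,2696,4745] (N [1565,2583,2604,2452] (N [1564,2600,2603,1565,3644,3643] Z Z) Z) (N
  [3640,2452,3641,2453] Z Z))) (N [2744,1543,3720] (N [3644,2605,3623] (N [1564,1693] (N [2604,
  2602,2605,3645] Z Z) Z) (N [2605,1411,2604,1410] Z Z)) (N [2745,3768] (N [1562,1411,2603,
  1412] (N [3591,1410,2452,3622] Z Z) Z) (N [4811,1413,3851,2696,1412] Z Z))))) (N [3590,2600,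
  3461,3641] (N [2710,1736,2583,2761] (N [1736] (N [3751,3772,2733] (N [3850,4061,5005] (N
  [2604,1543,3645,2696] Z Z) Z) (N [1542,2452,1543,3623] (N [2617,3640] Z Z) Z)) (N [1721,2744]
  (N [4811,4957,5005,2696] (N [3643,4811,3642,3640] Z Z) Z) (N [2600,1411,2601,1410] Z Z))) (N
  [4902,3876,3879,4919] (N [3718,2706,1543,3749] (N [4045,5068] (N [3645,2697,4812,1542] Z Z)
  Z) (N [1543,1410,2582] Z Z)) (N [3863,2582] (N [2605,1542,1564,1413] (N [3641,4957,3640,4956]
  Z Z) Z) (N [3851,4777,3850,2582] Z Z)))) (N [4918,3932,4791,4957] (N [3590,2580,1543,3623] (N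
  [538,1563] (N [3788,4813] (N [2604,2583,3645,3736] Z Z) Z) (N [3622,1410,3623,1411] (N [2733,
  3623,3640,4810,4956] Z Z) Z)) (N [4758,2583,4791] (N [1543,2582,1542,1413] (N [3645,4811,3644,
  3640] Z Z) Z) (N [2453,3736,4777] Z Z))) (N [4744,3770,1543,4811] (N [1565,2453,2604] (N
  [2452,3642,2453,3643] (N [2603,3640,2602,3622] Z Z) Z) (N [3736,2696,1543,2697] Z Z)) (N
  [2616,3641] (N [2602,1413,3643,1542] (N [3477,2452] Z Z) Z) (N [3623,4810,3642,2603,4811] Z
  Z))))))

/-- Relators. -/
def tr7 : Tr := N [2906] (N [2562,1536,1539,2579] (N [3606,2578,2583,3621] (N [2708,1692,2579,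
  2733] (N [2906,2746,2761,2875] (N [4060,3914,4745,5004] (N [2762,3787] (N [4810,1411,4811,
  1410] Z Z) Z) (N [1542,2452,1543,2602,3643] (N [4889,2452,3622,3641] Z Z) Z)) (N [1593,2616]
  (N [4938,4811] (N [3640,2602,3640,2601,2603] Z Z) Z) (N [2601,3623,3640] Z Z))) (N [4614,
  1543] (N [2602,1563,2581] (N [4939,4061,5005,2696] (N [4891,2582,3641,4811] Z Z) Z) (N [1565,
  3622,1564,1413,1410] (N [525,1411,2453,3623,3640,4810,4956] Z Z) Z)) (N [1576,2601] (N [1564,
  1410,525,1413] (N [4957,3641,4956,3640] Z Z) Z) (N [3737,4777,3736,2582] Z Z)))) (N [4758,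
  3784,4631,4809] (N [2761] (N [1410,524,1409,1565] (N [2748,3773] (N [3622,3641,4777] Z Z) Z)
  (N [3644,1412,2605,1543] (N [2603,3623,3640,4810] Z Z) Z)) (N [2697,4791,4744] (N [1564,1413,
  1565,1542,1411] (N [3642,3641,3643,4810] Z Z) Z) (N [2696,1410,2697,2453] Z Z))) (N [1540,
  1562,2435,2603] (N [2605,3623,3644] (N [2731,2602] (N [1564,3643,3644,1565,1565,2604] Z Z) Z)
  (N [1412,1564,2605,1411] Z Z)) (N [2696,3915,4875] (N [1412,1411,1413,2452] (N [2695,1410,
  2452,3622] Z Z) Z) (N [2582,4811,2583,4810] Z Z))))) (N [2566,1562,2437,2603] (N [3588,2614,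
  3461,3639] (N [3930] (N [3622,2604,3493,3645] (N [4919] (N [2605,2696,1564,1543] Z Z) Z) (N
  [2603,2604,3645,3642] (N [4813,4810,4956] Z Z) Z)) (N [3721,2696] (N [4956,5085] (N [4810,
  3642,3641,3643] Z Z) Z) (N [2601,1411,2600,1410] Z Z))) (N [4888,3876,3865,4919] (N [1412,
  1562,1411,2603] (N [4939,5085,5005,2696] (N [3645,3640,4812] Z Z) Z) (N [1412,2453,1411] (N
  [4077] Z Z) Z)) (N [3864,3737] (N [1543,2453,1542,1410] (N [3622,3641,3622,3640,3623,3640] Z
  Z) Z) (N [4811,3850,2697,3851,3736] Z Z)))) (N [4904,3932,4777,4957] (N [3720,2694,2697,3737]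
  (N [552,1577] (N [3786,4811] (N [3640,2696,3622,2697] Z Z) Z) (N [1412,3622,1543] (N [5069,
  4810,4956] Z Z) Z)) (N [3914,3737,4791,4890] (N [1542,1413,1543,2582] (N [2605,3642,2604,
  2601] Z Z) Z) (N [2583,2697,4776,2696] Z Z))) (N [3769,4745,1542] (N [2580,2453] (N [3771,
  3642] (N [2602,1543,3643,2696] Z Z) Z) (N [3736,2696,1543,2697] Z Z)) (N [5018,4891] (N [1413,
  3641,2696,3640,2600] (N [2581,2452] Z Z) Z) (N [3623,4810,3622,4811] Z Z)))))) (N [3588,2578,
  2565,3621] (N [4888,3876,3865,4919] (N [1536,566,1409,1591] (N [4808] (N [2709,2732,1693] (N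
  [3877] (N [1565,2697,2604,1542] Z Z) Z) (N [2603,3623,3642] (N [4777,3622,3641] Z Z) Z)) (N
  [2706] (N [3901,3644] (N [4810,3643,3640] Z Z) Z) (N [2601,2583,2452,3640] Z Z))) (N [3605,
  2580] (N [1563,1564,2605,2602] (N [4938,2697,3850] (N [2601,3640,2600,3622] Z Z) Z) (N [2583,
  2452,3622] (N [2615] Z Z) Z)) (N [1722,2747] (N [2603,1542,1562,1413] (N [1410,3622,1411,
  3623] Z Z) Z) (N [3736,2582,4811,4891,4777] Z Z)))) (N [3878,2906,3751,3931] (N [2566,1543]
  (N [1410,524,1565] (N [2877,3900] (N [2696,4777,1413] Z Z) Z) (N [3645,3642,2453,3643,3644,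
  2452] (N [2749,3640,4810,4956] Z Z) Z)) (N [3914,2697,4791,4874] (N [2605,2582,1564,2453] (N
  [1564,2600,1565,3643] Z Z) Z) (N [3736,2452,2696,1543,2697,3623] Z Z))) (N [3850,2890,3721]
  (N [3718,1543] (N [3773,3644] (N [2604,3642,2605,4813] Z Z) Z) (N [1413,3641,1410,2582,2600]
  Z Z)) (N [2696,3770,1543,4811] (N [1413,2602,1410,1563] (N [3719,1410,2452,3622] Z Z) Z) (N
  [4810,1412,4811,1413] Z Z))))) (N [3720,2730,3591,3771] (N [2578,1576,2451,2601] (N [4663] (N
  [1541,1412] (N [4903,3622] (N [2605,3640,2604,3622] Z Z) Z) (N [3622,2583,3642,2452,3643] (N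
  [2763,4810] Z Z) Z)) (N [3734,2583] (N [4812,5069] (N [3623,2603,4810,3643,2602] Z Z) Z) (N
  [3641,2453,3640,2452] Z Z))) (N [2696,1720,1543] (N [2692,1413] (N [1542,3641,2697] (N [4812,
  1412,4813,1413] Z Z) Z) (N [2582,1543,1410] Z Z)) (N [4791] (N [2452,1543,2604,1412,2605] (N
  [1541,1410,2452] Z Z) Z) (N [3851,4777,4890,3850,1412,2697] Z Z)))) (N [5046,4060,4919,5085]
  (N [1542,2580,1543,3623] (N [2437,1412] (N [3933,4956] (N [2696,1564,2602,3643,1565,1543] Z
  Z) Z) (N [3640,3623,1413,2696] (N [2875,3640,4810] Z Z) Z)) (N [4744,2582,2697,4777] (N [2605,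
  1542,1412,524,1413,2453] (N [4956,4813,4810] Z Z) Z) (N [4891,2452,4776,4811] Z Z))) (N [4875,
  4744,3915] (N [2452,1562,2603] (N [4939,4810] (N [1562,1543,2603,2696] Z Z) Z) (N [2696,1413,
  2697,2582] Z Z)) (N [3750,3623] (N [1543,3642,1412,2603] (N [3735,2452,3622] Z Z) Z) (N [4810,
  3622,4811,3623] Z Z))))))

/-- All relators. -/
def relT : Tr := N [4662] (N [4808] (N [3638] tr0 tr1) (N [4954] tr2 tr3)) (N [3620] (N [3784]
  tr4 tr5) (N [2578] tr6 tr7))

/-- Derivations. -/
def prf0 : List (List (List ℕ × ℕ × Bool)) := [[([],0,true)],[([],1,true)],[([],2,true)],[([],3,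
  true)],[([],4,true)],[([],5,true)],[([],6,true)],[([],7,true)],[([],8,true)],[([],9,true)],
  [([],10,true)],[([],11,true)],[([],12,true)],[([],13,true)],[([],14,true)],[([],15,true)],
  [([],16,true)],[([4663],141,false)],[([4809],142,false)],[([3621],143,false)],[([3639],144,
  false)],[([3785],145,false)],[([4955],146,false)],[([2579],147,false)],[([2615],148,false)],
  [([2761],149,false)],[([3931],150,false)],[([5101],151,false)],[([1591],153,false)],[([],17,
  true)],[([],18,true)],[([2566,1543],164,false),([2566],152,false),([],19,true)],[([2567],172,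
  false)],[([],172,true)],[([],174,false),([],170,true)],[([],20,true)],[([2564,1541],164,
  false),([2564],152,false),([],21,true)],[([2565],177,false)],[([],177,true)],[([2562,1539],
  164,false),([2562],152,false),([],22,true)],[([2563],180,false)],[([],23,true)],[([],24,
  true)],[([],25,true)],[([],26,true)],[([3590,2580],173,false),([],27,true)],[([3590,1543],160,
  false),([3590],173,false),([3590],147,false),([],28,true)],[([3591],187,false)],[([],187,
  true)],[([],189,false),([],186,true)],[([],29,true)],[([3588,1541],160,false),([3588],178,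
  false),([3588],147,false),([],30,true)],[([3589],192,false)],[([],192,true)],[([],31,true)],
  [([],32,true)],[([],33,true)],[([4614,1543],158,false),([4614],188,false),([4614],143,false),
  ([],34,true)],[([4615],198,false)],[([],35,true)],[([],36,true)],[([],37,true)],[([3606,2583],
  160,false),([3606],147,false),([],38,true)],[([3607],203,false)],[([3604,2581],160,false),
  ([3604],147,false),([],39,true)],[([3605],205,false)],[([],40,true)],[([],41,true)],[([],42,
  true)],[([4630,2583],158,false),([4630],204,false),([4630],143,false),([],43,true)],[([4631],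
  210,false)],[([],44,true)],[([],45,true)],[([],46,true)],[([4646,3623],158,false),([4646],143,
  false),([],47,true)],[([4647],215,false)],[([],48,true)],[([],49,true)],[([],50,true)],[([],
  51,true)],[([],52,true)],[([2696,1720,1543],166,false),([2696,1720],173,false),([],53,true)],
  [([2697],222,true)],[([1721],223,false)],[([],223,false)],[([],224,false)],[([],174,false),
  ([],54,true)],[([],174,false),([],55,true)],[([2696,1692],173,false),([],56,true)],[([],179,
  false),([],57,true)],[([],189,false),([],58,true)],[([],189,false),([],59,true)],[([3720,2744,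
  1543],162,false),([3720,2744],188,false),([],60,true)],[([3721],233,true)],[([2745],234,
  false)],[([],234,false)],[([],235,false)],[([3850,2890,3721],167,false),([],61,true)],
  [([3851],238,true)],[([2891],239,false)]]

/-- Derivations. -/
def prf1 : List (List (List ℕ × ℕ × Bool)) := [[([],239,false)],[([],240,false)],[([3720,2730],
  188,false),([],62,true)],[([4744,3768,1543],159,false),([4744,3768],199,false),([],63,true)],
  [([4745],244,true)],[([3769],245,false)],[([],245,false)],[([],246,false)],[([1542],248,
  false)],[([4744,3770],199,false),([],64,true)],[([4874,3914,4745],163,false),([],65,true)],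
  [([4875],251,true)],[([3915],252,false)],[([],252,false)],[([],253,false)],[([3914],247,
  false),([],252,true)],[([3769],255,false),([],246,true)],[([5004,4060,4875],168,false),([],66,
  true)],[([5005],258,true)],[([4061],259,false)],[([],260,false)],[([4060],254,false),([],259,
  true)],[([3915],261,false),([],253,true)],[([],67,true)],[([],68,true)],[([],69,true)],
  [([2708,1692],164,false),([],70,true)],[([2709],267,true)],[([1693],268,false)],[([],268,
  false)],[([2708],270,false)],[([4760,3772],211,false),([],71,true)],[([4890,3914,4761],163,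
  false),([],72,true)],[([4891],273,true)],[([3915],274,false)],[([],274,false)],[([],275,
  false)],[([],73,true)],[([3750,2732],160,false),([],74,true)],[([3751],279,true)],[([2733],
  280,false)],[([],280,false)],[([3750],282,false)],[([],75,true)],[([1540,1413],169,false),
  ([1540],157,false),([],76,true)],[([1541],285,false)],[([],285,true)],[([1542],287,false),([],
  175,true)],[([],287,false),([],220,true)],[([],287,false),([],230,true)],[([1538,1411],169,
  false),([1538],157,false),([],77,true)],[([1539],291,false)],[([],291,true)],[([],293,false),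
  ([],221,true)],[([1409],169,false),([],157,false),([],152,false),([],78,true)],[([1408],295,
  false)],[([1410,524],295,false),([],294,true)],[([1411],297,true)],[([525],298,false)],[([],
  298,false)],[([],299,false)],[([1410],300,false)],[([1564],301,false)],[([2436],296,false),
  ([],171,true)],[([2437],304,true)],[([1412],305,false)],[([2434],296,false),([],176,true)],
  [([2435],307,true)],[([],293,false),([],79,true)],[([552],295,false),([],152,false),([],80,
  true)],[([553],310,false)],[([],310,true)],[([1410],312,false),([],309,true)],[([538],295,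
  false),([],152,false),([],81,true)],[([539],314,false)],[([2451],165,false),([],306,false),
  ([1412],153,false),([],287,false),([],179,false),([],82,true)],[([2450],316,false)],[([],305,
  false),([1413],316,true)],[([],308,false),([1411],316,true)],[([2580,1562],316,false),([],265,
  true)],[([2581],320,true)],[([1563],321,false)],[([],321,false)],[([],322,false)],[([2580],
  323,false)],[([2602],324,false)],[([2580,1564],316,false),([],266,true)],[([2581],327,true)],
  [([1565],328,false)],[([],328,false)],[([],329,false)],[([2580],330,false)],[([2604],331,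
  false)],[([1563],330,false),([],322,true)],[([3460],318,false),([3460],317,false),([],185,
  true)],[([3461],335,true)],[([1412],336,false)],[([3476],317,false),([],202,true)],[([3477],
  338,true)],[([1542,1562],318,false),([],227,true)]]

/-- Derivations. -/
def prf2 : List (List (List ℕ × ℕ × Bool)) := [[([1542,1564],318,false),([],228,true)],[([1412,
  1562],319,false),([],290,true)],[([2694,1543],166,false),([2694],173,false),([2694],154,
  false),([],83,true)],[([2695],343,false)],[([],343,true)],[([3718,2706],344,false),([],195,
  true)],[([3720],345,false),([],182,true)],[([2692,1413],166,false),([2692],286,false),([2692],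
  178,false),([2692],154,false),([],84,true)],[([2693],348,false)],[([],348,true)],[([3720],350,
  false),([],183,true)],[([1412,1722],286,false),([1412,1722],178,false),([],350,false),([],85,
  true)],[([3493],161,false),([],337,false),([1412],148,false),([],287,false),([],194,false),
  ([],86,true)],[([],336,false),([1413],353,true)],[([],339,false),([2453],353,true)],[([3622,
  2604],353,false),([],278,true)],[([3623],356,true)],[([2605],357,false)],[([],357,false)],
  [([],358,false)],[([3622],359,false)],[([3644],360,false)],[([],330,false),([2581],357,true)],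
  [([1542,2600],354,false),([],231,true)],[([1542,2602],354,false),([],232,true)],[([3718,1543],
  162,false),([3718],188,false),([3718],149,false),([],87,true)],[([3719],366,false)],[([],366,
  true)],[([],368,false),([],346,true)],[([3848,3721],167,false),([3848],155,false),([],88,
  true)],[([3849],370,false)],[([],370,true)],[([4874],372,false),([],184,true)],[([2580,2453],
  165,false),([2580],153,false),([],89,true)],[([2581],374,false)],[([1563],375,false),([],322,
  true)],[([],375,false),([],323,true)],[([1565],375,false),([],329,true)],[([],375,false),([],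
  330,true)],[([],374,true)],[([2603],380,false),([],324,true)],[([],380,false),([],325,true)],
  [([2605],380,false),([],331,true)],[([],380,false),([],332,true)],[([1542],380,false),([],190,
  true)],[([2710,2583],166,false),([2710],154,false),([],90,true)],[([2711],386,false)],[([3734,
  2706],387,false),([],207,true)],[([1592],316,false),([],147,false),([],91,true)],[([1593],389,
  false)],[([],389,true)],[([2708,2453],166,false),([2708],375,false),([2708],154,false),([],92,
  true)],[([2709],392,false)],[([1693],393,false),([],269,true)],[([],392,true)],[([],395,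
  false),([],271,true)],[([3732,2706],393,false),([],208,true)],[([2706],166,false),([2706],164,
  false),([2706],154,false),([],93,true)],[([2707],398,false)],[([3720],398,false),([],191,
  true)],[([3721],400,true)],[([2696],401,false)],[([],402,false)],[([1542],398,false),([],369,
  true)],[([3748],404,false)],[([],401,false),([2697],404,true)],[([],404,false),([],403,true)],
  [([],225,false),([],406,false),([],236,true)],[([],406,false),([],242,true)],[([],226,false),
  ([1543],407,false),([],237,true)],[([3851],407,false),([],241,true)],[([3734,2583],404,false),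
  ([3734],398,false),([],388,true)],[([3735],412,false)],[([],412,true)],[([3732,2453],404,
  false),([3732],398,false),([],397,true)],[([3733],415,false)],[([3878,2860],404,false),([],
  284,true)],[([3879],417,true)],[([2861],418,false)],[([],419,false)],[([4744],406,false),
  ([4744],405,false),([],200,true)],[([4745],421,true)],[([2696],422,false)],[([],422,false)],
  [([],423,false)],[([4790],425,false)],[([],423,false),([2696],247,true)],[([],423,false),
  ([2696],255,true)],[([3769],424,false),([],246,true)],[([3914],424,false),([],252,true)],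
  [([4760],405,false),([],212,true)],[([4761],431,true)],[([3736],432,false)],[([],432,false)],
  [([],433,false)],[([4790],435,false)],[([],433,false),([3736],277,true)],[([3914],434,false),
  ([],274,true)],[([4758],413,false),([4758],405,false),([],213,true)],[([4759],439,true)]]

/-- Derivations. -/
def prf3 : List (List (List ℕ × ℕ × Bool)) := [[([],440,false)],[([4758],441,false)],[([4774],
  405,false),([],217,true)],[([4775],443,true)],[([],444,false)],[([4744,2582],406,false),
  ([4744],414,false),([],196,true)],[([],407,false),([],243,true)],[([],407,false),([],347,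
  true)],[([2696,1412,2697],413,false),([],407,false),([],351,true)],[([4874],407,false),([],
  373,true)],[([4760],414,false),([],209,true)],[([1576],316,false),([],147,false),([],94,
  true)],[([1577],452,false)],[([],452,true)],[([1410,2600,1411],453,false),([1410],454,false),
  ([],313,true)],[([1578],316,false),([],147,false),([],95,true)],[([1579],456,false)],[([],456,
  true)],[([2452,1722],375,false),([],395,false),([],96,true)],[([1722],164,false),([],398,
  false),([],97,true)],[([1723],460,false)],[([],460,true)],[([1412],462,false),([],352,true)],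
  [([2452],462,false),([],459,true)],[([1706],164,false),([],398,false),([],98,true)],[([1707],
  465,false)],[([1708],164,false),([],398,false),([],99,true)],[([1709],467,false)],[([],467,
  true)],[([3864,3737],167,false),([3864],155,false),([],100,true)],[([3865],470,false)],
  [([4888,3876],471,false),([],214,true)],[([3862,2583],167,false),([3862],413,false),([3862],
  155,false),([],101,true)],[([3863],473,false)],[([],473,true)],[([4874],475,false),([],197,
  true)],[([4790],159,false),([],442,false),([4758],211,false),([4758],145,false),([],102,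
  true)],[([4791],477,false)],[([4745],477,false),([],424,true)],[([],426,false),([],477,true)],
  [([4761],477,false),([],434,true)],[([],436,false),([],477,true)],[([4759],477,false),([],441,
  true)],[([4775],477,false),([],445,true)],[([],427,false),([],478,true)],[([],428,false),([],
  478,true)],[([],437,false),([],478,true)],[([],408,false),([],225,false),([],479,false),([],
  247,true)],[([],479,false),([],255,true)],[([],410,false),([],226,false),([1543],480,false),
  ([],248,true)],[([4875],480,false),([],254,true)],[([],481,false),([],277,true)],[([4891],482,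
  false),([],276,true)],[([],480,false),([],250,true)],[([],480,false),([],446,true)],[([],482,
  false),([],272,true)],[([],482,false),([],451,true)],[([4888,3737],163,false),([4888],481,
  false),([4888],150,false),([],103,true)],[([4889],498,false)],[([],498,true)],[([],500,false),
  ([],472,true)],[([5018,4891],168,false),([5018],156,false),([],104,true)],[([5019],502,
  false)],[([2616],353,false),([],143,false),([],105,true)],[([2617],504,false)],[([],504,
  true)],[([2618],353,false),([],143,false),([],106,true)],[([2619],507,false)],[([],507,true)],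
  [([3750,3623],162,false),([3750],149,false),([],107,true)],[([3751],510,false)],[([2733],511,
  false),([],281,true)],[([],510,true)],[([],513,false),([],283,true)],[([],513,false),([],108,
  true)],[([2762],160,false),([],405,false),([],109,true)],[([2763],516,false)],[([],516,true)],
  [([3622],518,false),([],515,true)],[([3878,3623],167,false),([3878],511,false),([3878],155,
  false),([],110,true)],[([3879],520,false)],[([],520,true)],[([3901],522,false),([],420,true)],
  [([4902,3876],521,false),([],218,true)],[([3876],167,false),([3876],404,false),([3876],155,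
  false),([],111,true)],[([3877],525,false)],[([4874],525,false),([],201,true)],[([4875],527,
  true)],[([3850],528,false)],[([],528,false)],[([],529,false)],[([],529,false),([3850],261,
  true)],[([3915],530,false),([],253,true),([],479,true)],[([3736],525,false),([],501,true)],
  [([4918],534,false)],[([],528,false),([3851],534,true)],[([],534,false),([],531,true)],[([],
  532,false),([],534,true)],[([],411,false),([],536,false),([],491,true)],[([],409,false),
  ([2697],537,false),([],489,true)]]

/-- Derivations. -/
def prf4 : List (List (List ℕ × ℕ × Bool)) := [[([4902,3623],534,false),([4902],525,false),([],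
  524,true)],[([4903],541,false)],[([],537,false),([],450,true)],[([],537,false),([],476,true)],
  [([2746],160,false),([],405,false),([],112,true)],[([2747],545,false)],[([],545,true)],
  [([1412,3770,1413],546,false),([1412],547,false),([],463,true)],[([2452,3770,2453],546,false),
  ([2452],547,false),([],464,true)],[([2748],160,false),([],405,false),([],113,true)],[([2749],
  550,false)],[([],550,true)],[([2892],404,false),([],525,false),([],114,true)],[([2893],553,
  false)],[([2874],404,false),([],525,false),([],115,true)],[([2875],555,false)],[([2876],404,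
  false),([],525,false),([],116,true)],[([2877],557,false)],[([4904,4777],163,false),([4904],
  150,false),([],117,true)],[([4905],559,false)],[([],559,true)],[([3850,2582,3851],560,false),
  ([],544,true)],[([],561,false),([],118,true)],[([5032,4777],168,false),([5032],560,false),
  ([5032],156,false),([],119,true)],[([5033],564,false)],[([3786],158,false),([],477,false),([],
  120,true)],[([3787],566,false)],[([],566,true)],[([3622,4810,3623],567,false),([3622],568,
  false),([],519,true)],[([3788],158,false),([],477,false),([],121,true)],[([3789],570,false)],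
  [([],570,true)],[([3932],478,false),([],535,false),([],122,true)],[([3933],573,false)],[([],
  573,true)],[([4776],575,false),([],563,true)],[([5046],168,false),([5046],534,false),([5046],
  156,false),([],123,true)],[([5047],577,false)],[([3914],478,false),([],535,false),([],124,
  true)],[([3915],579,false)],[([3769],580,false),([],257,true),([1543],537,true)],[([],580,
  false),([],263,true),([],479,true)],[([],580,false),([],275,true),([],481,true)],[([2696],580,
  false),([],486,true),([],537,true)],[([3736],580,false),([],487,true)],[([],580,false),([],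
  533,true),([2697],535,true)],[([],579,true)],[([],587,false),([],256,true),([],536,true)],
  [([4060],587,false),([],262,true),([5005],480,true)],[([],587,false),([],430,true),([],536,
  true),([3851],477,true)],[([],587,false),([],438,true),([4891],477,true)],[([3916],478,false),
  ([],535,false),([],125,true)],[([3917],592,false)],[([],592,true)],[([4060],534,false),([],
  577,false),([],126,true)],[([4061],595,false)],[([3850],596,false),([],538,true)],[([4939],
  596,false),([],582,true)],[([],595,true)],[([],599,false),([],589,true)],[([4044],534,false),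
  ([],577,false),([],127,true)],[([4045],601,false)],[([3640],490,false),([3640],410,false),
  ([3640],169,false),([],506,false),([],391,false),([],154,false),([],128,true)],[([3641],603,
  true)],[([3768],604,false)],[([1542],604,false),([],249,true),([],480,true)],[([],604,false),
  ([],429,true),([1543],477,true)],[([],604,false),([],581,true)],[([],605,true)],[([],609,
  false),([],245,true),([],479,true)],[([2696],609,false),([],485,true)],[([4938],609,false),
  ([],588,true)],[([2602],466,false),([2602],169,false),([],458,false),([],154,false),([],129,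
  true)],[([2603],613,true)],[([2730],614,false)],[([],615,true)],[([2696],616,false),([],447,
  true)],[([1564],169,false),([],154,false),([],130,true)],[([1565],618,true)],[([1692],619,
  false)],[([],394,false),([],619,true),([],378,true)],[([],512,false),([],621,true),([],358,
  true)],[([],620,true)],[([],396,false),([2452],623,true),([],384,true)],[([],514,false),
  ([3622],624,true),([],361,true)],[([2696,1564,1543],621,false),([2696],623,false),([],229,
  true)],[([3736],625,false),([],496,true)],[([2604,1564,1563],619,false),([],624,false),([],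
  469,false),([],131,true)],[([3642],546,false),([3642],165,false),([],509,false),([],149,
  false),([],132,true)],[([3643],629,true)],[([3770],630,false)],[([],631,true)],[([1412,3642,
  1413],630,false),([1412],632,false),([],548,true)],[([2452,3642,2453],630,false),([2452],632,
  false),([],549,true)],[([2696,2602,1543],630,false),([],617,true)],[([2696],632,false),([],
  494,true)],[([4810],580,false),([4810],540,false),([4810],166,false),([],568,false),([],518,
  false),([],155,false),([],133,true)],[([4811],637,true)],[([4938],638,false)],[([],638,false),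
  ([],583,true)]]

/-- Derivations. -/
def prf5 : List (List (List ℕ × ℕ × Bool)) := [[([2696],638,false),([],584,true)],[([3736],638,
  false),([],585,true)],[([],638,false),([],586,true)],[([],638,false),([],598,true)],[([3641],
  638,false),([],608,true)],[([],639,true)],[([],646,false),([],590,true)],[([],646,false),([],
  591,true)],[([5084],646,false),([],600,true)],[([],612,false),([],646,true)],[([3642],556,
  false),([3642],166,false),([],632,false),([],547,false),([],155,false),([],134,true)],
  [([3643],651,true)],[([3644],558,false),([3644],166,false),([],625,false),([],552,false),([],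
  155,false),([],135,true)],[([3645],653,true)],[([3900],654,false)],[([],523,false),([],654,
  true),([],360,true)],[([],655,true)],[([4812],593,false),([4812],162,false),([],572,false),
  ([],150,false),([],136,true)],[([4813],658,true)],[([4940],659,false)],[([],660,true)],
  [([4956],596,false),([4956],167,false),([],575,false),([],156,false),([],137,true)],[([4957],
  662,true)],[([5084],663,false)],[([3850],663,false),([],597,true)],[([4811],663,false),([],
  644,true)],[([],664,true)],[([],649,false),([],667,true)],[([4956,3644,4811],654,false),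
  ([4956,3644],567,false),([4956],625,false),([],575,false),([],138,true)],[([4812],602,false),
  ([4812],167,false),([],661,false),([],594,false),([],156,false),([],139,true)],[([4813],670,
  true)],[([3644],167,false),([],657,false),([],156,false),([],140,true)],[([3645],672,true)],
  [([1543],219,true)],[([525],674,false)],[([],675,false)],[([],674,true)],[([1564],675,false),
  ([],303,true)],[([1412],676,true)],[([2604],679,false),([],333,true),([],380,true)],[([2583],
  264,true)],[([1565],681,false)],[([],682,false)],[([],681,true)],[([],684,false)],[([2452],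
  683,true)],[([],684,false),([1564],377,true)],[([2582],685,true)],[([3644],686,false),([],362,
  true)],[([2582],687,false)],[([2453],688,false),([],379,true)],[([1543],288,true)],[([1413],
  692,true)],[([1542],693,false)],[([],693,false)],[([],694,false)],[([2582],696,false)],
  [([1412],695,true)],[([1542],698,false)],[([],697,true)],[([],700,false),([2582],606,true)],
  [([2605],700,false),([],686,true),([2452],679,true)],[([1413],289,true)],[([525],703,false)],
  [([],704,false)],[([],703,true)],[([],706,false)],[([1410],705,true)],[([1410],706,false),([],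
  302,true)],[([1412],707,true)],[([2452],710,false),([],384,true)],[([1543],340,true)],
  [([1563],712,false)],[([],713,false)],[([],712,true)],[([],715,false)],[([2602],713,false),
  ([],326,true),([],380,true)],[([1412],714,true)],[([1542],716,true)],[([1543],341,true)],
  [([1565],720,false)],[([],721,false)],[([],720,true)],[([],723,false)],[([1543],380,false),
  ([1543],333,false),([],723,false),([],678,true)],[([1543],375,false),([1543],328,false),([],
  677,false),([524],721,false),([],298,true)],[([1542],726,false)],[([1413],686,false),([],721,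
  false),([1565],698,true),([],708,true),([1410],675,true)],[([],728,false)],[([1412],722,
  true)],[([1412],708,false),([],730,false),([],702,true)],[([],731,false)],[([],334,false),
  ([1563],723,true),([],713,true)],[([2452],723,false),([],384,true)],[([1542],724,true)],
  [([1542],303,false),([],735,false),([],680,true)],[([],727,true)],[([],709,false),([],728,
  false),([1413],384,true)],[([1565],738,false)],[([1411],729,true)]]

/-- Derivations. -/
def prf6 : List (List (List ℕ × ℕ × Bool)) := [[([],711,false),([],731,false),([1412],302,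
  true)],[([2453],732,true)],[([3622],735,false),([],361,true)],[([],739,true)],[([3622],741,
  false),([],361,true)],[([1413],342,true)],[([1563],746,false)],[([],747,false)],[([],746,
  true)],[([],749,false)],[([1410],748,true)],[([1412],750,true)],[([1543],364,true)],[([2601],
  753,false)],[([],754,false)],[([],753,true)],[([],756,false)],[([],754,false),([2601],226,
  true),([2601],410,true),([2601],490,true),([2601],604,true)],[([1412],755,true)],[([2600],740,
  false),([],756,true)],[([1542],757,true)],[([1543],365,true)],[([2603],762,false)],[([],763,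
  false)],[([],762,true)],[([],765,false)],[([],765,false),([],717,true)],[([],763,false),
  ([2603],226,true),([2603],410,true),([2603],490,true),([2603],604,true)],[([],715,false),
  ([1562],763,false),([],321,true),([],375,true)],[([],763,false),([2603],698,true),([],751,
  true),([1410],713,true)],[([1412],764,true)],[([],765,false),([2602],728,true),([],752,true),
  ([1412],715,true)],[([1542],766,true)],[([1542],767,false)],[([1412],770,true),([],731,true)],
  [([],775,false)],[([1542],772,true),([],699,true)],[([],777,false)],[([2453],776,true)],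
  [([2583],778,true)],[([],774,false),([],385,true)],[([3643],781,true)],[([2602],782,false)],
  [([],782,false)],[([],783,false)],[([3642],784,false)],[([3622],785,false)],[([1543],783,
  false),([],769,true)],[([1543],786,false),([],767,true)],[([2603],359,false),([],782,true)],
  [([],790,false),([],733,true),([1413],790,true)],[([1542],375,false),([1542],321,false),([],
  719,false),([2602],771,false),([],783,true)],[([2605],785,false),([],358,true)],[([1542],380,
  false),([1542],326,false),([],773,false),([3642],718,false),([],786,true)],[([3642],763,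
  false),([],786,true)],[([3642],779,false),([],786,true)],[([3622],752,false),([],787,true)],
  [([3622],780,false),([],787,true)],[([3640],788,false),([],610,true)],[([],378,false),([1565],
  788,false),([],721,true),([1413],358,true)],[([],734,false),([],789,false),([1543],361,true)],
  [([3640],789,false),([],610,true)],[([],795,false),([3642],791,false)],[([2583],792,false),
  ([],696,true),([1542],740,true),([],737,true)],[([2605],780,false),([],793,true)],[([],743,
  false),([],794,false),([1542],384,true)],[([],800,false),([2605],226,true),([2605],410,true),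
  ([2605],490,true),([2605],604,true)],[([],801,false),([2604],728,true),([],741,true),([1412],
  723,true)],[([],804,true),([2453],694,true)],[([2582],809,false)],[([1542],808,true),([],699,
  true)],[([2582],380,false),([2582],333,false),([],811,false),([],689,true)],[([],378,false),
  ([1565],809,false),([],682,true),([2453],358,true)],[([],805,false),([],813,true)],[([],810,
  true)],[([],811,false),([3644],384,true)],[([1412],795,false),([],633,true)],[([1413],817,
  true)],[([3623],818,false)],[([],818,false)],[([],819,false)],[([1412],820,false)],[([1542],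
  821,false)],[([],803,false),([],818,true)],[([],818,false),([3622],226,true),([3622],410,
  true),([3622],490,true),([3622],604,true)],[([],820,false),([1413],736,true),([],728,true),
  ([1410],820,true)],[([],820,false),([1413],737,true),([],740,true),([1411],820,true)],
  [([1411],730,false),([],744,false),([1565],820,true)],[([],801,false),([2604],820,true)],
  [([3640],821,false),([],610,true)],[([],821,false),([1543],731,true),([],725,true),([1410],
  821,true)],[([],821,false),([1543],742,true),([],726,true),([1411],821,true)],[([],822,false),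
  ([1412],361,true)],[([],822,false),([1412],787,true)],[([],759,false),([3641],823,true)],[([],
  824,false),([3644],820,true)],[([2600],825,false),([],756,true)],[([],828,false)],[([2605],
  832,false),([],358,true)],[([2603],832,false),([],782,true)]]

/-- Derivations. -/
def prf7 : List (List (List ℕ × ℕ × Bool)) := [[([3641],833,false),([],759,true)],[([2452],796,
  false),([],634,true)],[([2453],842,true)],[([3623],843,false)],[([],843,false)],[([],844,
  false)],[([2452],845,false)],[([2582],846,false)],[([],798,false),([],843,true)],[([],691,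
  false),([],845,true)],[([],838,false),([1565],850,false)],[([1410],851,false)],[([],851,
  false)],[([],852,false)],[([1413],854,false)],[([3645],849,false),([],814,true)],[([],822,
  false),([1412],843,true),([],854,true)],[([1543],857,false)],[([],857,false)],[([],858,
  false)],[([1411],859,false)],[([2582],860,false)],[([3640],844,false),([],830,true),([2697],
  854,true)],[([],847,false),([2452],361,true)],[([],864,false),([],816,true)],[([3643],848,
  false),([],775,true),([2452],782,true)],[([],850,false),([1564],382,true)],[([],852,false),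
  ([1410],382,true)],[([],797,false),([3622],868,true),([],826,true),([1410],787,true)],[([],
  852,false),([1410],384,true)],[([],745,false),([3622],870,true),([],826,true),([1410],361,
  true)],[([2603],853,false),([],381,true),([],747,true)],[([],840,false),([],872,true),([1411],
  782,true)],[([2605],853,false),([],383,true),([],744,true)],[([],839,false),([],874,true),
  ([1411],358,true)],[([],847,false),([2452],825,false),([],853,true)],[([],856,false),([3645],
  379,true)],[([],754,false),([2601],858,true)],[([],775,false),([3643],876,true),([],873,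
  true)],[([2697],448,true)],[([1543],880,true)],[([2696],881,false)],[([],881,false)],[([4810],
  881,false),([],647,true)],[([],882,false)],[([3736],885,false)],[([1542],883,true)],[([2696],
  887,false)],[([],885,false),([3737],641,true)],[([],886,true)],[([4810],887,false),([],647,
  true)],[([2697],449,true)],[([1413],892,true)],[([2696],893,false)],[([],893,false)],[([],609,
  false),([],488,false),([],408,false),([],225,false),([2697],696,false),([],893,true),([1413],
  225,true),([1413],408,true),([1413],488,true),([1413],609,true)],[([],820,false),([1413],761,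
  false),([],896,false)],[([3623],897,false)],[([],897,false)],[([],898,false)],[([3641],899,
  false)],[([2601],900,false)],[([],835,false),([1412],902,true)],[([1413],841,false),([1413],
  903,true)],[([],894,false)],[([1412],895,true)],[([3640],825,false),([],896,true)],[([],822,
  false),([1412],897,true)],[([2696],899,false),([],611,true)],[([],901,false),([3641],843,
  true)],[([2601],831,false),([],902,true)],[([2601],832,false),([],902,true)],[([],701,false),
  ([1542],903,false),([],606,true)],[([2605],905,false),([],813,true)],[([],718,false),([2603],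
  908,true),([],751,true)],[([2453],913,false),([],845,true)],[([1411],455,true)],[([2601],917,
  false)],[([],918,false)],[([],912,false),([],918,true),([1411],902,true)],[([3640],920,
  false)],[([],917,true)],[([],760,false),([],922,true),([1411],756,true)],[([1410],919,true)],
  [([],911,false),([],924,true),([1410],902,true)],[([],910,false),([],878,false),([1413],925,
  true),([],855,true)],[([],606,false),([1542],920,true),([],737,true),([2453],606,true)],
  [([3641],851,false),([],920,true),([1411],903,true),([],851,true)],[([3640],928,false)],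
  [([3641],861,false),([],920,true),([1411],759,true),([],851,true)],[([],921,true)],[([1542],
  923,true),([],737,true)],[([],799,false),([],932,true),([2453],610,true)],[([],606,false),
  ([1542],925,true),([],736,true),([2452],606,true)],[([],606,false),([1542],926,true),([],792,
  true),([3623],606,true)],[([2696],851,false),([],927,true),([],916,true)],[([],927,false),
  ([2696],861,true)],[([],929,true)],[([],802,false),([],938,true),([2452],610,true)],[([],933,
  false),([2697],785,true)]]

/-- Derivations. -/
def prf8 : List (List (List ℕ × ℕ × Bool)) := [[([3737],934,false),([],885,true),([2696],858,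
  true)],[([3736],934,false),([],890,true),([2696],736,true),([],936,true)],[([3736],935,false),
  ([],890,true),([2696],792,true)],[([3737],936,false),([],885,true),([2696],725,true),([],934,
  true)],[([],939,false),([2697],361,true)],[([],941,false)],[([],942,true),([3622],888,true)],
  [([],944,true),([2452],882,true)],[([2697],495,true)],[([2583],949,false)],[([],946,false),
  ([2696],950,true)],[([3736],951,false)],[([],952,false)],[([2453],953,false)],[([],951,false),
  ([],941,true)],[([],949,true)],[([],950,false),([2583],409,true),([2583],540,true),([2583],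
  580,true),([2583],638,true)],[([],648,false),([4810],951,true)],[([],951,false),([3737],847,
  true)],[([],866,false),([3643],953,true)],[([],954,false),([2453],890,true),([],937,true)],
  [([],956,false),([2582],409,true),([2582],540,true),([2582],580,true),([2582],638,true)],
  [([2605],956,false),([],686,true)],[([],956,false),([2582],933,true),([],815,true),([3623],
  956,true)],[([3737],497,true)],[([2583],965,true)],[([3736],966,false)],[([3737],959,false),
  ([],966,true),([2583],948,true),([],846,true)],[([],967,false)],[([4776],969,false)],[([],969,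
  false),([4777],642,true)],[([],959,false),([4777],947,false),([],969,true),([3736],846,true)],
  [([],970,true)],[([],973,false),([4776],642,true)],[([3851],543,true)],[([2697],975,true)],
  [([3850],976,false)],[([],976,false)],[([],976,false),([3851],493,true),([3851],587,true),
  ([3851],646,true)],[([],977,false)],[([2696],978,true)],[([4811],980,false),([],640,true)],
  [([],982,false)],[([3851],562,true)],[([2583],984,false)],[([],985,false)],[([],984,true)],
  [([],987,false)],[([2583],646,false),([2583],587,false),([2583],539,false),([2583],411,false),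
  ([],985,true),([3851],955,true),([],411,true),([],539,true),([],587,true),([],646,true)],[([],
  985,false),([2583],981,true),([],905,true)],[([3850],986,true)],[([],957,false),([2697],991,
  true),([],409,true),([],540,true),([],580,true),([],638,true)],[([],971,false),([3736],992,
  true),([],642,true)],[([2697],981,false),([2697,3851],993,false),([2697],990,true)],[([2582],
  646,false),([2582],587,false),([2582],539,false),([2582],411,false),([],987,true),([3851],961,
  true),([],411,true),([],539,true),([],587,true),([],646,true)],[([],987,false),([2582],981,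
  true),([],913,true)],[([3850],988,true)],[([],962,false),([2697],997,true),([],409,true),([],
  540,true),([],580,true),([],638,true)],[([],974,false),([3736],998,true),([],642,true)],
  [([2697],981,false),([2697,3851],999,false),([2697],996,true)],[([3640],989,false),([],863,
  true)],[([4811],994,false),([],643,true),([],893,true)],[([4810],896,false),([],650,false),
  ([3851],696,false),([],994,true),([1413],650,true)],[([3643],995,false),([],775,true)],
  [([4811],1000,false),([],643,true),([],906,true)],[([4810],908,false),([4810],761,false),([],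
  650,false),([3851],700,false),([],1000,true),([1412],650,true)],[([],1002,true),([1413],409,
  true),([1413],540,true),([1413],580,true),([1413],638,true)],[([],1005,true),([1412],409,
  true),([1412],540,true),([1412],580,true),([1412],638,true)],[([],1006,false),([4810],822,
  true)],[([],1008,false),([4811],854,true)],[([3623],569,true)],[([4811],1011,false)],[([],
  1011,true)],[([],1013,false)],[([4811],819,false),([],1012,true),([3623],1007,true),([],819,
  true)],[([4811],809,false),([],992,false),([2583],1012,true),([],809,true),([2453],992,true)],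
  [([],1010,false),([1412],1016,true),([],854,true)],[([],1013,false),([4810],785,true)],
  [([4810],819,false),([],1013,true),([3623],1003,true),([],819,true)],[([],884,false),([],1019,
  true),([1543],647,true)],[([4810],809,false),([],989,false),([2583],1013,true),([],809,true),
  ([2453],989,true)],[([3622],1014,true)],[([],1009,false),([1412],1022,true),([],822,true)],
  [([],891,false),([],1023,true),([1542],647,true)],[([],979,false),([2697],1024,true),([],225,
  true),([],408,true),([],488,true),([],609,true)],[([],1015,false),([4811],226,true),([4811],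
  410,true),([4811],490,true),([4811],604,true)],[([],889,false),([2696],1015,false),([],641,
  true)],[([3850],604,false),([3850],490,false),([3850],410,false),([3850],226,false),([],1027,
  false),([],983,true)],[([4811],862,false),([],998,false),([2582],1015,true),([],862,true)],
  [([4810],862,false),([],995,false),([2582],1019,true),([],862,true)],[([],604,false),([],490,
  false),([],410,false),([],226,false),([1543],981,false),([],1020,false),([3851],492,true),
  ([3851],580,true),([3851],638,true)],[([3640],650,false),([],1025,false),([3851],1023,true),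
  ([],650,true)],[([4777],576,true)],[([4957],1033,true)],[([4776],1034,false)],[([],1035,
  true)],[([2697],626,true)],[([1565],1037,false)],[([],1038,false)],[([],1037,true)]]

/-- Derivations. -/
def prf9 : List (List (List ℕ × ℕ × Bool)) := [[([],1040,false)],[([1565],609,false),([1565],
  488,false),([1565],408,false),([1565],225,false),([],1038,true),([1543],730,true),([],821,
  true)],[([],1038,false),([1565],881,true),([],721,true)],[([1410],744,false),([1410,1565],893,
  false),([1410],1038,true),([1410,1543],813,true),([1410],726,true)],[([],1044,false),([],963,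
  true),([2452],1038,true)],[([1542],1039,true)],[([2452],914,false),([2452],1046,true),([2452,
  1542],744,true),([2452],737,true)],[([3644],1047,false)],[([],807,false),([1413],1047,true),
  ([],820,true)],[([],384,false),([2452],1040,true),([],945,true)],[([],1040,false),([1564],789,
  true),([],850,true),([3622],1040,true)],[([1564],821,false),([],1040,true),([2697],735,true),
  ([],225,true),([],408,true),([],488,true),([],609,true)],[([2696],1041,true)],[([1410],744,
  false),([1410,1565],896,false),([1410],1042,true),([1410,3623],744,true),([1410],832,true)],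
  [([1542],1043,true),([1542,1413],1044,true),([],694,true)],[([1542],1045,true),([],794,true)],
  [([3644],1056,false)],[([],1048,true)],[([],829,false),([1543],1058,true),([],226,true),([],
  410,true),([],490,true),([],604,true)],[([],825,false),([1413],1058,false),([],836,true)],
  [([2697],1059,false),([],1051,true)],[([],362,false),([3644],1049,true),([],1057,true)],
  [([3623],1062,false)],[([],1062,false)],[([],1063,false)],[([],959,false),([4777],1064,
  false)],[([],830,false),([3640],1065,false)],[([3736],1066,false)],[([],863,false),([],1066,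
  false)],[([2696],1067,false)],[([],876,false),([],1068,false)],[([2696],1069,false)],[([],837,
  false),([2600],1062,true)],[([],907,false),([3640],1062,true)],[([],1060,false),([],1062,
  true)],[([3737],1066,false),([],968,true)],[([],972,false),([],1066,true)],[([3640],890,
  false),([],1077,false),([],943,true)],[([],1073,false),([1543],1078,true),([],226,true),([],
  410,true),([],490,true),([],604,true)],[([],1062,false),([],825,false),([1413],1078,false),
  ([],1074,true)],[([2697],1080,false),([],964,true)],[([2604],858,false),([],1050,true),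
  ([2697],871,true),([],1069,true)],[([3641],1053,false),([],1059,false),([2604],794,false),([],
  1053,true),([2696],850,true),([],909,true)],[([],758,false),([1413],1083,true),([],820,true)],
  [([],1084,false)],[([],1053,false),([2604],834,true),([],735,true)],[([],1053,false),([2604],
  908,true),([],735,true)],[([],1058,false),([3644],834,true),([],806,true),([],833,true)],[([],
  1059,false),([2604],787,true)],[([2603],1059,false),([],790,true),([3643],1075,true)],[([],
  879,false),([2452],1090,true),([],960,true)],[([],901,false),([3641],1061,false),([],607,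
  true)],[([],1062,false),([3622],901,true)],[([],648,false),([4810],1066,true)],[([],647,
  false),([4810],863,false),([],1094,false)],[([],668,false),([5005],1070,true)],[([5005],1072,
  false),([],668,true),([4956],648,true)],[([],1055,false),([2605],1076,true),([],358,true)],
  [([2600],1036,false),([],1079,true)],[([],1044,false),([2605],1081,true),([],358,true)],
  [([2601],1082,false),([],904,true)],[([3623],1085,true)],[([2601],1069,false),([],1092,true),
  ([1543],925,true),([],858,true)],[([],1103,false),([],1101,true)],[([],1095,false),([3851],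
  1017,false),([],1031,false),([3641],1095,true)],[([],1071,false),([],876,false),([2582],1104,
  false)],[([4811],1105,false),([],640,true)],[([],1106,false),([],627,true)],[([3640],1108,
  true)],[([3645],1109,false)],[([],1109,false)],[([3641],1111,false)],[([],1098,false),([2583],
  1110,true)],[([],1100,false),([1543],1110,true)],[([],1110,false),([3645],931,true),([],875,
  true),([1411],1110,true)],[([],1110,false),([3645],932,true),([],856,true),([2453],1110,
  true)],[([2696],1111,false),([],611,true)],[([],1112,false),([3641],806,true),([],759,true),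
  ([1412],904,true),([1412],1112,true)],[([],1112,false),([3641],1058,true),([],1083,true),
  ([1542],904,true),([],606,true),([],1117,true)],[([],1119,false),([4812],833,true),([],1118,
  true)],[([2605],628,true)],[([1565],1121,false)],[([],1121,true)],[([],1123,false)],[([1410],
  744,false),([1410,1565],800,false),([1410],1122,true),([1410,1563],721,true),([1410],747,
  true)],[([1564],790,false),([1564],334,false),([],1123,true)],[([1564],376,false),([],1123,
  true),([2605],684,true),([],813,true),([],877,true)],[([1542],723,false),([1542,1564],713,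
  false),([1542],1123,true),([1542,2605],1040,true),([1542],1044,true)],[([2604],1124,true)],
  [([],690,false),([2582],1129,true),([],864,true),([],865,true)],[([],867,false),([3622],1129,
  true),([],361,true)],[([1413],1088,false),([1413,2696],1130,true),([1413],1117,true),([1413],
  1120,true)],[([3645],1132,false)],[([],1089,false),([3641],1130,true),([],1112,true)],
  [([1543],1086,false),([1543,2696],1131,true),([1543],1117,true)],[([2452],813,false),([2452,
  2605],1113,false),([2452],1125,true),([2452,2603],1055,true),([2452],779,true)],[([],1126,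
  true),([2605,1564],363,true),([2605,1564],375,true),([2605],684,true),([],813,true),([],877,
  true),([3645],1052,true),([],1110,true)],[([1542],723,false),([1542,1564],763,false),([1542],
  1127,true),([1542,3645],1040,true),([1542],1114,true)],[([1542],801,false),([1542,2604],763,
  false),([1542],1128,true),([1542,3645],1050,true),([1542],1114,true)],[([],1128,false),
  ([2604],1090,true),([],1138,true)]]

/-- Derivations. -/
def prf10 : List (List (List ℕ × ℕ × Bool)) := [[([],1133,true)],[([2697],635,true)],[([2603],
  1142,false)],[([],1143,false)],[([],1142,true)],[([2603],609,false),([2603],488,false),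
  ([2603],408,false),([2603],225,false),([],1143,true),([1543],771,true),([],821,true)],
  [([1542],1144,true)],[([],1090,false),([],768,false),([1413],1147,true),([],820,true)],[([],
  1091,false),([1411],1147,true),([],861,true)],[([],377,false),([2453],1145,true),([],940,
  true)],[([2602],821,false),([],1145,true),([2697],773,true),([],225,true),([],408,true),([],
  488,true),([],609,true)],[([2602],858,false),([],1145,true),([2697],869,true),([],1069,true)],
  [([1411],915,false),([1411],718,false),([1411,2603],761,false),([1411],1146,true),([1411,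
  3623],751,true),([1411],831,true)],[([],1127,false),([1564],1146,true),([],1052,true),([3640],
  1127,true)],[([],1138,false),([2604],1148,true),([],1059,true),([3641],1128,true)],[([3643],
  1077,false),([],1149,true),([2582],782,true)],[([1562],821,false),([],1150,true),([2697],719,
  true),([],225,true),([],408,true),([],488,true),([],609,true)],[([],1151,false),([2602],898,
  true)],[([1564],1151,false),([],1131,true),([3644],1052,true)],[([],793,false),([2605],1152,
  true),([],1055,true)],[([],1123,false),([1564],1153,true),([],1052,true),([3640],1123,true)],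
  [([1564],1157,false),([],1129,true),([2604],1052,true)],[([2697],636,true)],[([3643],1163,
  false)],[([],1026,false),([],1164,false)],[([4810],1165,false)],[([],1165,false)],[([],1166,
  false)],[([3640],1168,false)],[([],1165,false),([],1107,true)],[([],1156,false),([],1167,
  true)],[([],1169,false),([],1001,true),([],1069,true)],[([],1169,false),([],1032,true),
  ([4810],1169,true)],[([],1173,false)],[([2582],1160,false),([2582,3645],1172,true),([2582],
  1113,true)],[([],1164,false),([3643],409,true),([3643],540,true),([3643],580,true),([3643],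
  638,true)],[([],1028,false),([],641,false),([2696],1165,true)],[([],1176,false),([1543],1177,
  true),([],226,true),([],410,true),([],490,true),([],604,true)],[([],1139,false),([3644],1167,
  true)],[([],606,false),([1542],1168,true)],[([],1054,false),([2605],1169,true)],[([],1146,
  false),([2603],1169,true)],[([],1170,false),([3643],493,true),([3643],587,true),([3643],646,
  true)],[([2453],775,false),([2453,3643],1171,true),([2453],1178,true),([2453,3641],1149,true),
  ([2453],930,true)],[([],1183,false),([3737],1171,false),([],1066,true)],[([2453],1004,false),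
  ([2453],1185,true),([2453,3640],775,true),([2453],938,true)],[([],1182,false),([3623],1186,
  true),([],898,true)],[([],785,false),([3623],1173,true),([],1018,true)],[([],1158,false),
  ([3640],1188,true),([],1169,true)],[([4811],1174,true)],[([3645],1173,false),([],1175,true)],
  [([1564],1184,false),([],1127,true),([3645],1137,true),([],1136,true)],[([2604],1185,false),
  ([],1138,true)],[([1564],1187,false),([],1127,true),([3645],1135,true),([],1141,true)],
  [([2605],1189,false),([],793,true),([],1175,true)],[([3645],1190,false),([],1175,true)],[([],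
  1192,true),([3643,3645],1131,true)],[([],1194,true),([3642,3645],1131,true)],[([1543],1087,
  false),([1543,2696],1198,true),([1543],1180,true)],[([3645],1199,false),([],1154,true)],[([],
  1159,false),([],1199,true),([4810],1131,true)],[([2605],1199,false),([],1161,true)],[([],1162,
  false),([],1199,true),([4810],1129,true)],[([],1191,false),([],1200,true),([3640],1175,true)],
  [([4813],1201,false),([],1179,true)],[([],1181,false),([3623],1202,true),([],898,true)],[([],
  1193,false),([],1203,true),([4810],1138,true)],[([2600],1175,false),([2600],793,false),([],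
  1206,false),([],1195,true)],[([1542],723,false),([1542,1564],754,false),([1542],1197,true),
  ([1542,3643],1040,true),([1542],1164,true)],[([3645],1209,false),([],1140,true),([],1155,
  true)],[([],1196,false),([],1210,true),([3641],1175,true)],[([],1205,false)],[([4811],1134,
  false),([],1209,false),([2604],1168,true)],[([4956],1212,false),([],669,true)],[([4957],1214,
  true)],[([4812],1215,false)],[([],1215,false)],[([],1216,false)],[([4811],1218,false)],[([],
  1215,false),([],1204,true),([3640],1215,true)],[([2600],1215,false),([],1208,true),([],1215,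
  true)],[([],1215,false),([],1211,true),([3641],1215,true)],[([],1213,false),([],1219,true)],
  [([3640],1222,false),([3640,4957],1079,false),([3640],1221,false),([3640],1099,true)],
  [([4813],1223,false),([],1207,true)],[([],1215,false),([4813],1021,true),([],1116,true),
  ([2453],1215,true)],[([],1215,false),([4813],1030,true),([],1115,true),([1411],1215,true)],
  [([],665,false),([3850],1217,true)],[([],852,true),([],731,true),([2452],854,true)],[([1410],
  827,true)],[([1410],920,true)],[([1410],1029,true)],[([1410],1227,true)],[([],847,true),([],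
  812,true),([3622],848,true)],[([2452],926,true)],[([2452],1016,true)],[([2452],1226,true)],
  [([],1062,true),([],1093,true),([3622],1102,true),([],902,true)],[([3622],1012,true)],
  [([3622],1224,true)]]

/-- Derivations. -/
def prf11 : List (List (List ℕ × ℕ × Bool)) := [[([],645,true),([1543],1028,true),([1543],1177,
  true),([],226,true),([],410,true),([],490,true),([],604,true),([3641],1185,true),([],1167,
  true)],[([3641],1220,true)],[([],666,true),([2697],1228,true),([],409,true),([],540,true),([],
  580,true),([],638,true),([4811],1225,true),([],1215,true)],[([],855,true)],[([],858,true),([],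
  846,true)],[([],286,true),([],855,true)],[([],295,true)],[([],292,true)],[([],318,true),([],
  855,true)],[([],173,true),([],858,true),([],846,true)],[([],1069,true),([],951,true),([],959,
  true),([],1066,true)],[([],319,true)],[([],178,true),([],286,true),([],855,true)],[([],344,
  true),([],858,true),([],846,true)],[([],181,true),([],292,true)],[([],349,true),([],855,
  true)],[([],354,true),([],855,true)],[([],188,true),([],858,true),([],846,true)],[([],406,
  true),([],1069,true),([],951,true),([],959,true),([],1066,true)],[([],1095,true),([],958,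
  true),([4810],959,true),([],648,true),([],1094,true)],[([],193,true),([],286,true),([],855,
  true)],[([],367,true),([],858,true),([],846,true)],[([],371,true),([],406,true),([],1069,
  true),([],951,true),([],959,true),([],1066,true)],[([],199,true),([],858,true),([],846,true)],
  [([],479,true),([],1069,true),([],951,true),([],959,true),([],1066,true)],[([],536,true),([],
  1095,true),([],958,true),([4810],959,true),([],648,true),([],1094,true)],[([],1097,true),
  ([4956],958,true),([],1096,true),([5005],822,true),([5005],606,true),([],668,true)],[([],846,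
  true)],[([],316,true)],[([],375,true)],[([],387,true),([],846,true)],[([],393,true)],[([],399,
  true)],[([],355,true)],[([],204,true),([],846,true)],[([],951,true),([],959,true),([],1066,
  true)],[([],206,true),([],375,true)],[([],413,true),([],846,true)],[([],471,true),([],951,
  true),([],959,true),([],1066,true)],[([],416,true)],[([],474,true),([],846,true)],[([],211,
  true),([],846,true)],[([],481,true),([],951,true),([],959,true),([],1066,true)],[([],958,
  true),([4810],959,true),([],648,true),([],1094,true)],[([],483,true),([],846,true)],[([],499,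
  true),([],951,true),([],959,true),([],1066,true)],[([],503,true),([],958,true),([4810],959,
  true),([],648,true),([],1094,true)],[([],353,true)],[([],511,true)],[([],404,true)],[([],521,
  true)],[([],526,true)],[([],216,true)],[([],959,true),([],1066,true)],[([],484,true),([],511,
  true)],[([],560,true),([],959,true),([],1066,true)],[([],542,true)],[([],565,true),([],959,
  true),([],1066,true)],[([],478,true)],[([],534,true)],[([],578,true)],[([],1215,true)],[([],
  1167,true)],[([],1110,true),([],1215,true)],[([],567,true)],[([],505,true)],[([],571,true),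
  ([],1215,true)],[([],508,true),([],1167,true)],[([],574,true)],[([],517,true),([],567,true)],
  [([],390,true),([],505,true)],[([],638,true)],[([],604,true)],[([],659,true),([],1215,true)],
  [([],630,true),([],1167,true)],[([],902,true)],[([],622,true),([],1110,true),([],1215,true)],
  [([],782,true),([],1167,true)],[([],358,true),([],1110,true),([],1215,true)],[([],663,true)],
  [([],580,true),([],638,true)],[([],490,true),([],604,true)],[([],593,true),([],659,true),([],
  1215,true)],[([],546,true),([],630,true),([],1167,true)],[([],453,true),([],902,true)],[([],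
  551,true),([],622,true),([],1110,true),([],1215,true)],[([],457,true),([],782,true),([],1167,
  true)],[([],596,true),([],663,true)],[([],540,true),([],580,true),([],638,true)],[([],410,
  true),([],490,true),([],604,true)],[([],554,true),([],593,true),([],659,true),([],1215,true)],
  [([],461,true),([],546,true),([],630,true),([],1167,true)],[([],311,true),([],453,true),([],
  902,true)],[([],671,true),([],1215,true)],[([],652,true),([],1167,true)],[([],654,true),([],
  1110,true),([],1215,true)],[([],614,true),([],782,true),([],1167,true)],[([],621,true),([],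
  358,true),([],1110,true),([],1215,true)],[([],376,true),([],782,true),([],1167,true)],[([],
  378,true),([],358,true),([],1110,true),([],1215,true)]]

/-- Derivations. -/
def prf12 : List (List (List ℕ × ℕ × Bool)) := [[([],602,true),([],671,true),([],1215,true)],
  [([],556,true),([],652,true),([],1167,true)],[([],558,true),([],654,true),([],1110,true),([],
  1215,true)],[([],466,true),([],614,true),([],782,true),([],1167,true)],[([],468,true),([],621,
  true),([],358,true),([],1110,true),([],1215,true)],[([],315,true),([],376,true),([],782,true),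
  ([],1167,true)],[([],673,true),([],1110,true),([],1215,true)],[([],656,true),([],358,true),
  ([],1110,true),([],1215,true)],[([],619,true),([],378,true),([],358,true),([],1110,true),([],
  1215,true)],[([],299,true),([],378,true),([],358,true),([],1110,true),([],1215,true)],[([],0,
  false)],[([],1,false)],[([],2,false)],[([],3,false)],[([],4,false)],[([],5,false)],[([],6,
  false)],[([],7,false)],[([],8,false)],[([],9,false)],[([],10,false)],[([],11,false)],[([],12,
  false)],[([],13,false)],[([],14,false)],[([],15,false)],[([],16,false)]]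

end HSq
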