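import Pool.Agent.HSq.CertCheck

/-!
# What the certificate proves
-/

namespace HSq

/-- The transitions of the spanning tree. -/
def treeL : List ℕ := [2331, 2404, 1810, 1819, 1892, 2477, 1289, 1307, 1380, 1965, 2550, 768,
  795, 868, 1453, 2038, 283]

/-- The square relations `g a * g b = g c * g d` that are used. -/
def sqL : List (ℕ × ℕ × ℕ × ℕ) := [(1283, 770, 1291, 771), (1218, 704, 1225, 706), (1283, 768,
  1289, 771), (1217, 704, 1225, 705), (1282, 768, 1289, 770), (1281, 768, 1289, 769), (1860,
  1347, 1868, 1348), (1860, 1346, 1867, 1348), (2437, 1924, 2445, 1925), (1730, 1225, 1746,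
  1218), (1795, 1290, 1811, 1283), (1795, 1289, 1810, 1283), (1860, 1353, 1874, 1348), (1794,
  1289, 1810, 1282), (1859, 1353, 1874, 1347), (2372, 1867, 2388, 1860), (2437, 1931, 2452,
  1925), (2307, 1810, 2331, 1795), (2372, 1874, 2395, 1860), (2437, 1938, 2459, 1925), (1738,
  1225, 1746, 1226), (1803, 1289, 1810, 1291), (1802, 1289, 1810, 1290), (1867, 1353, 1874,
  1355), (1866, 1353, 1874, 1354), (2380, 1867, 2388, 1868), (2315, 1810, 2331, 1803), (2380,
  1874, 2395, 1868), (2379, 1874, 2395, 1867), (2444, 1938, 2459, 1932), (2323, 1810, 2331,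
  1811), (2387, 1874, 2395, 1875), (2451, 1938, 2459, 1939), (771, 262, 782, 706), (770, 262,
  782, 705), (769, 262, 782, 704), (1348, 860, 1380, 1283), (1283, 781, 1301, 1218), (1283, 782,
   1302, 1218), (1348, 846, 1366, 1283), (1282, 781, 1301, 1217), (1795, 1300, 1820, 1730),
  (1795, 1301, 1821, 1730), (1860, 1372, 1892, 1795), (1925, 1445, 1965, 1860), (1860, 1365,
  1885, 1795), (2372, 1884, 2404, 2307), (2372, 1885, 2405, 2307), (2437, 1957, 2477, 2372),
  (2502, 2030, 2550, 2437), (1291, 782, 1302, 1226), (1290, 781, 1301, 1225), (1290, 782, 1302,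
  1225), (1354, 846, 1366, 1289), (2380, 1886, 2406, 2315), (2445, 1957, 2477, 2380), (1811,
  1302, 1822, 1746), (1875, 1366, 1886, 1810), (1939, 1430, 1950, 1874), (770, 283, 795, 706),
  (769, 283, 795, 705), (768, 283, 795, 704), (769, 276, 788, 705), (768, 276, 788, 704), (768,
  269, 781, 704), (1282, 795, 1307, 1218), (1347, 868, 1380, 1283), (1346, 868, 1380, 1282),
  (1346, 861, 1373, 1282), (1794, 1307, 1819, 1730), (1859, 1380, 1892, 1795), (1924, 1453,
  1965, 1860), (1290, 795, 1307, 1226), (1355, 868, 1380, 1291), (1289, 796, 1308, 1225), (1354,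
   868, 1380, 1290), (1353, 868, 1380, 1289), (1289, 788, 1300, 1225), (1289, 789, 1301, 1225),
  (1354, 861, 1373, 1290), (1353, 861, 1373, 1289), (1353, 853, 1365, 1289), (1353, 854, 1366,
  1289), (1932, 1453, 1965, 1868), (1931, 1453, 1965, 1867), (2379, 1892, 2404, 2315), (2444,
  1965, 2477, 2380), (2509, 2038, 2550, 2445), (1810, 1308, 1820, 1746), (1810, 1309, 1821,
  1746), (1875, 1380, 1892, 1811), (1875, 1381, 1893, 1811), (1874, 1381, 1893, 1810), (1939,
  1453, 1965, 1875), (1938, 1453, 1965, 1874), (1874, 1373, 1885, 1810), (1874, 1374, 1886,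
  1810), (1938, 1446, 1958, 1874), (1938, 1437, 1949, 1874), (1938, 1438, 1950, 1874), (2452,
  1965, 2477, 2388), (2452, 1966, 2478, 2388), (2516, 2038, 2550, 2452), (2395, 1893, 2405,
  2331), (2395, 1894, 2406, 2331), (2459, 1966, 2478, 2395), (2523, 2038, 2550, 2459), (2459,
  1957, 2469, 2395), (2459, 1958, 2470, 2395), (2523, 2030, 2542, 2459), (2523, 2022, 2534,
  2459), (868, 796, 860, 795), (868, 789, 853, 795), (868, 782, 846, 795), (854, 782, 846, 781),
   (1380, 1309, 1373, 1307), (1453, 1381, 1445, 1380), (1453, 1373, 1437, 1380), (1453, 1374,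
  1438, 1380), (1965, 1894, 1958, 1892), (2038, 1966, 2030, 1965), (1966, 1886, 1950, 1893),
  (2038, 1958, 2022, 1965), (2038, 1950, 2014, 1965)]

/-- The transitions representing the adjacent transpositions. -/
def repL : List ℕ := [705, 1226, 1811, 1820, 2405, 2478]

/-- The letter of the braid generator `s`. -/
def bl (s : ℕ) : ℕ := 2 * repL.getD s 0 + (bif Nat.blt s 3 then 0 else 1)

/-- Index of the relator expressing the generator `a`. -/
def genIdx : List (ℕ × ℕ) := [(706, 1244), (771, 1245), (770, 1246), (704, 1247), (769, 1248),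
  (768, 1362), (1218, 1249), (1283, 1250), (1348, 1251), (1217, 1252), (1282, 1253), (1347,
  1254), (1281, 1255), (1346, 1256), (1730, 1257), (1795, 1258), (1860, 1259), (1925, 1260),
  (1794, 1261), (1859, 1262), (1924, 1263), (2307, 1264), (2372, 1265), (2437, 1266), (2502,
  1267), (1291, 1268), (1225, 1269), (1290, 1270), (1355, 1271), (1289, 1357), (1354, 1272),
  (1353, 1273), (1738, 1274), (1803, 1275), (1868, 1276), (1802, 1277), (1867, 1278), (1932,
  1279), (1866, 1280), (1931, 1281), (2315, 1282), (2380, 1283), (2445, 1284), (2379, 1285),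
  (2444, 1286), (2509, 1287), (1746, 1288), (1810, 1353), (1875, 1289), (1874, 1290), (1939,
  1291), (1938, 1292), (2323, 1293), (2388, 1294), (2387, 1295), (2452, 1296), (2451, 1297),
  (2516, 1298), (2331, 1351), (2395, 1299), (2459, 1300), (2523, 1301), (2404, 1352), (1819,
  1354), (2406, 1302), (1821, 1303), (1822, 1304), (2477, 1356), (1892, 1355), (1307, 1358),
  (1893, 1305), (1308, 1306), (1894, 1307), (1309, 1308), (2550, 1361), (1965, 1360), (1380,
  1359), (795, 1363), (1966, 1309), (1381, 1310), (796, 1311), (2038, 1366), (1453, 1365), (868,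
   1364), (283, 1367), (2469, 1312), (1884, 1313), (2470, 1314), (1885, 1315), (1300, 1316),
  (1886, 1317), (1301, 1318), (1302, 1319), (2542, 1320), (1957, 1321), (1372, 1322), (1958,
  1323), (1373, 1324), (788, 1325), (1374, 1326), (789, 1327), (2030, 1328), (1445, 1329), (860,
   1330), (1446, 1331), (861, 1332), (276, 1333), (2534, 1334), (1949, 1335), (1950, 1336),
  (1365, 1337), (1366, 1338), (781, 1339), (782, 1340), (2022, 1341), (1437, 1342), (1438,
  1343), (853, 1344), (854, 1345), (269, 1346), (2014, 1347), (1430, 1348), (846, 1349), (262,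
  1350)]

/-- Index of the braid relators. -/
def brIdx : List ℕ := [1229, 1234, 1238, 1241, 1243]

/-- Index of the commutation relators. -/
def coIdx : List (ℕ × ℕ × ℕ) := [(0, 2, 1230), (0, 3, 1231), (0, 4, 1232), (0, 5, 1233), (1, 3,
  1235), (1, 4, 1236), (1, 5, 1237), (2, 4, 1239), (2, 5, 1240), (3, 5, 1242)]

/-- The base relators. -/
def baseRel : List (List ℕ) :=
  treeL.map (fun a => [2 * a]) ++
    sqL.map (fun s => [2 * s.1, 2 * s.2.1, 2 * s.2.2.2 + 1, 2 * s.2.2.1 + 1])

theorem base_ok : ∀ j < 141, relT.get j ∈ baseRel := by decide +kernel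

variable {G : Type*} [Group G] (g : ℕ → G)

theorem rel_one (htree : ∀ a ∈ treeL, g a = 1)
    (hsq : ∀ s ∈ sqL, g s.1 * g s.2.1 = g s.2.2.1 * g s.2.2.2) :
    ∀ j < 1368, wval g (relT.get j) = 1 := by
  have h0 : ∀ j < 141, wval g (relT.get j) = 1 := by
    intro j hj
    have h := base_ok j hj
    rw [baseRel, List.mem_append, List.mem_map, List.mem_map] at h
    rcases h with ⟨a, ha, h⟩ | ⟨s, hs, h⟩
    · rw [← h]; simp [lval, htree a ha]
    · rw [← h]
      have h1 : (2 * s.2.2.2 + 1) % 2 = 1 := by omega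
      have h2 : (2 * s.2.2.1 + 1) % 2 = 1 := by omega
      have h3 : (2 * s.2.2.2 + 1) / 2 = s.2.2.2 := by omega
      have h4 : (2 * s.2.2.1 + 1) / 2 = s.2.2.1 := by omega
      simp only [wval_cons, wval_nil, lval, Nat.mul_mod_right, if_true, h1, h2, h3, h4,
        Nat.mul_div_cancel_left _ (by norm_num : 0 < 2), one_ne_zero, if_false]
      rw [← mul_assoc, hsq s hs]
      group
  have h1 : ∀ j < 241, wval g (relT.get j) = 1 :=
    checkAll_sound g relT 141 prf0 check0 h0
  have h2 : ∀ j < 341, wval g (relT.get j) = 1 :=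
    checkAll_sound g relT 241 prf1 check1 h1
  have h3 : ∀ j < 441, wval g (relT.get j) = 1 :=
    checkAll_sound g relT 341 prf2 check2 h2
  have h4 : ∀ j < 541, wval g (relT.get j) = 1 :=
    checkAll_sound g relT 441 prf3 check3 h3
  have h5 : ∀ j < 641, wval g (relT.get j) = 1 :=
    checkAll_sound g relT 541 prf4 check4 h4
  have h6 : ∀ j < 741, wval g (relT.get j) = 1 :=
    checkAll_sound g relT 641 prf5 check5 h5
  have h7 : ∀ j < 841, wval g (relT.get j) = 1 :=
    checkAll_sound g relT 741 prf6 check6 h6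
  have h8 : ∀ j < 941, wval g (relT.get j) = 1 :=
    checkAll_sound g relT 841 prf7 check7 h7
  have h9 : ∀ j < 1041, wval g (relT.get j) = 1 :=
    checkAll_sound g relT 941 prf8 check8 h8
  have h10 : ∀ j < 1141, wval g (relT.get j) = 1 :=
    checkAll_sound g relT 1041 prf9 check9 h9
  have h11 : ∀ j < 1241, wval g (relT.get j) = 1 :=
    checkAll_sound g relT 1141 prf10 check10 h10
  have h12 : ∀ j < 1341, wval g (relT.get j) = 1 :=
    checkAll_sound g relT 1241 prf11 check11 h11
  have h13 : ∀ j < 1368, wval g (relT.get j) = 1 :=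
    checkAll_sound g relT 1341 prf12 check12 h12
  exact h13

theorem br_ok : ∀ s < 5, brIdx.getD s 0 < 1368 ∧ relT.get (brIdx.getD s 0) =
    [bl s, bl (s + 1), bl s, linv (bl (s + 1)), linv (bl s), linv (bl (s + 1))] := by
  decide +kernel

theorem co_ok : ∀ c ∈ coIdx, c.2.2 < 1368 ∧ relT.get c.2.2 =
    [bl c.1, bl c.2.1, linv (bl c.1), linv (bl c.2.1)] := by
  decide +kernel

theorem co_mem : ∀ s < 6, ∀ t < 6, s + 2 ≤ t → ∃ c ∈ coIdx, c.1 = s ∧ c.2.1 = t := by
  decide +kernel

/-- A letter of a braid generator or of its inverse. -/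
def isB (x : ℕ) : Bool := (List.range 6).any fun s => Nat.beq x (bl s) || Nat.beq x (linv (bl s))

/-- The generator `c.1` is expressed by the relator `c.2` as a word in the braid generators. -/
def genOK (c : ℕ × ℕ) : Bool :=
  Nat.blt c.2 1368 && match relT.get c.2 with
    | [] => false
    | x :: w => Nat.beq x (2 * c.1 + 1) && w.all isB

theorem gen_ok : ∀ c ∈ genIdx, genOK c = true := by decide +kernel

/-- The code of a vertical move: the numbers `l`, `m` of squares in the first row and in the first
two rows, the slot `p` of the moving square before and `q` after the move. -/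
def codeOf (l m p q : ℕ) : ℕ := ((l * 8 + m) * 8 + p) * 8 + q

/-- The codes that occur. -/
def codes : List ℕ := repL ++ genIdx.map Prod.fst

/-- The inequalities satisfied by the numbers of a vertical move. -/
def validC (l m p q : ℕ) : Bool :=
  Nat.ble l 4 && Nat.ble l m && Nat.ble m (l + 4) && Nat.ble 3 m && Nat.ble p q && Nat.ble q 6 &&
  ((Nat.blt p l && Nat.ble l (q + 1) && Nat.blt q m && Nat.ble m (l + 3) && Nat.ble (p + q) (l + 2)
    && Nat.ble (l + m) (p + q + 5)) ||
   (Nat.ble l p && Nat.blt p m && Nat.ble m (q + 1) && Nat.ble 4 m && Nat.ble m 7 &&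
    Nat.ble (m + 2) (p + q) && Nat.ble (p + q) (l + m + 2)))

theorem valid_codes0 : ((List.range 5).all fun l => (List.range 8).all fun m =>
    (List.range 7).all fun p => (List.range 7).all fun q =>
      !(validC l m p q) || codes.contains (codeOf l m p q)) = true := by
  decide +kernel

theorem valid_codes {l m p q : ℕ} (h : validC l m p q = true) : codeOf l m p q ∈ codes := by
  have h1 := h
  simp only [validC, Bool.and_eq_true, Bool.or_eq_true, Nat.ble_eq, Nat.blt_eq] at h1
  have h2 := valid_codes0
  rw [List.all_eq_true] at h2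
  have h3 := h2 l (List.mem_range.2 (by omega))
  rw [List.all_eq_true] at h3
  have h4 := h3 m (List.mem_range.2 (by omega))
  rw [List.all_eq_true] at h4
  have h5 := h4 p (List.mem_range.2 (by omega))
  rw [List.all_eq_true] at h5
  have h6 := h5 q (List.mem_range.2 (by omega))
  rw [h] at h6
  simpa using h6

end HSq
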