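import Mathlib

/-!
# Singular 1-chains modulo boundaries

`Q X` is the free abelian group on the continuous paths `C(I, X)` modulo the boundaries of the
singular 2-simplices, `cls γ` the class of a path and `bd` the boundary map to the free abelian
group on the points of `X`.
-/

namespace HSq

open unitInterval

/-- The standard 2-simplex. -/
abbrev Tri : Type := stdSimplex ℝ (Fin 3)

/-- The first edge of the standard 2-simplex, from vertex 0 to vertex 1. -/
def e01 : C(I, Tri) :=
  ⟨fun t => ⟨![1 - (t : ℝ), t, 0], by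
    refine ⟨fun i => ?_, by simp [Fin.sum_univ_three]⟩
    fin_cases i
    · simpa using t.2.2
    · simpa using t.2.1
    · simp⟩,
    by
      refine Continuous.subtype_mk (continuous_pi fun i => ?_) _
      fin_cases i <;> simp <;> fun_prop⟩

/-- The second edge of the standard 2-simplex, from vertex 1 to vertex 2. -/
def e12 : C(I, Tri) :=
  ⟨fun t => ⟨![0, 1 - (t : ℝ), t], by
    refine ⟨fun i => ?_, by simp [Fin.sum_univ_three]⟩
    fin_cases i
    · simp
    · simpa using t.2.2
    · simpa using t.2.1⟩,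
    by
      refine Continuous.subtype_mk (continuous_pi fun i => ?_) _
      fin_cases i <;> simp <;> fun_prop⟩

/-- The third edge of the standard 2-simplex, from vertex 0 to vertex 2. -/
def e02 : C(I, Tri) :=
  ⟨fun t => ⟨![1 - (t : ℝ), 0, t], by
    refine ⟨fun i => ?_, by simp [Fin.sum_univ_three]⟩
    fin_cases i
    · simpa using t.2.2
    · simp
    · simpa using t.2.1⟩,
    by
      refine Continuous.subtype_mk (continuous_pi fun i => ?_) _
      fin_cases i <;> simp <;> fun_prop⟩

variable {X Y A : Type} [TopologicalSpace X] [TopologicalSpace Y]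

/-- The subgroup of boundaries of singular 2-simplices. -/
def QRel (X : Type) [TopologicalSpace X] : AddSubgroup (FreeAbelianGroup C(I, X)) :=
  AddSubgroup.closure (Set.range fun τ : C(Tri, X) =>
    FreeAbelianGroup.of (τ.comp e01) + FreeAbelianGroup.of (τ.comp e12) -
      FreeAbelianGroup.of (τ.comp e02))

/-- Singular 1-chains of `X` modulo boundaries. -/
def Q (X : Type) [TopologicalSpace X] : Type := FreeAbelianGroup C(I, X) ⧸ QRel X

instance : AddCommGroup (Q X) := inferInstanceAs (AddCommGroup (FreeAbelianGroup C(I, X) ⧸ QRel X))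

/-- The quotient map. -/
def Q.mk : FreeAbelianGroup C(I, X) →+ Q X := QuotientAddGroup.mk' (QRel X)

theorem Q.mk_surjective : Function.Surjective (Q.mk (X := X)) :=
  QuotientAddGroup.mk'_surjective (QRel X)

theorem Q.mk_eq_zero {x : FreeAbelianGroup C(I, X)} (h : x ∈ QRel X) : Q.mk x = 0 :=
  (QuotientAddGroup.eq_zero_iff _).2 h

/-- The class of a path. -/
def cls (γ : C(I, X)) : Q X := Q.mk (FreeAbelianGroup.of γ)

theorem cls_tri (τ : C(Tri, X)) :
    cls (τ.comp e01) + cls (τ.comp e12) = cls (τ.comp e02) := by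
  have h2 : Q.mk (FreeAbelianGroup.of (τ.comp e01) +
      FreeAbelianGroup.of (τ.comp e12) - FreeAbelianGroup.of (τ.comp e02)) = 0 :=
    Q.mk_eq_zero (AddSubgroup.subset_closure ⟨τ, rfl⟩)
  rw [map_sub, map_add, sub_eq_zero] at h2
  exact h2

/-- The universal property of `Q X`. -/
def Q.lift [AddCommGroup A] (f : C(I, X) → A)
    (hf : ∀ τ : C(Tri, X), f (τ.comp e01) + f (τ.comp e12) = f (τ.comp e02)) : Q X →+ A :=
  QuotientAddGroup.lift (QRel X) (FreeAbelianGroup.lift f) (by
    rw [QRel, AddSubgroup.closure_le]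
    rintro _ ⟨τ, rfl⟩
    simp [hf τ])

@[simp] theorem Q.lift_cls [AddCommGroup A] (f : C(I, X) → A)
    (hf : ∀ τ : C(Tri, X), f (τ.comp e01) + f (τ.comp e12) = f (τ.comp e02)) (γ : C(I, X)) :
    Q.lift f hf (cls γ) = f γ := by
  show FreeAbelianGroup.lift f (FreeAbelianGroup.of γ) = f γ
  simp

theorem Q.induction {P : Q X → Prop} (h0 : P 0) (h1 : ∀ γ, P (cls γ)) (hn : ∀ ξ, P ξ → P (-ξ))
    (ha : ∀ ξ η, P ξ → P η → P (ξ + η)) (ξ : Q X) : P ξ := by
  obtain ⟨x, rfl⟩ := Q.mk_surjective ξ
  induction x using FreeAbelianGroup.induction_on with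
  | zero => rw [map_zero]; exact h0
  | of γ => exact h1 γ
  | neg γ h => rw [map_neg]; exact hn _ (h1 γ)
  | add x y hx hy => rw [map_add]; exact ha _ _ hx hy

theorem Q.hom_ext [AddCommGroup A] {f g : Q X →+ A} (h : ∀ γ, f (cls γ) = g (cls γ)) : f = g := by
  ext ξ
  induction ξ using Q.induction with
  | h0 => simp
  | h1 γ => exact h γ
  | hn ξ h => simp [h]
  | ha ξ η h1 h2 => simp [h1, h2]

/-- The boundary map. -/
noncomputable def bd : Q X →+ (X →₀ ℤ) :=
  Q.lift (fun γ => Finsupp.single (γ 1) 1 - Finsupp.single (γ 0) 1) (by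
    intro τ
    have h1 : e01 1 = e12 0 := by apply Subtype.ext; simp [e01, e12]
    have h2 : e01 0 = e02 0 := by apply Subtype.ext; simp [e01, e02]
    have h3 : e12 1 = e02 1 := by apply Subtype.ext; simp [e12, e02]
    simp only [ContinuousMap.comp_apply, h1, h2, h3]
    abel)

@[simp] theorem bd_cls (γ : C(I, X)) :
    bd (cls γ) = Finsupp.single (γ 1) 1 - Finsupp.single (γ 0) 1 := by
  simp [bd]

/-- The map induced on `Q` by a continuous map. -/
def Q.map (f : C(X, Y)) : Q X →+ Q Y :=
  Q.lift (fun γ => cls (f.comp γ)) (fun τ => cls_tri (f.comp τ))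

@[simp] theorem Q.map_cls (f : C(X, Y)) (γ : C(I, X)) : Q.map f (cls γ) = cls (f.comp γ) := by
  simp [Q.map]

end HSq
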