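import Mathlib

/-!
# Functions on the weak order graph satisfying the braid relations
-/

namespace HSq

open Equiv

/-- The adjacent transposition `(i, i+1)`. -/
def sw {n : ℕ} (i : Fin n) : Perm (Fin (n + 1)) := swap i.castSucc i.succ

/-- `F w i` is a weight of the edge `w → w * sw i`; the commutation and braid relations hold. -/
structure BraidFun (n : ℕ) {B : Type*} [AddCommGroup B] (F : Perm (Fin (n + 1)) → Fin n → B) :
    Prop where
  comm : ∀ w, ∀ i j : Fin n, (i : ℕ) + 2 ≤ j →
    F w i + F (w * sw i) j = F w j + F (w * sw j) i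
  braid : ∀ w, ∀ i j : Fin n, (i : ℕ) + 1 = j →
    F w i + F (w * sw i) j + F (w * sw i * sw j) i =
      F w j + F (w * sw j) i + F (w * sw j * sw i) j

/-- The weight of the loop `w → w * sw i → w`. -/
def rot {n : ℕ} {B : Type*} [AddCommGroup B] (F : Perm (Fin (n + 1)) → Fin n → B)
    (w : Perm (Fin (n + 1))) (i : Fin n) : B := F w i + F (w * sw i) i

theorem sw_mul_self {n : ℕ} (i : Fin n) : sw i * sw i = 1 := by simp [sw]

theorem rot_swap {n : ℕ} {B : Type*} [AddCommGroup B] (F : Perm (Fin (n + 1)) → Fin n → B)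
    (w : Perm (Fin (n + 1))) (i : Fin n) : rot F (w * sw i) i = rot F w i := by
  simp [rot, mul_assoc, sw_mul_self, add_comm]

end HSq
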