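import Pool.Agent.HSq.Defs
import Pool.Agent.HSq.Seg
import Pool.Agent.HSq.PB

/-!
# Half twists in the configuration space of points
-/

namespace HSq

open Equiv

/-- The point with label `k` at abscissa `w⁻¹ k` and height `y k`. -/
noncomputable def cfg {n : ℕ} (w : Perm (Fin n)) (y : Fin n → ℝ) : Fin n → ℝ × ℝ :=
  fun k => (((w⁻¹ k : Fin n) : ℕ), y k)

/-- The half twist exchanging the letters at positions `i` and `i + 1`, the left one passing
below. -/
noncomputable def FC {n : ℕ} (w : Perm (Fin (n + 1))) (i : Fin n) : Q (conf (n + 1)) :=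
  sg (conf (n + 1)) (cfg w 0) (cfg w (Pi.single (w i.succ) 1)) +
  sg (conf (n + 1)) (cfg w (Pi.single (w i.succ) 1)) (cfg (w * sw i) (Pi.single (w i.succ) 1)) +
  sg (conf (n + 1)) (cfg (w * sw i) (Pi.single (w i.succ) 1)) (cfg (w * sw i) 0)

end HSq
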