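import Pool.Agent.HSq.Conf

/-!
# The braid relations for half twists

Plan.  For any heights `y` with `y (w i) < y (w (i+1))` one has
`FC w i = [cfg w 0, cfg w y] + [cfg w y, cfg (w s) y] + [cfg (w s) y, cfg (w s) 0]` (convex sets with
fixed order of the abscissae, resp. with the two letters at different heights and the other pairs in
fixed order of abscissae).  Take `y (w p) = p`: all `cfg w' y` lie in the convex set of
configurations with heights `y`.
-/

namespace HSq

open Equiv

/-- Configurations with the abscissae in the order given by `w`. -/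
def WX {n : ℕ} (w : Perm (Fin n)) : Set (Fin n → ℝ × ℝ) :=
  {z | ∀ k l, w⁻¹ k < w⁻¹ l → (z k).1 < (z l).1}

/-- Configurations with given heights. -/
def HY {n : ℕ} (y : Fin n → ℝ) : Set (Fin n → ℝ × ℝ) := {z | ∀ k, (z k).2 = y k}

/-- Configurations with the abscissae in the order given by `w`, except that the letters at the
positions `i`, `i + 1` only have to be in the given order of heights. -/
def EX {n : ℕ} (w : Perm (Fin (n + 1))) (i : Fin n) : Set (Fin (n + 1) → ℝ × ℝ) :=
  {z | (∀ k l, w⁻¹ k < w⁻¹ l → ¬ (k = w i.castSucc ∧ l = w i.succ) → (z k).1 < (z l).1) ∧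
    (z (w i.castSucc)).2 < (z (w i.succ)).2}

theorem combo_lt {a b c d s t : ℝ} (h1 : a < b) (h2 : c < d) (hs : 0 ≤ s) (ht : 0 ≤ t)
    (hst : s + t = 1) : s * a + t * c < s * b + t * d := by
  rcases eq_or_lt_of_le hs with h | h
  · have : t = 1 := by linarith
    subst this
    rw [← h]
    linarith
  · nlinarith

theorem convex_WX {n : ℕ} (w : Perm (Fin n)) : Convex ℝ (WX w) := by
  intro z hz z' hz' s t hs ht hst k l hkl
  have := combo_lt (hz k l hkl) (hz' k l hkl) hs ht hst
  simpa using this

theorem convex_HY {n : ℕ} (y : Fin n → ℝ) : Convex ℝ (HY y) := by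
  intro z hz z' hz' s t hs ht hst k
  have h1 := hz k
  have h2 := hz' k
  simp only [Pi.add_apply, Pi.smul_apply, Prod.snd_add, Prod.smul_snd, smul_eq_mul, h1, h2]
  rw [← add_mul, hst, one_mul]

theorem convex_EX {n : ℕ} (w : Perm (Fin (n + 1))) (i : Fin n) : Convex ℝ (EX w i) := by
  intro z hz z' hz' s t hs ht hst
  refine ⟨fun k l hkl hn => ?_, ?_⟩
  · have := combo_lt (hz.1 k l hkl hn) (hz'.1 k l hkl hn) hs ht hst
    simpa using this
  · have := combo_lt hz.2 hz'.2 hs ht hst
    simpa using this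

theorem WX_subset {n : ℕ} (w : Perm (Fin n)) : WX w ⊆ conf n := by
  intro z hz k l hkl h
  have hne : w⁻¹ k ≠ w⁻¹ l := fun h' => hkl (w⁻¹.injective h')
  rcases lt_or_gt_of_ne hne with h1 | h1
  · have := hz k l h1
    rw [h] at this
    exact lt_irrefl _ this
  · have := hz l k h1
    rw [h] at this
    exact lt_irrefl _ this

theorem HY_subset {n : ℕ} {y : Fin n → ℝ} (hy : Function.Injective y) : HY y ⊆ conf n := by
  intro z hz k l hkl h
  apply hkl
  apply hy
  rw [← hz k, ← hz l, h]

theorem EX_subset {n : ℕ} (w : Perm (Fin (n + 1))) (i : Fin n) : EX w i ⊆ conf (n + 1) := by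
  intro z hz k l hkl h
  have hne : w⁻¹ k ≠ w⁻¹ l := fun h' => hkl (w⁻¹.injective h')
  by_cases h1 : k = w i.castSucc ∧ l = w i.succ
  · have := hz.2
    rw [← h1.1, ← h1.2, h] at this
    exact lt_irrefl _ this
  by_cases h2 : l = w i.castSucc ∧ k = w i.succ
  · have := hz.2
    rw [← h2.1, ← h2.2, h] at this
    exact lt_irrefl _ this
  rcases lt_or_gt_of_ne hne with h3 | h3
  · have := hz.1 k l h3 h1
    rw [h] at this
    exact lt_irrefl _ this
  · have := hz.1 l k h3 h2
    rw [h] at this
    exact lt_irrefl _ this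

theorem cfg_mem_WX {n : ℕ} (w : Perm (Fin n)) (y : Fin n → ℝ) : cfg w y ∈ WX w := by
  intro k l hkl
  simp only [cfg]
  exact_mod_cast hkl

theorem cfg_mem_HY {n : ℕ} (w : Perm (Fin n)) (y : Fin n → ℝ) : cfg w y ∈ HY y := fun _ => rfl

theorem cfg_mem_EX {n : ℕ} (w : Perm (Fin (n + 1))) (i : Fin n) {y : Fin (n + 1) → ℝ}
    (hy : y (w i.castSucc) < y (w i.succ)) : cfg w y ∈ EX w i :=
  ⟨fun k l hkl _ => cfg_mem_WX w y k l hkl, hy⟩

theorem cfg_mem_EX' {n : ℕ} (w : Perm (Fin (n + 1))) (i : Fin n) {y : Fin (n + 1) → ℝ}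
    (hy : y (w i.castSucc) < y (w i.succ)) : cfg (w * sw i) y ∈ EX w i := by
  refine ⟨fun k l hkl hn => ?_, hy⟩
  obtain ⟨p, rfl⟩ := w.surjective k
  obtain ⟨q, rfl⟩ := w.surjective l
  have hinv : ∀ r, w⁻¹ (w r) = r := fun r => by simp
  rw [hinv, hinv] at hkl
  have hn' : ¬ (p = i.castSucc ∧ q = i.succ) := by
    rintro ⟨rfl, rfl⟩
    exact hn ⟨rfl, rfl⟩
  simp only [cfg, mul_inv_rev, Perm.mul_apply, hinv]
  have hs : (sw i)⁻¹ = sw i := by simp [sw]
  rw [hs]
  have key : sw i p < sw i q := by
    have hp : (i.castSucc : Fin (n + 1)).val = i.val := rfl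
    have hq : (i.succ : Fin (n + 1)).val = i.val + 1 := rfl
    simp only [sw, swap_apply_def]
    rw [Fin.lt_def] at hkl ⊢
    by_cases p1 : p = i.castSucc
    · by_cases q1 : q = i.succ
      · exact absurd ⟨p1, q1⟩ hn'
      · have q2 : q ≠ i.castSucc := by
          rintro rfl
          rw [p1] at hkl
          exact lt_irrefl _ hkl
        rw [if_pos p1, if_neg q2, if_neg q1]
        have : q.val ≠ i.succ.val := fun h => q1 (Fin.ext h)
        rw [p1] at hkl
        omega
    · by_cases p2 : p = i.succ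
      · have q2 : q ≠ i.castSucc := by
          rintro rfl
          rw [p2] at hkl
          omega
        have q1 : q ≠ i.succ := by
          rintro rfl
          rw [p2] at hkl
          exact lt_irrefl _ hkl
        rw [if_neg p1, if_pos p2, if_neg q2, if_neg q1]
        rw [p2] at hkl
        omega
      · rw [if_neg p1, if_neg p2]
        have p1' : p.val ≠ i.castSucc.val := fun h => p1 (Fin.ext h)
        have p2' : p.val ≠ i.succ.val := fun h => p2 (Fin.ext h)
        by_cases q1 : q = i.castSucc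
        · rw [if_pos q1]
          rw [q1] at hkl
          omega
        · by_cases q2 : q = i.succ
          · rw [if_neg q1, if_pos q2]
            rw [q2] at hkl
            omega
          · rw [if_neg q1, if_neg q2]
            exact hkl
  exact_mod_cast key

/-- Half twists through arbitrary heights. -/
theorem FC_eq {n : ℕ} (w : Perm (Fin (n + 1))) (i : Fin n) {y : Fin (n + 1) → ℝ}
    (hy : y (w i.castSucc) < y (w i.succ)) :
    FC w i = sg (conf (n + 1)) (cfg w 0) (cfg w y) -
      sg (conf (n + 1)) (cfg (w * sw i) 0) (cfg (w * sw i) y) +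
      sg (conf (n + 1)) (cfg w y) (cfg (w * sw i) y) := by
  set e : Fin (n + 1) → ℝ := Pi.single (w i.succ) 1 with he
  have hne : w i.castSucc ≠ w i.succ := fun h => by
    have := w.injective h
    have h2 := congrArg Fin.val this
    simp at h2
  have hee : e (w i.castSucc) < e (w i.succ) := by
    rw [he, Pi.single_eq_of_ne hne, Pi.single_eq_same]
    exact one_pos
  have a1 := sg_add (convex_WX w) (WX_subset w) (cfg_mem_WX w 0) (cfg_mem_WX w y)
    (cfg_mem_WX w e)
  have a2 := sg_swap (convex_WX w) (WX_subset w) (cfg_mem_WX w y) (cfg_mem_WX w e)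
  have b1 := sg_add (convex_WX (w * sw i)) (WX_subset (w * sw i)) (cfg_mem_WX (w * sw i) e)
    (cfg_mem_WX (w * sw i) y) (cfg_mem_WX (w * sw i) 0)
  have b2 := sg_swap (convex_WX (w * sw i)) (WX_subset (w * sw i)) (cfg_mem_WX (w * sw i) 0)
    (cfg_mem_WX (w * sw i) y)
  have c1 := sg_add (convex_EX w i) (EX_subset w i) (cfg_mem_EX w i hee) (cfg_mem_EX' w i hee)
    (cfg_mem_EX' w i hy)
  have c2 := sg_add (convex_EX w i) (EX_subset w i) (cfg_mem_EX w i hee) (cfg_mem_EX w i hy)
    (cfg_mem_EX' w i hy)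
  have hF : FC w i = sg (conf (n + 1)) (cfg w 0) (cfg w e) +
    sg (conf (n + 1)) (cfg w e) (cfg (w * sw i) e) +
    sg (conf (n + 1)) (cfg (w * sw i) e) (cfg (w * sw i) 0) := rfl
  rw [hF, ← a1, ← b1, b2]
  have c3 : sg (conf (n + 1)) (cfg w e) (cfg (w * sw i) e) +
      sg (conf (n + 1)) (cfg (w * sw i) e) (cfg (w * sw i) y) =
      - sg (conf (n + 1)) (cfg w y) (cfg w e) + sg (conf (n + 1)) (cfg w y) (cfg (w * sw i) y) := by
    rw [c1, ← c2, a2]
  calc _ = sg (conf (n + 1)) (cfg w 0) (cfg w y) + sg (conf (n + 1)) (cfg w y) (cfg w e) +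
        (sg (conf (n + 1)) (cfg w e) (cfg (w * sw i) e) +
          sg (conf (n + 1)) (cfg (w * sw i) e) (cfg (w * sw i) y)) +
        - sg (conf (n + 1)) (cfg (w * sw i) 0) (cfg (w * sw i) y) := by abel
    _ = _ := by rw [c3]; abel

/-- The heights `y (w p) = p`. -/
noncomputable def hts {n : ℕ} (w : Perm (Fin n)) : Fin n → ℝ := fun k => ((w⁻¹ k : Fin n) : ℕ)

theorem hts_apply {n : ℕ} (w : Perm (Fin n)) (p : Fin n) : hts w (w p) = (p : ℕ) := by
  simp [hts]

theorem hts_injective {n : ℕ} (w : Perm (Fin n)) : Function.Injective (hts w) := by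
  intro k l h
  simp only [hts, Nat.cast_inj] at h
  exact w⁻¹.injective (Fin.ext h)

theorem FC_braid (n : ℕ) : BraidFun n (FC (n := n)) := by
  constructor
  · intro w i j hij
    set y := hts w with hy
    have hY := hts_injective w
    have ij1 : i.castSucc ≠ j.castSucc := fun h => by
      have := congrArg Fin.val h; simp at this; omega
    have ij2 : i.castSucc ≠ j.succ := fun h => by
      have := congrArg Fin.val h; simp at this; omega
    have ij3 : i.succ ≠ j.castSucc := fun h => by
      have := congrArg Fin.val h; simp at this; omega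
    have ij4 : i.succ ≠ j.succ := fun h => by
      have := congrArg Fin.val h; simp at this; omega
    have hc : w * sw j * sw i = w * sw i * sw j := by
      rw [mul_assoc, mul_assoc]
      congr 1
      apply Equiv.ext
      intro p
      simp only [sw, Perm.mul_apply]
      have hd : Perm.Disjoint (swap i.castSucc i.succ) (swap j.castSucc j.succ) := by
        intro q
        by_cases h1 : q = i.castSucc
        · right; subst h1; exact swap_apply_of_ne_of_ne ij1 ij2
        by_cases h2 : q = i.succ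
        · right; subst h2; exact swap_apply_of_ne_of_ne ij3 ij4
        · left; exact swap_apply_of_ne_of_ne h1 h2
      have := hd.commute.eq
      have h3 := congrArg (fun σ : Perm (Fin (n + 1)) => σ p) this
      simpa using h3.symm
    have e1 : y (w i.castSucc) < y (w i.succ) := by
      rw [hy, hts_apply, hts_apply]; simp
    have e2 : y (w j.castSucc) < y (w j.succ) := by
      rw [hy, hts_apply, hts_apply]; simp
    have e3 : y ((w * sw i) j.castSucc) < y ((w * sw i) j.succ) := by
      rw [Perm.mul_apply, Perm.mul_apply, sw, swap_apply_of_ne_of_ne ij1.symm ij3.symm,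
        swap_apply_of_ne_of_ne ij2.symm ij4.symm]
      exact e2
    have e4 : y ((w * sw j) i.castSucc) < y ((w * sw j) i.succ) := by
      rw [Perm.mul_apply, Perm.mul_apply, sw, swap_apply_of_ne_of_ne ij1 ij2,
        swap_apply_of_ne_of_ne ij3 ij4]
      exact e1
    rw [FC_eq w i e1, FC_eq (w * sw i) j e3, FC_eq w j e2, FC_eq (w * sw j) i e4, hc]
    have t1 := sg_add (convex_HY y) (HY_subset hY) (cfg_mem_HY w y) (cfg_mem_HY (w * sw i) y)
      (cfg_mem_HY (w * sw i * sw j) y)
    have t2 := sg_add (convex_HY y) (HY_subset hY) (cfg_mem_HY w y) (cfg_mem_HY (w * sw j) y)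
      (cfg_mem_HY (w * sw i * sw j) y)
    have t3 := t1.trans t2.symm
    have lhs : ∀ a b c d f : Q (conf (n + 1)), a - b + c + (b - d + f) = a - d + (c + f) := by
      intros; abel
    rw [lhs, lhs, t3]
  · intro w i j hij
    set y := hts w with hy
    have hY := hts_injective w
    have hj : j.castSucc = i.succ := Fin.ext (by simp [hij])
    have ne1 : i.castSucc ≠ i.succ := fun h => by
      have := congrArg Fin.val h; simp at this
    have ne2 : i.castSucc ≠ j.succ := fun h => by
      have := congrArg Fin.val h; simp at this; omega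
    have ne3 : i.succ ≠ j.succ := fun h => by
      have := congrArg Fin.val h; simp at this; omega
    have si1 : sw i i.castSucc = i.succ := by simp [sw]
    have si2 : sw i i.succ = i.castSucc := by simp [sw]
    have si3 : sw i j.succ = j.succ := by
      rw [sw]; exact swap_apply_of_ne_of_ne ne2.symm ne3.symm
    have sj1 : sw j i.castSucc = i.castSucc := by
      rw [sw, hj]; exact swap_apply_of_ne_of_ne ne1 ne2
    have sj2 : sw j i.succ = j.succ := by rw [sw, hj]; simp
    have sj3 : sw j j.succ = i.succ := by rw [sw, hj]; simp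
    have hc : w * sw j * sw i * sw j = w * sw i * sw j * sw i := by
      rw [mul_assoc, mul_assoc, mul_assoc, mul_assoc]
      congr 1
      apply Equiv.ext
      intro p
      simp only [Perm.mul_apply]
      by_cases h1 : p = i.castSucc
      · subst h1; rw [sj1, si1, sj2, si3]
      by_cases h2 : p = i.succ
      · subst h2; rw [sj2, si3, sj3, si2, sj1, si1]
      by_cases h3 : p = j.succ
      · subst h3; rw [sj3, si2, sj1, si3, sj3, si2]
      · have k1 : sw i p = p := by rw [sw]; exact swap_apply_of_ne_of_ne h1 h2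
        have k2 : sw j p = p := by rw [sw, hj]; exact swap_apply_of_ne_of_ne h2 h3
        rw [k2, k1, k2, k1]
    have v1 : y (w i.castSucc) < y (w i.succ) := by
      rw [hy, hts_apply, hts_apply]; simp
    have v2 : y (w i.succ) < y (w j.succ) := by
      rw [hy, hts_apply, hts_apply]; simp; omega
    have v3 : y (w i.castSucc) < y (w j.succ) := v1.trans v2
    have e2 : y ((w * sw i) j.castSucc) < y ((w * sw i) j.succ) := by
      rw [Perm.mul_apply, Perm.mul_apply, hj, si2, si3]; exact v3
    have e3 : y ((w * sw i * sw j) i.castSucc) < y ((w * sw i * sw j) i.succ) := by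
      rw [Perm.mul_apply, Perm.mul_apply, Perm.mul_apply, Perm.mul_apply, sj1, sj2, si1, si3]
      exact v2
    have e4 : y (w j.castSucc) < y (w j.succ) := by rw [hj]; exact v2
    have e5 : y ((w * sw j) i.castSucc) < y ((w * sw j) i.succ) := by
      rw [Perm.mul_apply, Perm.mul_apply, sj1, sj2]; exact v3
    have e6 : y ((w * sw j * sw i) j.castSucc) < y ((w * sw j * sw i) j.succ) := by
      rw [Perm.mul_apply, Perm.mul_apply, Perm.mul_apply, Perm.mul_apply, hj, si2, si3, sj1, sj3]
      exact v1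
    rw [FC_eq w i v1, FC_eq (w * sw i) j e2, FC_eq (w * sw i * sw j) i e3, FC_eq w j e4,
      FC_eq (w * sw j) i e5, FC_eq (w * sw j * sw i) j e6, hc]
    have t1 := sg_add (convex_HY y) (HY_subset hY) (cfg_mem_HY w y) (cfg_mem_HY (w * sw i) y)
      (cfg_mem_HY (w * sw i * sw j) y)
    have t2 := sg_add (convex_HY y) (HY_subset hY) (cfg_mem_HY w y)
      (cfg_mem_HY (w * sw i * sw j) y) (cfg_mem_HY (w * sw i * sw j * sw i) y)
    have t3 := sg_add (convex_HY y) (HY_subset hY) (cfg_mem_HY w y) (cfg_mem_HY (w * sw j) y)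
      (cfg_mem_HY (w * sw j * sw i) y)
    have t4 := sg_add (convex_HY y) (HY_subset hY) (cfg_mem_HY w y)
      (cfg_mem_HY (w * sw j * sw i) y) (cfg_mem_HY (w * sw i * sw j * sw i) y)
    have lhs : ∀ a b c d f g k : Q (conf (n + 1)),
        a - b + c + (b - d + f) + (d - g + k) = a - g + ((c + f) + k) := by
      intros; abel
    rw [lhs, lhs, t1, t2, t3, t4]

theorem bd_sg_of {n : ℕ} {V : Set (Fin n → ℝ × ℝ)} (hV : Convex ℝ V) (hVX : V ⊆ conf n)
    {a b : Fin n → ℝ × ℝ} (ha : a ∈ V) (hb : b ∈ V) (ha' : a ∈ conf n) (hb' : b ∈ conf n) :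
    bd (sg (conf n) a b) = Finsupp.single (⟨b, hb'⟩ : conf n) 1 -
      Finsupp.single (⟨a, ha'⟩ : conf n) 1 :=
  bd_sg ((hV.segment_subset ha hb).trans hVX) ha' hb'

theorem bd_FC {n : ℕ} (w : Perm (Fin (n + 1))) (i : Fin n) :
    bd (FC w i) =
      Finsupp.single (⟨cfg (w * sw i) 0, WX_subset _ (cfg_mem_WX _ _)⟩ : conf (n + 1)) 1 -
      Finsupp.single (⟨cfg w 0, WX_subset _ (cfg_mem_WX _ _)⟩ : conf (n + 1)) 1 := by
  set e : Fin (n + 1) → ℝ := Pi.single (w i.succ) 1 with he
  have hne : w i.castSucc ≠ w i.succ := fun h => by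
    have := w.injective h
    have h2 := congrArg Fin.val this
    simp at h2
  have hee : e (w i.castSucc) < e (w i.succ) := by
    rw [he, Pi.single_eq_of_ne hne, Pi.single_eq_same]
    exact one_pos
  have hF : FC w i = sg (conf (n + 1)) (cfg w 0) (cfg w e) +
    sg (conf (n + 1)) (cfg w e) (cfg (w * sw i) e) +
    sg (conf (n + 1)) (cfg (w * sw i) e) (cfg (w * sw i) 0) := rfl
  rw [hF, map_add, map_add]
  rw [bd_sg_of (convex_WX w) (WX_subset w) (cfg_mem_WX w 0) (cfg_mem_WX w e)
      (WX_subset _ (cfg_mem_WX _ _)) (WX_subset _ (cfg_mem_WX _ _)),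
    bd_sg_of (convex_EX w i) (EX_subset w i) (cfg_mem_EX w i hee) (cfg_mem_EX' w i hee)
      (WX_subset _ (cfg_mem_WX _ _)) (WX_subset _ (cfg_mem_WX _ _)),
    bd_sg_of (convex_WX (w * sw i)) (WX_subset (w * sw i)) (cfg_mem_WX (w * sw i) e)
      (cfg_mem_WX (w * sw i) 0) (WX_subset _ (cfg_mem_WX _ _)) (WX_subset _ (cfg_mem_WX _ _))]
  abel

theorem bd_rot_FC {n : ℕ} (w : Perm (Fin (n + 1))) (i : Fin n) : bd (rot FC w i) = 0 := by
  rw [rot, map_add, bd_FC, bd_FC]
  have h : w * sw i * sw i = w := by rw [mul_assoc, sw_mul_self, mul_one]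
  have h2 : (⟨cfg (w * sw i * sw i) 0, WX_subset _ (cfg_mem_WX _ _)⟩ : conf (n + 1)) =
      ⟨cfg w 0, WX_subset _ (cfg_mem_WX _ _)⟩ := Subtype.ext (by rw [h])
  rw [h2]
  abel

end HSq
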