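import Mathlib

/-!
# Hard squares in a rectangle: basic definitions

`hardSquares n p q` is the space `C(n;p,q)`, `conf n` the space `C(n)`, `incl` the inclusion, and
`singH j` is singular homology in degree `j` with integer coefficients.
-/

namespace HSq

open CategoryTheory

/-- `C(n;p,q)`: centres `z k = (x_k, y_k)` of `n` labelled unit squares in a `p × q` rectangle. -/
def hardSquares (n p q : ℕ) : Set (Fin n → ℝ × ℝ) :=
  {z | (∀ k, (z k).1 ∈ Set.Icc (1 : ℝ) p ∧ (z k).2 ∈ Set.Icc (1 : ℝ) q) ∧
    ∀ k l, k ≠ l → 1 ≤ max |(z k).1 - (z l).1| |(z k).2 - (z l).2|}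

/-- `C(n)`: ordered `n`-tuples of pairwise distinct points of the plane. -/
def conf (n : ℕ) : Set (Fin n → ℝ × ℝ) := {z | ∀ k l, k ≠ l → z k ≠ z l}

theorem hardSquares_subset_conf (n p q : ℕ) : hardSquares n p q ⊆ conf n := by
  intro z hz k l hkl h
  have := hz.2 k l hkl
  rw [h] at this
  norm_num at this

/-- The inclusion `i : C(n;p,q) → C(n)`. -/
def incl (n p q : ℕ) : C(hardSquares n p q, conf n) :=
  ⟨Set.inclusion (hardSquares_subset_conf n p q), continuous_inclusion _⟩

/-- Singular homology in degree `j` with integer coefficients. -/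
noncomputable def singH (j : ℕ) : TopCat.{0} ⥤ ModuleCat.{0} ℤ :=
  (AlgebraicTopology.singularHomologyFunctor (ModuleCat.{0} ℤ) j).obj (ModuleCat.of ℤ ℤ)

/-- The map induced in degree `j` by the inclusion `C(n;p,q) → C(n)`. -/
noncomputable def inclStar (j n p q : ℕ) :
    (singH j).obj (TopCat.of (hardSquares n p q)) ⟶ (singH j).obj (TopCat.of (conf n)) :=
  (singH j).map (TopCat.ofHom (incl n p q))

end HSq
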