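import Pool.Agent.HSq.Defs
import Pool.Agent.HSq.Seg

/-!
# Reduction of hard squares to integer configurations
-/

namespace HSq

/-- The four ways of separating two unit squares. -/
inductive Dir : Type
  | L | R | D | U

/-- `rel d a b`: the square at `a` is separated from the square at `b` in the direction `d`. -/
def Dir.rel : Dir → ℝ × ℝ → ℝ × ℝ → Prop
  | L, a, b => a.1 + 1 ≤ b.1
  | R, a, b => b.1 + 1 ≤ a.1
  | D, a, b => a.2 + 1 ≤ b.2
  | U, a, b => b.2 + 1 ≤ a.2

/-- All centres lie in the rectangle. -/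
def box (n p q : ℕ) : Set (Fin n → ℝ × ℝ) :=
  {z | ∀ k, (z k).1 ∈ Set.Icc (1 : ℝ) p ∧ (z k).2 ∈ Set.Icc (1 : ℝ) q}

/-- The convex cell of configurations whose pairs are separated as prescribed by `s`. -/
def cell (n p q : ℕ) (s : Fin n → Fin n → Dir) : Set (Fin n → ℝ × ℝ) :=
  {z | z ∈ box n p q ∧ ∀ k l, k ≠ l → (s k l).rel (z k) (z l)}

theorem convex_rel (d : Dir) {n : ℕ} (k l : Fin n) :
    Convex ℝ {z : Fin n → ℝ × ℝ | d.rel (z k) (z l)} := by
  intro x hx y hy a b ha hb hab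
  cases d <;> simp only [Set.mem_setOf_eq, Dir.rel, Pi.add_apply, Pi.smul_apply, Prod.fst_add,
    Prod.snd_add, Prod.smul_fst, Prod.smul_snd, smul_eq_mul] at hx hy ⊢ <;> nlinarith

theorem convex_box (n p q : ℕ) : Convex ℝ (box n p q) := by
  intro x hx y hy a b ha hb hab k
  have h1 := hx k
  have h2 := hy k
  simp only [Set.mem_Icc, Pi.add_apply, Pi.smul_apply, Prod.fst_add,
    Prod.snd_add, Prod.smul_fst, Prod.smul_snd, smul_eq_mul] at h1 h2 ⊢
  refine ⟨⟨?_, ?_⟩, ?_, ?_⟩ <;> nlinarith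

theorem convex_cell (n p q : ℕ) (s : Fin n → Fin n → Dir) : Convex ℝ (cell n p q s) := by
  have : cell n p q s = box n p q ∩ ⋂ (k : Fin n) (l : Fin n) (_ : k ≠ l),
      {z | (s k l).rel (z k) (z l)} := by
    ext z
    simp [cell]
  rw [this]
  exact (convex_box n p q).inter (convex_iInter fun k => convex_iInter fun l =>
    convex_iInter fun _ => convex_rel _ k l)

theorem Dir.rel.one_le {d : Dir} {a b : ℝ × ℝ} (h : d.rel a b) :
    1 ≤ max |a.1 - b.1| |a.2 - b.2| := by
  cases d <;> simp only [Dir.rel] at h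
  · refine le_max_of_le_left ?_
    rw [abs_sub_comm]
    exact le_trans (by linarith) (le_abs_self (b.1 - a.1))
  · exact le_max_of_le_left (le_trans (by linarith) (le_abs_self (a.1 - b.1)))
  · refine le_max_of_le_right ?_
    rw [abs_sub_comm]
    exact le_trans (by linarith) (le_abs_self (b.2 - a.2))
  · exact le_max_of_le_right (le_trans (by linarith) (le_abs_self (a.2 - b.2)))

theorem cell_subset (n p q : ℕ) (s : Fin n → Fin n → Dir) : cell n p q s ⊆ hardSquares n p q :=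
  fun _ hz => ⟨hz.1, fun k l hkl => (hz.2 k l hkl).one_le⟩

theorem exists_rel {a b : ℝ × ℝ} (h : 1 ≤ max |a.1 - b.1| |a.2 - b.2|) : ∃ d : Dir, d.rel a b := by
  rcases le_max_iff.1 h with h | h <;> rcases le_abs.1 h with h | h
  · exact ⟨Dir.R, by simp only [Dir.rel]; linarith⟩
  · exact ⟨Dir.L, by simp only [Dir.rel]; linarith⟩
  · exact ⟨Dir.U, by simp only [Dir.rel]; linarith⟩
  · exact ⟨Dir.D, by simp only [Dir.rel]; linarith⟩

theorem exists_mem_cell {n p q : ℕ} {z : Fin n → ℝ × ℝ} (hz : z ∈ hardSquares n p q) :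
    ∃ s, z ∈ cell n p q s := by
  classical
  have h : ∀ k l, ∃ d : Dir, k ≠ l → d.rel (z k) (z l) := fun k l => by
    by_cases hkl : k = l
    · exact ⟨Dir.L, fun h => (h hkl).elim⟩
    · obtain ⟨d, hd⟩ := exists_rel (hz.2 k l hkl)
      exact ⟨d, fun _ => hd⟩
  choose s hs using h
  exact ⟨s, hz.1, fun k l hkl => hs k l hkl⟩

/-- Straight segments between configurations with common separating directions add up. -/
theorem sg_add_common {n p q : ℕ} {z z' z'' : Fin n → ℝ × ℝ} (hz : z ∈ box n p q)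
    (hz' : z' ∈ box n p q) (hz'' : z'' ∈ box n p q)
    (h : ∀ k l, k ≠ l → ∃ d : Dir, d.rel (z k) (z l) ∧ d.rel (z' k) (z' l) ∧
      d.rel (z'' k) (z'' l)) :
    sg (hardSquares n p q) z z' + sg (hardSquares n p q) z' z'' =
      sg (hardSquares n p q) z z'' := by
  classical
  choose s hs using h
  refine sg_add (convex_cell n p q fun k l => if h : k ≠ l then s k l h else Dir.L)
    (cell_subset _ _ _ _) ⟨hz, fun k l hkl => ?_⟩ ⟨hz', fun k l hkl => ?_⟩
    ⟨hz'', fun k l hkl => ?_⟩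
  · simpa [hkl] using (hs k l hkl).1
  · simpa [hkl] using (hs k l hkl).2.1
  · simpa [hkl] using (hs k l hkl).2.2

theorem segment_subset_common {n p q : ℕ} {z z' : Fin n → ℝ × ℝ} (hz : z ∈ box n p q)
    (hz' : z' ∈ box n p q)
    (h : ∀ k l, k ≠ l → ∃ d : Dir, d.rel (z k) (z l) ∧ d.rel (z' k) (z' l)) :
    segment ℝ z z' ⊆ hardSquares n p q := by
  classical
  choose s hs using h
  refine ((convex_cell n p q fun k l => if h : k ≠ l then s k l h else Dir.L).segment_subset
    ⟨hz, fun k l hkl => ?_⟩ ⟨hz', fun k l hkl => ?_⟩).trans (cell_subset _ _ _ _)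
  · simpa [hkl] using (hs k l hkl).1
  · simpa [hkl] using (hs k l hkl).2

/-- An integer configuration as a point. -/
def emb {n : ℕ} (c : Fin n → ℤ × ℤ) : Fin n → ℝ × ℝ := fun k => ((c k).1, (c k).2)

/-- Integer configurations. -/
def IC (n p q : ℕ) : Set (Fin n → ℤ × ℤ) :=
  {c | (∀ k, (c k).1 ∈ Set.Icc (1 : ℤ) p ∧ (c k).2 ∈ Set.Icc (1 : ℤ) q) ∧ ∀ k l, k ≠ l → c k ≠ c l}

/-- One coordinate of one square is increased by one. -/
def UnitMove {n : ℕ} (c c' : Fin n → ℤ × ℤ) : Prop :=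
  ∃ k, (∀ l, l ≠ k → c' l = c l) ∧
    ((c' k = ((c k).1 + 1, (c k).2)) ∨ (c' k = ((c k).1, (c k).2 + 1)))

end HSq
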