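import Pool.Agent.HSq.Grid
import Pool.Agent.HSq.SegPot

/-!
# Grid reduction

`potential_lemma` is applied to the closed cells `cell n p q s` with the potential
`g' z = g (floor z) + φ [emb (floor z), z]` (the floor map preserves every cell).  It remains that
`φ [c, c'] = g c' - g c` for integer configurations in one cell: go from `c` and from `c'` down to
the coordinatewise minimum by unit decrements inside the cell (decrement a coordinate of smallest
value among those above the minimum).
-/

namespace HSq

open Topology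

/-- The separation relation for integer points. -/
def Dir.irel : Dir → ℤ × ℤ → ℤ × ℤ → Prop
  | L, a, b => a.1 + 1 ≤ b.1
  | R, a, b => b.1 + 1 ≤ a.1
  | D, a, b => a.2 + 1 ≤ b.2
  | U, a, b => b.2 + 1 ≤ a.2

/-- The integer points of a cell. -/
def icell (n p q : ℕ) (s : Fin n → Fin n → Dir) : Set (Fin n → ℤ × ℤ) :=
  {c | (∀ k, ((1 : ℤ) ≤ (c k).1 ∧ (c k).1 ≤ p) ∧ ((1 : ℤ) ≤ (c k).2 ∧ (c k).2 ≤ q)) ∧
    ∀ k l, k ≠ l → (s k l).irel (c k) (c l)}

theorem rel_emb {n : ℕ} (d : Dir) (c : Fin n → ℤ × ℤ) (k l : Fin n) :
    d.rel (emb c k) (emb c l) ↔ d.irel (c k) (c l) := by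
  cases d <;> simp only [Dir.rel, Dir.irel, emb] <;> norm_cast

theorem emb_mem_cell {n p q : ℕ} {s : Fin n → Fin n → Dir} {c : Fin n → ℤ × ℤ} :
    emb c ∈ cell n p q s ↔ c ∈ icell n p q s := by
  refine and_congr (forall_congr' fun k => ?_) (forall_congr' fun k => forall_congr' fun l =>
    imp_congr Iff.rfl (rel_emb _ _ _ _))
  refine and_congr (and_congr ?_ ?_) (and_congr ?_ ?_) <;> simp only [emb] <;> norm_cast

theorem icell_subset_IC {n p q : ℕ} {s : Fin n → Fin n → Dir} {c : Fin n → ℤ × ℤ}
    (hc : c ∈ icell n p q s) : c ∈ IC n p q := by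
  refine ⟨fun k => hc.1 k, fun k l hkl h => ?_⟩
  have h2 := hc.2 k l hkl
  rw [h] at h2
  revert h2
  cases s k l <;> simp only [Dir.irel] <;> intro h2 <;> omega

/-- The coordinatewise floor. -/
noncomputable def flr {n : ℕ} (z : Fin n → ℝ × ℝ) : Fin n → ℤ × ℤ :=
  fun k => (⌊(z k).1⌋, ⌊(z k).2⌋)

theorem floor_sep {x y : ℝ} (h : x + 1 ≤ y) : ⌊x⌋ + 1 ≤ ⌊y⌋ := by
  rw [← Int.floor_add_one]
  exact Int.floor_le_floor h

theorem floor_le_nat {x : ℝ} {p : ℕ} (h : x ≤ p) : ⌊x⌋ ≤ (p : ℤ) := by
  have h1 : (⌊x⌋ : ℝ) ≤ p := (Int.floor_le x).trans h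
  exact_mod_cast h1

theorem one_le_floor {x : ℝ} (h : 1 ≤ x) : 1 ≤ ⌊x⌋ := by
  rw [Int.le_floor]
  exact_mod_cast h

theorem flr_mem {n p q : ℕ} {s : Fin n → Fin n → Dir} {z : Fin n → ℝ × ℝ}
    (hz : z ∈ cell n p q s) : flr z ∈ icell n p q s := by
  refine ⟨fun k => ⟨⟨one_le_floor (hz.1 k).1.1, floor_le_nat (hz.1 k).1.2⟩,
    ⟨one_le_floor (hz.1 k).2.1, floor_le_nat (hz.1 k).2.2⟩⟩, fun k l hkl => ?_⟩
  have h := hz.2 k l hkl
  revert h
  cases s k l <;> simp only [Dir.rel, Dir.irel, flr] <;> exact floor_sep

theorem min_mem {n p q : ℕ} {s : Fin n → Fin n → Dir} {c c' : Fin n → ℤ × ℤ}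
    (hc : c ∈ icell n p q s) (hc' : c' ∈ icell n p q s) :
    (fun k => (min (c k).1 (c' k).1, min (c k).2 (c' k).2)) ∈ icell n p q s := by
  refine ⟨fun k => ?_, fun k l hkl => ?_⟩
  · have h1 := hc.1 k
    have h2 := hc'.1 k
    simp only
    omega
  · have h1 := hc.2 k l hkl
    have h2 := hc'.2 k l hkl
    revert h1 h2
    cases s k l <;> simp only [Dir.irel] <;> intro h1 h2 <;> omega

/-- Decrease of a smallest `x`-coordinate above the minimum. -/
theorem dec_x {n p q : ℕ} {s : Fin n → Fin n → Dir} {m c : Fin n → ℤ × ℤ}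
    (hm : m ∈ icell n p q s) (hc : c ∈ icell n p q s)
    (k : Fin n) (hk : (m k).1 < (c k).1)
    (hmin : ∀ a, (m a).1 < (c a).1 → (c k).1 ≤ (c a).1) :
    Function.update c k ((c k).1 - 1, (c k).2) ∈ icell n p q s := by
  refine ⟨fun a => ?_, fun a b hab => ?_⟩
  · have h1 := hc.1 a
    have h2 := hm.1 a
    by_cases hak : a = k
    · subst hak
      rw [Function.update_self]
      simp only
      omega
    · rw [Function.update_of_ne hak]
      exact h1
  · have h1 := hc.2 a b hab
    have h2 := hm.2 a b hab
    have h3 := hmin a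
    have h4 := hmin b
    by_cases hak : a = k
    · subst hak
      rw [Function.update_self, Function.update_of_ne (Ne.symm hab)]
      revert h1 h2
      cases s a b <;> simp only [Dir.irel] <;> intro h1 h2
      · omega
      · by_contra hcon
        have : (m b).1 < (c b).1 := by omega
        have := h4 this
        omega
      · omega
      · omega
    · rw [Function.update_of_ne hak]
      by_cases hbk : b = k
      · subst hbk
        rw [Function.update_self]
        revert h1 h2
        cases s a b <;> simp only [Dir.irel] <;> intro h1 h2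
        · by_contra hcon
          have : (m a).1 < (c a).1 := by omega
          have := h3 this
          omega
        · omega
        · omega
        · omega
      · rw [Function.update_of_ne hbk]
        exact h1

/-- Decrease of a smallest `y`-coordinate above the minimum. -/
theorem dec_y {n p q : ℕ} {s : Fin n → Fin n → Dir} {m c : Fin n → ℤ × ℤ}
    (hm : m ∈ icell n p q s) (hc : c ∈ icell n p q s)
    (k : Fin n) (hk : (m k).2 < (c k).2)
    (hmin : ∀ a, (m a).2 < (c a).2 → (c k).2 ≤ (c a).2) :
    Function.update c k ((c k).1, (c k).2 - 1) ∈ icell n p q s := by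
  refine ⟨fun a => ?_, fun a b hab => ?_⟩
  · have h1 := hc.1 a
    have h2 := hm.1 a
    by_cases hak : a = k
    · subst hak
      rw [Function.update_self]
      simp only
      omega
    · rw [Function.update_of_ne hak]
      exact h1
  · have h1 := hc.2 a b hab
    have h2 := hm.2 a b hab
    have h3 := hmin a
    have h4 := hmin b
    by_cases hak : a = k
    · subst hak
      rw [Function.update_self, Function.update_of_ne (Ne.symm hab)]
      revert h1 h2
      cases s a b <;> simp only [Dir.irel] <;> intro h1 h2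
      · omega
      · omega
      · omega
      · by_contra hcon
        have : (m b).2 < (c b).2 := by omega
        have := h4 this
        omega
    · rw [Function.update_of_ne hak]
      by_cases hbk : b = k
      · subst hbk
        rw [Function.update_self]
        revert h1 h2
        cases s a b <;> simp only [Dir.irel] <;> intro h1 h2
        · omega
        · omega
        · by_contra hcon
          have : (m a).2 < (c a).2 := by omega
          have := h3 this
          omega
        · omega
      · rw [Function.update_of_ne hbk]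
        exact h1

/-- Total height above the minimum. -/
def tot {n : ℕ} (m c : Fin n → ℤ × ℤ) : ℕ :=
  ∑ k, (((c k).1 - (m k).1).toNat + ((c k).2 - (m k).2).toNat)

theorem tot_update_x {n : ℕ} (m c : Fin n → ℤ × ℤ) (k : Fin n) (hk : (m k).1 < (c k).1) :
    tot m (Function.update c k ((c k).1 - 1, (c k).2)) < tot m c := by
  refine Finset.sum_lt_sum (fun a _ => ?_) ⟨k, Finset.mem_univ _, ?_⟩
  · by_cases hak : a = k
    · subst hak
      rw [Function.update_self]
      simp only
      omega
    · rw [Function.update_of_ne hak]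
  · rw [Function.update_self]
    simp only
    omega

theorem tot_update_y {n : ℕ} (m c : Fin n → ℤ × ℤ) (k : Fin n) (hk : (m k).2 < (c k).2) :
    tot m (Function.update c k ((c k).1, (c k).2 - 1)) < tot m c := by
  refine Finset.sum_lt_sum (fun a _ => ?_) ⟨k, Finset.mem_univ _, ?_⟩
  · by_cases hak : a = k
    · subst hak
      rw [Function.update_self]
      simp only
      omega
    · rw [Function.update_of_ne hak]
  · rw [Function.update_self]
    simp only
    omega

section

variable {n p q : ℕ} {B : Type} [AddCommGroup B]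
  (φ : Q (hardSquares n p q) →+ B) (g : (Fin n → ℤ × ℤ) → B)

theorem down_path
    (hg : ∀ c ∈ IC n p q, ∀ c' ∈ IC n p q, UnitMove c c' →
      φ (sg (hardSquares n p q) (emb c) (emb c')) = g c' - g c)
    (s : Fin n → Fin n → Dir) (m : Fin n → ℤ × ℤ) (hm : m ∈ icell n p q s) :
    ∀ (N : ℕ) (c : Fin n → ℤ × ℤ), c ∈ icell n p q s →
      (∀ k, (m k).1 ≤ (c k).1 ∧ (m k).2 ≤ (c k).2) → tot m c ≤ N →
      φ (sg (hardSquares n p q) (emb m) (emb c)) = g c - g m := by
  have key : ∀ (N : ℕ) (c c₁ : Fin n → ℤ × ℤ), c ∈ icell n p q s → c₁ ∈ icell n p q s →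
      UnitMove c₁ c → φ (sg (hardSquares n p q) (emb m) (emb c₁)) = g c₁ - g m →
      φ (sg (hardSquares n p q) (emb m) (emb c)) = g c - g m := by
    intro N c c₁ hc hc₁ hu h
    have h1 := sg_add (convex_cell n p q s) (cell_subset n p q s) (emb_mem_cell.2 hm)
      (emb_mem_cell.2 hc₁) (emb_mem_cell.2 hc)
    rw [← h1, map_add, h, hg c₁ (icell_subset_IC hc₁) c (icell_subset_IC hc) hu]
    abel
  intro N
  induction N with
  | zero =>
    intro c hc hle htot
    have hcm : c = m := by
      have h0 : tot m c = 0 := Nat.le_zero.1 htot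
      rw [tot, Finset.sum_eq_zero_iff] at h0
      funext k
      have h1 := h0 k (Finset.mem_univ _)
      have h2 := hle k
      ext <;> omega
    subst hcm
    rw [sg_self (cell_subset n p q s (emb_mem_cell.2 hm)), map_zero, sub_self]
  | succ N ih =>
    intro c hc hle htot
    by_cases hx : ∃ k, (m k).1 < (c k).1
    · obtain ⟨k, hk, hmin⟩ := Set.exists_min_image {k : Fin n | (m k).1 < (c k).1}
        (fun k => (c k).1) (Set.toFinite _) hx
      have hk' : (m k).1 < (c k).1 := hk
      have hmem := dec_x hm hc k hk' (fun a ha => hmin a ha)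
      refine key N c _ hc hmem ⟨k, fun l hl => ?_, Or.inl ?_⟩ (ih _ hmem (fun a => ?_) ?_)
      · rw [Function.update_of_ne hl]
      · rw [Function.update_self]
        ext <;> simp
      · by_cases hak : a = k
        · subst hak
          rw [Function.update_self]
          have := hle a
          simp only
          omega
        · rw [Function.update_of_ne hak]
          exact hle a
      · have := tot_update_x m c k hk'
        omega
    · by_cases hy : ∃ k, (m k).2 < (c k).2
      · obtain ⟨k, hk, hmin⟩ := Set.exists_min_image {k : Fin n | (m k).2 < (c k).2}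
          (fun k => (c k).2) (Set.toFinite _) hy
        have hk' : (m k).2 < (c k).2 := hk
        have hmem := dec_y hm hc k hk' (fun a ha => hmin a ha)
        refine key N c _ hc hmem ⟨k, fun l hl => ?_, Or.inr ?_⟩ (ih _ hmem (fun a => ?_) ?_)
        · rw [Function.update_of_ne hl]
        · rw [Function.update_self]
          ext <;> simp
        · by_cases hak : a = k
          · subst hak
            rw [Function.update_self]
            have := hle a
            simp only
            omega
          · rw [Function.update_of_ne hak]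
            exact hle a
        · have := tot_update_y m c k hk'
          omega
      · push Not at hx hy
        have hcm : c = m := by
          funext k
          have h1 := hx k
          have h2 := hy k
          have h3 := hle k
          ext <;> omega
        subst hcm
        rw [sg_self (cell_subset n p q s (emb_mem_cell.2 hm)), map_zero, sub_self]

theorem integer_path
    (hg : ∀ c ∈ IC n p q, ∀ c' ∈ IC n p q, UnitMove c c' →
      φ (sg (hardSquares n p q) (emb c) (emb c')) = g c' - g c)
    (s : Fin n → Fin n → Dir) {c c' : Fin n → ℤ × ℤ} (hc : c ∈ icell n p q s)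
    (hc' : c' ∈ icell n p q s) :
    φ (sg (hardSquares n p q) (emb c) (emb c')) = g c' - g c := by
  have hm := min_mem hc hc'
  have h1 := down_path φ g hg s _ hm _ c hc (fun k => ⟨min_le_left _ _, min_le_left _ _⟩) le_rfl
  have h2 := down_path φ g hg s _ hm _ c' hc' (fun k => ⟨min_le_right _ _, min_le_right _ _⟩) le_rfl
  have h3 := sg_add (convex_cell n p q s) (cell_subset n p q s) (emb_mem_cell.2 hm)
      (emb_mem_cell.2 hc) (emb_mem_cell.2 hc')
  rw [← h3, map_add, h1] at h2
  have h4 : φ (sg (hardSquares n p q) (emb c) (emb c')) =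
      (g c - g (fun k => (min (c k).1 (c' k).1, min (c k).2 (c' k).2)) +
        φ (sg (hardSquares n p q) (emb c) (emb c'))) -
      (g c - g (fun k => (min (c k).1 (c' k).1, min (c k).2 (c' k).2))) := by abel
  rw [h4, h2]
  abel

end

instance : Finite Dir := by
  refine Finite.of_injective (fun d : Dir => (match d with
    | Dir.L => (0 : Fin 4) | Dir.R => 1 | Dir.D => 2 | Dir.U => 3)) ?_
  intro a b h
  cases a <;> cases b <;> simp_all

theorem isClosed_rel (d : Dir) {n : ℕ} (k l : Fin n) :
    IsClosed {z : Fin n → ℝ × ℝ | d.rel (z k) (z l)} := by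
  cases d <;> simp only [Dir.rel] <;> exact isClosed_le (by fun_prop) (by fun_prop)

theorem isClosed_box (n p q : ℕ) : IsClosed (box n p q) := by
  have : box n p q = ⋂ k : Fin n, ((fun z : Fin n → ℝ × ℝ => (z k).1) ⁻¹' Set.Icc (1 : ℝ) p) ∩
      ((fun z : Fin n → ℝ × ℝ => (z k).2) ⁻¹' Set.Icc (1 : ℝ) q) := by
    ext z
    simp only [box, Set.mem_iInter, Set.mem_inter_iff, Set.mem_preimage]
    exact Iff.rfl
  rw [this]
  refine isClosed_iInter fun k => (isClosed_Icc.preimage ?_).inter (isClosed_Icc.preimage ?_) <;>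
    fun_prop

theorem isClosed_cell (n p q : ℕ) (s : Fin n → Fin n → Dir) : IsClosed (cell n p q s) := by
  have : cell n p q s = box n p q ∩ ⋂ (k : Fin n) (l : Fin n) (_ : k ≠ l),
      {z | (s k l).rel (z k) (z l)} := by
    ext z
    simp only [cell, Set.mem_inter_iff, Set.mem_iInter]
    exact Iff.rfl
  rw [this]
  exact (isClosed_box n p q).inter (isClosed_iInter fun k => isClosed_iInter fun l =>
    isClosed_iInter fun _ => isClosed_rel _ k l)

theorem cell_near {n p q : ℕ} (z : Fin n → ℝ × ℝ) (_ : z ∈ hardSquares n p q) :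
    ∀ᶠ z' in 𝓝[hardSquares n p q] z, ∃ s, z ∈ cell n p q s ∧ z' ∈ cell n p q s := by
  have hcl : IsClosed (⋃ s ∈ {s : Fin n → Fin n → Dir | z ∉ cell n p q s}, cell n p q s) :=
    (Set.toFinite _).isClosed_biUnion fun s _ => isClosed_cell n p q s
  have hopen : (⋃ s ∈ {s : Fin n → Fin n → Dir | z ∉ cell n p q s}, cell n p q s)ᶜ ∈ 𝓝 z := by
    refine hcl.isOpen_compl.mem_nhds ?_
    intro h
    obtain ⟨s, hs, hzs⟩ := Set.mem_iUnion₂.1 h
    exact hs hzs
  filter_upwards [self_mem_nhdsWithin, mem_nhdsWithin_of_mem_nhds hopen] with z' hz' hz2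
  obtain ⟨s, hs⟩ := exists_mem_cell hz'
  refine ⟨s, ?_, hs⟩
  by_contra hcon
  exact hz2 (Set.mem_iUnion₂.2 ⟨s, hcon, hs⟩)

/-- **Grid reduction.**  A homomorphism which on unit moves of integer configurations is the
difference of a potential vanishes on all cycles. -/
theorem grid_reduction {n p q : ℕ} {B : Type} [AddCommGroup B]
    (φ : Q (hardSquares n p q) →+ B) (g : (Fin n → ℤ × ℤ) → B)
    (hg : ∀ c ∈ IC n p q, ∀ c' ∈ IC n p q, UnitMove c c' →
      φ (sg (hardSquares n p q) (emb c) (emb c')) = g c' - g c)
    (ξ : Q (hardSquares n p q)) (hξ : bd ξ = 0) : φ ξ = 0 := by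
  refine potential_lemma (cell n p q) (convex_cell n p q) (cell_subset n p q) cell_near φ
    (fun z => g (flr z) + φ (sg (hardSquares n p q) (emb (flr z)) z)) ?_ ξ hξ
  intro s z hz z' hz'
  have hf := flr_mem hz
  have hf' := flr_mem hz'
  have h1 := sg_add (convex_cell n p q s) (cell_subset n p q s) (emb_mem_cell.2 hf) hz hz'
  have h2 := sg_add (convex_cell n p q s) (cell_subset n p q s) (emb_mem_cell.2 hf)
    (emb_mem_cell.2 hf') hz'
  have h3 := integer_path φ g hg s hf hf'
  have h4 : φ (sg (hardSquares n p q) (emb (flr z)) z) + φ (sg (hardSquares n p q) z z') =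
      φ (sg (hardSquares n p q) (emb (flr z)) (emb (flr z'))) +
        φ (sg (hardSquares n p q) (emb (flr z')) z') := by
    rw [← map_add, h1, ← map_add, h2]
  rw [h3] at h4
  have h5 : φ (sg (hardSquares n p q) z z') =
      (φ (sg (hardSquares n p q) (emb (flr z)) z) + φ (sg (hardSquares n p q) z z')) -
        φ (sg (hardSquares n p q) (emb (flr z)) z) := by abel
  rw [h5, h4]
  abel

end HSq
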