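import Pool.Agent.HSq.Defs
import Pool.Agent.HSq.Chains

/-!
# Interface with singular homology

The map induced on singular homology in degree one is bijective as soon as the map induced on the
cycles of `Q` is.
-/

set_option autoImplicit false

namespace HSq

open CategoryTheory unitInterval

namespace Itf

/-- The standard parametrisation of the 1-simplex. -/
def eI : C(I, stdSimplex ℝ (Fin 2)) :=
  ⟨fun t => ⟨![1 - (t : ℝ), t], by
    refine ⟨fun i => ?_, by simp [Fin.sum_univ_two]⟩
    fin_cases i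
    · simpa using t.2.2
    · simpa using t.2.1⟩,
    by
      refine Continuous.subtype_mk (continuous_pi fun i => ?_) _
      fin_cases i <;> simp <;> fun_prop⟩

/-- Its inverse. -/
def pI : C(stdSimplex ℝ (Fin 2), I) :=
  ⟨fun z => ⟨z.1 1, z.2.1 1, by
      have h := z.2.2
      rw [Fin.sum_univ_two] at h
      have h0 := z.2.1 0
      linarith⟩,
    by
      refine Continuous.subtype_mk ?_ _
      exact (continuous_apply 1).comp continuous_subtype_val⟩

theorem pI_eI (t : I) : pI (eI t) = t := by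
  apply Subtype.ext
  simp [pI, eI]

theorem eI_pI (z : stdSimplex ℝ (Fin 2)) : eI (pI z) = z := by
  apply Subtype.ext
  have h := z.2.2
  rw [Fin.sum_univ_two] at h
  funext i
  fin_cases i
  · simp only [eI, pI, ContinuousMap.coe_mk]
    show 1 - z.1 1 = z.1 0
    linarith
  · rfl

variable (X Y : Type) [TopologicalSpace X] [TopologicalSpace Y]

/-- The singular simplicial set. -/
noncomputable abbrev S : SSet.{0} := TopCat.toSSet.obj (TopCat.of X)

/-- The coefficients. -/
noncomputable abbrev R : ModuleCat.{0} ℤ := ModuleCat.of ℤ ℤ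

/-- The singular chain complex. -/
noncomputable abbrev K : ChainComplex (ModuleCat.{0} ℤ) ℕ := (S X).chainComplex R

open Simplicial

variable {X Y}

/-- The path of a singular 1-simplex. -/
noncomputable def path (x : (S X) _⦋1⦌) : C(I, X) :=
  ((TopCat.toSSetObjEquiv (TopCat.of X) _ x : C(stdSimplex ℝ (Fin 2), X))).comp eI

/-- The singular 1-simplex of a path. -/
noncomputable def simp1 (γ : C(I, X)) : (S X) _⦋1⦌ :=
  (TopCat.toSSetObjEquiv (TopCat.of X) (Opposite.op ⦋1⦌)).symm
    (show C(stdSimplex ℝ (Fin 2), X) from γ.comp pI)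

theorem path_simp1 (γ : C(I, X)) : path (simp1 γ) = γ := by
  unfold path simp1
  rw [Equiv.apply_symm_apply]
  ext t
  exact congrArg γ (pI_eI t)

theorem simp1_path (x : (S X) _⦋1⦌) : simp1 (path x) = x := by
  unfold path simp1
  rw [Equiv.symm_apply_eq]
  ext z
  exact congrArg (TopCat.toSSetObjEquiv (TopCat.of X) (Opposite.op ⦋1⦌) x) (eI_pI z)

/-- The continuous map of a singular 2-simplex. -/
noncomputable def tri (x : (S X) _⦋2⦌) : C(Tri, X) :=
  (TopCat.toSSetObjEquiv (TopCat.of X) _ x : C(stdSimplex ℝ (Fin 3), X))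

/-- The point of a singular 0-simplex. -/
noncomputable def pt (x : (S X) _⦋0⦌) : X := TopCat.toSSetObj₀Equiv (X := TopCat.of X) x

theorem map_val {m : ℕ} (f : Fin 2 → Fin m) (z : stdSimplex ℝ (Fin 2)) (i : Fin m) :
    (stdSimplex.map (S := ℝ) f z).1 i =
      (if f 0 = i then z.1 0 else 0) + (if f 1 = i then z.1 1 else 0) := by
  show FunOnFinite.linearMap ℝ ℝ f z.1 i = _
  rw [FunOnFinite.linearMap_apply_apply, Finset.sum_filter, Fin.sum_univ_two]

theorem map_eI_0 (t : I) : stdSimplex.map (S := ℝ) (Fin.succAbove (0 : Fin 3)) (eI t) = e12 t := by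
  apply Subtype.ext
  funext i
  rw [map_val]
  fin_cases i <;> simp [eI, e12]

theorem map_eI_1 (t : I) : stdSimplex.map (S := ℝ) (Fin.succAbove (1 : Fin 3)) (eI t) = e02 t := by
  apply Subtype.ext
  funext i
  rw [map_val]
  fin_cases i <;> simp [eI, e02, Fin.succAbove]

theorem map_eI_2 (t : I) : stdSimplex.map (S := ℝ) (Fin.succAbove (2 : Fin 3)) (eI t) = e01 t := by
  apply Subtype.ext
  funext i
  rw [map_val]
  fin_cases i <;> simp [eI, e01, Fin.succAbove]

theorem path_d0 (x : (S X) _⦋2⦌) : path ((S X).δ 0 x) = (tri x).comp e12 := by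
  ext t
  exact congrArg (tri x) (map_eI_0 t)

theorem path_d1 (x : (S X) _⦋2⦌) : path ((S X).δ 1 x) = (tri x).comp e02 := by
  ext t
  exact congrArg (tri x) (map_eI_1 t)

theorem path_d2 (x : (S X) _⦋2⦌) : path ((S X).δ 2 x) = (tri x).comp e01 := by
  ext t
  exact congrArg (tri x) (map_eI_2 t)

theorem map_pt (f : Fin 1 → Fin 2) (z : stdSimplex ℝ (Fin 1)) (i : Fin 2) :
    (stdSimplex.map (S := ℝ) f z).1 i = if f 0 = i then 1 else 0 := by
  have h := z.2.2
  rw [Fin.sum_univ_one] at h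
  show FunOnFinite.linearMap ℝ ℝ f z.1 i = _
  rw [FunOnFinite.linearMap_apply_apply, Finset.sum_filter, Fin.sum_univ_one, h]

theorem pt_d0 (x : (S X) _⦋1⦌) : pt ((S X).δ 0 x) = path x 1 := by
  refine congrArg (TopCat.toSSetObjEquiv (TopCat.of X) (Opposite.op ⦋1⦌) x) ?_
  apply Subtype.ext
  funext i
  refine (map_pt _ _ i).trans ?_
  fin_cases i
  · show (if (Fin.succAbove (0 : Fin 2) 0) = 0 then (1 : ℝ) else 0) = 1 - 1
    simp
  · show (if (Fin.succAbove (0 : Fin 2) 0) = 1 then (1 : ℝ) else 0) = 1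
    simp

theorem pt_d1 (x : (S X) _⦋1⦌) : pt ((S X).δ 1 x) = path x 0 := by
  refine congrArg (TopCat.toSSetObjEquiv (TopCat.of X) (Opposite.op ⦋1⦌) x) ?_
  apply Subtype.ext
  funext i
  refine (map_pt _ _ i).trans ?_
  fin_cases i
  · show (if (Fin.succAbove (1 : Fin 2) 0) = 0 then (1 : ℝ) else 0) = 1 - 0
    simp
  · show (if (Fin.succAbove (1 : Fin 2) 0) = 1 then (1 : ℝ) else 0) = 0
    simp

/-- The class of a 1-simplex in the opcycles. -/
noncomputable def io (x : (S X) _⦋1⦌) : (K X).opcycles 1 :=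
  ((S X).ιChainComplex (R := R) x ≫ (K X).pOpcycles 1).hom (1 : ℤ)

/-- The map from chains to `Q`. -/
noncomputable def kmap (X : Type) [TopologicalSpace X] :
    (K X).X 1 ⟶ ModuleCat.of ℤ (Q X) :=
  ((S X).isColimitChainComplexXCofan R 1).desc
    (Limits.Cofan.mk _ (fun x => ModuleCat.ofHom
      ((LinearMap.toSpanSingleton ℤ (Q X) (cls (path x))))))

theorem iota_kmap (x : (S X) _⦋1⦌) :
    (S X).ιChainComplex (R := R) x ≫ kmap X =
      ModuleCat.ofHom (LinearMap.toSpanSingleton ℤ (Q X) (cls (path x))) :=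
  ((S X).isColimitChainComplexXCofan R 1).fac _ ⟨x⟩

theorem d_kmap : (K X).d 2 1 ≫ kmap X = 0 := by
  apply SSet.chainComplex_hom_ext
  intro x
  rw [SSet.ιChainComplex_d_assoc, Fin.sum_univ_three]
  rw [Preadditive.add_comp, Preadditive.add_comp, Preadditive.zsmul_comp, Preadditive.zsmul_comp,
    Preadditive.zsmul_comp, iota_kmap, iota_kmap, iota_kmap, path_d0, path_d1, path_d2,
    Limits.comp_zero]
  ext
  have h := cls_tri (tri x)
  simp
  rw [← h]
  abel

/-- The map from opcycles to `Q`. -/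
noncomputable def al (X : Type) [TopologicalSpace X] :
    (K X).opcycles 1 ⟶ ModuleCat.of ℤ (Q X) :=
  (K X).descOpcycles (kmap X) 2 (by simp) d_kmap

theorem p_al : (K X).pOpcycles 1 ≫ al X = kmap X := by
  simp [al]

theorem al_io (x : (S X) _⦋1⦌) : (al X).hom (io x) = cls (path x) := by
  have h : ((S X).ιChainComplex (R := R) x ≫ (K X).pOpcycles 1) ≫ al X =
      ModuleCat.ofHom (LinearMap.toSpanSingleton ℤ (Q X) (cls (path x))) := by
    rw [Category.assoc, p_al, iota_kmap]
  have h2 := congrArg (fun m => m.hom (1 : ℤ)) h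
  refine h2.trans ?_
  simp

/-- The relation in opcycles. -/
theorem io_rel (x : (S X) _⦋2⦌) :
    io ((S X).δ 2 x) + io ((S X).δ 0 x) = io ((S X).δ 1 x) := by
  have h : (S X).ιChainComplex (R := R) x ≫ (K X).d 2 1 ≫ (K X).pOpcycles 1 = 0 := by
    rw [HomologicalComplex.d_pOpcycles, Limits.comp_zero]
  rw [SSet.ιChainComplex_d_assoc, Fin.sum_univ_three] at h
  rw [Preadditive.add_comp, Preadditive.add_comp, Preadditive.zsmul_comp, Preadditive.zsmul_comp,
    Preadditive.zsmul_comp] at h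
  have h2 := congrArg (fun m => m.hom (1 : ℤ)) h
  simp only [io, ModuleCat.hom_comp, LinearMap.comp_apply]
  simp at h2
  rw [← sub_eq_zero, ← h2]
  abel

/-- The 2-simplex of a continuous map. -/
noncomputable def simp2 (τ : C(Tri, X)) : (S X) _⦋2⦌ :=
  (TopCat.toSSetObjEquiv (TopCat.of X) (Opposite.op ⦋2⦌)).symm
    (show C(stdSimplex ℝ (Fin 3), X) from τ)

theorem tri_simp2 (τ : C(Tri, X)) : tri (simp2 τ) = τ := by
  unfold tri simp2
  exact Equiv.apply_symm_apply _ _

/-- The map from `Q` to opcycles. -/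
noncomputable def be (X : Type) [TopologicalSpace X] : Q X →+ (K X).opcycles 1 :=
  Q.lift (fun γ => io (simp1 γ)) (by
    intro τ
    have h := io_rel (simp2 τ)
    rw [← simp1_path ((S X).δ 2 (simp2 τ)), ← simp1_path ((S X).δ 0 (simp2 τ)),
      ← simp1_path ((S X).δ 1 (simp2 τ)), path_d0, path_d1, path_d2, tri_simp2] at h
    exact h)

theorem be_cls (γ : C(I, X)) : be X (cls γ) = io (simp1 γ) := by
  simp [be]

theorem al_be (ξ : Q X) : (al X).hom (be X ξ) = ξ := by
  induction ξ using Q.induction with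
  | h0 => simp
  | h1 γ => rw [be_cls, al_io, path_simp1]
  | hn ξ h => simp [h]
  | ha ξ η h1 h2 => simp [h1, h2]

/-- Two maps out of opcycles agree when they agree on the classes. -/
theorem op_ext {M : ModuleCat.{0} ℤ} {f g : (K X).opcycles 1 ⟶ M}
    (h : ∀ x : (S X) _⦋1⦌, f.hom (io x) = g.hom (io x)) : f = g := by
  rw [← cancel_epi ((K X).pOpcycles 1)]
  apply SSet.chainComplex_hom_ext
  intro x
  ext
  exact h x

/-- The map `be` as a linear map. -/
noncomputable def beL (X : Type) [TopologicalSpace X] : Q X →ₗ[ℤ] (K X).opcycles 1 where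
  toFun := be X
  map_add' := map_add _
  map_smul' n x := by
    rw [map_zsmul]
    exact (int_smul_eq_zsmul _ n _).symm

theorem be_al (ξ : (K X).opcycles 1) : be X ((al X).hom ξ) = ξ := by
  have h : al X ≫ ModuleCat.ofHom (beL X) = 𝟙 _ := by
    apply op_ext
    intro x
    show be X ((al X).hom (io x)) = io x
    rw [al_io, be_cls, simp1_path]
  exact congrArg (fun m => m.hom ξ) h

/-- The chain map. -/
noncomputable abbrev Kf (f : C(X, Y)) : K X ⟶ K Y :=
  SSet.chainComplexMap (TopCat.toSSet.map (TopCat.ofHom f)) R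

theorem path_map (f : C(X, Y)) (x : (S X) _⦋1⦌) :
    path ((TopCat.toSSet.map (TopCat.ofHom f)).app _ x) = f.comp (path x) := by
  rfl

theorem op_io (f : C(X, Y)) (x : (S X) _⦋1⦌) :
    (HomologicalComplex.opcyclesMap (Kf f) 1).hom (io x) =
      io ((TopCat.toSSet.map (TopCat.ofHom f)).app _ x) := by
  have h : ((S X).ιChainComplex (R := R) x ≫ (K X).pOpcycles 1) ≫
      HomologicalComplex.opcyclesMap (Kf f) 1 =
      (S Y).ιChainComplex (R := R) ((TopCat.toSSet.map (TopCat.ofHom f)).app _ x) ≫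
        (K Y).pOpcycles 1 := by
    rw [Category.assoc, HomologicalComplex.p_opcyclesMap, SSet.ι_chainComplexMap_f_assoc]
  exact congrArg (fun m => m.hom (1 : ℤ)) h

theorem al_nat (f : C(X, Y)) (ξ : (K X).opcycles 1) :
    (al Y).hom ((HomologicalComplex.opcyclesMap (Kf f) 1).hom ξ) = Q.map f ((al X).hom ξ) := by
  have h : HomologicalComplex.opcyclesMap (Kf f) 1 ≫ al Y =
      al X ≫ ModuleCat.ofHom (AddMonoidHom.toIntLinearMap (Q.map f)) := by
    apply op_ext
    intro x
    show (al Y).hom ((HomologicalComplex.opcyclesMap (Kf f) 1).hom (io x)) =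
      Q.map f ((al X).hom (io x))
    rw [op_io, al_io, al_io, Q.map_cls, path_map]
  exact congrArg (fun m => m.hom ξ) h

/-- 0-chains to the free group. -/
noncomputable def c0 (X : Type) [TopologicalSpace X] :
    (K X).X 0 ⟶ ModuleCat.of ℤ (X →₀ ℤ) :=
  ((S X).isColimitChainComplexXCofan R 0).desc
    (Limits.Cofan.mk _ (fun x => ModuleCat.ofHom
      ((LinearMap.toSpanSingleton ℤ (X →₀ ℤ) (Finsupp.single (pt x) 1)))))

theorem iota_c0 (x : (S X) _⦋0⦌) :
    (S X).ιChainComplex (R := R) x ≫ c0 X =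
      ModuleCat.ofHom (LinearMap.toSpanSingleton ℤ (X →₀ ℤ) (Finsupp.single (pt x) 1)) :=
  ((S X).isColimitChainComplexXCofan R 0).fac _ ⟨x⟩

/-- The inverse of `c0`. -/
noncomputable def c1 (X : Type) [TopologicalSpace X] :
    ModuleCat.of ℤ (X →₀ ℤ) ⟶ (K X).X 0 :=
  ModuleCat.ofHom (Finsupp.lift ((K X).X 0) ℤ X (fun p =>
    ((S X).ιChainComplex (R := R) ((TopCat.toSSetObj₀Equiv (X := TopCat.of X)).symm p)).hom
      (1 : ℤ)))

theorem c0_c1 : c0 X ≫ c1 X = 𝟙 _ := by
  apply SSet.chainComplex_hom_ext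
  intro x
  rw [← Category.assoc, iota_c0]
  ext
  show (Finsupp.lift ((K X).X 0) ℤ X (fun p =>
    ((S X).ιChainComplex (R := R) ((TopCat.toSSetObj₀Equiv (X := TopCat.of X)).symm p)).hom
      (1 : ℤ))) ((1 : ℤ) • (Finsupp.single (pt x) 1)) = _
  rw [one_smul, Finsupp.lift_apply]
  refine (Finsupp.sum_single_index ?_).trans ?_
  · exact ((K X).X 0).isModule.zero_smul _
  · rw [pt, Equiv.symm_apply_apply]
    exact ((K X).X 0).isModule.toDistribMulAction.toMulAction.one_smul _

theorem c0_inj (X : Type) [TopologicalSpace X] : Function.Injective (c0 X).hom := by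
  intro a b h
  have h2 := congrArg (fun m => m.hom a) (c0_c1 (X := X))
  have h3 := congrArg (fun m => m.hom b) (c0_c1 (X := X))
  simp at h2 h3
  rw [← h2, ← h3, h]

theorem bd_al (ξ : (K X).opcycles 1) :
    bd ((al X).hom ξ) = (c0 X).hom (((K X).fromOpcycles 1 0).hom ξ) := by
  have h : al X ≫ ModuleCat.ofHom (AddMonoidHom.toIntLinearMap bd) =
      (K X).fromOpcycles 1 0 ≫ c0 X := by
    apply op_ext
    intro x
    show bd ((al X).hom (io x)) = _
    rw [al_io, bd_cls]
    have h1 : ((S X).ιChainComplex (R := R) x ≫ (K X).pOpcycles 1) ≫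
        (K X).fromOpcycles 1 0 ≫ c0 X =
        ModuleCat.ofHom (LinearMap.toSpanSingleton ℤ (X →₀ ℤ)
          (Finsupp.single (pt ((S X).δ 0 x)) 1)) -
        ModuleCat.ofHom (LinearMap.toSpanSingleton ℤ (X →₀ ℤ)
          (Finsupp.single (pt ((S X).δ 1 x)) 1)) := by
      rw [Category.assoc, HomologicalComplex.p_fromOpcycles_assoc, SSet.ιChainComplex_d_assoc,
        Fin.sum_univ_two, Preadditive.add_comp, Preadditive.zsmul_comp, Preadditive.zsmul_comp,
        iota_c0, iota_c0]
      simp [sub_eq_add_neg]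
    rw [pt_d0, pt_d1] at h1
    have h2 := congrArg (fun m => m.hom (1 : ℤ)) h1
    refine Eq.trans ?_ h2.symm
    simp
  exact congrArg (fun m => m.hom ξ) h

/-- The linear map sending one to a given element. -/
noncomputable def beS {M : ModuleCat.{0} ℤ} (m : M) : ℤ →ₗ[ℤ] M := LinearMap.toSpanSingleton ℤ M m

theorem beS_one {M : ModuleCat.{0} ℤ} (m : M) : beS m (1 : ℤ) = m := by
  exact M.isModule.toDistribMulAction.toMulAction.one_smul _

end Itf

theorem bijective_of_Q {X Y : Type} [TopologicalSpace X] [TopologicalSpace Y] (f : C(X, Y))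
    (hinj : ∀ ξ : Q X, bd ξ = 0 → Q.map f ξ = 0 → ξ = 0)
    (hsurj : ∀ η : Q Y, bd η = 0 → ∃ ξ : Q X, bd ξ = 0 ∧ Q.map f ξ = η) :
    Function.Bijective ((singH 1).map (TopCat.ofHom f)).hom := by
  have hiX : Function.Injective ((Itf.K X).homologyι 1).hom :=
    (ModuleCat.mono_iff_injective _).1 inferInstance
  have hiY : Function.Injective ((Itf.K Y).homologyι 1).hom :=
    (ModuleCat.mono_iff_injective _).1 inferInstance
  have hz : ∀ (Z : Type) [TopologicalSpace Z] (h : (Itf.K Z).homology 1),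
      ((Itf.K Z).fromOpcycles 1 0).hom (((Itf.K Z).homologyι 1).hom h) = 0 := by
    intro Z _ h
    exact congrArg (fun m => m.hom h) ((Itf.K Z).homologyι_comp_fromOpcycles 1 0)
  have hal : ∀ (Z : Type) [TopologicalSpace Z], Function.Injective (Itf.al Z).hom := by
    intro Z _ a b h
    rw [← Itf.be_al a, ← Itf.be_al b, h]
  have hnat : ∀ h : (Itf.K X).homology 1,
      ((Itf.K Y).homologyι 1).hom ((HomologicalComplex.homologyMap (Itf.Kf f) 1).hom h) =
      (HomologicalComplex.opcyclesMap (Itf.Kf f) 1).hom (((Itf.K X).homologyι 1).hom h) := by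
    intro h
    exact congrArg (fun m => m.hom h) (HomologicalComplex.homologyι_naturality (Itf.Kf f) 1)
  show Function.Bijective (HomologicalComplex.homologyMap (Itf.Kf f) 1).hom
  constructor
  · rw [injective_iff_map_eq_zero]
    intro h hh
    apply hiX
    apply hal X
    rw [map_zero, map_zero]
    apply hinj
    · rw [Itf.bd_al, hz X, map_zero]
    · rw [← Itf.al_nat, ← hnat, hh, map_zero, map_zero]
  · intro h'
    obtain ⟨ξ, h1, h2⟩ := hsurj ((Itf.al Y).hom (((Itf.K Y).homologyι 1).hom h'))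
      (by rw [Itf.bd_al, hz Y, map_zero])
    have h3 : ((Itf.K X).fromOpcycles 1 0).hom (Itf.be X ξ) = 0 := by
      apply Itf.c0_inj X
      rw [map_zero, ← Itf.bd_al, Itf.al_be, h1]
    have h4 : ModuleCat.ofHom (Itf.beS (Itf.be X ξ)) ≫ (Itf.K X).fromOpcycles 1 0 = 0 := by
      ext
      show ((Itf.K X).fromOpcycles 1 0).hom (Itf.beS (Itf.be X ξ) (1 : ℤ)) = 0
      rw [Itf.beS_one, h3]
    let l := ((Itf.K X).homologyIsKernel 1 0 (by simp)).lift (Limits.KernelFork.ofι _ h4)
    have h5 : l ≫ (Itf.K X).homologyι 1 = ModuleCat.ofHom (Itf.beS (Itf.be X ξ)) :=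
      ((Itf.K X).homologyIsKernel 1 0 (by simp)).fac (Limits.KernelFork.ofι _ h4)
        Limits.WalkingParallelPair.zero
    have h6 : ((Itf.K X).homologyι 1).hom (l.hom (1 : ℤ)) = Itf.be X ξ := by
      refine (congrArg (fun m => m.hom (1 : ℤ)) h5).trans ?_
      exact Itf.beS_one _
    refine ⟨l.hom (1 : ℤ), ?_⟩
    apply hiY
    apply hal Y
    rw [hnat, h6, Itf.al_nat, Itf.al_be, h2]

end HSq
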