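import Mathlib

/-!
# Kernel-checkable derivations in groups

Words are lists of natural numbers: the letter `2 a` stands for the generator `a` and `2 a + 1` for
its inverse.  A relator is a word with trivial value.  `checkAll` checks a list of derivations of
relators as products of conjugates of earlier relators or their inverses.
-/

namespace HSq

/-- The inverse letter. -/
def linv (x : ℕ) : ℕ := bif Nat.beq (x % 2) 0 then x + 1 else x - 1

/-- Add a letter at the end of a freely reduced word (stored in reverse order). -/
def push (x : ℕ) (t : List ℕ) : List ℕ :=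
  match t with
  | [] => [x]
  | y :: t' => bif Nat.beq y (linv x) then t' else x :: y :: t'

/-- Add a word. -/
def pushW : List ℕ → List ℕ → List ℕ
  | [], t => t
  | x :: w, t => pushW w (push x t)

/-- Add the inverse of a word. -/
def pushI : List ℕ → List ℕ → List ℕ
  | [], t => t
  | x :: w, t => push (linv x) (pushI w t)

/-- Binary trees storing the relators. -/
inductive Tr : Type
  | Z : Tr
  | N : List ℕ → Tr → Tr → Tr

/-- Random access. -/
def Tr.get : Tr → ℕ → List ℕ
  | Z, _ => []
  | N v l r, k => bif Nat.beq k 0 then v else bif Nat.beq (k % 2) 1 then l.get (k / 2)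
      else r.get (k / 2 - 1)

/-- One step `(c, j, s)`: multiply by `c r_j^{±1} c⁻¹`. -/
def pushStep (T : Tr) (s : List ℕ × ℕ × Bool) (t : List ℕ) : List ℕ :=
  pushI s.1 (bif s.2.2 then pushW (T.get s.2.1) (pushW s.1 t)
    else pushI (T.get s.2.1) (pushW s.1 t))

/-- Multiply by a list of conjugates. -/
def pushSteps (T : Tr) : List (List ℕ × ℕ × Bool) → List ℕ → List ℕ
  | [], t => t
  | s :: l, t => pushSteps T l (pushStep T s t)

/-- All steps use relators with index below `k`. -/
def allBelow (k : ℕ) : List (List ℕ × ℕ × Bool) → Bool
  | [] => true
  | s :: l => bif Nat.blt s.2.1 k then allBelow k l else false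

/-- Equality of words. -/
def eqW : List ℕ → List ℕ → Bool
  | [], [] => true
  | x :: v, y :: w => bif Nat.beq x y then eqW v w else false
  | _, _ => false

/-- Check a list of derivations for the relators `k, k + 1, …`. -/
def checkAll (T : Tr) : ℕ → List (List (List ℕ × ℕ × Bool)) → Bool
  | _, [] => true
  | k, p :: l => bif allBelow k p then
      (bif eqW (pushSteps T p []) (pushW (T.get k) []) then checkAll T (k + 1) l else false)
      else false

variable {G : Type*} [Group G] (g : ℕ → G)

/-- Value of a letter. -/
def lval (x : ℕ) : G := if x % 2 = 0 then g (x / 2) else (g (x / 2))⁻¹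

/-- Value of a word. -/
def wval (w : List ℕ) : G := (w.map (lval g)).prod

@[simp] theorem wval_nil : wval g [] = 1 := rfl

@[simp] theorem wval_cons (x : ℕ) (w : List ℕ) : wval g (x :: w) = lval g x * wval g w := by
  simp [wval]

/-- Value of a word stored in reverse order. -/
def rval (w : List ℕ) : G := wval g w.reverse

@[simp] theorem rval_nil : rval g [] = 1 := rfl

@[simp] theorem rval_cons (x : ℕ) (w : List ℕ) : rval g (x :: w) = rval g w * lval g x := by
  simp [rval, wval]

theorem lval_linv (x : ℕ) : lval g (linv x) = (lval g x)⁻¹ := by
  unfold lval linv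
  rcases Nat.mod_two_eq_zero_or_one x with h | h
  · have h1 : Nat.beq (x % 2) 0 = true := by rw [h]; rfl
    rw [h1, cond_true, if_pos h, if_neg (by omega)]
    congr 2; omega
  · have h1 : Nat.beq (x % 2) 0 = false := by rw [h]; rfl
    have h2 : (x - 1) % 2 = 0 := by omega
    have h3 : ¬ (x % 2 = 0) := by omega
    have h4 : (x - 1) / 2 = x / 2 := by omega
    rw [h1, cond_false, if_pos h2, if_neg h3, inv_inv, h4]

theorem rval_push (x : ℕ) (t : List ℕ) : rval g (push x t) = rval g t * lval g x := by
  cases t with
  | nil => simp [push]
  | cons y t =>
    unfold push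
    cases h : Nat.beq y (linv x) with
    | false => simp [h]
    | true =>
      have h2 : y = linv x := Nat.eq_of_beq_eq_true h
      show rval g (bif y.beq (linv x) then t else x :: y :: t) = rval g (y :: t) * lval g x
      rw [h, cond_true, rval_cons, h2, lval_linv, inv_mul_cancel_right]

theorem rval_pushW (w t : List ℕ) : rval g (pushW w t) = rval g t * wval g w := by
  induction w generalizing t with
  | nil => simp [pushW]
  | cons x w ih => simp [pushW, ih, rval_push, mul_assoc]

theorem rval_pushI (w t : List ℕ) : rval g (pushI w t) = rval g t * (wval g w)⁻¹ := by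
  induction w generalizing t with
  | nil => simp [pushI]
  | cons x w ih => simp [pushI, ih, rval_push, lval_linv, mul_assoc]

theorem eqW_eq {v w : List ℕ} (h : eqW v w = true) : v = w := by
  induction v generalizing w with
  | nil => cases w with
    | nil => rfl
    | cons y w => simp [eqW] at h
  | cons x v ih => cases w with
    | nil => simp [eqW] at h
    | cons y w =>
      unfold eqW at h
      cases h1 : Nat.beq x y with
      | false => simp [h1] at h
      | true =>
        rw [h1, cond_true] at h
        rw [Nat.eq_of_beq_eq_true h1, ih h]

theorem rval_pushStep (T : Tr) (s : List ℕ × ℕ × Bool) (t : List ℕ)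
    (h : wval g (T.get s.2.1) = 1) : rval g (pushStep T s t) = rval g t := by
  unfold pushStep
  rw [rval_pushI]
  cases s.2.2 with
  | true => simp [rval_pushW, h]
  | false => simp [rval_pushW, rval_pushI, h]

theorem rval_pushSteps (T : Tr) (k : ℕ) (l : List (List ℕ × ℕ × Bool)) (t : List ℕ)
    (hl : allBelow k l = true) (h : ∀ j < k, wval g (T.get j) = 1) :
    rval g (pushSteps T l t) = rval g t := by
  induction l generalizing t with
  | nil => rfl
  | cons s l ih =>
    unfold allBelow at hl
    cases h1 : Nat.blt s.2.1 k with
    | false => simp [h1] at hl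
    | true =>
      rw [h1, cond_true] at hl
      have : s.2.1 < k := by simpa [Nat.blt_eq] using h1
      rw [pushSteps, ih _ hl, rval_pushStep g T s t (h _ this)]

theorem checkAll_sound (T : Tr) (k : ℕ) (l : List (List (List ℕ × ℕ × Bool)))
    (hl : checkAll T k l = true) (h : ∀ j < k, wval g (T.get j) = 1) :
    ∀ j < k + l.length, wval g (T.get j) = 1 := by
  induction l generalizing k with
  | nil => simpa using h
  | cons p l ih =>
    unfold checkAll at hl
    cases h1 : allBelow k p with
    | false => simp [h1] at hl
    | true =>
      rw [h1, cond_true] at hl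
      cases h2 : eqW (pushSteps T p []) (pushW (T.get k) []) with
      | false => simp [h2] at hl
      | true =>
        rw [h2, cond_true] at hl
        have h3 := congrArg (rval g) (eqW_eq h2)
        rw [rval_pushSteps g T k p [] h1 h, rval_pushW] at h3
        have h4 : wval g (T.get k) = 1 := by simpa using h3.symm
        intro j hj
        refine ih (k + 1) hl (fun j hj => ?_) j (by simp only [List.length_cons] at hj; omega)
        rcases Nat.lt_succ_iff_lt_or_eq.1 hj with h5 | h5
        · exact h j h5
        · rw [h5]; exact h4

end HSq
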