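import Pool.Agent.HSq.XPot

/-!
# Seven squares in the 4 × 3 rectangle: boundaries
-/

namespace HSq

open Equiv

variable {u v : Fin 7 → ℕ} {p : Fin 7} {w : Perm (Fin 7)}

open Classical in
/-- The generator of a point. -/
noncomputable def ptF (z : Fin 7 → ℝ × ℝ) : hardSquares 7 4 3 →₀ ℤ :=
  if h : z ∈ hardSquares 7 4 3 then Finsupp.single ⟨z, h⟩ 1 else 0

theorem bd_SS {D : Fin 7 → Fin 7 → Dir} (hu : Sp D u) (hv : Sp D v) (w : Perm (Fin 7)) :
    bd (SS (lab u w) (lab v w)) = ptF (emb (lab v w)) - ptF (emb (lab u w)) := by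
  unfold SS ptF
  rw [dif_pos (lab_mem_hs hu w), dif_pos (lab_mem_hs hv w)]
  exact bd_sg (seg_sub hu hv w) _ _

/-- The generator of the base point of a state. -/
noncomputable def KK (s : ℕ × ℕ) (w : Perm (Fin 7)) : hardSquares 7 4 3 →₀ ℤ :=
  ptF (emb (lab (canS s) w))

theorem bd_G0 (hu : Cf u) (w : Perm (Fin 7)) :
    bd (G0 u w) = ptF (emb (lab u w)) - KK (st u) w :=
  bd_SS (sp_can hu) (sp_st hu) w

theorem bd_ev (hu : Cf u) (hp : Up u p) (w : Perm (Fin 7)) :
    bd (ev u p w) = KK (st (mv u p)) (w * cyc p (tq u p)) - KK (st u) w := by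
  unfold ev
  rw [map_sub, map_add, bd_G0 hu, bd_G0 (mv_cf hu hp), bd_SS (sp_DT hu hp) (sp_DT_upd hu hp),
    lab_mv]
  abel

/-- The type `c` is realised. -/
def RealC (c : ℕ) : Prop := ∃ (u : Fin 7 → ℕ) (p : Fin 7), Cf u ∧ Up u p ∧ cd u p = c

theorem bd_val {c : ℕ} (hc : RealC c) (w : Perm (Fin 7)) :
    bd (val c w) = KK (tgtC c) (w * cycC c) - KK (srcC c) w := by
  obtain ⟨u, p, hu, hp, rfl⟩ := hc
  rw [val_cd hu hp, bd_ev hu hp, srcC_cd hu hp, tgtC_cd hu hp, cycC_cd hu hp]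

theorem real_repW {x : ℕ × List ℕ × ℕ} (hx : x ∈ repW) :
    Cf (ofL x.2.1) ∧ Up (ofL x.2.1) (Fin.ofNat 7 x.2.2) ∧
      cd (ofL x.2.1) (Fin.ofNat 7 x.2.2) = x.1 := by
  have h := List.all_eq_true.1 rep_ok x hx
  simp only [repOK, Bool.and_eq_true, Nat.beq_eq] at h
  exact ⟨cfB_cf h.1.1, upB_up h.1.2, h.2⟩

theorem tree_repW : ∀ a ∈ treeL, ∃ x ∈ repW, x.1 = a := by decide +kernel

theorem rep_repW : ∀ s : Fin 6, ∃ x ∈ repW, x.1 = repL.getD s 0 := by decide +kernel

theorem real_tree {a : ℕ} (ha : a ∈ treeL) : RealC a := by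
  obtain ⟨x, hx, rfl⟩ := tree_repW a ha
  obtain ⟨h1, h2, h3⟩ := real_repW hx
  exact ⟨_, _, h1, h2, h3⟩

theorem real_rep (s : Fin 6) : RealC (repL.getD s 0) := by
  obtain ⟨x, hx, hx2⟩ := rep_repW s
  rw [← hx2]
  obtain ⟨h1, h2, h3⟩ := real_repW hx
  exact ⟨_, _, h1, h2, h3⟩

theorem tree_triv : ∀ a ∈ treeL, a / 8 % 8 = a % 8 := by decide +kernel

theorem cycC_tree {a : ℕ} (ha : a ∈ treeL) : cycC a = 1 := by
  unfold cycC
  rw [tree_triv a ha, cyc_self]

/-- A word is a path of tree transitions from the state `s` to the state `t`. -/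
def chainB : ℕ × ℕ → List ℕ → ℕ × ℕ → Bool
  | s, [], t => decide (s = t)
  | s, x :: l, t => decide (x / 2 ∈ treeL) &&
      (if x % 2 = 0 then decide (srcC (x / 2) = s) && chainB (tgtC (x / 2)) l t
        else decide (tgtC (x / 2) = s) && chainB (srcC (x / 2)) l t)

theorem bd_gsum {s t : ℕ × ℕ} {l : List ℕ} (h : chainB s l t = true) (w : Perm (Fin 7)) :
    bd (gsum l w) = KK t w - KK s w := by
  induction l generalizing s with
  | nil =>
    simp only [chainB, decide_eq_true_eq] at h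
    subst h
    simp [gsum]
  | cons x l ih =>
    have e : gsum (x :: l) w = (if x % 2 = 0 then val (x / 2) w else - val (x / 2) w) +
        gsum l w := by simp [gsum]
    rw [e, map_add]
    simp only [chainB, Bool.and_eq_true, decide_eq_true_eq] at h
    obtain ⟨h1, h2⟩ := h
    have h3 := bd_val (real_tree h1) w
    rw [cycC_tree h1, mul_one] at h3
    split_ifs at h2 ⊢ with h4
    · simp only [Bool.and_eq_true, decide_eq_true_eq] at h2
      rw [h3, ih h2.2, h2.1]; abel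
    · simp only [Bool.and_eq_true, decide_eq_true_eq] at h2
      rw [map_neg, h3, ih h2.2, h2.1]; abel

theorem chain_rep : ∀ s : Fin 6,
    chainB (4, 4) (gw (srcC (repL.getD s 0))) (srcC (repL.getD s 0)) = true ∧
    chainB (4, 4) (gw (tgtC (repL.getD s 0))) (tgtC (repL.getD s 0)) = true := by
  decide +kernel

theorem bd_ft_rep (s : Fin 6) (w : Perm (Fin 7)) :
    bd (ft (repL.getD s 0) w) = KK (4, 4) (w * sw s) - KK (4, 4) w := by
  obtain ⟨h1, h2⟩ := chain_rep s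
  unfold ft
  rw [map_sub, map_add, bd_gsum h1, bd_gsum h2, bd_val (real_rep s), cycC_rep]
  abel

theorem bd_FX (w : Perm (Fin 7)) (s : Fin 6) :
    bd (FX w s) = KK (4, 4) (w * sw s) - KK (4, 4) w := by
  unfold FX
  split_ifs
  · exact bd_ft_rep s w
  · rw [map_neg, bd_ft_rep, mul_assoc, sw_mul_self, mul_one]; abel

theorem bd_rot_FX (w : Perm (Fin 7)) (s : Fin 6) : bd (rot FX w s) = 0 := by
  unfold rot
  rw [map_add, bd_FX, bd_FX, mul_assoc, sw_mul_self, mul_one]; abel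

end HSq
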