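import Pool.Agent.HSq.XComb
import Pool.Agent.HSq.XData

/-!
# Seven squares in the 4 × 3 rectangle: finite checks
-/

namespace HSq

/-- The slot configuration of a list. -/
def ofL (l : List ℕ) : Fin 7 → ℕ := fun r => l.getD r 0

/-- Check that a list is a slot configuration. -/
def cfB (u : Fin 7 → ℕ) : Bool :=
  Nat.blt (u 0) (u 1) && Nat.blt (u 1) (u 2) && Nat.blt (u 2) (u 3) && Nat.blt (u 3) (u 4) &&
  Nat.blt (u 4) (u 5) && Nat.blt (u 5) (u 6) && Nat.blt (u 6) 12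

theorem cfB_cf {u : Fin 7 → ℕ} (h : cfB u = true) : Cf u := by
  simp only [cfB, Bool.and_eq_true, Nat.blt_eq] at h
  have hm : StrictMono u := by
    rw [Fin.strictMono_iff_lt_succ]
    intro i
    fin_cases i <;> simp only [Fin.zero_eta, Fin.mk_one, Fin.reduceFinMk, Fin.castSucc_zero,
      Fin.succ_zero_eq_one, Fin.castSucc_one, Fin.succ_one_eq_two] <;> first
      | exact h.1.1.1.1.1.1 | exact h.1.1.1.1.1.2 | exact h.1.1.1.1.2 | exact h.1.1.1.2
      | exact h.1.1.2 | exact h.1.2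
  refine ⟨hm, fun r => ?_⟩
  have : u r ≤ u 6 := hm.monotone (by have := r.2; rw [Fin.le_def]; simp; omega)
  omega

/-- Check that the square in slot `p` can move up. -/
def upB (u : Fin 7 → ℕ) (p : Fin 7) : Bool :=
  Nat.blt (u p) 8 && decide (∀ r, u r ≠ upc (u p))

theorem upB_up {u : Fin 7 → ℕ} {p : Fin 7} (h : upB u p = true) : Up u p := by
  simp only [upB, Bool.and_eq_true, Nat.blt_eq, decide_eq_true_eq] at h
  exact ⟨h.1, h.2⟩

/-- The code of a vertical move, for computations. -/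
def cdB (u : Fin 7 → ℕ) (p : Fin 7) : ℕ := codeOf (cnt 4 u) (cnt 8 u) p (tq u p)

/-- Check of a witness of a square relation. -/
def witOK (x : (ℕ × ℕ × ℕ × ℕ) × List ℕ × ℕ × ℕ) : Bool :=
  let u := ofL x.2.1
  let p₁ : Fin 7 := Fin.ofNat 7 x.2.2.1
  let p₂ : Fin 7 := Fin.ofNat 7 x.2.2.2
  cfB u && upB u p₁ && upB u p₂ && !(Nat.beq p₁ p₂) &&
  Nat.beq (cdB u p₁) x.1.1 && Nat.beq (cdB (mv u p₁) (cycB p₁ (tq u p₁) p₂)) x.1.2.1 &&
  Nat.beq (cdB u p₂) x.1.2.2.1 && Nat.beq (cdB (mv u p₂) (cycB p₂ (tq u p₂) p₁)) x.1.2.2.2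

theorem wit_ok : (witL.all witOK) = true := by decide +kernel

theorem wit_sq : sqL = witL.map Prod.fst := by decide +kernel

/-- Lookup of a gauge word. -/
def lkw (l m : ℕ) : List (ℕ × ℕ × List ℕ) → List ℕ
  | [] => []
  | x :: t => bif Nat.beq x.1 l && Nat.beq x.2.1 m then x.2.2 else lkw l m t

/-- The gauge word of a state. -/
def gw (s : ℕ × ℕ) : List ℕ := lkw s.1 s.2 gaugeL

/-- Source state of a code. -/
def srcC (c : ℕ) : ℕ × ℕ := (c / 512, c / 64 % 8)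

/-- Target state of a code. -/
def tgtC (c : ℕ) : ℕ × ℕ :=
  if c / 8 % 8 < c / 512 then (c / 512 - 1, c / 64 % 8) else (c / 512, c / 64 % 8 - 1)

theorem tree_ok : ∀ a ∈ treeL, gw (tgtC a) = gw (srcC a) ++ [2 * a] ∨
    gw (srcC a) = gw (tgtC a) ++ [2 * a + 1] := by
  decide +kernel

theorem sq_states : ∀ s ∈ sqL, srcC s.1 = srcC s.2.2.1 ∧ tgtC s.1 = srcC s.2.1 ∧
    tgtC s.2.2.1 = srcC s.2.2.2 ∧ tgtC s.2.1 = tgtC s.2.2.2 := by
  decide +kernel

/-- A letter of a gauge word does not permute. -/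
theorem gauge_triv : ∀ x ∈ gaugeL, ∀ y ∈ x.2.2, (y / 2) / 8 % 8 = (y / 2) % 8 := by
  decide +kernel

theorem rep_codes : ∀ s : Fin 6, (repL.getD s 0) / 8 % 8 = s ∧ (repL.getD s 0) % 8 = s + 1 := by
  decide +kernel

/-- Check of a representative. -/
def repOK (x : ℕ × List ℕ × ℕ) : Bool :=
  let u := ofL x.2.1
  let p : Fin 7 := Fin.ofNat 7 x.2.2
  cfB u && upB u p && Nat.beq (cdB u p) x.1

theorem rep_ok : (repW.all repOK) = true := by decide +kernel

end HSq
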