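import Pool.Agent.HSq.CertMain
import Pool.Agent.HSq.Grid
import Pool.Agent.HSq.PB

/-!
# Seven squares in the 4 × 3 rectangle: combinatorics of integer configurations

The twelve cells are numbered `0, …, 11` in snake order.  A slot configuration is a strictly
increasing function `u : Fin 7 → ℕ` with values below `12`.
-/

namespace HSq

open Equiv

/-- Abscissa of a cell. -/
def cX (k : ℕ) : ℕ := if k < 4 then k + 1 else if k < 8 then 8 - k else k - 7

/-- Ordinate of a cell. -/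
def cY (k : ℕ) : ℕ := if k < 4 then 1 else if k < 8 then 2 else 3

/-- The cell above a cell of the first two rows. -/
def upc (k : ℕ) : ℕ := if k < 4 then 7 - k else 15 - k

/-- Slot configurations. -/
structure Cf (u : Fin 7 → ℕ) : Prop where
  mono : StrictMono u
  lt : ∀ r, u r < 12

/-- The number of entries below `x` (for an increasing `u`). -/
def cnt (x : ℕ) (u : Fin 7 → ℕ) : ℕ :=
  if x ≤ u 0 then 0 else if x ≤ u 1 then 1 else if x ≤ u 2 then 2 else if x ≤ u 3 then 3 else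
  if x ≤ u 4 then 4 else if x ≤ u 5 then 5 else if x ≤ u 6 then 6 else 7

theorem cnt_spec {u : Fin 7 → ℕ} (hu : StrictMono u) (x : ℕ) (r : Fin 7) :
    u r < x ↔ (r : ℕ) < cnt x u := by
  have h0 : u 0 < u 1 := hu (by decide)
  have h1 : u 1 < u 2 := hu (by decide)
  have h2 : u 2 < u 3 := hu (by decide)
  have h3 : u 3 < u 4 := hu (by decide)
  have h4 : u 4 < u 5 := hu (by decide)
  have h5 : u 5 < u 6 := hu (by decide)
  unfold cnt
  fin_cases r <;> simp only [Fin.zero_eta, Fin.mk_one, Fin.reduceFinMk] <;> split_ifs <;>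
    simp <;> omega

theorem cnt_congr {u v : Fin 7 → ℕ} {x : ℕ} (h : ∀ r, u r < x ↔ v r < x) : cnt x u = cnt x v := by
  unfold cnt
  simp only [← not_lt, h]

theorem cnt_le (x : ℕ) (u : Fin 7 → ℕ) : cnt x u ≤ 7 := by
  unfold cnt; split_ifs <;> omega

/-- New positions to old slots when the entry `p` moves to position `q`. -/
def cycF (p q r : Fin 7) : Fin 7 :=
  if p ≤ q then (if r = q then p else if p ≤ r ∧ r < q then r + 1 else r) else r

/-- Old slots to new positions. -/
def cycB (p q r : Fin 7) : Fin 7 :=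
  if p ≤ q then (if r = p then q else if p < r ∧ r ≤ q then r - 1 else r) else r

/-- The permutation of slots. -/
def cyc (p q : Fin 7) : Perm (Fin 7) where
  toFun := cycF p q
  invFun := cycB p q
  left_inv := by
    have : ∀ p q r : Fin 7, cycB p q (cycF p q r) = r := by decide +kernel
    exact this p q
  right_inv := by
    have : ∀ p q r : Fin 7, cycF p q (cycB p q r) = r := by decide +kernel
    exact this p q

theorem cyc_self (p : Fin 7) : cyc p p = 1 := by
  have : ∀ p r : Fin 7, cycF p p r = r := by decide +kernel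
  ext r
  simp [cyc, this p r]

theorem cyc_succ (s : Fin 6) : cyc s.castSucc s.succ = sw s := by
  have : ∀ (s : Fin 6) (r : Fin 7), cycF s.castSucc s.succ r = (sw s) r := by decide +kernel
  ext r
  simp [cyc, this s r]

/-- The square in slot `p` can move up. -/
structure Up (u : Fin 7 → ℕ) (p : Fin 7) : Prop where
  lt : u p < 8
  free : ∀ r, u r ≠ upc (u p)

instance (u : Fin 7 → ℕ) (p : Fin 7) : Decidable (Up u p) :=
  decidable_of_iff (u p < 8 ∧ ∀ r, u r ≠ upc (u p)) ⟨fun h => ⟨h.1, h.2⟩, fun h => ⟨h.1, h.2⟩⟩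

/-- The new position of the square in slot `p` after moving up. -/
def tq (u : Fin 7 → ℕ) (p : Fin 7) : Fin 7 := Fin.ofNat 7 (cnt (upc (u p)) u - 1)

/-- The configuration after the move, slots not reordered. -/
def upd (u : Fin 7 → ℕ) (p : Fin 7) : Fin 7 → ℕ := fun r => if r = p then upc (u p) else u r

/-- The configuration after the move. -/
def mv (u : Fin 7 → ℕ) (p : Fin 7) : Fin 7 → ℕ := fun r => upd u p (cycF p (tq u p) r)

theorem lt_upc {k : ℕ} (h : k < 8) : k < upc k ∧ upc k < 12 := by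
  unfold upc; split_ifs <;> omega

variable {u v : Fin 7 → ℕ} {p : Fin 7}

theorem tq_val (hu : Cf u) (hp : Up u p) : (tq u p : ℕ) + 1 = cnt (upc (u p)) u := by
  have h1 : (p : ℕ) < cnt (upc (u p)) u := (cnt_spec hu.mono _ p).1 (lt_upc hp.lt).1
  have h2 := cnt_le (upc (u p)) u
  unfold tq
  rw [Fin.val_ofNat, Nat.mod_eq_of_lt (by omega)]
  omega

theorem lt_up_iff (hu : Cf u) (hp : Up u p) (r : Fin 7) : u r < upc (u p) ↔ r ≤ tq u p := by
  rw [cnt_spec hu.mono, ← tq_val hu hp, Fin.le_def]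
  omega

theorem gt_up (hu : Cf u) (hp : Up u p) {r : Fin 7} (h : tq u p < r) : upc (u p) < u r := by
  have h1 : ¬ (u r < upc (u p)) := by rw [lt_up_iff hu hp]; exact not_le.2 h
  have h2 := hp.free r
  omega

theorem le_tq (hu : Cf u) (hp : Up u p) : p ≤ tq u p :=
  (lt_up_iff hu hp p).1 (lt_upc hp.lt).1

theorem cycF_facts : ∀ p q r s : Fin 7, p ≤ q → r < s →
    (r ≠ q → s ≠ q → cycF p q r < cycF p q s) ∧ (r ≠ q → cycF p q r ≠ p) ∧
    (s ≠ q → cycF p q s ≠ p) ∧ (s = q → cycF p q r ≤ q) ∧ (r = q → cycF p q s = s) ∧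
    cycF p q q = p := by
  decide +kernel

theorem mv_mono (hu : Cf u) (hp : Up u p) : StrictMono (mv u p) := by
  intro r s hrs
  obtain ⟨h1, h2, h3, h4, h5, h6⟩ := cycF_facts p (tq u p) r s (le_tq hu hp) hrs
  unfold mv upd
  by_cases hr : r = tq u p
  · have hs : s ≠ tq u p := fun h => by rw [hr, h] at hrs; exact lt_irrefl _ hrs
    rw [hr, h6, if_pos rfl, if_neg (h3 hs), h5 hr]
    exact gt_up hu hp (hr ▸ hrs)
  · by_cases hs : s = tq u p
    · rw [hs, h6, if_pos rfl, if_neg (h2 hr)]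
      exact (lt_up_iff hu hp _).2 (h4 hs)
    · rw [if_neg (h2 hr), if_neg (h3 hs)]
      exact hu.mono (h1 hr hs)

theorem upd_lt (hu : Cf u) (hp : Up u p) (r : Fin 7) : upd u p r < 12 := by
  unfold upd
  split_ifs
  · exact (lt_upc hp.lt).2
  · exact hu.lt r

theorem mv_cf (hu : Cf u) (hp : Up u p) : Cf (mv u p) := ⟨mv_mono hu hp, fun _ => upd_lt hu hp _⟩

/-- The labelled integer configuration of a slot configuration. -/
def lab (u : Fin 7 → ℕ) (w : Perm (Fin 7)) : Fin 7 → ℤ × ℤ :=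
  fun k => (cX (u (w⁻¹ k)), cY (u (w⁻¹ k)))

theorem lab_mv (u : Fin 7 → ℕ) (p : Fin 7) (w : Perm (Fin 7)) :
    lab (mv u p) (w * cyc p (tq u p)) = lab (upd u p) w := by
  funext k
  have h : cycF p (tq u p) ((w * cyc p (tq u p))⁻¹ k) = w⁻¹ k := by
    rw [mul_inv_rev, Perm.mul_apply]
    exact (cyc p (tq u p)).apply_symm_apply (w⁻¹ k)
  unfold lab mv
  rw [h]

theorem cell_inj : ∀ a < 12, ∀ b < 12, cX a = cX b → cY a = cY b → a = b := by decide +kernel

theorem lab_mem {u : Fin 7 → ℕ} (h : ∀ r, u r < 12) (hi : Function.Injective u)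
    (w : Perm (Fin 7)) : lab u w ∈ IC 7 4 3 := by
  have hb : ∀ a < 12, 1 ≤ cX a ∧ cX a ≤ 4 ∧ 1 ≤ cY a ∧ cY a ≤ 3 := by decide +kernel
  refine ⟨fun k => ?_, fun k l hkl he => hkl ?_⟩
  · have := hb _ (h (w⁻¹ k))
    simp only [lab, Set.mem_Icc]
    norm_cast
    omega
  · simp only [lab, Prod.mk.injEq, Nat.cast_inj] at he
    have := hi (cell_inj _ (h _) _ (h _) he.1 he.2)
    exact w⁻¹.injective this

theorem upd_inj (hu : Cf u) (hp : Up u p) : Function.Injective (upd u p) := by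
  intro r s h
  unfold upd at h
  split_ifs at h with h1 h2 h2
  · rw [h1, h2]
  · exact (hp.free s h.symm).elim
  · exact (hp.free r h).elim
  · exact hu.mono.injective h

/-- The number of the cell with given coordinates. -/
def kap (c : ℤ × ℤ) : ℕ :=
  if c.2 = 1 then (c.1 - 1).toNat else if c.2 = 2 then (8 - c.1).toNat else (c.1 + 7).toNat

theorem kap_spec {c : ℤ × ℤ} (h1 : c.1 ∈ Set.Icc (1 : ℤ) (4 : ℕ))
    (h2 : c.2 ∈ Set.Icc (1 : ℤ) (3 : ℕ)) : kap c < 12 ∧ (cX (kap c) : ℤ) = c.1 ∧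
      (cY (kap c) : ℤ) = c.2 := by
  obtain ⟨x, y⟩ := c
  simp only [Set.mem_Icc, Nat.cast_ofNat] at h1 h2
  have hx : x = 1 ∨ x = 2 ∨ x = 3 ∨ x = 4 := by omega
  have hy : y = 1 ∨ y = 2 ∨ y = 3 := by omega
  rcases hx with rfl | rfl | rfl | rfl <;> rcases hy with rfl | rfl | rfl <;>
    simp [kap, cX, cY]

theorem exists_lab {c : Fin 7 → ℤ × ℤ} (hc : c ∈ IC 7 4 3) :
    ∃ (u : Fin 7 → ℕ) (w : Perm (Fin 7)), Cf u ∧ c = lab u w := by
  have hk := fun k => kap_spec (hc.1 k).1 (hc.1 k).2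
  have hinj : Function.Injective fun k => kap (c k) := by
    intro k l hkl
    by_contra hne
    apply hc.2 k l hne
    have h1 := hk k
    have h2 := hk l
    simp only at hkl
    rw [hkl] at h1
    exact Prod.ext (h1.2.1.symm.trans h2.2.1) (h1.2.2.symm.trans h2.2.2)
  set w := Tuple.sort fun k => kap (c k) with hw
  refine ⟨fun r => kap (c (w r)), w, ⟨?_, fun r => (hk _).1⟩, ?_⟩
  · exact (Tuple.monotone_sort fun k => kap (c k)).strictMono_of_injective
      (hinj.comp w.injective)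
  · funext k
    have hw2 : w (w⁻¹ k) = k := w.apply_symm_apply k
    simp only [lab, hw2]
    exact Prod.ext (hk k).2.1.symm (hk k).2.2.symm

theorem lab_inj {u v : Fin 7 → ℕ} {w x : Perm (Fin 7)} (hu : Cf u) (hv : Cf v)
    (h : lab u w = lab v x) : u = v ∧ w = x := by
  have h1 : ∀ k, u (w⁻¹ k) = v (x⁻¹ k) := by
    intro k
    have := congrFun h k
    simp only [lab, Prod.mk.injEq, Nat.cast_inj] at this
    exact cell_inj _ (hu.lt _) _ (hv.lt _) this.1 this.2
  have h2 : Set.range u = Set.range v := by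
    ext y
    constructor
    · rintro ⟨r, rfl⟩
      have hw2 : w⁻¹ (w r) = r := w.symm_apply_apply r
      exact ⟨x⁻¹ (w r), by rw [← h1, hw2]⟩
    · rintro ⟨r, rfl⟩
      have hx2 : x⁻¹ (x r) = r := x.symm_apply_apply r
      exact ⟨w⁻¹ (x r), by rw [h1, hx2]⟩
  have h3 : u = v := (hu.mono.range_inj hv.mono).1 h2
  refine ⟨h3, ?_⟩
  have h4 : w⁻¹ = x⁻¹ := by
    ext k
    have := h1 k
    rw [h3] at this
    rw [hv.mono.injective this]
  exact inv_injective h4

end HSq
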