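import Pool.Agent.HSq.XComb

/-!
# Seven squares in the 4 × 3 rectangle: separating directions
-/

namespace HSq

open Equiv

/-- Separation of two cells. -/
def relC (d : Dir) (a b : ℕ) : Prop :=
  match d with
  | Dir.L => cX a + 1 ≤ cX b
  | Dir.R => cX b + 1 ≤ cX a
  | Dir.D => cY a + 1 ≤ cY b
  | Dir.U => cY b + 1 ≤ cY a

instance (d : Dir) (a b : ℕ) : Decidable (relC d a b) := by
  cases d <;> unfold relC <;> infer_instance

/-- The opposite direction. -/
def Dir.flip : Dir → Dir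
  | L => R
  | R => L
  | D => U
  | U => D

theorem relC_flip {d : Dir} {a b : ℕ} (h : relC d a b) : relC d.flip b a := by
  cases d <;> exact h

/-- The separating direction of the slots `r < s` in the state `(l, m)`. -/
def dirlt (l m r s : ℕ) : Dir :=
  if s < l then Dir.L else if r < l then Dir.D else if s < m then Dir.R else
    if r < m then Dir.D else Dir.L

/-- The separating direction of two slots in the state `(l, m)`. -/
def dirS (l m r s : ℕ) : Dir := if r < s then dirlt l m r s else (dirlt l m s r).flip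

theorem relC_cells {a b : ℕ} (hb : b < 12) (h : a < b) :
    (b < 4 → relC Dir.L a b) ∧ (a < 4 → 4 ≤ b → relC Dir.D a b) ∧
    (4 ≤ a → b < 8 → relC Dir.R a b) ∧ (a < 8 → 8 ≤ b → relC Dir.D a b) ∧
    (8 ≤ a → relC Dir.L a b) := by
  refine ⟨fun _ => ?_, fun _ _ => ?_, fun _ _ => ?_, fun _ _ => ?_, fun _ => ?_⟩ <;>
    simp only [relC, cX, cY] <;> split_ifs <;> omega

variable {u v : Fin 7 → ℕ} {p : Fin 7}

theorem relC_dirlt (hu : Cf u) {r s : Fin 7} (h : r < s) :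
    relC (dirlt (cnt 4 u) (cnt 8 u) r s) (u r) (u s) := by
  obtain ⟨h1, h2, h3, h4, h5⟩ := relC_cells (hu.lt s) (hu.mono h)
  have hr4 := cnt_spec hu.mono 4 r
  have hs4 := cnt_spec hu.mono 4 s
  have hr8 := cnt_spec hu.mono 8 r
  have hs8 := cnt_spec hu.mono 8 s
  unfold dirlt
  split_ifs with c1 c2 c3 c4
  · exact h1 (hs4.2 c1)
  · exact h2 (hr4.2 c2) (by omega)
  · exact h3 (by omega) (hs8.2 c3)
  · exact h4 (hr8.2 c4) (by omega)
  · exact h5 (by omega)

theorem relC_dirS (hu : Cf u) {r s : Fin 7} (h : r ≠ s) :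
    relC (dirS (cnt 4 u) (cnt 8 u) r s) (u r) (u s) := by
  unfold dirS
  rcases lt_or_gt_of_ne h with h1 | h1
  · rw [if_pos (by exact_mod_cast h1)]
    exact relC_dirlt hu h1
  · rw [if_neg (by have : (s : ℕ) < r := by exact_mod_cast h1
                   omega)]
    exact relC_flip (relC_dirlt hu h1)

/-- The direction separating the moving square (slot `p`) from the slot `s`. -/
def dirP (l m p q s : ℕ) : Dir :=
  if p < l then
    (if s < p then Dir.R else if s < l then Dir.L else if m ≤ s then Dir.D else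
      if s ≤ q then Dir.L else Dir.R)
  else
    (if s < l then Dir.U else if s < p then Dir.L else if s < m then Dir.R else
      if s ≤ q then Dir.R else Dir.L)

theorem relC_up_cells {a b : ℕ} (ha : a < 8) (hb : b < 12) (h1 : a ≠ b) (h2 : upc a ≠ b) :
    (a < 4 → b < a → relC Dir.R a b ∧ relC Dir.R (upc a) b) ∧
    (a < 4 → a < b → b < 4 → relC Dir.L a b ∧ relC Dir.L (upc a) b) ∧
    (a < 4 → 8 ≤ b → relC Dir.D a b ∧ relC Dir.D (upc a) b) ∧
    (a < 4 → 4 ≤ b → b < 8 → b < upc a → relC Dir.L a b ∧ relC Dir.L (upc a) b) ∧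
    (a < 4 → 4 ≤ b → b < 8 → upc a < b → relC Dir.R a b ∧ relC Dir.R (upc a) b) ∧
    (4 ≤ a → b < 4 → relC Dir.U a b ∧ relC Dir.U (upc a) b) ∧
    (4 ≤ a → 4 ≤ b → b < a → relC Dir.L a b ∧ relC Dir.L (upc a) b) ∧
    (4 ≤ a → a < b → b < 8 → relC Dir.R a b ∧ relC Dir.R (upc a) b) ∧
    (4 ≤ a → 8 ≤ b → b < upc a → relC Dir.R a b ∧ relC Dir.R (upc a) b) ∧
    (4 ≤ a → 8 ≤ b → upc a < b → relC Dir.L a b ∧ relC Dir.L (upc a) b) := by
  simp only [relC, cX, cY, upc] at h2 ⊢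
  refine ⟨?_, ?_, ?_, ?_, ?_, ?_, ?_, ?_, ?_, ?_⟩ <;> intros <;> constructor <;>
    split_ifs at * <;> omega

theorem relC_dirP (hu : Cf u) (hp : Up u p) {s : Fin 7} (h : s ≠ p) :
    relC (dirP (cnt 4 u) (cnt 8 u) p (tq u p) s) (u p) (u s) ∧
      relC (dirP (cnt 4 u) (cnt 8 u) p (tq u p) s) (upc (u p)) (u s) := by
  have hne : u p ≠ u s := fun he => h (hu.mono.injective he).symm
  have hp4 := cnt_spec hu.mono 4 p
  have hs4 := cnt_spec hu.mono 4 s
  have hs8 := cnt_spec hu.mono 8 s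
  have hsp : u s < u p ↔ (s : ℕ) < p := by
    rw [hu.mono.lt_iff_lt]; exact Iff.rfl
  have hq : u s < upc (u p) ↔ (s : ℕ) ≤ tq u p := by
    rw [lt_up_iff hu hp s]; exact Iff.rfl
  have hf := hp.free s
  have f1 : ¬ ((p : ℕ) < cnt 4 u) → 4 ≤ u p := by omega
  have f2 : ¬ ((s : ℕ) < cnt 4 u) → 4 ≤ u s := by omega
  have f3 : ¬ ((s : ℕ) < cnt 8 u) → 8 ≤ u s := by omega
  have f4 : ¬ ((s : ℕ) < p) → u p < u s := by omega
  have f5 : ¬ ((s : ℕ) ≤ tq u p) → upc (u p) < u s := by omega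
  have f6 : cnt 8 u ≤ (s : ℕ) → 8 ≤ u s := by omega
  have f7 : ¬ (cnt 8 u ≤ (s : ℕ)) → u s < 8 := by omega
  obtain ⟨h1, h2, h3, h4, h5, h6, h7, h8, h9, h10⟩ := relC_up_cells hp.lt (hu.lt s) hne
    (hp.free s).symm
  unfold dirP
  by_cases c0 : (p : ℕ) < cnt 4 u
  · rw [if_pos c0]
    by_cases c1 : (s : ℕ) < p
    · rw [if_pos c1]; exact h1 (hp4.2 c0) (hsp.2 c1)
    · rw [if_neg c1]
      by_cases c2 : (s : ℕ) < cnt 4 u
      · rw [if_pos c2]; exact h2 (hp4.2 c0) (f4 c1) (hs4.2 c2)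
      · rw [if_neg c2]
        by_cases c3 : cnt 8 u ≤ (s : ℕ)
        · rw [if_pos c3]; exact h3 (hp4.2 c0) (f6 c3)
        · rw [if_neg c3]
          by_cases c4 : (s : ℕ) ≤ tq u p
          · rw [if_pos c4]; exact h4 (hp4.2 c0) (f2 c2) (f7 c3) (hq.2 c4)
          · rw [if_neg c4]; exact h5 (hp4.2 c0) (f2 c2) (f7 c3) (f5 c4)
  · rw [if_neg c0]
    by_cases c1 : (s : ℕ) < cnt 4 u
    · rw [if_pos c1]; exact h6 (f1 c0) (hs4.2 c1)
    · rw [if_neg c1]
      by_cases c2 : (s : ℕ) < p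
      · rw [if_pos c2]; exact h7 (f1 c0) (f2 c1) (hsp.2 c2)
      · rw [if_neg c2]
        by_cases c3 : (s : ℕ) < cnt 8 u
        · rw [if_pos c3]; exact h8 (f1 c0) (f4 c2) (hs8.2 c3)
        · rw [if_neg c3]
          by_cases c4 : (s : ℕ) ≤ tq u p
          · rw [if_pos c4]; exact h9 (f1 c0) (f3 c3) (hq.2 c4)
          · rw [if_neg c4]; exact h10 (f1 c0) (f3 c3) (f5 c4)

/-- The separating directions along a vertical move. -/
def dirT (l m p q r s : ℕ) : Dir :=
  if r = p then dirP l m p q s else if s = p then (dirP l m p q r).flip else dirS l m r s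

theorem relC_dirT (hu : Cf u) (hp : Up u p) {r s : Fin 7} (h : r ≠ s) :
    relC (dirT (cnt 4 u) (cnt 8 u) p (tq u p) r s) (u r) (u s) ∧
      relC (dirT (cnt 4 u) (cnt 8 u) p (tq u p) r s) (upd u p r) (upd u p s) := by
  unfold dirT upd
  by_cases hr : r = p
  · subst hr
    have hs : s ≠ r := h.symm
    rw [if_pos rfl, if_pos rfl, if_neg hs]
    exact relC_dirP hu hp hs
  · have hr' : (r : ℕ) ≠ p := fun he => hr (Fin.ext he)
    rw [if_neg hr', if_neg hr]
    by_cases hs : s = p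
    · subst hs
      rw [if_pos rfl, if_pos rfl]
      obtain ⟨h1, h2⟩ := relC_dirP hu hp hr
      exact ⟨relC_flip h1, relC_flip h2⟩
    · have hs' : (s : ℕ) ≠ p := fun he => hs (Fin.ext he)
      rw [if_neg hs', if_neg hs]
      exact ⟨relC_dirS hu h, relC_dirS hu h⟩

/-- Moving two squares up: a common separating direction. -/
theorem relC_two : ∀ a < 8, ∀ b < 8, a ≠ b → upc a ≠ b → upc b ≠ a →
    ∃ d : Dir, relC d a b ∧ relC d (upc a) b ∧ relC d a (upc b) ∧ relC d (upc a) (upc b) := by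
  have h : ((List.range 8).all fun a => (List.range 8).all fun b =>
    decide (a ≠ b → upc a ≠ b → upc b ≠ a →
      (relC Dir.L a b ∧ relC Dir.L (upc a) b ∧ relC Dir.L a (upc b) ∧ relC Dir.L (upc a) (upc b)) ∨
      (relC Dir.R a b ∧ relC Dir.R (upc a) b ∧ relC Dir.R a (upc b) ∧ relC Dir.R (upc a) (upc b)) ∨
      (relC Dir.D a b ∧ relC Dir.D (upc a) b ∧ relC Dir.D a (upc b) ∧ relC Dir.D (upc a) (upc b)) ∨
      (relC Dir.U a b ∧ relC Dir.U (upc a) b ∧ relC Dir.U a (upc b) ∧ relC Dir.U (upc a) (upc b))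
      )) = true := by
    decide +kernel
  intro a ha b hb h1 h2 h3
  rw [List.all_eq_true] at h
  have h4 := h a (List.mem_range.2 ha)
  rw [List.all_eq_true] at h4
  have h5 := h4 b (List.mem_range.2 hb)
  rw [decide_eq_true_eq] at h5
  rcases h5 h1 h2 h3 with h | h | h | h
  exacts [⟨_, h⟩, ⟨_, h⟩, ⟨_, h⟩, ⟨_, h⟩]

end HSq
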