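import Pool.Agent.HSq.XComb

/-!
# Seven squares in the 4 × 3 rectangle: the codes of vertical moves
-/

namespace HSq

variable {u : Fin 7 → ℕ} {p : Fin 7}

/-- Increasing extension to all natural numbers. -/
def extN (u : Fin 7 → ℕ) (k : ℕ) : ℕ := if h : k < 7 then u ⟨k, h⟩ else 12 + k

theorem extN_fin (u : Fin 7 → ℕ) (r : Fin 7) : extN u r = u r := by
  simp [extN]

theorem extN_mono (hu : Cf u) : StrictMono (extN u) := by
  refine strictMono_nat_of_lt_succ fun k => ?_
  unfold extN
  split_ifs with h1 h2 h2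
  · exact hu.mono (by simp [Fin.lt_def])
  · have := hu.lt ⟨k, h1⟩; omega
  · omega
  · omega

theorem extN_add (hu : Cf u) (a k : ℕ) : extN u a + k ≤ extN u (a + k) := by
  induction k with
  | zero => simp
  | succ k ih =>
    have := extN_mono hu (show a + k < a + (k + 1) by omega)
    omega

theorem extN_lt_iff (hu : Cf u) {x : ℕ} (hx : x ≤ 12) (k : ℕ) :
    extN u k < x ↔ k < cnt x u := by
  by_cases h : k < 7
  · have := cnt_spec hu.mono x ⟨k, h⟩
    simpa [extN, h] using this
  · have := cnt_le x u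
    simp only [extN, h, dite_false]
    omega

theorem valid_move (hu : Cf u) (hp : Up u p) :
    validC (cnt 4 u) (cnt 8 u) p (tq u p) = true := by
  set U := upc (u p) with hU
  set l := cnt 4 u with hl
  set m := cnt 8 u with hm
  set q := (tq u p : ℕ) with hq
  have hU12 := lt_upc hp.lt
  have e4 := extN_lt_iff hu (show 4 ≤ 12 by norm_num)
  have e8 := extN_lt_iff hu (show 8 ≤ 12 by norm_num)
  have eU := extN_lt_iff hu (show U ≤ 12 by omega)
  have hqU : q + 1 = cnt U u := tq_val hu hp
  have hpe := extN_fin u p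
  have hadd := extN_add hu
  have hfree : ∀ k, k < 7 → extN u k ≠ U := by
    intro k hk
    simp only [extN, hk, dite_true]
    exact hp.free _
  have h12 : ∀ k, k < 7 → extN u k < 12 := by
    intro k hk
    simp only [extN, hk, dite_true]
    exact hu.lt _
  have hp7 := p.2
  have hq7 : q < 7 := (tq u p).2
  have hm7 : m ≤ 7 := cnt_le 8 u
  have hUdef : U = if u p < 4 then 7 - u p else 15 - u p := rfl
  rw [← hl] at e4
  rw [← hm] at e8
  rw [← hqU] at eU
  -- elementary inequalities
  have a1 : l ≤ 4 := by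
    by_contra h
    have h1 := (e4 4).2 (by omega)
    have h2 := hadd 0 4
    simp only [zero_add] at h2
    omega
  have a2 : l ≤ m := by
    by_contra h
    have h1 := (e4 m).2 (by omega)
    have h2 := (e8 m).1 (by omega)
    omega
  have a3 : m ≤ l + 4 := by
    by_contra h
    have h1 := (e8 (l + 4)).2 (by omega)
    have h2 := hadd l 4
    have h3 := (e4 l).not.2 (by omega)
    omega
  have a4 : 3 ≤ m := by
    by_contra h
    have h1 := h12 (m + 4) (by omega)
    have h2 := hadd m 4
    have h3 := (e8 m).not.2 (by omega)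
    omega
  have hpU := (eU p).1 (by rw [hpe]; exact hU12.1)
  by_cases c : u p < 4
  · -- first row
    rw [if_pos c] at hUdef
    have b1 : (p : ℕ) < l := (e4 p).1 (by rw [hpe]; exact c)
    have b2 : l ≤ q + 1 := by
      have h1 := (e4 (l - 1)).2 (by omega)
      have h2 := (eU (l - 1)).1 (by omega)
      omega
    have b3 : q < m := by
      have h1 := (eU q).2 (by omega)
      exact (e8 q).1 (by omega)
    have b4 : m ≤ l + 3 := by
      by_contra h
      have h0 := (e4 l).not.2 (by omega)
      have h3 := (e8 (l + 3)).2 (by omega)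
      have h4 := hadd l 1
      have h5 := hadd (l + 1) 1
      have h6 := hadd (l + 2) 1
      have f0 := hfree l (by omega)
      have f1 := hfree (l + 1) (by omega)
      have f2 := hfree (l + 2) (by omega)
      have f3 := hfree (l + 3) (by omega)
      simp only [add_assoc, Nat.reduceAdd] at h4 h5 h6
      omega
    have b5 : (p : ℕ) + q ≤ l + 2 := by
      have h1 := hadd 0 p
      simp only [zero_add] at h1
      rw [hpe] at h1
      by_cases d : q + 1 = l
      · omega
      · have h2 := (e4 l).not.2 (by omega)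
        have h3 := hadd l (q - l)
        have h4 := (eU q).2 (by omega)
        rw [show l + (q - l) = q by omega] at h3
        omega
    have b6 : l + m ≤ p + q + 5 := by
      have h1 := hadd p (l - 1 - p)
      rw [show (p : ℕ) + (l - 1 - p) = l - 1 by omega, hpe] at h1
      have h2 := (e4 (l - 1)).2 (by omega)
      by_cases d : q + 1 = m
      · omega
      · have h3 := (eU (q + 1)).not.2 (by omega)
        have h4 := hfree (q + 1) (by omega)
        have h5 := hadd (q + 1) (m - 1 - (q + 1))
        rw [show q + 1 + (m - 1 - (q + 1)) = m - 1 by omega] at h5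
        have h6 := (e8 (m - 1)).2 (by omega)
        omega
    simp only [validC, Bool.and_eq_true, Bool.or_eq_true, Nat.ble_eq, Nat.blt_eq]
    omega
  · -- second row
    rw [if_neg c] at hUdef
    have hlt := hp.lt
    have b0 : l ≤ p := by
      have := (e4 p).not.1 (by rw [hpe]; exact c)
      omega
    have b1 : (p : ℕ) < m := (e8 p).1 (by rw [hpe]; exact hlt)
    have b2 : m ≤ q + 1 := by
      have h1 := (e8 (m - 1)).2 (by omega)
      have h2 := (eU (m - 1)).1 (by omega)
      omega
    have b3 : 4 ≤ m := by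
      by_contra h
      have hm3 : m = 3 := by omega
      have h0 := (e8 m).not.2 (by omega)
      have h4 := hadd m 1
      have h5 := hadd (m + 1) 1
      have h6 := hadd (m + 2) 1
      have h7 := h12 (m + 3) (by omega)
      have f0 := hfree m (by omega)
      have f1 := hfree (m + 1) (by omega)
      have f2 := hfree (m + 2) (by omega)
      have f3 := hfree (m + 3) (by omega)
      simp only [add_assoc, Nat.reduceAdd] at h4 h5 h6
      omega
    have b4 : m + 2 ≤ p + q := by
      have h1 := hadd p (m - 1 - p)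
      rw [show (p : ℕ) + (m - 1 - p) = m - 1 by omega, hpe] at h1
      have h2 := (e8 (m - 1)).2 (by omega)
      by_cases d : q = 6
      · omega
      · have h3 := (eU (q + 1)).not.2 (by omega)
        have h4 := hfree (q + 1) (by omega)
        have h5 := hadd (q + 1) (6 - (q + 1))
        rw [show q + 1 + (6 - (q + 1)) = 6 by omega] at h5
        have h6 := h12 6 (by omega)
        omega
    have b5 : (p : ℕ) + q ≤ l + m + 2 := by
      have h1 := hadd l (p - l)
      rw [show l + (p - l) = (p : ℕ) by omega, hpe] at h1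
      have h2 := (e4 l).not.2 (by omega)
      by_cases d : q + 1 = m
      · omega
      · have h3 := (e8 m).not.2 (by omega)
        have h4 := hadd m (q - m)
        rw [show m + (q - m) = q by omega] at h4
        have h5 := (eU q).2 (by omega)
        omega
    simp only [validC, Bool.and_eq_true, Bool.or_eq_true, Nat.ble_eq, Nat.blt_eq]
    omega

/-- The state after the move. -/
def tgS (l m p : ℕ) : ℕ × ℕ := if p < l then (l - 1, m) else (l, m - 1)

theorem cnt_eq_of {v : Fin 7 → ℕ} (hv : StrictMono v) {x c : ℕ} (hc : c ≤ 7)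
    (h : ∀ r : Fin 7, v r < x ↔ (r : ℕ) < c) : cnt x v = c := by
  have h1 := cnt_spec hv x
  have h2 := cnt_le x v
  by_contra hne
  rcases lt_or_gt_of_ne hne with h3 | h3
  · have := (h ⟨cnt x v, by omega⟩).2 h3
    have := (h1 ⟨cnt x v, by omega⟩).1 this
    simp at this
  · have := (h1 ⟨c, by omega⟩).2 h3
    have := (h ⟨c, by omega⟩).1 this
    simp at this

theorem cycF_val : ∀ p q r : Fin 7, p ≤ q → ((r : ℕ) = q → cycF p q r = p) ∧
    ((p : ℕ) ≤ r → (r : ℕ) < q → (cycF p q r : ℕ) = r + 1 ∧ cycF p q r ≠ p) ∧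
    ((r : ℕ) < p → (cycF p q r : ℕ) = r ∧ cycF p q r ≠ p) ∧
    ((q : ℕ) < r → (cycF p q r : ℕ) = r ∧ cycF p q r ≠ p) := by
  decide +kernel

theorem state_mv (hu : Cf u) (hp : Up u p) :
    (cnt 4 (mv u p), cnt 8 (mv u p)) = tgS (cnt 4 u) (cnt 8 u) p := by
  have hv := mv_cf hu hp
  have hval := valid_move hu hp
  simp only [validC, Bool.and_eq_true, Bool.or_eq_true, Nat.ble_eq, Nat.blt_eq] at hval
  have s4 := cnt_spec hu.mono 4
  have s8 := cnt_spec hu.mono 8
  have hpq := le_tq hu hp
  have hU12 := lt_upc hp.lt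
  have hUdef : upc (u p) = if u p < 4 then 7 - u p else 15 - u p := rfl
  have hp4 := s4 p
  have hp8 := s8 p
  have hlt := hp.lt
  have key : ∀ r : Fin 7, ((r : ℕ) = tq u p ∧ mv u p r = upc (u p)) ∨
      ((p : ℕ) ≤ r ∧ (r : ℕ) < tq u p ∧ (mv u p r < 4 ↔ (r : ℕ) + 1 < cnt 4 u) ∧
        (mv u p r < 8 ↔ (r : ℕ) + 1 < cnt 8 u)) ∨
      (((r : ℕ) < p ∨ (tq u p : ℕ) < r) ∧ (mv u p r < 4 ↔ (r : ℕ) < cnt 4 u) ∧
        (mv u p r < 8 ↔ (r : ℕ) < cnt 8 u)) := by
    intro r
    obtain ⟨c1, c2, c3, c4⟩ := cycF_val p (tq u p) r hpq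
    have h4 := s4 (cycF p (tq u p) r)
    have h8 := s8 (cycF p (tq u p) r)
    unfold mv upd
    rcases lt_trichotomy (r : ℕ) (tq u p) with h | h | h
    · by_cases h' : (p : ℕ) ≤ r
      · obtain ⟨d1, d2⟩ := c2 h' h
        right; left
        rw [if_neg d2]
        rw [d1] at h4 h8
        exact ⟨h', h, h4, h8⟩
      · obtain ⟨d1, d2⟩ := c3 (by omega)
        right; right
        rw [if_neg d2]
        rw [d1] at h4 h8
        exact ⟨Or.inl (by omega), h4, h8⟩
    · left
      rw [if_pos (c1 h)]
      exact ⟨h, rfl⟩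
    · obtain ⟨d1, d2⟩ := c4 h
      right; right
      rw [if_neg d2]
      rw [d1] at h4 h8
      exact ⟨Or.inr h, h4, h8⟩
  unfold tgS
  by_cases c : (p : ℕ) < cnt 4 u
  · rw [if_pos c]
    have c' := hp4.2 c
    rw [if_pos c'] at hUdef
    refine Prod.ext ?_ ?_
    · refine cnt_eq_of hv.mono (by have := cnt_le 4 u; omega) fun r => ?_
      rcases key r with ⟨k1, k2⟩ | ⟨k1, k2, k3, k4⟩ | ⟨k1, k3, k4⟩
      · rw [k2]; simp only; omega
      · rw [k3]; simp only; omega
      · rw [k3]; simp only; omega
    · refine cnt_eq_of hv.mono (cnt_le 8 u) fun r => ?_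
      rcases key r with ⟨k1, k2⟩ | ⟨k1, k2, k3, k4⟩ | ⟨k1, k3, k4⟩
      · rw [k2]; simp only; omega
      · rw [k4]; simp only; omega
      · rw [k4]
  · rw [if_neg c]
    have c' : ¬ (u p < 4) := fun h => c (hp4.1 h)
    rw [if_neg c'] at hUdef
    refine Prod.ext ?_ ?_
    · refine cnt_eq_of hv.mono (cnt_le 4 u) fun r => ?_
      rcases key r with ⟨k1, k2⟩ | ⟨k1, k2, k3, k4⟩ | ⟨k1, k3, k4⟩
      · rw [k2]; simp only; omega
      · rw [k3]; simp only; omega
      · rw [k3]
    · refine cnt_eq_of hv.mono (by have := cnt_le 8 u; omega) fun r => ?_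
      rcases key r with ⟨k1, k2⟩ | ⟨k1, k2, k3, k4⟩ | ⟨k1, k3, k4⟩
      · rw [k2]; simp only; omega
      · rw [k4]; simp only; omega
      · rw [k4]; simp only; omega

end HSq
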