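import Pool.Agent.HSq.XDir
import Pool.Agent.HSq.XValid

/-!
# Seven squares in the 4 × 3 rectangle: classes of moves
-/

namespace HSq

open Equiv

/-- The class of the straight segment between two integer configurations. -/
noncomputable def SS (c c' : Fin 7 → ℤ × ℤ) : Q (hardSquares 7 4 3) :=
  sg (hardSquares 7 4 3) (emb c) (emb c')

/-- All pairs of slots are separated as prescribed by `D`. -/
structure Sp (D : Fin 7 → Fin 7 → Dir) (u : Fin 7 → ℕ) : Prop where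
  lt : ∀ r, u r < 12
  rel : ∀ r s, r ≠ s → relC (D r s) (u r) (u s)

variable {D : Fin 7 → Fin 7 → Dir} {u v x : Fin 7 → ℕ} {p : Fin 7} {w : Perm (Fin 7)}

theorem cell_bound : ∀ a < 12, 1 ≤ cX a ∧ cX a ≤ 4 ∧ 1 ≤ cY a ∧ cY a ≤ 3 := by decide +kernel

theorem mem_cell (h : Sp D u) (w : Perm (Fin 7)) :
    emb (lab u w) ∈ cell 7 4 3 (fun k l => D (w⁻¹ k) (w⁻¹ l)) := by
  refine ⟨fun k => ?_, fun k l hkl => ?_⟩
  · have := cell_bound _ (h.lt (w⁻¹ k))
    simp only [emb, lab, Set.mem_Icc]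
    norm_cast
    omega
  · have h1 := h.rel (w⁻¹ k) (w⁻¹ l) (fun he => hkl (w⁻¹.injective he))
    show (D (w⁻¹ k) (w⁻¹ l)).rel _ _
    revert h1
    generalize D (w⁻¹ k) (w⁻¹ l) = d
    cases d <;> simp only [relC, Dir.rel, emb, lab] <;> intro h1 <;> exact_mod_cast h1

theorem SS_add (hu : Sp D u) (hv : Sp D v) (hx : Sp D x) (w : Perm (Fin 7)) :
    SS (lab u w) (lab v w) + SS (lab v w) (lab x w) = SS (lab u w) (lab x w) :=
  sg_add (convex_cell _ _ _ _) (cell_subset _ _ _ _) (mem_cell hu w) (mem_cell hv w)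
    (mem_cell hx w)

theorem SS_swap (hu : Sp D u) (hv : Sp D v) (w : Perm (Fin 7)) :
    SS (lab v w) (lab u w) = - SS (lab u w) (lab v w) :=
  sg_swap (convex_cell _ _ _ _) (cell_subset _ _ _ _) (mem_cell hu w) (mem_cell hv w)

theorem seg_sub (hu : Sp D u) (hv : Sp D v) (w : Perm (Fin 7)) :
    segment ℝ (emb (lab u w)) (emb (lab v w)) ⊆ hardSquares 7 4 3 :=
  ((convex_cell _ _ _ _).segment_subset (mem_cell hu w) (mem_cell hv w)).trans
    (cell_subset _ _ _ _)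

theorem lab_mem_hs (hu : Sp D u) (w : Perm (Fin 7)) : emb (lab u w) ∈ hardSquares 7 4 3 :=
  cell_subset _ _ _ _ (mem_cell hu w)

/-- The state of a configuration. -/
def st (u : Fin 7 → ℕ) : ℕ × ℕ := (cnt 4 u, cnt 8 u)

/-- The directions of a state. -/
def DS (s : ℕ × ℕ) (r s' : Fin 7) : Dir := dirS s.1 s.2 r s'

theorem sp_st (hu : Cf u) : Sp (DS (st u)) u := ⟨hu.lt, fun _ _ h => relC_dirS hu h⟩

open Classical in
/-- A canonical configuration in each state. -/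
noncomputable def canS (s : ℕ × ℕ) : Fin 7 → ℕ :=
  if h : ∃ u, Cf u ∧ st u = s then h.choose else 0

theorem canS_spec (hu : Cf u) : Cf (canS (st u)) ∧ st (canS (st u)) = st u := by
  have h : ∃ v, Cf v ∧ st v = st u := ⟨u, hu, rfl⟩
  unfold canS
  rw [dif_pos h]
  exact h.choose_spec

theorem sp_can (hu : Cf u) : Sp (DS (st u)) (canS (st u)) := by
  have h := canS_spec hu
  have := sp_st h.1
  rwa [h.2] at this

/-- From the canonical configuration to `u`. -/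
noncomputable def G0 (u : Fin 7 → ℕ) (w : Perm (Fin 7)) : Q (hardSquares 7 4 3) :=
  SS (lab (canS (st u)) w) (lab u w)

theorem G0_add (hu : Cf u) (hv : Cf v) (h : st u = st v) (w : Perm (Fin 7)) :
    G0 u w + SS (lab u w) (lab v w) = G0 v w := by
  unfold G0
  rw [← h]
  have h1 := sp_st hv
  rw [← h] at h1
  exact SS_add (sp_can hu) (sp_st hu) h1 w

/-- The value of a vertical move, in the gauge of the canonical configurations. -/
noncomputable def ev (u : Fin 7 → ℕ) (p : Fin 7) (w : Perm (Fin 7)) : Q (hardSquares 7 4 3) :=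
  G0 u w + SS (lab u w) (lab (upd u p) w) - G0 (mv u p) (w * cyc p (tq u p))

/-- The directions along a vertical move. -/
def DT (s : ℕ × ℕ) (p q r s' : Fin 7) : Dir := dirT s.1 s.2 p q r s'

theorem sp_DT (hu : Cf u) (hp : Up u p) : Sp (DT (st u) p (tq u p)) u :=
  ⟨hu.lt, fun _ _ h => (relC_dirT hu hp h).1⟩

theorem sp_DT_upd (hu : Cf u) (hp : Up u p) : Sp (DT (st u) p (tq u p)) (upd u p) :=
  ⟨upd_lt hu hp, fun _ _ h => (relC_dirT hu hp h).2⟩

theorem ev_eq (hu : Cf u) (hv : Cf v) (hpu : Up u p) (hpv : Up v p) (h : st u = st v)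
    (hq : tq u p = tq v p) (w : Perm (Fin 7)) : ev u p w = ev v p w := by
  have a1 := sp_DT hu hpu
  have a2 := sp_DT_upd hu hpu
  have b1 := sp_DT hv hpv
  have b2 := sp_DT_upd hv hpv
  rw [← h, ← hq] at b1 b2
  have h1 := SS_add a1 a2 b2 w
  have h2 := SS_add a1 b1 b2 w
  have h3 := G0_add hu hv h w
  have h4 : st (mv u p) = st (mv v p) := by
    have e1 := state_mv hu hpu
    have e2 := state_mv hv hpv
    unfold st at h ⊢
    rw [e1, e2, (Prod.mk.injEq _ _ _ _).mp h |>.1, (Prod.mk.injEq _ _ _ _).mp h |>.2]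
  have h5 := G0_add (mv_cf hu hpu) (mv_cf hv hpv) h4 (w * cyc p (tq u p))
  have h6 : lab (mv v p) (w * cyc p (tq u p)) = lab (upd v p) w := by rw [hq, lab_mv]
  rw [lab_mv, h6] at h5
  unfold ev
  rw [← hq, ← h5, ← h3]
  have h7 : SS (lab u w) (lab (upd u p) w) + SS (lab (upd u p) w) (lab (upd v p) w) =
    SS (lab u w) (lab v w) + SS (lab v w) (lab (upd v p) w) := h1.trans h2.symm
  have h8 : SS (lab u w) (lab (upd u p) w) = SS (lab u w) (lab v w) +
    SS (lab v w) (lab (upd v p) w) - SS (lab (upd u p) w) (lab (upd v p) w) := by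
    rw [← h7]; abel
  rw [h8]
  abel

/-- The code of a vertical move. -/
def cd (u : Fin 7 → ℕ) (p : Fin 7) : ℕ := codeOf (cnt 4 u) (cnt 8 u) p (tq u p)

theorem cd_mem (hu : Cf u) (hp : Up u p) : cd u p ∈ codes := valid_codes (valid_move hu hp)

theorem cd_parts (hu : Cf u) (hp : Up u p) : cd u p / 512 = cnt 4 u ∧
    cd u p / 64 % 8 = cnt 8 u ∧ cd u p / 8 % 8 = p ∧ cd u p % 8 = tq u p := by
  have h := valid_move hu hp
  simp only [validC, Bool.and_eq_true, Bool.or_eq_true, Nat.ble_eq, Nat.blt_eq] at h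
  have h1 := p.2
  have h2 := (tq u p).2
  have h3 := cnt_le 8 u
  unfold cd codeOf
  omega

open Classical in
/-- The value of a type of vertical moves. -/
noncomputable def val (c : ℕ) (w : Perm (Fin 7)) : Q (hardSquares 7 4 3) :=
  if h : ∃ up : (Fin 7 → ℕ) × Fin 7, Cf up.1 ∧ Up up.1 up.2 ∧ cd up.1 up.2 = c then
    ev h.choose.1 h.choose.2 w
  else 0

theorem val_cd (hu : Cf u) (hp : Up u p) (w : Perm (Fin 7)) : val (cd u p) w = ev u p w := by
  have h : ∃ up : (Fin 7 → ℕ) × Fin 7, Cf up.1 ∧ Up up.1 up.2 ∧ cd up.1 up.2 = cd u p :=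
    ⟨(u, p), hu, hp, rfl⟩
  unfold val
  rw [dif_pos h]
  obtain ⟨h1, h2, h3⟩ := h.choose_spec
  have a := cd_parts hu hp
  have b := cd_parts h1 h2
  rw [h3] at b
  have hpp : h.choose.2 = p := Fin.ext (b.2.2.1.symm.trans a.2.2.1)
  rw [hpp] at h2 b ⊢
  refine ev_eq h1 hu h2 hp (Prod.ext (b.1.symm.trans a.1) (b.2.1.symm.trans a.2.1)) ?_ w
  exact Fin.ext (b.2.2.2.symm.trans a.2.2.2)

/-- Two squares moved up. -/
def upd2 (u : Fin 7 → ℕ) (p₁ p₂ : Fin 7) : Fin 7 → ℕ :=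
  fun r => if r = p₁ then upc (u p₁) else if r = p₂ then upc (u p₂) else u r

theorem upd2_comm {p₁ p₂ : Fin 7} (h : p₁ ≠ p₂) : upd2 u p₁ p₂ = upd2 u p₂ p₁ := by
  funext r
  unfold upd2
  split_ifs with h1 h2 h2 <;> first | rfl | (exact (h (h1.symm.trans h2)).elim)

theorem upc_inj {a b : ℕ} (ha : a < 8) (hb : b < 8) (h : upc a = upc b) : a = b := by
  unfold upc at h
  split_ifs at h <;> omega

theorem mv_cycB (hu : Cf u) (hp : Up u p) (r : Fin 7) :
    mv u p (cycB p (tq u p) r) = upd u p r := by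
  unfold mv
  congr 1
  exact (cyc p (tq u p)).apply_symm_apply r

theorem up_mv (hu : Cf u) {p₁ p₂ : Fin 7} (h1 : Up u p₁) (h2 : Up u p₂) (hne : p₁ ≠ p₂) :
    Up (mv u p₁) (cycB p₁ (tq u p₁) p₂) := by
  have e : mv u p₁ (cycB p₁ (tq u p₁) p₂) = u p₂ := by
    rw [mv_cycB hu h1]; unfold upd; rw [if_neg hne.symm]
  refine ⟨by rw [e]; exact h2.lt, fun r => ?_⟩
  rw [e]
  unfold mv upd
  split_ifs
  · intro he
    exact hne (hu.mono.injective (upc_inj h1.lt h2.lt he))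
  · exact h2.free _

theorem lab_upd_mv (hu : Cf u) {p₁ p₂ : Fin 7} (h1 : Up u p₁) (hne : p₁ ≠ p₂)
    (w : Perm (Fin 7)) :
    lab (upd (mv u p₁) (cycB p₁ (tq u p₁) p₂)) (w * cyc p₁ (tq u p₁)) = lab (upd2 u p₁ p₂) w := by
  funext k
  have h : (w * cyc p₁ (tq u p₁))⁻¹ k = cycB p₁ (tq u p₁) (w⁻¹ k) := by
    rw [mul_inv_rev, Perm.mul_apply]
    rfl
  have h3 : upd (mv u p₁) (cycB p₁ (tq u p₁) p₂) (cycB p₁ (tq u p₁) (w⁻¹ k)) =
      upd2 u p₁ p₂ (w⁻¹ k) := by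
    unfold upd
    by_cases hk : w⁻¹ k = p₂
    · rw [hk, if_pos rfl, mv_cycB hu h1]
      unfold upd2 upd
      rw [if_neg hne.symm, if_neg hne.symm, if_pos rfl]
    · have : cycB p₁ (tq u p₁) (w⁻¹ k) ≠ cycB p₁ (tq u p₁) p₂ := by
        intro he
        exact hk ((cyc p₁ (tq u p₁)).symm.injective he)
      rw [if_neg this, mv_cycB hu h1]
      unfold upd2 upd
      split_ifs <;> rfl
  unfold lab
  rw [h, h3]

/-- Directions for the simultaneous moves of two squares. -/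
theorem exists_sp2 (hu : Cf u) {p₁ p₂ : Fin 7} (h1 : Up u p₁) (h2 : Up u p₂) (hne : p₁ ≠ p₂) :
    ∃ D, Sp D u ∧ Sp D (upd u p₁) ∧ Sp D (upd u p₂) ∧ Sp D (upd2 u p₁ p₂) := by
  have hd : ∀ r s : Fin 7, ∃ d : Dir, r ≠ s → relC d (u r) (u s) ∧
      relC d (upd u p₁ r) (upd u p₁ s) ∧ relC d (upd u p₂ r) (upd u p₂ s) ∧
      relC d (upd2 u p₁ p₂ r) (upd2 u p₁ p₂ s) := by
    intro r s
    by_cases hrs : r = s
    · exact ⟨Dir.L, fun h => (h hrs).elim⟩
    have key : ∀ r s : Fin 7, r ≠ s → r = p₁ → s = p₂ → ∃ d : Dir, relC d (u r) (u s) ∧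
        relC d (upd u p₁ r) (upd u p₁ s) ∧ relC d (upd u p₂ r) (upd u p₂ s) ∧
        relC d (upd2 u p₁ p₂ r) (upd2 u p₁ p₂ s) := by
      rintro r s hrs rfl rfl
      obtain ⟨d, d1, d2, d3, d4⟩ := relC_two _ h1.lt _ h2.lt
        (fun he => hrs (hu.mono.injective he)) (h1.free s).symm (h2.free r).symm
      refine ⟨d, d1, ?_, ?_, ?_⟩
      · unfold upd; rw [if_pos rfl, if_neg hne.symm]; exact d2
      · unfold upd; rw [if_neg hne, if_pos rfl]; exact d3
      · unfold upd2; rw [if_pos rfl, if_neg hne.symm, if_pos rfl]; exact d4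
    by_cases a : r = p₁
    · by_cases b : s = p₂
      · obtain ⟨d, hd⟩ := key r s hrs a b
        exact ⟨d, fun _ => hd⟩
      · -- `r = p₁`, `s` fixed
        have hs : s ≠ p₁ := fun h => hrs (a.trans h.symm)
        obtain ⟨e1, e2⟩ := relC_dirT hu h1 hrs
        refine ⟨_, fun _ => ⟨e1, e2, ?_, ?_⟩⟩
        · have : r ≠ p₂ := fun h => hne (a.symm.trans h)
          unfold upd; rw [if_neg this, if_neg b]; exact e1
        · have : upd2 u p₁ p₂ r = upd u p₁ r := by unfold upd2 upd; rw [if_pos a, if_pos a]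
          have h' : upd2 u p₁ p₂ s = upd u p₁ s := by
            unfold upd2 upd; rw [if_neg hs, if_neg b, if_neg hs]
          rw [this, h']; exact e2
    · by_cases b : s = p₁
      · by_cases c : r = p₂
        · obtain ⟨d, e1, e2, e3, e4⟩ := key s r (Ne.symm hrs) b c
          exact ⟨d.flip, fun _ => ⟨relC_flip e1, relC_flip e2, relC_flip e3, relC_flip e4⟩⟩
        · obtain ⟨e1, e2⟩ := relC_dirT hu h1 hrs
          refine ⟨_, fun _ => ⟨e1, e2, ?_, ?_⟩⟩
          · have : s ≠ p₂ := fun h => hne (b.symm.trans h)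
            unfold upd; rw [if_neg this, if_neg c]; exact e1
          · have : upd2 u p₁ p₂ s = upd u p₁ s := by unfold upd2 upd; rw [if_pos b, if_pos b]
            have h' : upd2 u p₁ p₂ r = upd u p₁ r := by
              unfold upd2 upd; rw [if_neg a, if_neg c, if_neg a]
            rw [this, h']; exact e2
      · -- neither is `p₁`
        obtain ⟨e1, e2⟩ := relC_dirT hu h2 hrs
        refine ⟨_, fun _ => ⟨e1, ?_, e2, ?_⟩⟩
        · unfold upd; rw [if_neg a, if_neg b]; exact e1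
        · have : upd2 u p₁ p₂ s = upd u p₂ s := by unfold upd2 upd; rw [if_neg b]
          have h' : upd2 u p₁ p₂ r = upd u p₂ r := by unfold upd2 upd; rw [if_neg a]
          rw [this, h']; exact e2
  choose D hD using hd
  have hlt2 : ∀ r, upd2 u p₁ p₂ r < 12 := by
    intro r
    unfold upd2
    split_ifs
    exacts [(lt_upc h1.lt).2, (lt_upc h2.lt).2, hu.lt r]
  exact ⟨D, ⟨hu.lt, fun r s h => (hD r s h).1⟩, ⟨upd_lt hu h1, fun r s h => (hD r s h).2.1⟩,
    ⟨upd_lt hu h2, fun r s h => (hD r s h).2.2.1⟩, ⟨hlt2, fun r s h => (hD r s h).2.2.2⟩⟩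

/-- **Square relations.** -/
theorem square (hu : Cf u) {p₁ p₂ : Fin 7} (h1 : Up u p₁) (h2 : Up u p₂) (hne : p₁ ≠ p₂)
    (w : Perm (Fin 7)) :
    val (cd u p₁) w + val (cd (mv u p₁) (cycB p₁ (tq u p₁) p₂)) (w * cyc p₁ (tq u p₁)) =
      val (cd u p₂) w + val (cd (mv u p₂) (cycB p₂ (tq u p₂) p₁)) (w * cyc p₂ (tq u p₂)) ∧
    w * cyc p₁ (tq u p₁) * cyc (cycB p₁ (tq u p₁) p₂) (tq (mv u p₁) (cycB p₁ (tq u p₁) p₂)) =
      w * cyc p₂ (tq u p₂) *
        cyc (cycB p₂ (tq u p₂) p₁) (tq (mv u p₂) (cycB p₂ (tq u p₂) p₁)) := by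
  have k1 := up_mv hu h1 h2 hne
  have k2 := up_mv hu h2 h1 hne.symm
  have m1 := mv_cf hu h1
  have m2 := mv_cf hu h2
  have l1 := lab_upd_mv hu h1 hne w
  have l2 := lab_upd_mv hu h2 hne.symm w
  rw [← upd2_comm hne] at l2
  have l3 := lab_mv (mv u p₁) (cycB p₁ (tq u p₁) p₂) (w * cyc p₁ (tq u p₁))
  have l4 := lab_mv (mv u p₂) (cycB p₂ (tq u p₂) p₁) (w * cyc p₂ (tq u p₂))
  rw [l1] at l3
  rw [l2] at l4
  obtain ⟨i1, i2⟩ := lab_inj (mv_cf m1 k1) (mv_cf m2 k2) (l3.trans l4.symm)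
  refine ⟨?_, i2⟩
  rw [val_cd hu h1, val_cd hu h2, val_cd m1 k1, val_cd m2 k2]
  unfold ev
  rw [i1, i2, l1, l2, lab_mv, lab_mv]
  obtain ⟨D, d1, d2, d3, d4⟩ := exists_sp2 hu h1 h2 hne
  have e : SS (lab u w) (lab (upd u p₁) w) + SS (lab (upd u p₁) w) (lab (upd2 u p₁ p₂) w) =
      SS (lab u w) (lab (upd u p₂) w) + SS (lab (upd u p₂) w) (lab (upd2 u p₁ p₂) w) :=
    (SS_add d1 d2 d4 w).trans (SS_add d1 d3 d4 w).symm
  have e2 : SS (lab u w) (lab (upd u p₁) w) = SS (lab u w) (lab (upd u p₂) w) +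
    SS (lab (upd u p₂) w) (lab (upd2 u p₁ p₂) w) -
      SS (lab (upd u p₁) w) (lab (upd2 u p₁ p₂) w) := by rw [← e]; abel
  rw [e2]
  abel

end HSq
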