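import Pool.Agent.HSq.Cert
import Pool.Agent.HSq.XCheck
import Pool.Agent.HSq.XMoves

/-!
# Seven squares in the 4 × 3 rectangle: the group of labelled moves
-/

namespace HSq

open Equiv

/-- The group (with path-ordered multiplication) in which the moves live. -/
abbrev PE (B : Type*) := (Perm (B × Perm (Fin 7)))ᵐᵒᵖ

variable {B : Type*} [AddCommGroup B]

/-- The permutation `(b, w) ↦ (b + f w, w π)`. -/
def actE (f : Perm (Fin 7) → B) (π : Perm (Fin 7)) : Perm (B × Perm (Fin 7)) where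
  toFun x := (x.1 + f x.2, x.2 * π)
  invFun x := (x.1 - f (x.2 * π⁻¹), x.2 * π⁻¹)
  left_inv x := by simp [mul_assoc]
  right_inv x := by simp [mul_assoc]

/-- The corresponding element of `PE`. -/
def act (f : Perm (Fin 7) → B) (π : Perm (Fin 7)) : PE B := MulOpposite.op (actE f π)

theorem act_inj {f g : Perm (Fin 7) → B} {π ρ : Perm (Fin 7)} (h : act f π = act g ρ) :
    f = g ∧ π = ρ := by
  have h1 : ∀ x, actE f π x = actE g ρ x := fun x =>
    congrArg (fun e : PE B => MulOpposite.unop e x) h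
  refine ⟨funext fun w => ?_, ?_⟩
  · have := congrArg Prod.fst (h1 (0, w))
    simpa [actE] using this
  · have := congrArg Prod.snd (h1 (0, 1))
    simpa [actE] using this

theorem act_mul (f g : Perm (Fin 7) → B) (π ρ : Perm (Fin 7)) :
    act f π * act g ρ = act (fun w => f w + g (w * π)) (π * ρ) := by
  apply MulOpposite.unop_injective
  ext x : 1
  simp [act, actE, Perm.mul_apply, add_assoc, mul_assoc]

theorem act_one : act (0 : Perm (Fin 7) → B) 1 = 1 := by
  apply MulOpposite.unop_injective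
  ext x : 1
  simp [act, actE]

theorem act_inv (f : Perm (Fin 7) → B) (π : Perm (Fin 7)) :
    (act f π)⁻¹ = act (fun w => - f (w * π⁻¹)) π⁻¹ := by
  rw [inv_eq_iff_mul_eq_one, act_mul, ← act_one]
  congr 1
  · funext w; simp [mul_assoc]
  · simp

/-- The slots permutation of a code. -/
def cycC (c : ℕ) : Perm (Fin 7) := cyc (Fin.ofNat 7 (c / 8 % 8)) (Fin.ofNat 7 (c % 8))

/-- The element of the type `c` of vertical moves. -/
noncomputable def tau (c : ℕ) : PE (Q (hardSquares 7 4 3)) := act (val c) (cycC c)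

variable {u : Fin 7 → ℕ} {p : Fin 7}

theorem cycC_cd (hu : Cf u) (hp : Up u p) : cycC (cd u p) = cyc p (tq u p) := by
  obtain ⟨-, -, h3, h4⟩ := cd_parts hu hp
  unfold cycC
  rw [h3, h4]
  congr 1
  · exact Fin.ofNat_val_eq_self p
  · exact Fin.ofNat_val_eq_self _

theorem tau_square (hu : Cf u) {p₁ p₂ : Fin 7} (h1 : Up u p₁) (h2 : Up u p₂) (hne : p₁ ≠ p₂) :
    tau (cd u p₁) * tau (cd (mv u p₁) (cycB p₁ (tq u p₁) p₂)) =
      tau (cd u p₂) * tau (cd (mv u p₂) (cycB p₂ (tq u p₂) p₁)) := by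
  have k1 := up_mv hu h1 h2 hne
  have k2 := up_mv hu h2 h1 hne.symm
  have m1 := mv_cf hu h1
  have m2 := mv_cf hu h2
  unfold tau
  rw [act_mul, act_mul, cycC_cd hu h1, cycC_cd hu h2, cycC_cd m1 k1, cycC_cd m2 k2]
  congr 1
  · funext w; exact (square hu h1 h2 hne w).1
  · have := (square hu h1 h2 hne 1).2
    simpa using this

theorem tau_sq {s : ℕ × ℕ × ℕ × ℕ} (hs : s ∈ sqL) :
    tau s.1 * tau s.2.1 = tau s.2.2.1 * tau s.2.2.2 := by
  rw [wit_sq, List.mem_map] at hs
  obtain ⟨x, hx, rfl⟩ := hs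
  have h := List.all_eq_true.1 wit_ok x hx
  simp only [witOK, Bool.and_eq_true, Nat.beq_eq, Bool.not_eq_true'] at h
  obtain ⟨⟨⟨⟨⟨⟨⟨h1, h2⟩, h3⟩, h4⟩, h5⟩, h6⟩, h7⟩, h8⟩ := h
  have hne : (Fin.ofNat 7 x.2.2.1 : Fin 7) ≠ Fin.ofNat 7 x.2.2.2 := by
    intro he
    rw [he] at h4
    rw [Nat.beq_refl] at h4
    exact Bool.noConfusion h4
  have := tau_square (cfB_cf h1) (upB_up h2) (upB_up h3) hne
  rw [← h5, ← h6, ← h7, ← h8]
  exact this

/-- The gauge of a state. -/
noncomputable def gam (s : ℕ × ℕ) : PE (Q (hardSquares 7 4 3)) := wval tau (gw s)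

/-- The gauge-fixed element of a type. -/
noncomputable def tt (c : ℕ) : PE (Q (hardSquares 7 4 3)) :=
  gam (srcC c) * tau c * (gam (tgtC c))⁻¹

theorem tt_tree : ∀ a ∈ treeL, tt a = 1 := by
  intro a ha
  have e : (2 * a) % 2 = 0 := by omega
  have e' : (2 * a) / 2 = a := by omega
  have o : (2 * a + 1) % 2 = 1 := by omega
  have o' : (2 * a + 1) / 2 = a := by omega
  unfold tt gam
  rcases tree_ok a ha with h | h
  · rw [h]
    simp only [wval, List.map_append, List.map_cons, List.map_nil, List.prod_append,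
      List.prod_singleton, lval, e, e', if_true]
    simp
  · rw [h]
    simp only [wval, List.map_append, List.map_cons, List.map_nil, List.prod_append,
      List.prod_singleton, lval, o, o']
    simp

theorem tt_sq : ∀ s ∈ sqL, tt s.1 * tt s.2.1 = tt s.2.2.1 * tt s.2.2.2 := by
  intro s hs
  obtain ⟨h1, h2, h3, h4⟩ := sq_states s hs
  have h := tau_sq hs
  unfold tt
  rw [← h1, ← h2, ← h3, ← h4]
  calc gam (srcC s.1) * tau s.1 * (gam (tgtC s.1))⁻¹ *
        (gam (tgtC s.1) * tau s.2.1 * (gam (tgtC s.2.1))⁻¹)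
      = gam (srcC s.1) * (tau s.1 * tau s.2.1) * (gam (tgtC s.2.1))⁻¹ := by group
    _ = gam (srcC s.1) * (tau s.2.2.1 * tau s.2.2.2) * (gam (tgtC s.2.1))⁻¹ := by rw [h]
    _ = _ := by group

/-- The sum of the values of the letters of a word. -/
noncomputable def gsum (l : List ℕ) (w : Perm (Fin 7)) : Q (hardSquares 7 4 3) :=
  (l.map fun x => if x % 2 = 0 then val (x / 2) w else - val (x / 2) w).sum

theorem wval_triv (l : List ℕ) (h : ∀ y ∈ l, (y / 2) / 8 % 8 = (y / 2) % 8) :
    wval tau l = act (gsum l) 1 := by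
  induction l with
  | nil => rw [wval_nil, ← act_one]; rfl
  | cons x l ih =>
    have hx : cycC (x / 2) = 1 := by
      unfold cycC
      rw [h x (List.mem_cons_self ..), cyc_self]
    rw [wval_cons, ih fun y hy => h y (List.mem_cons_of_mem _ hy)]
    unfold lval
    split_ifs with h1
    · unfold tau
      rw [act_mul, hx]
      congr 1
      funext w
      simp [gsum, h1]
    · unfold tau
      rw [act_inv, act_mul, hx]
      congr 1
      funext w
      simp [gsum, h1]

theorem lkw_mem (l m : ℕ) (t : List (ℕ × ℕ × List ℕ)) :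
    lkw l m t = [] ∨ ∃ x ∈ t, lkw l m t = x.2.2 := by
  induction t with
  | nil => exact Or.inl rfl
  | cons x t ih =>
    unfold lkw
    cases Nat.beq x.1 l && Nat.beq x.2.1 m with
    | true => exact Or.inr ⟨x, List.mem_cons_self .., rfl⟩
    | false =>
      rcases ih with h | ⟨y, hy, h⟩
      · exact Or.inl h
      · exact Or.inr ⟨y, List.mem_cons_of_mem _ hy, h⟩

theorem gam_eq (s : ℕ × ℕ) : gam s = act (gsum (gw s)) 1 := by
  unfold gam
  refine wval_triv _ ?_
  rcases lkw_mem s.1 s.2 gaugeL with h | ⟨x, hx, h⟩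
  · unfold gw; rw [h]; simp
  · unfold gw; rw [h]; exact gauge_triv x hx

/-- The value of a gauge-fixed element. -/
noncomputable def ft (c : ℕ) (w : Perm (Fin 7)) : Q (hardSquares 7 4 3) :=
  gsum (gw (srcC c)) w + val c w - gsum (gw (tgtC c)) (w * cycC c)

theorem tt_eq (c : ℕ) : tt c = act (ft c) (cycC c) := by
  unfold tt
  rw [gam_eq, gam_eq, act_inv]
  unfold tau
  rw [act_mul, act_mul]
  congr 1
  funext w
  simp [ft, sub_eq_add_neg]

theorem cycC_rep (s : Fin 6) : cycC (repL.getD s 0) = sw s := by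
  obtain ⟨h1, h2⟩ := rep_codes s
  unfold cycC
  rw [h1, h2, ← cyc_succ]
  have e1 : (Fin.ofNat 7 (s : ℕ)) = s.castSucc := by
    apply Fin.ext
    rw [Fin.val_ofNat, Nat.mod_eq_of_lt (by omega), Fin.val_castSucc]
  have e2 : (Fin.ofNat 7 ((s : ℕ) + 1)) = s.succ := by
    apply Fin.ext
    rw [Fin.val_ofNat, Nat.mod_eq_of_lt (by omega), Fin.val_succ]
  rw [e1, e2]

/-- The half twists of the rectangle. -/
noncomputable def FX (w : Perm (Fin 7)) (s : Fin 6) : Q (hardSquares 7 4 3) :=
  if (s : ℕ) < 3 then ft (repL.getD s 0) w else - ft (repL.getD s 0) (w * sw s)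

theorem bg_eq_act (s : Fin 6) : bg tt s = act (fun w => FX w s) (sw s) := by
  rw [bg_eq]
  unfold FX
  split_ifs with h
  · rw [tt_eq, cycC_rep]
  · rw [tt_eq, act_inv, cycC_rep]
    have : (sw s)⁻¹ = sw s := by simp [sw]
    rw [this]

theorem FX_braid : BraidFun 6 FX := by
  constructor
  · intro w i j hij
    have h := cert_comm tt tt_tree tt_sq i j hij j.2
    rw [bg_eq_act i, bg_eq_act j, act_mul, act_mul] at h
    exact congrFun (act_inj h).1 w
  · intro w i j hij
    have h := cert_braid tt tt_tree tt_sq i (by omega)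
    rw [hij, bg_eq_act i, bg_eq_act j, act_mul, act_mul, act_mul, act_mul] at h
    have := congrFun (act_inj h).1 w
    simpa [mul_assoc] using this

theorem tt_mem {c : ℕ} (hc : c ∈ codes) :
    tt c ∈ Subgroup.closure (Set.range fun s : Fin 6 => bg tt s) :=
  cert_gen tt tt_tree tt_sq c hc

/-- A potential on the braid generators is a potential on all types of moves. -/
theorem ft_potential {A : Type*} [AddCommGroup A] (φ : Q (hardSquares 7 4 3) →+ A)
    (h : Perm (Fin 7) → A) (hφ : ∀ w s, φ (FX w s) = h (w * sw s) - h w) {c : ℕ}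
    (hc : c ∈ codes) (w : Perm (Fin 7)) : φ (ft c w) = h (w * cycC c) - h w := by
  have key : ∀ e ∈ Subgroup.closure (Set.range fun s : Fin 6 => bg tt s),
      ∃ (f : Perm (Fin 7) → Q (hardSquares 7 4 3)) (π : Perm (Fin 7)), e = act f π ∧
        ∀ w, φ (f w) = h (w * π) - h w := by
    intro e he
    induction he using Subgroup.closure_induction with
    | mem x hx =>
      obtain ⟨s, rfl⟩ := hx
      exact ⟨fun w => FX w s, sw s, bg_eq_act s, fun w => hφ w s⟩
    | one => exact ⟨0, 1, act_one.symm, fun w => by simp⟩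
    | mul x y _ _ hx hy =>
      obtain ⟨f, π, rfl, hf⟩ := hx
      obtain ⟨g, ρ, rfl, hg⟩ := hy
      refine ⟨_, _, act_mul f g π ρ, fun w => ?_⟩
      rw [map_add, hf, hg, ← mul_assoc]
      abel
    | inv x _ hx =>
      obtain ⟨f, π, rfl, hf⟩ := hx
      refine ⟨_, _, act_inv f π, fun w => ?_⟩
      rw [map_neg, hf, inv_mul_cancel_right]
      abel
  obtain ⟨f, π, hf, hp⟩ := key _ (tt_mem hc)
  rw [tt_eq] at hf
  obtain ⟨h1, h2⟩ := act_inj hf
  rw [h1, h2]
  exact hp w

end HSq
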