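import Pool.Agent.HSq.XGroup
import Pool.Agent.HSq.PBPot
import Pool.Agent.HSq.GridRed

/-!
# Seven squares in the 4 × 3 rectangle: generation of the first homology
-/

namespace HSq

open Equiv

variable {u v : Fin 7 → ℕ} {p : Fin 7} {w : Perm (Fin 7)}

theorem srcC_cd (hu : Cf u) (hp : Up u p) : srcC (cd u p) = st u := by
  obtain ⟨h1, h2, -, -⟩ := cd_parts hu hp
  unfold srcC st
  rw [h1, h2]

theorem tgtC_cd (hu : Cf u) (hp : Up u p) : tgtC (cd u p) = st (mv u p) := by
  obtain ⟨h1, h2, h3, -⟩ := cd_parts hu hp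
  have := state_mv hu hp
  unfold tgtC st
  rw [h1, h2, h3, this]
  rfl

/-- The labelled potential of a state. -/
noncomputable def HP {A : Type*} [AddCommGroup A] (φ : Q (hardSquares 7 4 3) →+ A)
    (h : Perm (Fin 7) → A) (s : ℕ × ℕ) (w : Perm (Fin 7)) : A := h w + φ (gsum (gw s) w)

theorem val_potential {A : Type*} [AddCommGroup A] (φ : Q (hardSquares 7 4 3) →+ A)
    (h : Perm (Fin 7) → A) (hφ : ∀ w s, φ (FX w s) = h (w * sw s) - h w)
    (hu : Cf u) (hp : Up u p) (w : Perm (Fin 7)) :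
    φ (ev u p w) = HP φ h (st (mv u p)) (w * cyc p (tq u p)) - HP φ h (st u) w := by
  have h1 := ft_potential φ h hφ (cd_mem hu hp) w
  unfold ft at h1
  rw [map_sub, map_add, val_cd hu hp, srcC_cd hu hp, tgtC_cd hu hp, cycC_cd hu hp] at h1
  unfold HP
  have h2 : φ (ev u p w) = (h (w * cyc p (tq u p)) - h w) - φ (gsum (gw (st u)) w) +
      φ (gsum (gw (st (mv u p))) (w * cyc p (tq u p))) := by
    rw [← h1]; abel
  rw [h2]; abel

open Classical in
/-- The potential on integer configurations. -/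
noncomputable def gpot {A : Type*} [AddCommGroup A] (φ : Q (hardSquares 7 4 3) →+ A)
    (h : Perm (Fin 7) → A) (c : Fin 7 → ℤ × ℤ) : A :=
  if H : ∃ x : (Fin 7 → ℕ) × Perm (Fin 7), Cf x.1 ∧ c = lab x.1 x.2 then
    HP φ h (st H.choose.1) H.choose.2 + φ (G0 H.choose.1 H.choose.2)
  else 0

theorem gpot_lab {A : Type*} [AddCommGroup A] (φ : Q (hardSquares 7 4 3) →+ A)
    (h : Perm (Fin 7) → A) (hu : Cf u) (w : Perm (Fin 7)) :
    gpot φ h (lab u w) = HP φ h (st u) w + φ (G0 u w) := by
  have H : ∃ x : (Fin 7 → ℕ) × Perm (Fin 7), Cf x.1 ∧ lab u w = lab x.1 x.2 :=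
    ⟨(u, w), hu, rfl⟩
  unfold gpot
  rw [dif_pos H]
  obtain ⟨h1, h2⟩ := H.choose_spec
  obtain ⟨h3, h4⟩ := lab_inj hu h1 h2
  rw [← h3, ← h4]

/-- Moving one entry by one step inside its row. -/
theorem step_cf (hu : Cf u) {r : Fin 7} {k : ℕ} (hk : k = u r + 1 ∨ k + 1 = u r)
    (hlt : k < 12) (hfree : ∀ s, u s ≠ k) (h4 : k < 4 ↔ u r < 4) (h8 : k < 8 ↔ u r < 8) :
    Cf (Function.update u r k) ∧ st (Function.update u r k) = st u := by
  refine ⟨⟨fun s t hst => ?_, fun s => ?_⟩, ?_⟩
  · have h1 := hu.mono hst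
    by_cases hs : s = r
    · subst hs
      have ht : t ≠ s := hst.ne'
      rw [Function.update_self, Function.update_of_ne ht]
      have := hfree t
      omega
    · rw [Function.update_of_ne hs]
      by_cases ht : t = r
      · subst ht
        rw [Function.update_self]
        have := hfree s
        omega
      · rw [Function.update_of_ne ht]; exact h1
  · by_cases hs : s = r
    · subst hs; rw [Function.update_self]; exact hlt
    · rw [Function.update_of_ne hs]; exact hu.lt s
  · unfold st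
    refine Prod.ext (cnt_congr fun s => ?_) (cnt_congr fun s => ?_)
    · by_cases hs : s = r
      · subst hs; rw [Function.update_self]; exact h4
      · rw [Function.update_of_ne hs]
    · by_cases hs : s = r
      · subst hs; rw [Function.update_self]; exact h8
      · rw [Function.update_of_ne hs]

theorem lab_update (u : Fin 7 → ℕ) (w : Perm (Fin 7)) (c' : Fin 7 → ℤ × ℤ) (l : Fin 7) (k : ℕ)
    (h1 : ∀ m, m ≠ l → c' m = lab u w m) (h2 : c' l = ((cX k : ℤ), (cY k : ℤ))) :
    c' = lab (Function.update u (w⁻¹ l) k) w := by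
  funext m
  unfold lab
  by_cases hm : m = l
  · subst hm; rw [Function.update_self]; exact h2
  · have : w⁻¹ m ≠ w⁻¹ l := fun h => hm (w⁻¹.injective h)
    rw [Function.update_of_ne this]; exact h1 m hm

/-- Cells to the right of a cell. -/
theorem right_cell : ∀ a < 12, cX a < 4 → ∃ k < 12, (k = a + 1 ∨ k + 1 = a) ∧
    cX k = cX a + 1 ∧ cY k = cY a ∧ (k < 4 ↔ a < 4) ∧ (k < 8 ↔ a < 8) := by
  decide +kernel

theorem up_cell {a : ℕ} (ha : a < 12) (h : cY a < 3) :
    a < 8 ∧ cX (upc a) = cX a ∧ cY (upc a) = cY a + 1 := by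
  simp only [cX, cY, upc] at h ⊢
  split_ifs at * <;> omega

/-- The values of `φ` on unit moves. -/
theorem unit_move {A : Type*} [AddCommGroup A] (φ : Q (hardSquares 7 4 3) →+ A)
    (h : Perm (Fin 7) → A) (hφ : ∀ w s, φ (FX w s) = h (w * sw s) - h w)
    (c : Fin 7 → ℤ × ℤ) (hc : c ∈ IC 7 4 3) (c' : Fin 7 → ℤ × ℤ) (hc' : c' ∈ IC 7 4 3)
    (hm : UnitMove c c') :
    φ (sg (hardSquares 7 4 3) (emb c) (emb c')) = gpot φ h c' - gpot φ h c := by
  obtain ⟨u, w, hu, rfl⟩ := exists_lab hc
  obtain ⟨l, h1, h2⟩ := hm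
  have hlt := hu.lt (w⁻¹ l)
  rcases h2 with h2 | h2
  · -- horizontal move
    have hx : cX (u (w⁻¹ l)) < 4 := by
      have := (hc'.1 l).1
      rw [h2] at this
      simp only [lab, Set.mem_Icc, Nat.cast_ofNat] at this
      omega
    obtain ⟨k, k1, k2, k3, k4, k5, k6⟩ := right_cell _ hlt hx
    have h3 : c' l = ((cX k : ℤ), (cY k : ℤ)) := by
      rw [h2, k3, k4]; simp [lab]
    have hfree : ∀ s, u s ≠ k := by
      intro s hs
      have hne : w s ≠ l := by
        intro he
        have : w⁻¹ l = s := by rw [← he]; exact w.symm_apply_apply s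
        rw [this, hs] at k2
        omega
      apply hc'.2 (w s) l hne
      rw [h1 _ hne, h3]
      have : w⁻¹ (w s) = s := w.symm_apply_apply s
      simp [lab, this, hs]
    have h4 := lab_update u w c' l k h1 h3
    obtain ⟨e1, e2⟩ := step_cf hu k2 k1 hfree k5 k6
    rw [h4, gpot_lab φ h e1, gpot_lab φ h hu, e2]
    have := congrArg φ (G0_add hu e1 e2.symm w)
    rw [map_add] at this
    have h5 : φ (SS (lab u w) (lab (Function.update u (w⁻¹ l) k) w)) =
      φ (G0 (Function.update u (w⁻¹ l) k) w) - φ (G0 u w) := by rw [← this]; abel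
    show φ (SS _ _) = _
    rw [h5]; abel
  · -- vertical move
    have hy : cY (u (w⁻¹ l)) < 3 := by
      have := (hc'.1 l).2
      rw [h2] at this
      simp only [lab, Set.mem_Icc, Nat.cast_ofNat] at this
      omega
    obtain ⟨k1, k2, k3⟩ := up_cell hlt hy
    have h3 : c' l = ((cX (upc (u (w⁻¹ l))) : ℤ), (cY (upc (u (w⁻¹ l))) : ℤ)) := by
      rw [h2, k2, k3]; simp [lab]
    have hfree : ∀ s, u s ≠ upc (u (w⁻¹ l)) := by
      intro s hs
      have hne : w s ≠ l := by
        intro he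
        have : w⁻¹ l = s := by rw [← he]; exact w.symm_apply_apply s
        rw [← this] at hs
        have := (lt_upc k1).1
        omega
      apply hc'.2 (w s) l hne
      rw [h1 _ hne, h3]
      have : w⁻¹ (w s) = s := w.symm_apply_apply s
      simp [lab, this, hs]
    have hup : Up u (w⁻¹ l) := ⟨k1, hfree⟩
    have h4 : c' = lab (upd u (w⁻¹ l)) w := by
      rw [lab_update u w c' l _ h1 h3]
      congr 1
      funext r
      unfold upd
      by_cases hr : r = w⁻¹ l
      · rw [hr, Function.update_self, if_pos rfl]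
      · rw [Function.update_of_ne hr, if_neg hr]
    rw [h4, ← lab_mv, gpot_lab φ h (mv_cf hu hup), gpot_lab φ h hu, lab_mv]
    have h5 := val_potential φ h hφ hu hup w
    unfold ev at h5
    rw [map_sub, map_add] at h5
    have h6 : φ (SS (lab u w) (lab (upd u (w⁻¹ l)) w)) =
      (HP φ h (st (mv u (w⁻¹ l))) (w * cyc (w⁻¹ l) (tq u (w⁻¹ l))) - HP φ h (st u) w) -
        φ (G0 u w) + φ (G0 (mv u (w⁻¹ l)) (w * cyc (w⁻¹ l) (tq u (w⁻¹ l)))) := by
      rw [← h5]; abel
    show φ (SS _ _) = _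
    rw [h6]; abel

/-- The first homology of the hard squares space is generated by the loops `rot FX w i`. -/
theorem X_generated (ξ : Q (hardSquares 7 4 3)) (hξ : bd ξ = 0) :
    ξ ∈ AddSubgroup.closure {ζ | ∃ (w : Perm (Fin 7)) (i : Fin 6), ζ = rot FX w i} := by
  set R := AddSubgroup.closure {ζ | ∃ (w : Perm (Fin 7)) (i : Fin 6), ζ = rot FX w i} with hR
  let φ : Q (hardSquares 7 4 3) →+ (Q (hardSquares 7 4 3) ⧸ R) := QuotientAddGroup.mk' R
  have hF : BraidFun 6 fun w i => φ (FX w i) := by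
    constructor
    · intro w i j hij
      have := congrArg φ (FX_braid.comm w i j hij)
      simpa using this
    · intro w i j hij
      have := congrArg φ (FX_braid.braid w i j hij)
      simpa using this
  have h0 : ∀ w i, rot (fun w i => φ (FX w i)) w i = 0 := by
    intro w i
    have h1 : rot FX w i ∈ R := AddSubgroup.subset_closure ⟨w, i, rfl⟩
    have h2 : φ (rot FX w i) = 0 := (QuotientAddGroup.eq_zero_iff _).2 h1
    unfold rot at h2 ⊢
    rw [map_add] at h2
    exact h2
  obtain ⟨h, hh⟩ := exists_potential hF h0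
  have h3 := grid_reduction φ (gpot φ h) (fun c hc c' hc' hm =>
    unit_move φ h hh c hc c' hc' hm) ξ hξ
  exact (QuotientAddGroup.eq_zero_iff _).1 h3

end HSq
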