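import Pool.Agent.HSq.XBd
import Pool.Agent.HSq.Wind

/-!
# Seven squares in the 4 × 3 rectangle: winding numbers
-/

namespace HSq

open Equiv

/-- Crossing number of the straight move of two cells from `a, b` to `a', b'`. -/
def crC (a b a' b' : ℕ) : ℤ :=
  if cX b < cX a ∧ cX b' < cX a' then
    (if cY a ≤ cY b then 1 else 0) - (if cY a' ≤ cY b' then 1 else 0)
  else 0

variable {u v : Fin 7 → ℕ} {p : Fin 7} {w : Perm (Fin 7)} {a b : Fin 7} (hab : a ≠ b)

/-- The winding number of a class in the rectangle. -/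
noncomputable def windX : Q (hardSquares 7 4 3) →+ ℂ := (wnd hab).comp (Q.map (incl 7 4 3))

theorem windX_SS {D : Fin 7 → Fin 7 → Dir} (hu : Sp D u) (hv : Sp D v) (w : Perm (Fin 7)) :
    windX hab (SS (lab u w) (lab v w)) =
      ((crC (u (w⁻¹ a)) (u (w⁻¹ b)) (v (w⁻¹ a)) (v (w⁻¹ b)) : ℤ) : ℂ) := by
  have hseg := seg_sub hu hv w
  have hseg' := hseg.trans (hardSquares_subset_conf 7 4 3)
  have e : windX hab (SS (lab u w) (lab v w)) =
      wnd hab (sg (conf 7) (emb (lab u w)) (emb (lab v w))) := by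
    unfold windX SS incl
    rw [AddMonoidHom.comp_apply, map_sg (hardSquares_subset_conf 7 4 3) hseg]
  rw [e]
  have hne : w⁻¹ a ≠ w⁻¹ b := fun h => hab (w⁻¹.injective h)
  have h1 := hu.rel _ _ hne
  have h2 := hv.rel _ _ hne
  revert h1 h2
  generalize D (w⁻¹ a) (w⁻¹ b) = d
  cases d <;> simp only [relC] <;> intro h1 h2
  · rw [wnd_right hab hseg']
    · have hc : ¬ (cX (u (w⁻¹ b)) < cX (u (w⁻¹ a)) ∧ cX (v (w⁻¹ b)) < cX (v (w⁻¹ a))) := by
        omega
      unfold crC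
      rw [if_neg hc]; simp
    · simp only [emb, lab]; norm_cast
    · simp only [emb, lab]; norm_cast
  · rw [wnd_left hab hseg']
    · have hc : cX (u (w⁻¹ b)) < cX (u (w⁻¹ a)) ∧ cX (v (w⁻¹ b)) < cX (v (w⁻¹ a)) := by
        omega
      unfold crC
      rw [if_pos hc]
      simp only [emb, lab]
      push_cast
      simp only [Nat.cast_le]
    · simp only [emb, lab]; norm_cast
    · simp only [emb, lab]; norm_cast
  · rw [wnd_up hab hseg']
    · unfold crC
      split_ifs <;> first | (exfalso; omega) | simp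
    · simp only [emb, lab]; norm_cast
    · simp only [emb, lab]; norm_cast
  · rw [wnd_down hab hseg']
    · unfold crC
      split_ifs <;> first | (exfalso; omega) | simp
    · simp only [emb, lab]; norm_cast
    · simp only [emb, lab]; norm_cast

theorem cY_eq (hu : Cf u) (r : Fin 7) :
    cY (u r) = if (r : ℕ) < cnt 4 u then 1 else if (r : ℕ) < cnt 8 u then 2 else 3 := by
  have h4 := cnt_spec hu.mono 4 r
  have h8 := cnt_spec hu.mono 8 r
  unfold cY
  split_ifs <;> first | rfl | omega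

theorem windX_G0 (hu : Cf u) (w : Perm (Fin 7)) : windX hab (G0 u w) = 0 := by
  obtain ⟨h1, h2⟩ := canS_spec hu
  unfold G0
  rw [windX_SS hab (sp_can hu) (sp_st hu) w]
  have e : ∀ r, cY (canS (st u) r) = cY (u r) := by
    intro r
    rw [cY_eq h1, cY_eq hu]
    have h3 : cnt 4 (canS (st u)) = cnt 4 u := congrArg Prod.fst h2
    have h4 : cnt 8 (canS (st u)) = cnt 8 u := congrArg Prod.snd h2
    rw [h3, h4]
  unfold crC
  rw [e, e]
  split_ifs <;> simp

/-- Crossing number of a vertical move. -/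
def crU (u : Fin 7 → ℕ) (p r s : Fin 7) : ℤ := crC (u r) (u s) (upd u p r) (upd u p s)

theorem windX_ev (hu : Cf u) (hp : Up u p) (w : Perm (Fin 7)) :
    windX hab (ev u p w) = ((crU u p (w⁻¹ a) (w⁻¹ b) : ℤ) : ℂ) := by
  unfold ev
  rw [map_sub, map_add, windX_G0 hab hu, windX_G0 hab (mv_cf hu hp),
    windX_SS hab (sp_DT hu hp) (sp_DT_upd hu hp)]
  simp [crU]

/-- Crossing number of a type, by table. -/
def crT (c : ℕ) (r s : Fin 7) : List (ℕ × List ℕ × ℕ) → ℤ
  | [] => 0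
  | x :: l => if x.1 = c then crU (ofL x.2.1) (Fin.ofNat 7 x.2.2) r s else crT c r s l

theorem crT_eq {c : ℕ} (r s : Fin 7) : ∀ l : List (ℕ × List ℕ × ℕ), (∃ x ∈ l, x.1 = c) →
    ∃ x ∈ l, x.1 = c ∧ crT c r s l = crU (ofL x.2.1) (Fin.ofNat 7 x.2.2) r s := by
  intro l
  induction l with
  | nil => rintro ⟨x, hx, -⟩; simp at hx
  | cons y l ih =>
    rintro ⟨x, hx, hc⟩
    unfold crT
    by_cases hy : y.1 = c
    · rw [if_pos hy]
      exact ⟨y, List.mem_cons_self .., hy, rfl⟩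
    · rw [if_neg hy]
      rcases List.mem_cons.1 hx with rfl | hx
      · exact (hy hc).elim
      · obtain ⟨z, hz, hz2, hz3⟩ := ih ⟨x, hx, hc⟩
        exact ⟨z, List.mem_cons_of_mem _ hz, hz2, hz3⟩

theorem windX_val {c : ℕ} (hc : ∃ x ∈ repW, x.1 = c) (w : Perm (Fin 7)) :
    windX hab (val c w) = ((crT c (w⁻¹ a) (w⁻¹ b) repW : ℤ) : ℂ) := by
  obtain ⟨x, hx, hx2, hx3⟩ := crT_eq (w⁻¹ a) (w⁻¹ b) repW hc
  obtain ⟨h1, h2, h3⟩ := real_repW hx
  rw [hx3, ← hx2, ← h3, val_cd h1 h2, windX_ev hab h1 h2]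

/-- Crossing number of a word. -/
def crW (r s : Fin 7) : List ℕ → ℤ
  | [] => 0
  | x :: l => (if x % 2 = 0 then crT (x / 2) r s repW else - crT (x / 2) r s repW) + crW r s l

theorem windX_gsum {s t : ℕ × ℕ} {l : List ℕ} (h : chainB s l t = true) (w : Perm (Fin 7)) :
    windX hab (gsum l w) = ((crW (w⁻¹ a) (w⁻¹ b) l : ℤ) : ℂ) := by
  induction l generalizing s with
  | nil => simp [gsum, crW]
  | cons x l ih =>
    have e : gsum (x :: l) w = (if x % 2 = 0 then val (x / 2) w else - val (x / 2) w) +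
        gsum l w := by simp [gsum]
    rw [e, map_add]
    simp only [chainB, Bool.and_eq_true, decide_eq_true_eq] at h
    obtain ⟨h1, h2⟩ := h
    have h3 := windX_val hab (tree_repW _ h1) w
    unfold crW
    split_ifs at h2 ⊢ with h4
    · simp only [Bool.and_eq_true, decide_eq_true_eq] at h2
      rw [h3, ih h2.2]; push_cast; rfl
    · simp only [Bool.and_eq_true, decide_eq_true_eq] at h2
      rw [map_neg, h3, ih h2.2]; push_cast; rfl

/-- Crossing number of the first half twist. -/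
def crF (r s : Fin 7) : ℤ :=
  crW r s (gw (srcC (repL.getD 0 0))) + crT (repL.getD 0 0) r s repW -
    crW (swap 0 1 r) (swap 0 1 s) (gw (tgtC (repL.getD 0 0)))

theorem sw_zero : (sw (0 : Fin 6)) = swap 0 1 := rfl

theorem windX_FX (w : Perm (Fin 7)) :
    windX hab (FX w 0) = ((crF (w⁻¹ a) (w⁻¹ b) : ℤ) : ℂ) := by
  have h0 : ((0 : Fin 6) : ℕ) < 3 := by norm_num
  unfold FX
  rw [if_pos h0]
  obtain ⟨h1, h2⟩ := chain_rep 0
  unfold ft
  rw [map_sub, map_add, windX_gsum hab h1, windX_gsum hab h2, windX_val hab (rep_repW 0), cycC_rep]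
  have e : ∀ k : Fin 7, (w * sw (0 : Fin 6))⁻¹ k = swap 0 1 (w⁻¹ k) := by
    intro k
    rw [mul_inv_rev, Perm.mul_apply, sw_zero, swap_inv]
  rw [e, e]
  unfold crF
  push_cast
  rfl

theorem crF_check : ∀ r s : Fin 7, r ≠ s → crF r s + crF (swap 0 1 r) (swap 0 1 s) =
    if (r = 0 ∧ s = 1) ∨ (s = 0 ∧ r = 1) then -1 else 0 := by
  decide +kernel

theorem windX_rot (w : Perm (Fin 7)) : windX hab (rot FX w 0) =
    if (a = w 0 ∧ b = w 1) ∨ (b = w 0 ∧ a = w 1) then ((-1 : ℤ) : ℂ) else 0 := by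
  have hne : w⁻¹ a ≠ w⁻¹ b := fun h => hab (w⁻¹.injective h)
  have h := crF_check _ _ hne
  have e : ∀ k : Fin 7, (w * sw (0 : Fin 6))⁻¹ k = swap 0 1 (w⁻¹ k) := by
    intro k
    rw [mul_inv_rev, Perm.mul_apply, sw_zero, swap_inv]
  unfold rot
  rw [map_add, windX_FX, windX_FX, e, e, ← Int.cast_add, h]
  have e1 : ∀ (k : Fin 7) (i : Fin 7), w⁻¹ k = i ↔ k = w i := fun k i =>
    Equiv.symm_apply_eq w
  simp only [e1]
  split_ifs <;> simp

end HSq
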